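import Pool.Agent.H24.GH.NSec

/-!
# JOB GI-1: small edge cuts of a label structure

Project GI (helper24): hardness for label structures without live types. `bd L S`: the darts which leave the set `S`.
`Cut L j x Y`: every set which contains `x` and no element of `Y` is left by at least `j` darts. `Aut L g`: `g` is an
automorphism.

`bd_compl`: `rv` maps `bd L S` bijectively onto `bd L Sᶜ`. `cut_symm`: `bd_compl`. `cut_M`: the `M t x y` darts of type `t` from
`x` to `y` leave `S`. `aut_dt`: `dt_iff`. `aut_supp`: `g` maps the ends of `x` bijectively onto the ends of `g x` (surjective: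
`g` is surjective, `M t (g x) (g y) = M t x y`).
`aut_bd`: `(bd L S).ncard` is the sum of `M t x y` over the `t`, `x ∈ S`, `y ∉ S`; substitute `g`. `aut_cut`: let `g x ∈ S'`, no
`g y` in `S'`; put `S = g ⁻¹' S'`, `S' = g '' S`.
-/

namespace Pool.Agent.H24.GI

open Pool.Agent.H24.GG Pool.Agent.H24.GH

variable {V D T K : Type} {L : LS V D T K}

/-- the darts which leave the set `S` -/
def bd (L : LS V D T K) (S : Set V) : Set D := {d | L.tl d ∈ S ∧ L.hd d ∉ S}

/-- every set which contains `x` and no element of `Y` is left by at least `j` darts -/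
def Cut (L : LS V D T K) (j : ℕ) (x : V) (Y : Set V) : Prop :=
  ∀ S : Set V, x ∈ S → (∀ y ∈ Y, y ∉ S) → j ≤ (bd L S).ncard

theorem bd_compl (S : Set V) : (bd L Sᶜ).ncard = (bd L S).ncard := by
  have hinj : Function.Injective L.rv := by
    intro a b hab
    rw [← L.rv_rv a, ← L.rv_rv b, hab]
  have h1 : bd L S = L.rv '' bd L Sᶜ := by
    ext d
    constructor
    · rintro ⟨h1, h2⟩
      refine ⟨L.rv d, ⟨?_, ?_⟩, L.rv_rv d⟩
      · exact h2
      · intro h3
        apply h3
        change L.tl (L.rv (L.rv d)) ∈ S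
        rw [L.rv_rv]
        exact h1
    · rintro ⟨e, ⟨h1, h2⟩, rfl⟩
      refine ⟨?_, ?_⟩
      · exact not_not.mp h2
      · intro h3
        apply h1
        change L.tl (L.rv (L.rv e)) ∈ S at h3
        rw [L.rv_rv] at h3
        exact h3
  rw [h1, Set.ncard_image_of_injective _ hinj]

theorem cut_symm {j : ℕ} {x y : V} (h : Cut L j x {y}) : Cut L j y {x} := by
  intro S hy hx
  have h1 : x ∉ S := hx x rfl
  rw [← bd_compl S]
  refine h Sᶜ h1 ?_
  rintro z rfl hz
  exact hz hy

theorem cut_mono {j j' : ℕ} {x : V} {Y Y' : Set V} (h : Cut L j x Y) (hj : j' ≤ j)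
    (hY : Y ⊆ Y') : Cut L j' x Y' := by
  intro S hx hS
  exact hj.trans (h S hx fun y hy => hS y (hY hy))

theorem cut_M [Finite D] (t : T) (x y : V) : Cut L (L.M t x y) x {y} := by
  intro S hx hS
  have h1 : y ∉ S := hS y rfl
  unfold LS.M
  refine Set.ncard_le_ncard ?_ (Set.toFinite _)
  rintro d ⟨h2, -, h3⟩
  refine ⟨?_, ?_⟩
  · rw [h2]
    exact hx
  · rw [h3]
    exact h1

/-- an automorphism -/
structure Aut (L : LS V D T K) (g : V → V) : Prop where
  bij : Function.Bijective g
  cl : ∀ x, L.cl (g x) = L.cl x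
  M : ∀ t x y, L.M t (g x) (g y) = L.M t x y

variable {g : V → V}

theorem aut_dt [Finite D] (h : Aut L g) {t : T} {x y : V} :
    Dt L t (g x) (g y) ↔ Dt L t x y := by
  rw [dt_iff, dt_iff, h.M]

theorem aut_supp [Finite D] (h : Aut L g) (τ : T) (x : V) : supp L τ (g x) = supp L τ x := by
  unfold supp
  have h1 : {y | Dt L τ (g x) y} = g '' {y | Dt L τ x y} := by
    ext y
    constructor
    · intro hy
      obtain ⟨z, rfl⟩ := h.bij.2 y
      exact ⟨z, (aut_dt h).mp hy, rfl⟩
    · rintro ⟨z, hz, rfl⟩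
      exact (aut_dt h).mpr hz
  rw [h1, Set.ncard_image_of_injective _ h.bij.1]

open Classical in
private theorem gi1_sum [Fintype V] [Fintype D] [Fintype T] (S : Set V) :
    (bd L S).ncard = ∑ p : T × V × V, if p.2.1 ∈ S ∧ p.2.2 ∉ S then L.M p.1 p.2.1 p.2.2 else 0 := by
  let φ : D → T × V × V := fun d => (L.ty d, L.tl d, L.hd d)
  have h1 : (bd L S).ncard = (Finset.univ.filter fun d => L.tl d ∈ S ∧ L.hd d ∉ S).card := by
    rw [← Set.ncard_coe_finset]
    congr 1
    ext d
    simp [bd]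
  rw [h1, Finset.card_eq_sum_card_fiberwise (f := φ) (t := Finset.univ)
    (fun d _ => Finset.mem_coe.mpr (Finset.mem_univ _))]
  refine Finset.sum_congr rfl fun p _ => ?_
  by_cases hp : p.2.1 ∈ S ∧ p.2.2 ∉ S
  · rw [if_pos hp]
    unfold LS.M
    rw [← Set.ncard_coe_finset]
    congr 1
    ext d
    simp only [Finset.coe_filter, Finset.mem_filter, Finset.mem_univ, true_and, Set.mem_setOf_eq]
    constructor
    · rintro ⟨-, h3⟩
      have h4 : (L.ty d, L.tl d, L.hd d) = p := h3
      rw [← h4]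
      exact ⟨rfl, rfl, rfl⟩
    · rintro ⟨h3, h4, h5⟩
      refine ⟨?_, ?_⟩
      · rw [h3, h5]
        exact hp
      · change (L.ty d, L.tl d, L.hd d) = p
        rw [h3, h4, h5]
  · rw [if_neg hp, Finset.card_eq_zero, Finset.filter_eq_empty_iff]
    intro d hd h3
    apply hp
    have h4 : (L.ty d, L.tl d, L.hd d) = p := h3
    rw [← h4]
    exact (Finset.mem_filter.mp hd).2

theorem aut_bd [Finite V] [Finite D] [Finite T] (h : Aut L g) (S : Set V) :
    (bd L (g '' S)).ncard = (bd L S).ncard := by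
  classical
  haveI := Fintype.ofFinite V
  haveI := Fintype.ofFinite D
  haveI := Fintype.ofFinite T
  let G : V ≃ V := Equiv.ofBijective g h.bij
  let E : T × V × V ≃ T × V × V := (Equiv.refl T).prodCongr (G.prodCongr G)
  rw [gi1_sum, gi1_sum, ← Equiv.sum_comp E]
  refine Finset.sum_congr rfl fun p _ => ?_
  have h1 : (E p).2.1 = g p.2.1 := rfl
  have h2 : (E p).2.2 = g p.2.2 := rfl
  have h3 : (E p).1 = p.1 := rfl
  have h4 : ∀ z, g z ∈ g '' S ↔ z ∈ S := fun z => h.bij.1.mem_set_image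
  by_cases hp : p.2.1 ∈ S ∧ p.2.2 ∉ S
  · rw [if_pos hp, if_pos, h1, h2, h3, h.M]
    rw [h1, h2, h4, h4]
    exact hp
  · rw [if_neg hp, if_neg]
    rw [h1, h2, h4, h4]
    exact hp

theorem aut_cut [Finite V] [Finite D] [Finite T] (h : Aut L g) {j : ℕ} {x : V} {Y : Set V}
    (hc : Cut L j x Y) : Cut L j (g x) (g '' Y) := by
  intro S' hx hS
  have h1 : j ≤ (bd L (g ⁻¹' S')).ncard := by
    refine hc _ hx fun y hy hy2 => ?_
    exact hS (g y) ⟨y, hy, rfl⟩ hy2
  rw [← aut_bd h (g ⁻¹' S'), Set.image_preimage_eq S' h.bij.2] at h1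
  exact h1

end Pool.Agent.H24.GI
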