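import Pool.Agent.H24.GI.SStar

/-!
# JOB GI-11: hardness at a star which observes only a property of the ends

`hp_sts`. Let `yT = y₀ i₁ = y₀ i₂`, `yF = y₀ i₃`; `yT ≠ yF`. All variables have the sort `zS`. `J₀ = V` (constants), `J = Fin 3`,
`Ω = V`, `c₀ y = y`.
(C) The relation `Cst` on the constants: for all `y` with `A y`, `0 < Nv y`: `ofs_ring` for the constant `y` (`OF.all`, `OF.comap`; for the
other `y` the relation `True`: the empty system, e.g. `OF.all` over `Empty`); `ofs_star` for `i ↦` the constant `y₀ i`.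
Soundness: `c (y₀ i) = yT` for the `r` indices `i` with `A (y₀ i)` (`hr`; `0 < Nv (y₀ i)`), and exactly `r` indices have
`c (y₀ i) = yT`; so `c (y₀ i) = yT ↔ A (y₀ i)`.
(N) The relation `N u v w`: `ofs_star` for `u, v, w` at the indices `i₁, i₂, i₃` and the constants `y₀ i` elsewhere. Soundness (with
`Cst`): exactly `r - 2` of the other indices have `c (y₀ i) = yT`, so exactly two of `u, v, w` are `yT`. Completeness: `u, v, w` are
`yT, yT, yF` in some order: the multiplicities are those of `y₀` (composed with a permutation).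
The pattern: `Cst`; `N q₀ q₁ q₂` for both tuples `q = u, v`; for every `i < 3` with an additional variable `rᵢ` (`OF.ex`): `N uᵢ vᵢ rᵢ`.
Soundness: the colour of `q` is the `i` with `qᵢ ≠ yT` (exactly one; `0` if there is none). If both colours are `i` then `uᵢ, vᵢ ≠ yT`,
contradiction to `N uᵢ vᵢ rᵢ`. (`β` does not depend on the constants.) Completeness: the tuple of the colour `s` is `yF` at `s` and `yT`
otherwise; `rᵢ = yF` if `i` is not one of the two colours, `yT` otherwise.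
-/

namespace Pool.Agent.H24.GH

open Pool.Agent.H24.GG

variable {V D T K : Type} {L : LS V D T K} {k : Kt L} {τ ζ : T} {m r : ℕ} {x₀ : V} {Nv : V → ℕ}
  {zt : V → V} {A : V → Prop} {St Sz Gt Gz : V × V → Prop}

theorem scol_card {m : ℕ} (P : Fin m → Prop) [DecidablePred P] :
    {i | P i}.ncard = ∑ i, if P i then 1 else 0 := by
  classical
  have h1 : {i | P i} = ((Finset.univ.filter P : Finset (Fin m)) : Set (Fin m)) := by
    ext i
    simp
  rw [h1, Set.ncard_coe_finset, Finset.card_filter]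

theorem scol_sum {m : ℕ} {i₁ i₂ i₃ : Fin m} (h12 : i₁ ≠ i₂) (h13 : i₁ ≠ i₃) (h23 : i₂ ≠ i₃)
    {f g : Fin m → ℕ} (h : ∀ i, i ≠ i₁ → i ≠ i₂ → i ≠ i₃ → f i = g i) :
    (∑ i, f i) + (g i₁ + g i₂ + g i₃) = (∑ i, g i) + (f i₁ + f i₂ + f i₃) := by
  classical
  have key : ∀ f : Fin m → ℕ, ∑ i, f i = (∑ i ∈ Finset.univ \ {i₁, i₂, i₃}, f i) +
      (f i₁ + f i₂ + f i₃) := by
    intro f
    rw [← Finset.sum_sdiff (Finset.subset_univ ({i₁, i₂, i₃} : Finset (Fin m)))]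
    congr 1
    rw [Finset.sum_insert (by simp [h12, h13]), Finset.sum_insert (by simp [h23]),
      Finset.sum_singleton, add_assoc]
  have h2 : ∑ i ∈ Finset.univ \ {i₁, i₂, i₃}, f i = ∑ i ∈ Finset.univ \ {i₁, i₂, i₃}, g i := by
    refine Finset.sum_congr rfl fun i hi => ?_
    have h3 : i ∉ ({i₁, i₂, i₃} : Finset (Fin m)) := (Finset.mem_sdiff.1 hi).2
    simp only [Finset.mem_insert, Finset.mem_singleton, not_or] at h3
    exact h i h3.1 h3.2.1 h3.2.2
  rw [key f, key g, h2]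
  omega

open Classical in
/-- three variables at the indices `i₁, i₂, i₃`, constants elsewhere -/
noncomputable def scolIx {m : ℕ} {X : Type} (i₁ i₂ i₃ : Fin m) (u v w : X) (c : Fin m → X) :
    Fin m → X :=
  fun i => if i = i₁ then u else if i = i₂ then v else if i = i₃ then w else c i

theorem scol_ix1 {m : ℕ} {X : Type} {i₁ i₂ i₃ : Fin m} {u v w : X} {c : Fin m → X} :
    scolIx i₁ i₂ i₃ u v w c i₁ = u := by
  unfold scolIx
  rw [if_pos rfl]

theorem scol_ix2 {m : ℕ} {X : Type} {i₁ i₂ i₃ : Fin m} (h12 : i₁ ≠ i₂) {u v w : X}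
    {c : Fin m → X} : scolIx i₁ i₂ i₃ u v w c i₂ = v := by
  unfold scolIx
  rw [if_neg h12.symm, if_pos rfl]

theorem scol_ix3 {m : ℕ} {X : Type} {i₁ i₂ i₃ : Fin m} (h13 : i₁ ≠ i₃) (h23 : i₂ ≠ i₃)
    {u v w : X} {c : Fin m → X} : scolIx i₁ i₂ i₃ u v w c i₃ = w := by
  unfold scolIx
  rw [if_neg h13.symm, if_neg h23.symm, if_pos rfl]

theorem scol_ixo {m : ℕ} {X : Type} {i₁ i₂ i₃ i : Fin m} (h1 : i ≠ i₁) (h2 : i ≠ i₂)
    (h3 : i ≠ i₃) {u v w : X} {c : Fin m → X} : scolIx i₁ i₂ i₃ u v w c i = c i := by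
  unfold scolIx
  rw [if_neg h1, if_neg h2, if_neg h3]

theorem scol_snd {m r : ℕ} {V : Type} {A : V → Prop} {y₀ : Fin m → V} {i₁ i₂ i₃ : Fin m}
    (h12 : i₁ ≠ i₂) (h13 : i₁ ≠ i₃) (h23 : i₂ ≠ i₃) (hr : {i | A (y₀ i)}.ncard = r)
    (hA1 : A (y₀ i₁)) (hA2 : A (y₀ i₂)) (hF : ¬ A (y₀ i₃)) {X : Type} {c : X → V} {yT : V}
    {cst : Fin m → X} (hc : ∀ i, c (cst i) = yT ↔ A (y₀ i)) {u v w : X}
    (h : {i | c (scolIx i₁ i₂ i₃ u v w cst i) = yT}.ncard = r) :
    (c u = yT ∧ c v = yT ∧ c w ≠ yT) ∨ (c u = yT ∧ c v ≠ yT ∧ c w = yT) ∨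
      (c u ≠ yT ∧ c v = yT ∧ c w = yT) := by
  classical
  rw [scol_card] at h hr
  have h1 := scol_sum h12 h13 h23
    (f := fun i => if c (scolIx i₁ i₂ i₃ u v w cst i) = yT then 1 else 0)
    (g := fun i => if A (y₀ i) then 1 else 0) (by
      intro i g1 g2 g3
      show (if c (scolIx i₁ i₂ i₃ u v w cst i) = yT then 1 else 0) = if A (y₀ i) then 1 else 0
      rw [scol_ixo g1 g2 g3]
      by_cases h4 : A (y₀ i)
      · rw [if_pos h4, if_pos ((hc i).2 h4)]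
      · rw [if_neg h4, if_neg (fun h5 => h4 ((hc i).1 h5))])
  simp only [scol_ix1, scol_ix2 h12, scol_ix3 h13 h23, if_pos hA1, if_pos hA2, if_neg hF] at h1
  rw [h, hr] at h1
  by_cases a1 : c u = yT <;> by_cases a2 : c v = yT <;> by_cases a3 : c w = yT <;>
    simp [a1, a2, a3] at h1 ⊢

theorem scol_cmp {m : ℕ} {V : Type} {Nv : V → ℕ} {y₀ : Fin m → V} {i₁ i₂ i₃ : Fin m}
    (h12 : i₁ ≠ i₂) (h13 : i₁ ≠ i₃) (h23 : i₂ ≠ i₃) (hy : ∀ z, {i | y₀ i = z}.ncard = Nv z)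
    {X : Type} {c : X → V} {cst : Fin m → X} (hc : ∀ i, c (cst i) = y₀ i) {yT yF : V}
    (h1 : y₀ i₁ = yT) (h2 : y₀ i₂ = yT) (h3 : y₀ i₃ = yF) {u v w : X}
    (h : (c u = yT ∧ c v = yT ∧ c w = yF) ∨ (c u = yT ∧ c v = yF ∧ c w = yT) ∨
      (c u = yF ∧ c v = yT ∧ c w = yT)) (z : V) :
    {i | c (scolIx i₁ i₂ i₃ u v w cst i) = z}.ncard = Nv z := by
  classical
  rw [← hy z, scol_card, scol_card]
  have g1 := scol_sum h12 h13 h23
    (f := fun i => if c (scolIx i₁ i₂ i₃ u v w cst i) = z then 1 else 0)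
    (g := fun i => if y₀ i = z then 1 else 0) (by
      intro i g1 g2 g3
      show (if c (scolIx i₁ i₂ i₃ u v w cst i) = z then 1 else 0) = if y₀ i = z then 1 else 0
      rw [scol_ixo g1 g2 g3, hc])
  simp only [scol_ix1, scol_ix2 h12, scol_ix3 h13 h23, h1, h2, h3] at g1
  rcases h with ⟨a1, a2, a3⟩ | ⟨a1, a2, a3⟩ | ⟨a1, a2, a3⟩ <;> rw [a1, a2, a3] at g1 <;> omega

open Classical in
/-- the colour of a triple -/
noncomputable def scolB {V : Type} (yT : V) (q : Fin 3 → V) : Fin 3 :=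
  if q 0 ≠ yT then 0 else if q 1 ≠ yT then 1 else 2

theorem scol_b {V : Type} {yT : V} {q : Fin 3 → V}
    (h : (q 0 = yT ∧ q 1 = yT ∧ q 2 ≠ yT) ∨ (q 0 = yT ∧ q 1 ≠ yT ∧ q 2 = yT) ∨
      (q 0 ≠ yT ∧ q 1 = yT ∧ q 2 = yT)) : q (scolB yT q) ≠ yT := by
  unfold scolB
  rcases h with ⟨a1, a2, a3⟩ | ⟨a1, a2, a3⟩ | ⟨a1, a2, a3⟩
  · rw [if_neg (not_not.2 a1), if_neg (not_not.2 a2)]
    exact a3
  · rw [if_neg (not_not.2 a1), if_pos a2]
    exact a2
  · rw [if_pos a1]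
    exact a1

theorem hp_sts [Finite V] (t : TiesS k τ ζ m r x₀ Nv zt A St Sz Gt Gz) {y₀ : Fin m → V}
    (hy : ∀ z, {i | y₀ i = z}.ncard = Nv z) (hr : {i | A (y₀ i)}.ncard = r) {i₁ i₂ i₃ : Fin m}
    (h12 : i₁ ≠ i₂) (he : y₀ i₁ = y₀ i₂) (hA : A (y₀ i₁)) (hF : ¬ A (y₀ i₃)) : HPat k := by
  classical
  obtain ⟨yT, hT⟩ : ∃ yT, yT = y₀ i₁ := ⟨_, rfl⟩
  obtain ⟨yF, hFf⟩ : ∃ yF, yF = y₀ i₃ := ⟨_, rfl⟩
  have hTF : yT ≠ yF := by
    intro h1
    rw [hT, hFf] at h1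
    rw [h1] at hA
    exact hF hA
  have hA2 : A (y₀ i₂) := he ▸ hA
  have h13 : i₁ ≠ i₃ := fun h1 => hF (h1 ▸ hA)
  have h23 : i₂ ≠ i₃ := fun h1 => hF (h1 ▸ hA2)
  obtain ⟨zs, hzs⟩ : ∃ zs : Srt V T V, zs = zS ζ zt Sz Gz yT yF := ⟨_, rfl⟩
  have hstar : OF k (fun _ : Fin m => zs) (fun c => {i | c i = yT}.ncard = r)
      (fun c => ∀ z, {i | c i = z}.ncard = Nv z) := by
    rw [hzs]
    exact ofs_star t hTF
  have hring : ∀ y : {y // A y ∧ 0 < Nv y}, OF k (fun _ : Unit => zs) (fun c => c () = yT)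
      (fun c => c () = y.1) := by
    intro y
    rw [hzs]
    exact ofs_ring t y.2.1 y.2.2
  haveI hne : Nonempty V := ⟨yT⟩
  -- the variables
  obtain ⟨cst, hcst⟩ : ∃ cst : V → (V ⊕ (Bool × Fin 3)) ⊕ Fin 3,
      ∀ y, cst y = Sum.inl (Sum.inl y) := ⟨_, fun _ => rfl⟩
  obtain ⟨q, hq⟩ : ∃ q : Bool → Fin 3 → (V ⊕ (Bool × Fin 3)) ⊕ Fin 3,
      ∀ b j, q b j = Sum.inl (Sum.inr (b, j)) := ⟨fun b j => _, fun _ _ => rfl⟩
  obtain ⟨w, hw⟩ : ∃ w : Fin 3 → (V ⊕ (Bool × Fin 3)) ⊕ Fin 3,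
      ∀ j, w j = Sum.inr j := ⟨fun j => _, fun _ => rfl⟩
  have hN : ∀ u v w : (V ⊕ (Bool × Fin 3)) ⊕ Fin 3,
      OF k (fun _ : (V ⊕ (Bool × Fin 3)) ⊕ Fin 3 => zs)
      (fun c => {i | c (scolIx i₁ i₂ i₃ u v w (fun i => cst (y₀ i)) i) = yT}.ncard = r)
      (fun c => ∀ z, {i | c (scolIx i₁ i₂ i₃ u v w (fun i => cst (y₀ i)) i) = z}.ncard = Nv z) :=
    fun u v w => hstar.comap (scolIx i₁ i₂ i₃ u v w (fun i => cst (y₀ i))) fun _ => rfl
  have ha := OF.all (k := k) (sX := fun _ : (V ⊕ (Bool × Fin 3)) ⊕ Fin 3 => zs)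
    (ι := {y // A y ∧ 0 < Nv y}) (Rs := fun y c => c (cst y.1) = yT)
    (Rc := fun y c => c (cst y.1) = y.1)
    (fun y => (hring y).comap (fun _ => cst y.1) fun _ => rfl)
  have hb : OF k (fun _ : (V ⊕ (Bool × Fin 3)) ⊕ Fin 3 => zs)
      (fun c => {i | c (cst (y₀ i)) = yT}.ncard = r)
      (fun c => ∀ z, {i | c (cst (y₀ i)) = z}.ncard = Nv z) :=
    hstar.comap (fun i => cst (y₀ i)) fun _ => rfl
  have hcc := OF.all (k := k) (sX := fun _ : (V ⊕ (Bool × Fin 3)) ⊕ Fin 3 => zs)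
    (ι := Bool) (fun b => hN (q b 0) (q b 1) (q b 2))
  have hd := OF.all (k := k) (sX := fun _ : (V ⊕ (Bool × Fin 3)) ⊕ Fin 3 => zs)
    (ι := Fin 3) (fun i => hN (q false i) (q true i) (w i))
  have hall := (ha.and hb).and (hcc.and hd)
  have hs1 : (fun _ : (V ⊕ (Bool × Fin 3)) ⊕ Fin 3 => zs) =
      Sum.elim (fun _ : V ⊕ (Bool × Fin 3) => zs) (fun _ : Fin 3 => zs) := by
    funext x
    rcases x with x | x <;> rfl
  rw [hs1] at hall
  have hex := OF.ex hall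
  have hs2 : (fun _ : V ⊕ (Bool × Fin 3) => zs) =
      Sum.elim (fun _ : V => zs) (fun p : Bool × Fin 3 => (fun _ : Fin 3 => zs) p.2) := by
    funext x
    rcases x with x | x <;> rfl
  rw [hs2] at hex
  refine ⟨V, Fin 3, V, inferInstance, inferInstance, hne, fun _ => zs, fun _ => zs, _, _,
    fun _ p => scolB yT p, fun y => y, fun s j => if j = s then yF else yT, hex, ?_, ?_⟩
  · rintro c ⟨u, ⟨g1, g2⟩, g3, g4⟩
    obtain ⟨C, hC⟩ : ∃ C : (V ⊕ (Bool × Fin 3)) ⊕ Fin 3 → V, C = Sum.elim c u := ⟨_, rfl⟩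
    have hCq : ∀ b j, C (q b j) = c (Sum.inr (b, j)) := by
      intro b j
      rw [hC, hq]
      rfl
    rw [← hC] at g2
    have g1' : ∀ i, A (y₀ i) → C (cst (y₀ i)) = yT := by
      intro i hi
      rw [hC]
      refine g1 ⟨y₀ i, hi, ?_⟩
      rw [← hy (y₀ i)]
      exact (Set.ncard_pos (Set.toFinite _)).2 ⟨i, rfl⟩
    have hiff : ∀ i, C (cst (y₀ i)) = yT ↔ A (y₀ i) := by
      have h1 : {i | A (y₀ i)} = {i | C (cst (y₀ i)) = yT} := by
        refine Set.eq_of_subset_of_ncard_le (fun i hi => g1' i hi) ?_ (Set.toFinite _)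
        exact le_of_eq (g2.trans hr.symm)
      intro i
      have h2 : i ∈ {i | A (y₀ i)} ↔ i ∈ {i | C (cst (y₀ i)) = yT} := by rw [h1]
      exact h2.symm
    have k3 : ∀ b, (fun j => c (Sum.inr (b, j))) (scolB yT (fun j => c (Sum.inr (b, j)))) ≠ yT := by
      intro b
      refine scol_b (q := fun j => c (Sum.inr (b, j))) ?_
      have h1 := g3 b
      rw [← hC] at h1
      have h2 := scol_snd h12 h13 h23 hr hA hA2 hF hiff h1
      rw [hCq, hCq, hCq] at h2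
      exact h2
    intro heq
    have k4 := k3 false
    have k5 := k3 true
    have heq' : scolB yT (fun j => c (Sum.inr (false, j))) =
      scolB yT (fun j => c (Sum.inr (true, j))) := heq
    rw [heq'] at k4
    obtain ⟨i, hi⟩ : ∃ i, i = scolB yT (fun j => c (Sum.inr (true, j))) := ⟨_, rfl⟩
    rw [← hi] at k4 k5
    have h1 := g4 i
    rw [← hC] at h1
    have h2 := scol_snd h12 h13 h23 hr hA hA2 hF hiff h1
    rw [hCq, hCq] at h2
    have k4' : c (Sum.inr (false, i)) ≠ yT := k4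
    have k5' : c (Sum.inr (true, i)) ≠ yT := k5
    rcases h2 with ⟨a1, a2, a3⟩ | ⟨a1, a2, a3⟩ | ⟨a1, a2, a3⟩
    · exact k4' a1
    · exact k4' a1
    · exact k5' a2
  · intro s t' hst
    obtain ⟨c, hc⟩ : ∃ c : V ⊕ (Bool × Fin 3) → V, c = Sum.elim (fun y => y)
      (fun p => if p.1 then (if p.2 = t' then yF else yT) else (if p.2 = s then yF else yT)) :=
        ⟨_, rfl⟩
    refine ⟨fun i => if i = s ∨ i = t' then yT else yF, ?_⟩
    rw [← hc]
    obtain ⟨C, hC⟩ : ∃ C : (V ⊕ (Bool × Fin 3)) ⊕ Fin 3 → V,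
      C = Sum.elim c (fun i => if i = s ∨ i = t' then yT else yF) := ⟨_, rfl⟩
    rw [← hC]
    have hCc : ∀ y, C (cst y) = y := by
      intro y
      rw [hC, hcst, hc]
      rfl
    have hCf : ∀ j, C (q false j) = if j = s then yF else yT := by
      intro j
      rw [hC, hq, hc]
      simp
    have hCt : ∀ j, C (q true j) = if j = t' then yF else yT := by
      intro j
      rw [hC, hq, hc]
      simp
    have hCw : ∀ j, C (w j) = if j = s ∨ j = t' then yT else yF := by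
      intro j
      rw [hC, hw]
      rfl
    have hone : ∀ s : Fin 3, ((if (0 : Fin 3) = s then yF else yT) = yT ∧
        (if (1 : Fin 3) = s then yF else yT) = yT ∧ (if (2 : Fin 3) = s then yF else yT) = yF) ∨
        ((if (0 : Fin 3) = s then yF else yT) = yT ∧
        (if (1 : Fin 3) = s then yF else yT) = yF ∧ (if (2 : Fin 3) = s then yF else yT) = yT) ∨
        ((if (0 : Fin 3) = s then yF else yT) = yF ∧
        (if (1 : Fin 3) = s then yF else yT) = yT ∧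
        (if (2 : Fin 3) = s then yF else yT) = yT) := by
      intro s
      fin_cases s <;> simp
    refine ⟨⟨fun y => hCc y.1, fun z => ?_⟩, fun b => ?_, fun i => ?_⟩
    · rw [← hy z]
      refine congrArg Set.ncard ?_
      ext i
      show C (cst (y₀ i)) = z ↔ y₀ i = z
      rw [hCc]
    · refine scol_cmp h12 h13 h23 hy (fun i => hCc (y₀ i)) hT.symm (he.symm.trans hT.symm)
        hFf.symm ?_
      cases b
      · rw [hCf, hCf, hCf]
        exact hone s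
      · rw [hCt, hCt, hCt]
        exact hone t'
    · refine scol_cmp h12 h13 h23 hy (fun i => hCc (y₀ i)) hT.symm (he.symm.trans hT.symm)
        hFf.symm ?_
      rw [hCf, hCt, hCw]
      by_cases h1 : i = s
      · have h2 : i ≠ t' := fun h3 => hst (h1.symm.trans h3)
        right
        right
        rw [if_pos h1, if_neg h2, if_pos (Or.inl h1)]
        exact ⟨rfl, rfl, rfl⟩
      · by_cases h2 : i = t'
        · right
          left
          rw [if_neg h1, if_pos h2, if_pos (Or.inr h2)]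
          exact ⟨rfl, rfl, rfl⟩
        · left
          rw [if_neg h1, if_neg h2, if_neg (not_or.2 ⟨h1, h2⟩)]
          exact ⟨rfl, rfl, rfl⟩

end Pool.Agent.H24.GH
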