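import Pool.Agent.H24.GI.Grd

/-!
# JOB GI-8: guarded stars and pairs

`StB k τ x₀ q P`: in every labelling which is cut at one dart of type `τ` at `(x₀, q)` the label of this vertex satisfies `P`; all
stars of `x₀` are possible. `PrB k τ ζ x₀ P b1 b2`: two darts with the same head; in every labelling which is cut at one of them
the label of the tail of `b1` satisfies `P`; the values `(x₀, y)`, `(z, y)` are possible.

`exists_stb`: let `d₂ ≠ d₃` be darts of type `τ` at `x₀`. `grd_full` gives guards `G₂, q₂` for `d₂` and `G₃, q₃` for `d₃`; `k₀, κ` from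
`exists_ukit`, `q₁ = κ x₀`. `k' = swKt k₀ G₃ d₃ q₁ q₃`, `k = swKt k' G₂ d₂ (inl q₁) q₂`, `q = inl (inl q₁)`.
`gd`: let `d` be a dart of type `τ` at `x₀`, `f, e` a labelling of `k` cut at `(d, q)`. If `d ≠ d₂`: `sw_guard` for `k'`, `G₂` (with
`(d, inl q₁) ≠ rv (d₂, inl q₁)`, as the tails are over `x₀ ≠ hd d₂`) gives `P (f (x₀, q))`. If `d = d₂`: `sw_res` gives a labelling of
`k'`, cut at `(d₂, inl q₁)` only; `sw_guard` for `k₀`, `G₃` (`d₂ ≠ d₃`) gives `P (f (x₀, q))`.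
`cp`: let `y` be a star. `UStar` for `k₀` at `(x₀, q₁)` gives a labelling with this star; the values at `(d₃, q₁)`, `(d₂, q₁)` are
`(x₀, y d₃)`, `(x₀, y d₂)`, ends of `x₀`; take the labellings of `G₃`, `G₂` with these values, `sw_cov` twice.
`exists_prb`: let `d₁ ≠ d₃` be darts of type `τ` at `x₀`, `y₁ = hd d₁`, `q₀ = κ y₁`, `q₁ = R (rv d₁) q₀` in `k₀` (so the dart `(rv d₁, q₀)` leads
from `(y₁, q₀)` to `(x₀, q₁)`, and `R d₁ q₁ = q₀`). Let `d₄ ≠ rv d₁` be a dart of type `bar ζ` at `y₁` (`hz`, `hz'`).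
`k = swKt k₀ G₃ d₃ q₁ q₃`, `b1 = (d₁, inl q₁)`, `b2 = rv (d₄, inl q₀)`. `hd b1 = (y₁, inl q₀) = hd b2` (`sw_rv` for `(d₁, q₁)`).
`gd`: a labelling which is cut at `b1`: `sw_guard`. A labelling which is cut at `b2` is cut at `(d₄, inl q₀)` (`el_symm`). If
`(d₄, q₀) ≠ rv (d₃, q₁)`: `sw_guard`. `(d₄, q₀) = rv (d₃, q₁)` is the case `d₄ = rv d₃`, `R d₃ q₁ = q₀`: to avoid it choose the
dart `d₃` of type `τ` at `x₀`, `d₃ ≠ d₁`, such that `(d₄, q₀) ≠ rv (d₃, q₁)` (there are two darts `d₃ ≠ d₁`, `3 ≤ num τ`, and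
`rv (d₃, q₁)` determines `d₃`). So `(d₄, q₀)` is not `(d₃, q₁)` either: its tail is over `y₁ = hd d₁ ≠ x₀`.
`cp`: `star_pair` at `y₁` with the label `y` and the ends `x₀` for `rv d₁`, `z` for `d₄`; `UStar` at `(y₁, q₀)` gives a labelling of `k₀` with
`f (y₁, q₀) = y`, `e (rv d₁, q₀) = x₀ = f (x₀, q₁)`, `e (d₁, q₁) = y`, `e (d₄, q₀) = z`. The value at `(d₃, q₁)` is `(x₀, y')` with
`Dt L τ x₀ y'` (`val_dt`); take the labelling of `G₃` with this value; `sw_cov`.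
-/

namespace Pool.Agent.H24.GI

open Pool.Agent.H24.GG Pool.Agent.H24.GH

variable {V D T K : Type} {L : LS V D T K}

/-- a guarded star -/
structure StB (k : Kt L) (τ : T) (x₀ : V) (q : k.Q) (P : V → Prop) : Prop where
  gd : ∀ d, L.tl d = x₀ → L.ty d = τ → ∀ f e, EL k.net {(d, q)} f e → P (f (x₀, q))
  cp : ∀ y : D → V, (∀ t z, {d | L.tl d = x₀ ∧ L.ty d = t ∧ y d = z}.ncard = L.M t x₀ z) →
    ∃ f e, EL k.net ∅ f e ∧ f (x₀, q) = x₀ ∧ ∀ d, L.tl d = x₀ → e (d, q) = y d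
  ne : ∀ d, L.tl d = x₀ → L.ty d = τ → k.net.hd (d, q) ≠ (x₀, q)

/-- a guarded pair -/
structure PrB (k : Kt L) (τ ζ : T) (x₀ : V) (P : V → Prop) (b1 b2 : D × k.Q) : Prop where
  ty1 : L.ty b1.1 = τ
  ty2 : L.ty b2.1 = ζ
  hd : k.net.hd b1 = k.net.hd b2
  ne : b1 ≠ b2
  nrev : b1 ≠ k.net.rv b2
  gd1 : ∀ f e, EL k.net {b1} f e → P (f (k.net.tl b1))
  gd2 : ∀ f e, EL k.net {b2} f e → P (f (k.net.tl b1))
  cp : ∀ y z, Dt L τ x₀ y → Dt L ζ z y → (ζ = τ → z = x₀ → 2 ≤ L.M τ x₀ y) →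
    ∃ f e, EL k.net ∅ f e ∧ evt k.net f e b1 = (x₀, y) ∧ evt k.net f e b2 = (z, y)

private theorem stB_nrv {k : Kt L} (hl : ∀ d, L.tl d ≠ L.hd d) {d d' : D} (h : L.tl d = L.tl d')
    (a b : k.Q) : ((d, a) : D × k.Q) ≠ k.net.rv (d', b) := by
  intro hx
  have h1 : d = L.rv d' := congrArg Prod.fst hx
  apply hl d'
  rw [← h, h1]
  rfl

private theorem stB_set {Q Q' : Type} (d : D) (q : Q) (d' : D) (q' : Q) :
    ({δ : D × Q | ((δ.1, Sum.inl δ.2) : D × (Q ⊕ Q')) ∈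
      ({(d, Sum.inl q)} : Set (D × (Q ⊕ Q')))} : Set (D × Q)) = {(d, q)} := by
  ext δ
  constructor
  · intro hδ
    have h3 : ((δ.1, Sum.inl δ.2) : D × (Q ⊕ Q')) = (d, Sum.inl q) := hδ
    have h4 : δ.1 = d := congrArg Prod.fst h3
    have h5 : δ.2 = q := Sum.inl_injective (congrArg Prod.snd h3)
    exact Prod.ext h4 h5
  · rintro rfl
    rfl

private theorem stB_sym {W Δ : Type} {N : Net L W Δ} (b δ : Δ) :
    (δ ∈ ({N.rv b} : Set Δ) ∨ N.rv δ ∈ ({N.rv b} : Set Δ)) ↔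
      (δ ∈ ({b} : Set Δ) ∨ N.rv δ ∈ ({b} : Set Δ)) := by
  rw [Set.mem_singleton_iff, Set.mem_singleton_iff, Set.mem_singleton_iff,
    Set.mem_singleton_iff]
  constructor
  · rintro (h2 | h2)
    · right
      rw [h2, N.rv_rv]
    · left
      rw [← N.rv_rv δ, h2, N.rv_rv]
  · rintro (h2 | h2)
    · right
      rw [h2]
    · left
      rw [← N.rv_rv δ, h2]

variable [Finite V] [Finite D] [Finite T]

theorem exists_stb (hc : LConn L) (hl : ∀ d, L.tl d ≠ L.hd d) {τ : T} (hm : 3 ≤ L.num τ)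
    {P : V → Prop} (hP : GoodP L τ P) {x₀ : V} (hx : P x₀) :
    ∃ (k : Kt L) (q : k.Q), StB k τ x₀ q P := by
  have hcl : L.cl x₀ = L.sc τ := hP.cl _ hx
  have hcard : 1 < {d | L.tl d = x₀ ∧ L.ty d = τ}.ncard := by
    rw [L.num_eq _ _ hcl]
    omega
  obtain ⟨d₂, ⟨h21, h22⟩, d₃, ⟨h31, h32⟩, h23⟩ := (Set.one_lt_ncard_iff_nontrivial).1 hcard
  have hG2 := grd_full hc hl hm hP h22 (by rw [h21]; exact hx)
  have hG3 := grd_full hc hl hm hP h32 (by rw [h31]; exact hx)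
  rw [h21] at hG2
  rw [h31] at hG3
  obtain ⟨G₂, q₂, g21, g22⟩ := hG2
  obtain ⟨G₃, q₃, g31, g32⟩ := hG3
  obtain ⟨k₀, sd, κ, -, -, hU⟩ := exists_ukit L
  have hus : UStar k₀ x₀ (κ x₀) := ukit_star (hU _)
  obtain ⟨q₁, hq₁⟩ : ∃ q₁, κ x₀ = q₁ := ⟨_, rfl⟩
  rw [hq₁] at hus
  refine ⟨swKt (swKt k₀ G₃ d₃ q₁ q₃) G₂ d₂ (Sum.inl q₁) q₂, Sum.inl (Sum.inl q₁), ?_, ?_, ?_⟩
  · intro d hd1 hd2 f e h
    by_cases hdd : d = d₂
    · subst hdd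
      have h1 := sw_res (k₁ := swKt k₀ G₃ d₃ q₁ q₃) (k₂ := G₂) h
      have h2 : EL (swKt k₀ G₃ d₃ q₁ q₃).net {(d, Sum.inl q₁)}
          (fun w => f (w.1, Sum.inl w.2)) (fun δ => e (δ.1, Sum.inl δ.2)) := by
        refine el_symm ?_ h1
        have hs := stB_set (Q := (swKt k₀ G₃ d₃ q₁ q₃).Q) (Q' := G₂.Q) d
          (Sum.inl q₁ : (swKt k₀ G₃ d₃ q₁ q₃).Q) d (Sum.inl q₁ : (swKt k₀ G₃ d₃ q₁ q₃).Q)
        intro δ
        have h3 : ∀ δ' : D × (swKt k₀ G₃ d₃ q₁ q₃).Q,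
            (δ' ∈ ({δ | ((δ.1, Sum.inl δ.2) : D × ((swKt k₀ G₃ d₃ q₁ q₃).Q ⊕ G₂.Q)) ∈
              ({(d, Sum.inl (Sum.inl q₁))} : Set (D × ((swKt k₀ G₃ d₃ q₁ q₃).Q ⊕ G₂.Q)))} ∪
              {(d, Sum.inl q₁)} : Set (D × (swKt k₀ G₃ d₃ q₁ q₃).Q))) ↔
            δ' ∈ ({(d, Sum.inl q₁)} : Set (D × (swKt k₀ G₃ d₃ q₁ q₃).Q)) := by
          intro δ'
          constructor
          · rintro (h4 | h4)
            · exact (Set.ext_iff.1 hs δ').1 h4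
            · exact h4
          · exact fun h4 => Or.inr h4
        exact or_congr (h3 _) (h3 _)
      have h5 := (sw_guard (k₁ := k₀) (k₂ := G₃) (P := fun α => P α.1) h2
        (fun δ hδ => ⟨(d, q₁), hδ, fun hx' => h23 (congrArg Prod.fst hx'),
          stB_nrv hl (h21.trans h31.symm) _ _⟩) g31).2
      have h6 : P (f (L.tl d₃, Sum.inl (Sum.inl q₁))) := h5
      rw [h31] at h6
      exact h6
    · have h5 := (sw_guard (k₁ := swKt k₀ G₃ d₃ q₁ q₃) (k₂ := G₂) (P := fun α => P α.1) h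
        (fun δ hδ => ⟨(d, Sum.inl q₁), hδ, fun hx' => hdd (congrArg Prod.fst hx'),
          stB_nrv (k := swKt k₀ G₃ d₃ q₁ q₃) hl (hd1.trans h21.symm) _ _⟩) g21).2
      have h6 : P (f (L.tl d₂, Sum.inl (Sum.inl q₁))) := h5
      rw [h21] at h6
      exact h6
  · intro y hy
    obtain ⟨f₁, e₁, h1, h2, h3⟩ := hus x₀ y rfl hy
    have hdt : ∀ d, L.tl d = x₀ → L.ty d = τ → Dt L τ x₀ (y d) := by
      intro d a1 a2
      have h4 := (val_dt h1 (d, q₁)).1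
      have h5 : Dt L (L.ty d) (f₁ (L.tl d, q₁)) (e₁ (d, q₁)) := h4
      rw [a1, h2, h3 d a1, a2] at h5
      exact h5
    obtain ⟨f₃, e₃, h6, h7⟩ := g32 (y d₃) (hdt d₃ h31 h32)
    obtain ⟨f₂, e₂, h8, h9⟩ := g22 (y d₂) (hdt d₂ h21 h22)
    have h10 : evt k₀.net f₁ e₁ (d₃, q₁) = evt G₃.net f₃ e₃ (d₃, q₃) := by
      rw [h7]
      change (f₁ (L.tl d₃, q₁), e₁ (d₃, q₁)) = (x₀, y d₃)
      rw [h31, h2, h3 d₃ h31]
    have h11 := sw_cov h1 h6 h10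
    have h12 : evt (swKt k₀ G₃ d₃ q₁ q₃).net
        (fun w => Sum.elim (fun κ => f₁ (w.1, κ)) (fun κ => f₃ (w.1, κ)) w.2)
        (fun δ => Sum.elim (fun κ => e₁ (δ.1, κ)) (fun κ => e₃ (δ.1, κ)) δ.2)
        (d₂, Sum.inl q₁) = evt G₂.net f₂ e₂ (d₂, q₂) := by
      rw [h9]
      change (f₁ (L.tl d₂, q₁), e₁ (d₂, q₁)) = (x₀, y d₂)
      rw [h21, h2, h3 d₂ h21]
    refine ⟨_, _, sw_cov h11 h8 h12, ?_, ?_⟩
    · exact h2
    · intro d hd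
      exact h3 d hd
  · intro d hd1 hd2 hx'
    have h1 : L.hd d = x₀ := congrArg Prod.fst hx'
    exact hl d (hd1.trans h1.symm)

theorem exists_prb (hc : LConn L) (hl : ∀ d, L.tl d ≠ L.hd d) {τ ζ : T} (hm : 3 ≤ L.num τ)
    (hz : L.sc (L.bar ζ) = L.sc (L.bar τ)) (hz' : ζ = τ → 2 ≤ L.num (L.bar τ)) {P : V → Prop}
    (hP : GoodP L τ P) {x₀ : V} (hx : P x₀) :
    ∃ (k : Kt L) (b1 b2 : D × k.Q), PrB k τ ζ x₀ P b1 b2 := by
  have hcl : L.cl x₀ = L.sc τ := hP.cl _ hx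
  have hcard : {d | L.tl d = x₀ ∧ L.ty d = τ}.ncard = L.num τ := L.num_eq _ _ hcl
  have hne1 : {d | L.tl d = x₀ ∧ L.ty d = τ}.Nonempty :=
    Set.nonempty_of_ncard_ne_zero (by rw [hcard]; omega)
  obtain ⟨d₁, h11, h12⟩ := hne1
  obtain ⟨k₀, sd, κ, -, -, hU⟩ := exists_ukit L
  have hcy : L.cl (L.hd d₁) = L.sc (L.bar τ) := by
    unfold LS.hd
    rw [L.cl_tl, L.ty_rv, h12]
  obtain ⟨d₄, h41, h42, h43⟩ : ∃ d, L.tl d = L.hd d₁ ∧ L.ty d = L.bar ζ ∧ d ≠ L.rv d₁ := by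
    have hc4 : {d | L.tl d = L.hd d₁ ∧ L.ty d = L.bar ζ}.ncard = L.num (L.bar ζ) :=
      L.num_eq _ _ (by rw [hcy, hz])
    by_cases hζ : ζ = τ
    · subst hζ
      have h1 : 1 < {d | L.tl d = L.hd d₁ ∧ L.ty d = L.bar ζ}.ncard := by
        rw [hc4]
        exact hz' rfl
      obtain ⟨d, ⟨a1, a2⟩, a3⟩ := Set.exists_ne_of_one_lt_ncard h1 (L.rv d₁)
      exact ⟨d, a1, a2, a3⟩
    · have hne4 : {d | L.tl d = L.hd d₁ ∧ L.ty d = L.bar ζ}.Nonempty :=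
        Set.nonempty_of_ncard_ne_zero (by rw [hc4]; exact (L.num_pos _).ne')
      obtain ⟨d, a1, a2⟩ := hne4
      refine ⟨d, a1, a2, ?_⟩
      rintro rfl
      rw [L.ty_rv, h12] at a2
      apply hζ
      rw [← L.bar_bar ζ, ← a2, L.bar_bar]
  have hus : UStar k₀ (L.hd d₁) (κ (L.hd d₁)) := ukit_star (hU _)
  obtain ⟨q₀, hq₀⟩ : ∃ q₀, κ (L.hd d₁) = q₀ := ⟨_, rfl⟩
  rw [hq₀] at hus
  obtain ⟨q₁, hq₁⟩ : ∃ q₁, k₀.R (L.rv d₁) q₀ = q₁ := ⟨_, rfl⟩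
  have hq₁' : k₀.R d₁ q₁ = q₀ := by
    rw [← hq₁, k₀.R_rv, Equiv.apply_symm_apply]
  obtain ⟨d₃, h31, h32, h33, h34⟩ : ∃ d, L.tl d = x₀ ∧ L.ty d = τ ∧ d ≠ d₁ ∧
      ((d₄, q₀) : D × k₀.Q) ≠ k₀.net.rv (d, q₁) := by
    by_contra hcon
    push Not at hcon
    have hsub : {d | L.tl d = x₀ ∧ L.ty d = τ} ⊆ {d₁, L.rv d₄} := by
      rintro d ⟨a1, a2⟩
      by_cases a3 : d = d₁
      · exact Or.inl a3
      · have h1 := hcon d a1 a2 a3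
        have h2 : d₄ = L.rv d := congrArg Prod.fst h1
        right
        change d = L.rv d₄
        rw [h2, L.rv_rv]
    have h3 := Set.ncard_le_ncard hsub (Set.toFinite _)
    have h4 := Set.ncard_insert_le d₁ {L.rv d₄}
    rw [Set.ncard_singleton] at h4
    omega
  have hG3 := grd_full hc hl hm hP h32 (by rw [h31]; exact hx)
  rw [h31] at hG3
  obtain ⟨G₃, q₃, g31, g32⟩ := hG3
  have hn1 : ((d₁, q₁) : D × k₀.Q) ≠ (d₃, q₁) := fun hx' => h33 (congrArg Prod.fst hx').symm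
  have hn2 : ((d₁, q₁) : D × k₀.Q) ≠ k₀.net.rv (d₃, q₁) := stB_nrv hl (h11.trans h31.symm) _ _
  have hn3 : ((d₄, q₀) : D × k₀.Q) ≠ (d₃, q₁) := by
    intro hx'
    have h1 : d₄ = d₃ := congrArg Prod.fst hx'
    apply hl d₁
    rw [← h41, h1, h31, h11]
  have hrv1 : (swKt k₀ G₃ d₃ q₁ q₃).net.rv (d₁, Sum.inl q₁) =
      (L.rv d₁, (Sum.inl q₀ : k₀.Q ⊕ G₃.Q)) := by
    have h1 := sw_rv (k₁ := k₀) (k₂ := G₃) (d := d₃) (q₁ := q₁) (q₂ := q₃) hn1 hn2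
    have h2 : (k₀.net.rv (d₁, q₁)) = (L.rv d₁, q₀) := by
      change (L.rv d₁, k₀.R d₁ q₁) = _
      rw [hq₁']
    rw [h2] at h1
    exact h1
  refine ⟨swKt k₀ G₃ d₃ q₁ q₃, (d₁, Sum.inl q₁), (swKt k₀ G₃ d₃ q₁ q₃).net.rv (d₄, Sum.inl q₀),
    h12, ?_, ?_, ?_, ?_, ?_, ?_, ?_⟩
  · change L.ty (L.rv d₄) = ζ
    rw [L.ty_rv, h42, L.bar_bar]
  · unfold Net.hd
    rw [(swKt k₀ G₃ d₃ q₁ q₃).net.rv_rv, hrv1]
    change (L.tl (L.rv d₁), (Sum.inl q₀ : k₀.Q ⊕ G₃.Q)) = (L.tl d₄, Sum.inl q₀)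
    rw [h41]
    rfl
  · intro hx'
    have h1 := congrArg (swKt k₀ G₃ d₃ q₁ q₃).net.rv hx'
    rw [(swKt k₀ G₃ d₃ q₁ q₃).net.rv_rv, hrv1] at h1
    exact h43 (congrArg Prod.fst h1).symm
  · intro hx'
    rw [(swKt k₀ G₃ d₃ q₁ q₃).net.rv_rv] at hx'
    have h1 : d₁ = d₄ := congrArg Prod.fst hx'
    apply hl d₁
    rw [← h41, ← h1]
  · intro f e h
    have h5 := (sw_guard (k₁ := k₀) (k₂ := G₃) (P := fun α => P α.1) h
      (fun δ hδ => ⟨(d₁, q₁), hδ, hn1, hn2⟩) g31).2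
    have h6 : P (f (L.tl d₃, Sum.inl q₁)) := h5
    change P (f (L.tl d₁, Sum.inl q₁))
    rw [h11]
    rw [h31] at h6
    exact h6
  · intro f e h
    have h1 : EL (swKt k₀ G₃ d₃ q₁ q₃).net {(d₄, Sum.inl q₀)} f e := by
      exact el_symm (stB_sym (N := (swKt k₀ G₃ d₃ q₁ q₃).net) (d₄, Sum.inl q₀)) h
    have h5 := (sw_guard (k₁ := k₀) (k₂ := G₃) (P := fun α => P α.1) h1
      (fun δ hδ => ⟨(d₄, q₀), hδ, hn3, h34⟩) g31).2
    have h6 : P (f (L.tl d₃, Sum.inl q₁)) := h5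
    change P (f (L.tl d₁, Sum.inl q₁))
    rw [h11]
    rw [h31] at h6
    exact h6
  · intro y z hy hzy hyz
    have hy' := dt_symm hy
    have hz'' := dt_symm hzy
    obtain ⟨Y, hY1, hY2, hY3⟩ := star_pair (L := L) (v := L.hd d₁) (x := y)
      (by rw [hcy, (dt_cl hy).2]) (d₁ := L.rv d₁) (d₂ := d₄) rfl h41 h43.symm (y₁ := x₀) (y₂ := z)
      (by rw [L.ty_rv, h12]; exact hy') (by rw [h42]; exact hz'') (by
        intro a1 a2
        rw [L.ty_rv, h12] at a1 ⊢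
        rw [h42] at a1
        rw [M_bar]
        refine hyz ?_ a2.symm
        rw [← L.bar_bar ζ, ← a1, L.bar_bar])
    obtain ⟨f₁, e₁, h1, h2, h3⟩ := hus y Y (by rw [hcy, (dt_cl hy).2]) hY1
    have h4 : f₁ (x₀, q₁) = x₀ := by
      have h5 := h1.unc (L.rv d₁, q₀) (Set.notMem_empty _) (Set.notMem_empty _)
      have h6 : k₀.net.hd (L.rv d₁, q₀) = (x₀, q₁) := by
        change (L.tl (L.rv (L.rv d₁)), k₀.R (L.rv d₁) q₀) = _
        rw [L.rv_rv, h11, hq₁]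
      rw [h6, h3 (L.rv d₁) rfl, hY2] at h5
      exact h5.symm
    have h5 : e₁ (d₁, q₁) = y := by
      have h6 := h1.unc (d₁, q₁) (Set.notMem_empty _) (Set.notMem_empty _)
      have h7 : k₀.net.hd (d₁, q₁) = (L.hd d₁, q₀) := by
        change (L.tl (L.rv d₁), k₀.R d₁ q₁) = _
        rw [hq₁']
        rfl
      rw [h7, h2] at h6
      exact h6
    have h6 : e₁ (d₄, q₀) = z := by
      rw [h3 d₄ h41, hY3]
    have h7 : Dt L τ x₀ (e₁ (d₃, q₁)) := by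
      have h8 : Dt L (L.ty d₃) (f₁ (L.tl d₃, q₁)) (e₁ (d₃, q₁)) := (val_dt h1 (d₃, q₁)).1
      rw [h31, h32, h4] at h8
      exact h8
    obtain ⟨f₃, e₃, h8, h9⟩ := g32 _ h7
    have h10 : evt k₀.net f₁ e₁ (d₃, q₁) = evt G₃.net f₃ e₃ (d₃, q₃) := by
      rw [h9]
      change (f₁ (L.tl d₃, q₁), e₁ (d₃, q₁)) = (x₀, e₁ (d₃, q₁))
      rw [h31, h4]
    have h13 := sw_cov h1 h8 h10
    refine ⟨_, _, h13, ?_, ?_⟩
    · change (f₁ (L.tl d₁, q₁), e₁ (d₁, q₁)) = (x₀, y)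
      rw [h11, h4, h5]
    · have h14 := h13.unc ((swKt k₀ G₃ d₃ q₁ q₃).net.rv (d₄, Sum.inl q₀)) (Set.notMem_empty _)
        (Set.notMem_empty _)
      have h15 := h13.unc (d₄, Sum.inl q₀) (Set.notMem_empty _) (Set.notMem_empty _)
      unfold Net.hd at h14
      rw [(swKt k₀ G₃ d₃ q₁ q₃).net.rv_rv] at h14
      have h16 : e₁ (d₄, q₀) = _ := h15
      rw [h6] at h16
      refine Prod.ext ?_ ?_
      · exact h16.symm
      · refine h14.trans ?_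
        change f₁ (L.tl d₄, q₀) = y
        rw [h41, h2]

end Pool.Agent.H24.GI
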