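import Pool.Agent.H24.GI.SigK
import Pool.Agent.H24.GI.StB
import Pool.Agent.H24.GI.SCol

/-!
# JOB GI-14: hardness at a lens

`PStar L τ ζ x`: the darts of type `τ` at `x`, and the darts of type `ζ` which lead to an end `y` of `x` are not bridges, and a dart
of type `τ` from `x` to `y` is in a cut of two edges iff a dart of type `ζ` to `y` is.

`pstar_p`: `GoodP L τ (PStar L τ ζ)`: `aut_dt`, `aut_cut` (also for the inverse of `g`: if `Cut L 3 (g x) {g y}` then `Cut L 3 x {y}`, as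
the inverse of `g` is an automorphism).
`lens_hpat`. `St α = Sz α = CutV L 3 α`, `Gt α`: `PStar L τ ζ α.1` and `Dt L τ α.1 α.2`; `Gz = CutV L 2`; `A y = Cut L 3 x₀ {y}`. `zt y`: some `z`
with `Dt L ζ z y` (`hz`). The kit: `k₁, q` from `exists_pin` for `d₁`; `k₂, b1, b2` from `exists_prb` for `P = PStar L τ ζ` (`3 ≤ num τ`, as
`d₁, d₂, d₃` are different); for `y` with `A y`, `Dt L τ x₀ y` let `k y, q y` be from `exists_ring` for a dart `d_y` of type `ζ` from `zt y`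
to `y` (`nz`), for other `y` any kit. `k = sigKt` of the family `ι = Bool ⊕ V`.
`m`: the number of the darts of type `τ` at `x₀` different from `d₁`, `dd : Fin m → D` a bijection to them; `sd i = (dd i, q)` in
`k₁`. `Nv z = {i | hd (dd i) = z}.ncard`, `r = {i | A (hd (dd i))}.ncard`.
`s_sp`: `exists_pin` (`C` a singleton): the label of `(x₀, q)` is `g x₀`, so `PStar`; the value `evt` is not a bridge (`nb`), so
`evt = evh` (`one_exact`). `s_cnt`: `sig_res`, `exists_pin` with `C` the set of the `dd i`: the label of `(x₀, q)` is `g x₀`,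
`e (d₁, q) = g (hd d₁)`. By `star` the number of the darts `d` of type `τ` at `x₀` with `CutV L 3 (g x₀, e (d, q))` is the number of
the darts of type `τ` at `g x₀` with this property, which is the number of those at `x₀` (`Aut.M`, `aut_cut` for `g` and its
inverse), which is `r + 1` (`hs1`); `d₁` is one of them. `s_cp`: as in the file `Pool.Agent.H24.GI.Pen`.
`b_sp1`: `gd1`, `nb`, `one_exact`. `b_sp2`: `gd2`: `PStar (f (tl b1))`, `b1` is not cut, so `y = f (hd b1)` is an end of `f (tl b1)`,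
`evh b2 = (z, y)` with `Dt L ζ z y`, so `CutV L 2 (evh b2)` by `nz`; `one_exact`. `b_tie`: `two_val`: in the first case
`evt = evh`, and `St (evh b1) ↔ Sz (evh b2)` by `PStar.eq` for `x = (evh b1).1` (`Gt (evh b1)`), `y = f (hd b1)`, `z = (evh b2).1`;
in the second case all four properties are false. `b_cp`: `PrB.cp` (`ζ ≠ τ`).
`rd y`: `exists_ring`: `evt = evh = (g (zt y), g y)`; `Cut L 3 (zt y) {y}` by `PStar.eq`, `aut_cut`.
`hp_sts`: `y₀ i = hd (dd i)`; `i₁, i₂` with `dd i₁ = d₂`, `dd i₂ = d₃`, `i₃` with `dd i₃ = d₄` (`d₄ ≠ d₁` by `hs1`, `hs4`).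
-/

namespace Pool.Agent.H24.GI

open Pool.Agent.H24.GC Pool.Agent.H24.GG Pool.Agent.H24.GH

variable {V D T K : Type} {L : LS V D T K}

/-- the centre of a lens -/
structure PStar (L : LS V D T K) (τ ζ : T) (x : V) : Prop where
  cl : L.cl x = L.sc τ
  nb : ∀ y, Dt L τ x y → Cut L 2 x {y}
  nz : ∀ y z, Dt L τ x y → Dt L ζ z y → Cut L 2 z {y}
  eq : ∀ y z, Dt L τ x y → Dt L ζ z y → (Cut L 3 x {y} ↔ Cut L 3 z {y})

variable [Finite V] [Finite D] [Finite T]

/-- an automorphism preserves the cuts which separate two vertices -/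
private theorem lns_iff {g : V → V} (h : Aut L g) {j : ℕ} {x y : V} :
    Cut L j (g x) {g y} ↔ Cut L j x {y} := by
  constructor
  · intro hc S hx hS
    rw [← aut_bd h S]
    refine hc (g '' S) ⟨x, hx, rfl⟩ ?_
    rintro _ rfl ⟨z, hz, hzy⟩
    rw [h.bij.1 hzy] at hz
    exact hS y rfl hz
  · intro hc
    have h1 := aut_cut h hc
    rwa [Set.image_singleton] at h1

theorem pstar_p (τ ζ : T) : GoodP L τ (PStar L τ ζ) where
  cl := fun x h => h.cl
  nb := fun x y h hd => h.nb y hd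
  au := by
    intro g x hg h
    refine ⟨?_, ?_, ?_, ?_⟩
    · rw [hg.cl]
      exact h.cl
    · intro y' hd
      obtain ⟨y, rfl⟩ := hg.bij.2 y'
      exact (lns_iff hg).mpr (h.nb y ((aut_dt hg).mp hd))
    · intro y' z' hd hd'
      obtain ⟨y, rfl⟩ := hg.bij.2 y'
      obtain ⟨z, rfl⟩ := hg.bij.2 z'
      exact (lns_iff hg).mpr (h.nz y z ((aut_dt hg).mp hd) ((aut_dt hg).mp hd'))
    · intro y' z' hd hd'
      obtain ⟨y, rfl⟩ := hg.bij.2 y'
      obtain ⟨z, rfl⟩ := hg.bij.2 z'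
      rw [lns_iff hg, lns_iff hg]
      exact h.eq y z ((aut_dt hg).mp hd) ((aut_dt hg).mp hd')

omit [Finite V] [Finite D] [Finite T] in
open Classical in
/-- counting the darts of a star -/
private theorem lns_split {S : Set D} {d₁ : D} (h1 : d₁ ∈ S) {m : ℕ} {dd : Fin m → D}
    (hi : Function.Injective dd) (hr : ∀ d, d ∈ S ↔ d = d₁ ∨ ∃ i, dd i = d)
    (hn : ∀ i, dd i ≠ d₁) (P : D → Prop) :
    {d | d ∈ S ∧ P d}.ncard = {i | P (dd i)}.ncard + if P d₁ then 1 else 0 := by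
  have himg : (dd '' {i | P (dd i)}).ncard = {i | P (dd i)}.ncard :=
    Set.ncard_image_of_injective _ hi
  by_cases hP : P d₁
  · rw [if_pos hP, ← himg]
    have h2 : {d | d ∈ S ∧ P d} = insert d₁ (dd '' {i | P (dd i)}) := by
      ext d
      constructor
      · rintro ⟨h3, h4⟩
        rcases (hr d).mp h3 with h5 | ⟨i, h5⟩
        · exact Or.inl h5
        · right
          refine ⟨i, ?_, h5⟩
          change P (dd i)
          rw [h5]
          exact h4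
      · rintro (h3 | ⟨i, h3, h4⟩)
        · rw [h3]
          exact ⟨h1, hP⟩
        · refine ⟨(hr d).mpr (Or.inr ⟨i, h4⟩), ?_⟩
          rw [← h4]
          exact h3
    rw [h2]
    refine Set.ncard_insert_of_notMem ?_ (Set.toFinite _)
    rintro ⟨i, -, h3⟩
    exact hn i h3
  · rw [if_neg hP, ← himg, add_zero]
    congr 1
    ext d
    constructor
    · rintro ⟨h3, h4⟩
      rcases (hr d).mp h3 with h5 | ⟨i, h5⟩
      · rw [h5] at h4
        exact absurd h4 hP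
      · refine ⟨i, ?_, h5⟩
        change P (dd i)
        rw [h5]
        exact h4
    · rintro ⟨i, h3, h4⟩
      refine ⟨(hr d).mpr (Or.inr ⟨i, h4⟩), ?_⟩
      rw [← h4]
      exact h3

omit [Finite T] in
open Classical in
/-- equal multiplicities give equal numbers for a property -/
private theorem lns_cnt {S : Set D} {F G : D → V}
    (h : ∀ z, {a | a ∈ S ∧ F a = z}.ncard = {a | a ∈ S ∧ G a = z}.ncard) (A : V → Prop) :
    {a | a ∈ S ∧ A (F a)}.ncard = {a | a ∈ S ∧ A (G a)}.ncard := by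
  have := Fintype.ofFinite V
  have := Fintype.ofFinite D
  have key : ∀ F : D → V, {a | a ∈ S ∧ A (F a)}.ncard =
      ∑ z : V, if A z then {a | a ∈ S ∧ F a = z}.ncard else 0 := by
    intro F
    have h1 : {a | a ∈ S ∧ A (F a)}.ncard = (Finset.univ.filter fun a => a ∈ S ∧ A (F a)).card := by
      rw [← Set.ncard_coe_finset]
      congr 1
      ext a
      simp
    rw [h1, Finset.card_eq_sum_card_fiberwise (f := F) (t := Finset.univ)
      (fun d _ => Finset.mem_coe.mpr (Finset.mem_univ _))]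
    refine Finset.sum_congr rfl fun z _ => ?_
    by_cases hz : A z
    · rw [if_pos hz, ← Set.ncard_coe_finset]
      congr 1
      ext a
      simp only [Finset.coe_filter, Finset.mem_filter, Finset.mem_univ, true_and]
      constructor
      · rintro ⟨⟨h2, -⟩, h3⟩
        exact ⟨h2, h3⟩
      · rintro ⟨h2, h3⟩
        have h4 : F a = z := h3
        exact ⟨⟨h2, by rw [h4]; exact hz⟩, h3⟩
    · rw [if_neg hz, Finset.card_eq_zero, Finset.filter_eq_empty_iff]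
      intro a ha h2
      apply hz
      rw [← h2]
      exact (Finset.mem_filter.mp ha).2.2
  rw [key F, key G]
  refine Finset.sum_congr rfl fun z _ => ?_
  rw [h z]

omit [Finite V] [Finite D] [Finite T] in
/-- a labelling of one part gives a labelling of the union -/
private theorem lns_part {ι : Type} [Finite ι] (κ : ι → Kt L) (i₀ : ι) {f₀ : V × (κ i₀).Q → V}
    {e₀ : D × (κ i₀).Q → V} (h : EL (κ i₀).net ∅ f₀ e₀) :
    ∃ f e, EL (sigKt κ).net ∅ f e ∧ (∀ w : V × (κ i₀).Q, f (w.1, ⟨i₀, w.2⟩) = f₀ w) ∧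
      ∀ δ : D × (κ i₀).Q, e (δ.1, ⟨i₀, δ.2⟩) = e₀ δ := by
  classical
  have hex : ∀ i, ∃ p : (V × (κ i).Q → V) × (D × (κ i).Q → V), EL (κ i).net ∅ p.1 p.2 ∧
      ∀ hi : i₀ = i, p = hi ▸ (f₀, e₀) := by
    intro i
    by_cases hi : i₀ = i
    · subst hi
      exact ⟨(f₀, e₀), h, fun _ => rfl⟩
    · exact ⟨(fun w => w.1, fun δ => L.hd δ.1), proj_el (κ i), fun hi' => absurd hi' hi⟩
  choose p hp1 hp2 using hex
  refine ⟨_, _, sig_glue (f := fun i => (p i).1) (e := fun i => (p i).2) hp1, ?_, ?_⟩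
  · rintro ⟨x, q⟩
    have h1 := hp2 i₀ rfl
    change (p i₀).1 (x, q) = f₀ (x, q)
    rw [h1]
  · rintro ⟨d, q⟩
    have h1 := hp2 i₀ rfl
    change (p i₀).2 (d, q) = e₀ (d, q)
    rw [h1]


omit [Finite V] [Finite D] [Finite T] in
/-- the restriction of a labelling which is cut at one dart -/
private theorem lns_res1 {ι : Type} [Finite ι] {κ : ι → Kt L} {i : ι} {d : D} {q : (κ i).Q}
    {f : V × (Σ i, (κ i).Q) → V} {e : D × (Σ i, (κ i).Q) → V}
    (h : EL (sigKt κ).net {(d, ⟨i, q⟩)} f e) :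
    EL (κ i).net {(d, q)} (fun w => f (w.1, ⟨i, w.2⟩)) (fun δ => e (δ.1, ⟨i, δ.2⟩)) := by
  refine sumK_congr (sig_res h i) ?_
  ext ⟨d', q'⟩
  constructor
  · intro h1
    have h2 : ((d', ⟨i, q'⟩) : D × (Σ i, (κ i).Q)) = (d, ⟨i, q⟩) := h1
    have h3 : d' = d := congrArg Prod.fst h2
    have h4 : (⟨i, q'⟩ : Σ i, (κ i).Q) = ⟨i, q⟩ := congrArg Prod.snd h2
    have h5 : q' = q := eq_of_heq (Sigma.mk.inj h4).2
    rw [h3, h5]
    rfl
  · intro h1
    have h2 : ((d', q') : D × (κ i).Q) = (d, q) := h1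
    have h3 : d' = d := congrArg Prod.fst h2
    have h4 : q' = q := congrArg Prod.snd h2
    rw [h3, h4]
    rfl

theorem lens_hpat (hc : LConn L) (hl : ∀ d, L.tl d ≠ L.hd d) {τ ζ : T}
    (hz : L.sc (L.bar ζ) = L.sc (L.bar τ)) (h1 : τ ≠ ζ) (h2 : τ ≠ L.bar ζ) {x₀ : V}
    (hx : PStar L τ ζ x₀) {d₁ d₂ d₃ d₄ : D} (ht1 : L.tl d₁ = x₀) (ht2 : L.tl d₂ = x₀)
    (ht3 : L.tl d₃ = x₀) (ht4 : L.tl d₄ = x₀) (hy1 : L.ty d₁ = τ) (hy2 : L.ty d₂ = τ)
    (hy3 : L.ty d₃ = τ) (hy4 : L.ty d₄ = τ) (h12 : d₁ ≠ d₂) (h13 : d₁ ≠ d₃) (h23 : d₂ ≠ d₃)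
    (hh : L.hd d₂ = L.hd d₃) (hs1 : Cut L 3 x₀ {L.hd d₁}) (hs2 : Cut L 3 x₀ {L.hd d₂})
    (hs4 : ¬ Cut L 3 x₀ {L.hd d₄}) : ∃ k : Kt L, HPat k := by
  classical
  have hP : GoodP L τ (PStar L τ ζ) := pstar_p τ ζ
  have hm3 : 3 ≤ L.num τ := by
    rw [← L.num_eq x₀ τ hx.cl]
    have e1 : ({d₁, d₂, d₃} : Set D).ncard = 3 := Set.ncard_eq_three.mpr
      ⟨d₁, d₂, d₃, h12, h13, h23, rfl⟩
    rw [← e1]
    refine Set.ncard_le_ncard ?_ (Set.toFinite _)
    rintro d (rfl | rfl | rfl)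
    · exact ⟨ht1, hy1⟩
    · exact ⟨ht2, hy2⟩
    · exact ⟨ht3, hy3⟩
  -- the darts of the star without `d₁`
  obtain ⟨m, hmc⟩ : ∃ m, Nat.card {d | (L.tl d = x₀ ∧ L.ty d = τ) ∧ d ≠ d₁} = m := ⟨_, rfl⟩
  obtain ⟨dd, hdd, hdi, hdr⟩ : ∃ dd : Fin m → D,
      (∀ i, (L.tl (dd i) = x₀ ∧ L.ty (dd i) = τ) ∧ dd i ≠ d₁) ∧ Function.Injective dd ∧
      ∀ d, L.tl d = x₀ → L.ty d = τ → d ≠ d₁ → ∃ i, dd i = d := by
    let E := Finite.equivFinOfCardEq hmc
    refine ⟨fun i => (E.symm i).1, fun i => (E.symm i).2,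
      fun i j hij => E.symm.injective (Subtype.ext hij), ?_⟩
    intro d e1 e2 e3
    refine ⟨E ⟨d, ⟨e1, e2⟩, e3⟩, ?_⟩
    change (E.symm (E ⟨d, ⟨e1, e2⟩, e3⟩)).1 = d
    rw [Equiv.symm_apply_apply]
  obtain ⟨S, hS⟩ : ∃ S : Set D, S = {d | L.tl d = x₀ ∧ L.ty d = τ} := ⟨_, rfl⟩
  have hSm : ∀ d, d ∈ S ↔ L.tl d = x₀ ∧ L.ty d = τ := by
    intro d
    rw [hS]
    rfl
  have hd₁S : d₁ ∈ S := (hSm d₁).mpr ⟨ht1, hy1⟩
  have hSr : ∀ d, d ∈ S ↔ d = d₁ ∨ ∃ i, dd i = d := by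
    intro d
    rw [hSm]
    constructor
    · rintro ⟨e1, e2⟩
      by_cases e3 : d = d₁
      · exact Or.inl e3
      · exact Or.inr (hdr d e1 e2 e3)
    · rintro (e1 | ⟨i, e1⟩)
      · rw [e1]
        exact ⟨ht1, hy1⟩
      · rw [← e1]
        exact (hdd i).1
  have hsplit : ∀ P : D → Prop, {d | d ∈ S ∧ P d}.ncard = {i | P (dd i)}.ncard +
      if P d₁ then 1 else 0 := fun P => lns_split hd₁S hdi hSr (fun i => (hdd i).2) P
  have hMS : ∀ (F : D → V) (z : V), {d | L.tl d = x₀ ∧ L.ty d = τ ∧ F d = z}.ncard =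
      {d | d ∈ S ∧ F d = z}.ncard := by
    intro F z
    congr 1
    ext d
    rw [hS]
    constructor
    · rintro ⟨e1, e2, e3⟩
      exact ⟨⟨e1, e2⟩, e3⟩
    · rintro ⟨⟨e1, e2⟩, e3⟩
      exact ⟨e1, e2, e3⟩
  obtain ⟨Nv, hNv⟩ : ∃ Nv : V → ℕ, ∀ z, Nv z = {i | L.hd (dd i) = z}.ncard := ⟨_, fun _ => rfl⟩
  have hMN : ∀ z, L.M τ x₀ z = Nv z + if L.hd d₁ = z then 1 else 0 := by
    intro z
    have e1 : L.M τ x₀ z = {d | d ∈ S ∧ L.hd d = z}.ncard := hMS L.hd z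
    rw [e1, hNv, hsplit (fun d => L.hd d = z)]
  have hND : ∀ z, 0 < Nv z → Dt L τ x₀ z := by
    intro z hz'
    rw [dt_iff, hMN]
    omega
  obtain ⟨A, hA⟩ : ∃ A : V → Prop, ∀ z, A z ↔ Cut L 3 x₀ {z} := ⟨_, fun _ => Iff.rfl⟩
  obtain ⟨r, hr⟩ : ∃ r, {i | A (L.hd (dd i))}.ncard = r := ⟨_, rfl⟩
  have hAx : A (L.hd d₁) := (hA _).mpr hs1
  -- the other ends
  have hzt : ∀ y, ∃ z, Dt L τ x₀ y → Dt L ζ z y := by
    intro y
    by_cases hy : Dt L τ x₀ y
    · have e1 : L.cl y = L.sc (L.bar ζ) := by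
        rw [(dt_cl hy).2, hz]
      obtain ⟨z, e2⟩ := dt_exists e1
      have e3 := dt_symm e2
      rw [L.bar_bar] at e3
      exact ⟨z, fun _ => e3⟩
    · exact ⟨x₀, fun e1 => absurd e1 hy⟩
  choose zt hzt using hzt
  -- the parts
  obtain ⟨k₁, q, hp1, hp2⟩ := exists_pin hc hl (d₁ := d₁) (by
    rw [ht1]
    exact hx.nb _ ⟨d₁, ht1, rfl, hy1⟩)
  obtain ⟨k₂, b1, b2, hb⟩ := exists_prb hc hl hm3 hz (fun e1 => absurd e1.symm h1) hP hx
  have hring : ∀ y, ∃ (k : Kt L) (q : k.Q) (d : D), Dt L τ x₀ y → L.tl d = zt y ∧ L.hd d = y ∧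
      L.ty d = ζ ∧ ∀ f e, EL k.net {(d, q)} f e →
        evt k.net f e (d, q) = evh k.net f e (d, q) ∧
        ∃ g, Aut L g ∧ evt k.net f e (d, q) = (g (L.tl d), g (L.hd d)) := by
    intro y
    by_cases hy : Dt L τ x₀ y
    · obtain ⟨d, e2, e3, e4⟩ := hzt y hy
      obtain ⟨k, q, hk⟩ := exists_ring hc hl (d₀ := d) (by
        rw [e2, e3]
        exact hx.nz y _ hy (hzt y hy))
      exact ⟨k, q, d, fun _ => ⟨e2, e3, e4, hk⟩⟩
    · exact ⟨unitKt L, (), d₁, fun e1 => absurd e1 hy⟩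
  choose kk qq dy hk using hring
  let KK : Bool ⊕ V → Kt L := fun i => match i with
    | Sum.inl true => k₁
    | Sum.inl false => k₂
    | Sum.inr y => kk y
  let q1 : (sigKt KK).Q := ⟨Sum.inl true, q⟩
  let B1 : D × (sigKt KK).Q := (b1.1, ⟨Sum.inl false, b1.2⟩)
  let B2 : D × (sigKt KK).Q := (b2.1, ⟨Sum.inl false, b2.2⟩)
  let qr : V → (sigKt KK).Q := fun y => ⟨Sum.inr y, qq y⟩
  -- the star
  have s_val : ∀ f e (C : Set D), (∀ d ∈ C, L.tl d = x₀ ∧ d ≠ d₁) →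
      EL (sigKt KK).net {δ | δ.1 ∈ C ∧ δ.2 = q1} f e →
      ∃ g, Aut L g ∧ f (x₀, q1) = g x₀ ∧ e (d₁, q1) = g (L.hd d₁) := by
    intro f e C hC h
    have e1 := sig_res h (Sum.inl true)
    have e2 : {δ : D × (KK (Sum.inl true)).Q | (δ.1, (⟨Sum.inl true, δ.2⟩ : (sigKt KK).Q)) ∈
        {δ : D × (sigKt KK).Q | δ.1 ∈ C ∧ δ.2 = q1}} =
        {δ : D × k₁.Q | δ.1 ∈ C ∧ δ.2 = q} := by
      ext ⟨d, q'⟩
      constructor
      · rintro ⟨c1, c2⟩
        have c3 : (⟨Sum.inl true, q'⟩ : Σ i, (KK i).Q) = ⟨Sum.inl true, q⟩ := c2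
        exact ⟨c1, eq_of_heq (Sigma.mk.inj c3).2⟩
      · rintro ⟨c1, c2⟩
        have c3 : q' = q := c2
        subst c3
        exact ⟨c1, rfl⟩
    obtain ⟨g, hg, g1, g2⟩ := hp1 C (fun d hd => ⟨(hC d hd).1.trans ht1.symm, (hC d hd).2⟩)
      _ _ (sumK_congr e1 e2)
    rw [ht1] at g1
    exact ⟨g, hg, g1, g2⟩
  have s_sp : ∀ i f e, EL (sigKt KK).net {(dd i, q1)} f e →
      (CutV L 3 (evt (sigKt KK).net f e (dd i, q1)) ↔
        CutV L 3 (evh (sigKt KK).net f e (dd i, q1))) ∧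
      (PStar L τ ζ (evt (sigKt KK).net f e (dd i, q1)).1 ∧
        Dt L τ (evt (sigKt KK).net f e (dd i, q1)).1 (evt (sigKt KK).net f e (dd i, q1)).2) ∧
      (PStar L τ ζ (evh (sigKt KK).net f e (dd i, q1)).1 ∧
        Dt L τ (evh (sigKt KK).net f e (dd i, q1)).1 (evh (sigKt KK).net f e (dd i, q1)).2) := by
    intro i f e h
    have e1 : ({(dd i, q1)} : Set (D × (sigKt KK).Q)) = {δ | δ.1 ∈ ({dd i} : Set D) ∧ δ.2 = q1} := by
      ext ⟨d, q'⟩
      constructor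
      · intro c1
        have c2 : (d, q') = (dd i, q1) := c1
        exact ⟨congrArg Prod.fst c2, congrArg Prod.snd c2⟩
      · rintro ⟨c1, c2⟩
        have c3 : d = dd i := c1
        have c4 : q' = q1 := c2
        rw [c3, c4]
        rfl
    have h' := h
    rw [e1] at h'
    obtain ⟨g, hg, g1, -⟩ := s_val f e {dd i} (by
      rintro d rfl
      exact ⟨(hdd i).1.1, (hdd i).2⟩) h'
    have c1 : PStar L τ ζ (evt (sigKt KK).net f e (dd i, q1)).1 := by
      change PStar L τ ζ (f (L.tl (dd i), q1))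
      rw [(hdd i).1.1, g1]
      exact hP.au g _ hg hx
    have c2 := (val_dt h (dd i, q1)).1
    have c3 : (sigKt KK).net.ty (dd i, q1) = τ := (hdd i).1.2
    rw [c3] at c2
    have c4 := one_exact hc hl h (Or.inl (c1.nb _ c2))
    rw [← c4]
    exact ⟨Iff.rfl, ⟨c1, c2⟩, c1, c2⟩
  have s_cnt : ∀ f e, EL (sigKt KK).net
      (Set.range fun i => ((dd i, q1) : D × (sigKt KK).Q)) f e →
      {i | CutV L 3 (evt (sigKt KK).net f e (dd i, q1))}.ncard = r := by
    intro f e h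
    have e2 : (Set.range fun i => ((dd i, q1) : D × (sigKt KK).Q)) =
        {δ | δ.1 ∈ Set.range dd ∧ δ.2 = q1} := by
      ext ⟨d, q'⟩
      constructor
      · rintro ⟨i, hi⟩
        exact ⟨⟨i, congrArg Prod.fst hi⟩, (congrArg Prod.snd hi).symm⟩
      · rintro ⟨⟨i, hi⟩, h5⟩
        refine ⟨i, ?_⟩
        have h6 : dd i = d := hi
        have h7 : q' = q1 := h5
        change (dd i, q1) = (d, q')
        rw [h6, h7]
    have h' := h
    rw [e2] at h'
    obtain ⟨g, hg, g1', g2'⟩ := s_val f e (Set.range dd) (by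
      rintro _ ⟨i, rfl⟩
      exact ⟨(hdd i).1.1, (hdd i).2⟩) h'
    have hF : ∀ z, {d | d ∈ S ∧ e (d, q1) = z}.ncard = {d | d ∈ S ∧ g (L.hd d) = z}.ncard := by
      intro z
      obtain ⟨z', rfl⟩ := hg.bij.2 z
      have r1 : {d | d ∈ S ∧ g (L.hd d) = g z'} = {d | d ∈ S ∧ L.hd d = z'} := by
        ext d
        exact and_congr_right fun _ => hg.bij.1.eq_iff
      rw [r1, ← hMS L.hd z', ← hMS (fun d => e (d, q1))]
      have st := h.star (x₀, q1) τ (g z')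
      rw [g1', hg.M] at st
      have r2 : {d | L.tl d = x₀ ∧ L.ty d = τ ∧ L.hd d = z'}.ncard = L.M τ x₀ z' := rfl
      rw [r2, ← st]
      refine Set.ncard_congr (fun d _ => ((d, q1) : D × (sigKt KK).Q)) ?_ ?_ ?_
      · rintro d ⟨c1, c2, c3⟩
        refine ⟨?_, c2, c3⟩
        change (L.tl d, q1) = (x₀, q1)
        rw [c1]
      · rintro d d' _ _ c3
        exact congrArg Prod.fst c3
      · rintro ⟨d, q'⟩ ⟨c1, c2, c3⟩
        have c4 : L.tl d = x₀ := congrArg Prod.fst c1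
        have c5 : q' = q1 := congrArg Prod.snd c1
        subst c5
        exact ⟨d, ⟨c4, c2, c3⟩, rfl⟩
    have c1 := lns_cnt (F := fun d => e (d, q1)) (G := fun d => g (L.hd d)) hF
      (fun z => Cut L 3 (g x₀) {z})
    have c0 : ∀ z, Cut L 3 (g x₀) {g z} ↔ A z := by
      intro z
      rw [hA, lns_iff hg]
    rw [hsplit (fun d => Cut L 3 (g x₀) {e (d, q1)}),
      hsplit (fun d => Cut L 3 (g x₀) {g (L.hd d)})] at c1
    rw [g2', if_pos ((c0 _).mpr hAx)] at c1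
    have c2 : {i | Cut L 3 (g x₀) {e (dd i, q1)}}.ncard =
        {i | Cut L 3 (g x₀) {g (L.hd (dd i))}}.ncard := by omega
    have c3 : {i | Cut L 3 (g x₀) {g (L.hd (dd i))}} = {i | A (L.hd (dd i))} := by
      ext i
      exact c0 _
    rw [c3, hr] at c2
    rw [← c2]
    congr 1
    ext i
    change Cut L 3 (f (L.tl (dd i), q1)) {e (dd i, q1)} ↔ Cut L 3 (g x₀) {e (dd i, q1)}
    rw [(hdd i).1.1, g1']
  have s_cp : ∀ y : Fin m → V, (∀ z, {i | y i = z}.ncard = Nv z) →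
      ∃ f e, EL (sigKt KK).net ∅ f e ∧
        ∀ i, evt (sigKt KK).net f e (dd i, q1) = (x₀, y i) := by
    intro y hy
    have y1 : ∀ i, Function.extend dd y L.hd (dd i) = y i := fun i => hdi.extend_apply _ _ i
    have y2 : Function.extend dd y L.hd d₁ = L.hd d₁ := by
      rw [Function.extend_apply']
      rintro ⟨i, hi⟩
      exact (hdd i).2 hi
    have hY : ∀ t z, {d | L.tl d = L.tl d₁ ∧ L.ty d = t ∧
        Function.extend dd y L.hd d = z}.ncard = L.M t (L.tl d₁) z := by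
      intro t z
      rw [ht1]
      by_cases htt : t = τ
      · subst htt
        rw [hMS, hsplit (fun d => Function.extend dd y L.hd d = z), y2, hMN, ← hy]
        simp only [y1]
      · unfold LS.M
        congr 1
        ext d
        have c1 : L.ty d = t → Function.extend dd y L.hd d = L.hd d := by
          intro c1
          rw [Function.extend_apply']
          rintro ⟨i, hi⟩
          apply htt
          rw [← c1, ← hi]
          exact (hdd i).1.2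
        constructor
        · rintro ⟨c2, c3, c4⟩
          exact ⟨c2, c3, by rw [← c1 c3]; exact c4⟩
        · rintro ⟨c2, c3, c4⟩
          exact ⟨c2, c3, by rw [c1 c3]; exact c4⟩
    obtain ⟨f, e, c1, c2, c3⟩ := hp2 _ hY y2
    obtain ⟨f', e', c4, c5, c6⟩ := lns_part KK (Sum.inl true) c1
    refine ⟨f', e', c4, fun i => ?_⟩
    have c7 : L.tl (dd i) = L.tl d₁ := (hdd i).1.1.trans ht1.symm
    have c8 : f' (L.tl (dd i), q1) = x₀ := by
      have c9 := c5 (L.tl (dd i), q)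
      rw [c7] at c9
      rw [c7, ← ht1]
      exact c9.trans c2
    have c9 : e' (dd i, q1) = y i := by
      have c10 := c6 (dd i, q)
      rw [← y1 i, ← c3 (dd i) c7]
      exact c10
    change (f' (L.tl (dd i), q1), e' (dd i, q1)) = (x₀, y i)
    rw [c8, c9]
  -- the ties
  have hBinj : ∀ δ δ' : D × k₂.Q, ((δ.1, (⟨Sum.inl false, δ.2⟩ : Σ i, (KK i).Q)) :
      D × (sigKt KK).Q) = (δ'.1, ⟨Sum.inl false, δ'.2⟩) → δ = δ' := by
    rintro ⟨d, p⟩ ⟨d', p'⟩ e1
    have e2 : d = d' := congrArg Prod.fst e1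
    have e3 : (⟨Sum.inl false, p⟩ : Σ i, (KK i).Q) = ⟨Sum.inl false, p'⟩ := congrArg Prod.snd e1
    have e4 : p = p' := eq_of_heq (Sigma.mk.inj e3).2
    rw [e2, e4]
  have hBne : B1 ≠ B2 := fun e1 => hb.ne (hBinj _ _ e1)
  have hBnr : B1 ≠ (sigKt KK).net.rv B2 := fun e1 => hb.nrev (hBinj _ (k₂.net.rv b2) e1)
  have hBhd : (sigKt KK).net.hd B1 = (sigKt KK).net.hd B2 := by
    have e1 := hb.hd
    have e2 : (k₂.net.hd b1).1 = (k₂.net.hd b2).1 := congrArg Prod.fst e1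
    have e3 : (k₂.net.hd b1).2 = (k₂.net.hd b2).2 := congrArg Prod.snd e1
    change (((k₂.net.hd b1).1, (⟨Sum.inl false, (k₂.net.hd b1).2⟩ : Σ i, (KK i).Q)) :
      V × (sigKt KK).Q) = ((k₂.net.hd b2).1, ⟨Sum.inl false, (k₂.net.hd b2).2⟩)
    rw [e2, e3]
  have hty1 : (sigKt KK).net.ty B1 = τ := hb.ty1
  have hty2 : (sigKt KK).net.ty B2 = ζ := hb.ty2
  have b_sp1 : ∀ f e, EL (sigKt KK).net {B1} f e →
      (CutV L 3 (evt (sigKt KK).net f e B1) ↔ CutV L 3 (evh (sigKt KK).net f e B1)) ∧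
      (PStar L τ ζ (evt (sigKt KK).net f e B1).1 ∧
        Dt L τ (evt (sigKt KK).net f e B1).1 (evt (sigKt KK).net f e B1).2) ∧
      (PStar L τ ζ (evh (sigKt KK).net f e B1).1 ∧
        Dt L τ (evh (sigKt KK).net f e B1).1 (evh (sigKt KK).net f e B1).2) := by
    intro f e h
    have c1 : PStar L τ ζ (evt (sigKt KK).net f e B1).1 :=
      hb.gd1 _ _ (lns_res1 (κ := KK) (i := Sum.inl false) h)
    have c2 := (val_dt h B1).1
    rw [hty1] at c2
    have c4 := one_exact hc hl h (Or.inl (c1.nb _ c2))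
    rw [← c4]
    exact ⟨Iff.rfl, ⟨c1, c2⟩, c1, c2⟩
  have b_sp2 : ∀ f e, EL (sigKt KK).net {B2} f e →
      (CutV L 3 (evt (sigKt KK).net f e B2) ↔ CutV L 3 (evh (sigKt KK).net f e B2)) ∧
      CutV L 2 (evt (sigKt KK).net f e B2) ∧ CutV L 2 (evh (sigKt KK).net f e B2) := by
    intro f e h
    have c1 : PStar L τ ζ (f ((sigKt KK).net.tl B1)) :=
      hb.gd2 _ _ (lns_res1 (κ := KK) (i := Sum.inl false) h)
    have c2 := (val_dt h B1).1
    rw [hty1] at c2
    have c3 : e B1 = f ((sigKt KK).net.hd B1) := by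
      refine h.unc B1 hBne ?_
      intro e1
      apply hBnr
      have e2 : (sigKt KK).net.rv B1 = B2 := e1
      rw [← e2, (sigKt KK).net.rv_rv]
    have c4 : Dt L τ (f ((sigKt KK).net.tl B1)) (f ((sigKt KK).net.hd B2)) := by
      rw [← hBhd, ← c3]
      exact c2
    have c5 := (val_dt h B2).2
    rw [hty2] at c5
    have c6 : CutV L 2 (evh (sigKt KK).net f e B2) := c1.nz _ _ c4 c5
    have c7 := one_exact hc hl h (Or.inr c6)
    rw [c7]
    exact ⟨Iff.rfl, c6, c6⟩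
  have b_tie : ∀ f e, EL (sigKt KK).net {B1, B2} f e →
      (PStar L τ ζ (evt (sigKt KK).net f e B1).1 ∧
        Dt L τ (evt (sigKt KK).net f e B1).1 (evt (sigKt KK).net f e B1).2) →
      (PStar L τ ζ (evh (sigKt KK).net f e B1).1 ∧
        Dt L τ (evh (sigKt KK).net f e B1).1 (evh (sigKt KK).net f e B1).2) →
      CutV L 2 (evt (sigKt KK).net f e B2) → CutV L 2 (evh (sigKt KK).net f e B2) →
      (CutV L 3 (evt (sigKt KK).net f e B1) ↔ CutV L 3 (evh (sigKt KK).net f e B1)) ∧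
      (CutV L 3 (evt (sigKt KK).net f e B2) ↔ CutV L 3 (evt (sigKt KK).net f e B1)) ∧
      (CutV L 3 (evh (sigKt KK).net f e B2) ↔ CutV L 3 (evh (sigKt KK).net f e B1)) := by
    intro f e h g1 g2 g3 g4
    have htt : L.ty B1.1 ≠ L.ty B2.1 := by
      intro e1
      apply h1
      rw [← hty1, ← hty2]
      exact e1
    have htt' : L.ty B1.1 ≠ L.bar (L.ty B2.1) := by
      intro e1
      apply h2
      rw [← hty1, ← hty2]
      exact e1
    have c5 := (val_dt h B2).2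
    rw [hty2] at c5
    have c6 : (evh (sigKt KK).net f e B2).2 = (evh (sigKt KK).net f e B1).2 := by
      change f ((sigKt KK).net.hd B2) = f ((sigKt KK).net.hd B1)
      rw [hBhd]
    have c7 : CutV L 3 (evh (sigKt KK).net f e B1) ↔ CutV L 3 (evh (sigKt KK).net f e B2) := by
      rw [c6] at c5
      have c8 := g2.1.eq _ _ g2.2 c5
      unfold CutV
      rw [c6]
      exact c8
    rcases two_val hc hl hBne hBnr htt htt' h (g1.1.nb _ g1.2) g3 (g2.1.nb _ g2.2) g4 with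
      ⟨e1, e2⟩ | ⟨e1, e2, e3, e4⟩
    · rw [e1, e2]
      exact ⟨Iff.rfl, c7.symm, c7.symm⟩
    · exact ⟨iff_of_false e1 e3, iff_of_false e2 e1, iff_of_false e4 e3⟩
  have b_cp : ∀ y, 0 < Nv y → ∃ f e, EL (sigKt KK).net ∅ f e ∧
      evt (sigKt KK).net f e B1 = (x₀, y) ∧ evt (sigKt KK).net f e B2 = (zt y, y) := by
    intro y hy
    have hD := hND y hy
    obtain ⟨f, e, v1, v2, v3⟩ := hb.cp y (zt y) hD (hzt y hD) (fun e1 => absurd e1.symm h1)
    obtain ⟨f', e', v4, v5, v6⟩ := lns_part KK (Sum.inl false) v1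
    refine ⟨f', e', v4, ?_, ?_⟩
    · rw [← v2]
      exact Prod.ext (v5 (k₂.net.tl b1)) (v6 b1)
    · rw [← v3]
      exact Prod.ext (v5 (k₂.net.tl b2)) (v6 b2)
  have r_sp : ∀ y, A y → 0 < Nv y → ∀ f e, EL (sigKt KK).net {(dy y, qr y)} f e →
      (CutV L 3 (evt (sigKt KK).net f e (dy y, qr y)) ∧
        CutV L 3 (evh (sigKt KK).net f e (dy y, qr y))) ∧
      CutV L 2 (evt (sigKt KK).net f e (dy y, qr y)) ∧
        CutV L 2 (evh (sigKt KK).net f e (dy y, qr y)) := by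
    intro y e1 e2 f e h
    have hD := hND y e2
    obtain ⟨c1, c2, c3, c4⟩ := hk y hD
    obtain ⟨c5, g, hg, c6⟩ := c4 _ _ (lns_res1 (κ := KK) (i := Sum.inr y) h)
    have c7 : evt (sigKt KK).net f e (dy y, qr y) = (g (L.tl (dy y)), g (L.hd (dy y))) := c6
    have c8 : evt (sigKt KK).net f e (dy y, qr y) = evh (sigKt KK).net f e (dy y, qr y) := c5
    rw [c1, c2] at c7
    have c9 : CutV L 3 (evt (sigKt KK).net f e (dy y, qr y)) := by
      rw [c7]
      exact (lns_iff hg).mpr ((hx.eq y _ hD (hzt y hD)).mp ((hA y).mp e1))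
    have c10 : CutV L 2 (evt (sigKt KK).net f e (dy y, qr y)) := by
      rw [c7]
      exact (lns_iff hg).mpr (hx.nz y _ hD (hzt y hD))
    rw [← c8]
    exact ⟨⟨c9, c9⟩, c10, c10⟩
  have r_cp : ∀ y, A y → 0 < Nv y → ∃ f e, EL (sigKt KK).net ∅ f e ∧
      evt (sigKt KK).net f e (dy y, qr y) = (zt y, y) := by
    intro y e1 e2
    obtain ⟨c1, c2, -, -⟩ := hk y (hND y e2)
    refine ⟨_, _, proj_el (sigKt KK), ?_⟩
    change (L.tl (dy y), L.hd (dy y)) = (zt y, y)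
    rw [c1, c2]
  have s_nrev : ∀ i j, ((dd i, q1) : D × (sigKt KK).Q) ≠ (sigKt KK).net.rv (dd j, q1) := by
    intro i j e1
    have e2 : dd i = L.rv (dd j) := congrArg Prod.fst e1
    apply hl (dd j)
    change L.tl (dd j) = L.tl (L.rv (dd j))
    rw [← e2, (hdd i).1.1, (hdd j).1.1]
  have hties : TiesS (sigKt KK) τ ζ m r x₀ Nv zt A (CutV L 3) (CutV L 3)
      (fun α => PStar L τ ζ α.1 ∧ Dt L τ α.1 α.2) (CutV L 2) :=
    { sd := fun i => (dd i, q1)
      s_inj := fun i j h => hdi (congrArg Prod.fst h)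
      s_ty := fun i => (hdd i).1.2
      s_nrev := s_nrev
      s_sp := s_sp
      s_cnt := s_cnt
      s_cp := s_cp
      b1 := B1
      b2 := B2
      b_ty1 := hty1
      b_ty2 := hty2
      b_ne := hBne
      b_nrev := hBnr
      b_sp1 := b_sp1
      b_sp2 := b_sp2
      b_tie := b_tie
      b_cp := b_cp
      rd := fun y => (dy y, qr y)
      r_ty := fun y e1 e2 => (hk y (hND y e2)).2.2.1
      r_sp := r_sp
      r_cp := r_cp }
  have h14 : d₄ ≠ d₁ := by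
    rintro rfl
    exact hs4 hs1
  obtain ⟨i₁, hi₁⟩ := hdr d₂ ht2 hy2 h12.symm
  obtain ⟨i₂, hi₂⟩ := hdr d₃ ht3 hy3 h13.symm
  obtain ⟨i₃, hi₃⟩ := hdr d₄ ht4 hy4 h14
  have hi12 : i₁ ≠ i₂ := by
    rintro rfl
    exact h23 (hi₁.symm.trans hi₂)
  exact ⟨sigKt KK, hp_sts hties (y₀ := fun i => L.hd (dd i)) (fun z => (hNv z).symm) hr hi12
    (by rw [hi₁, hi₂, hh]) (by
      rw [hi₁, hA]
      exact hs2) (i₃ := i₃) (by
      rw [hi₃, hA]
      exact hs4)⟩

end Pool.Agent.H24.GI
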