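import Pool.Agent.H24.GI.F2c
import Pool.Agent.H24.GI.Lens

/-!
# JOB GI-21: a set which is left by two darts; lenses

`lens_cut`: let `x₁ ∈ Y`, `y ∉ Y` (`y ∈ D₀`). If `x₂ ∈ Y` then the two darts from `x₁` to `y` and the dart from `x₂` to `y` are in `bd L Y`
(`x₁ ≠ x₂`). If `x₂ ∉ Y`: for every `y' ∈ D₀ ∪ {t}` there is a dart in `bd L Y` between `y'` and `x₁` or `x₂`: from `y'` to `x₂` if
`y' ∈ Y`, from `x₁` to `y'` if `y' ∉ Y`; these are different darts for different `y'` (`x₁, x₂ ∉ D₀ ∪ {t}`), so there are at least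
`D₀.ncard + 1 ≥ 3`. The same with `x₁`, `x₂` exchanged.

`starS_two`. Every type `σ` with the source `cl t` has a dart `a σ` at `t` with the head in `S` (`star_type`), so there are at most two
such types (`hE`), and `num σ ≤ 2` for them; as `t` has at least three darts there are exactly two, `σ₁ ≠ σ₂`, and `a₁ = a σ₁`,
`a₂ = a σ₂` are all darts from `t` to `S`. Let `xᵢ = hd aᵢ`. If `x ∈ S` is in the class of `xᵢ` (`sc (bar σᵢ)`) then its dart to `t` is the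
reverse of a dart of type `σᵢ` (`nolive_eq`), which is `aᵢ`, so `x = xᵢ`.
(A) Suppose that for `i = 1` or `2` there is a dart `b ≠ aᵢ` at `t` of type `σᵢ` with `hd b ∈ C`. Let `τ = ζ = bar σᵢ`. `num σᵢ = 2`, so
`aᵢ`, `b` are all darts of type `σᵢ` at `t`. `GoodC L τ τ xᵢ`: as in `starS_three`; `nz` for `y = t`: `z = xᵢ` or `z = hd b`, `nbC`; `t2` for
`y = t`: `M τ xᵢ t = 1` (`aᵢ` is the only dart from `t` to `S` of type `σᵢ`), so `z = hd b ≠ xᵢ`; `sit_t2` for `aᵢ, b`: otherwise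
`bd L Y = {aᵢ, b}` contains the dart `aⱼ`, `j ≠ i`, contradiction (its type is `σⱼ`).
(B) Otherwise. `t` has at least three darts, so `num σᵢ = 2` for some `i`, let `i = 1`, with the second dart `b₁`, `hd b₁ ∉ C`, so
`b₁ ∈ bd L C`. If `num σ₂ = 2` then its second dart is in `bd L C` too, so it is `b₁` (`br`), contradiction. So `num σ₂ = 1`. Let `D₀` be the
set of the `y ∈ S` with `cl y = cl t`. For `y ∈ D₀` the darts of type `σᵢ` lead to `S`, so to `xᵢ`: `M σ₁ y x₁ = 2`, `M σ₂ y x₂ = 1`. The darts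
at `xᵢ` lead to `D₀ ∪ {t}` and have the type `bar σᵢ`; only one leads to `t`. `x₂` has at least three darts, and at most one to every
element of `D₀ ∪ {t}`, so `2 ≤ D₀.ncard`. `lens_cut` gives `Cut L 3 xᵢ {y}` for `y ∈ D₀`. The darts which leave `S` are the reverses of
`a₁`, `a₂`, so `¬ Cut L 3 xᵢ {t}`. Let `τ = bar σ₁`, `ζ = bar σ₂`, `x₀ = x₁`. `PStar L τ ζ x₁`: `nb`: `Nvc L univ x₁`. For an end `y` of `x₁` the
only `z` with `Dt L ζ z y` is `x₂` (for `y = t`: `num σ₂ = 1`); `nz`: `Nvc L univ x₂`; `eq`: both true for `y ∈ D₀`, both false for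
`y = t`. `τ ≠ ζ`, as `σ₁ ≠ σ₂`; `num (bar τ) = num σ₁ = 2 < 3 ≤ num τ`. `d₁`: a dart of type `τ` from `x₁` to some `y₁ ∈ D₀`, `d₂ ≠ d₃` two
darts of type `τ` from `x₁` to some `y₂ ∈ D₀`, `y₂ ≠ y₁`; `d₄ = rv a₁`.
-/

namespace Pool.Agent.H24.GI

open Pool.Agent.H24.GG Pool.Agent.H24.GH

variable {V D T K : Type} {L : LS V D T K}

/-- there is a lens -/
def FLens (L : LS V D T K) : Prop :=
  ∃ τ ζ x₀, L.sc (L.bar ζ) = L.sc (L.bar τ) ∧ τ ≠ ζ ∧ L.num (L.bar τ) < L.num τ ∧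
    PStar L τ ζ x₀ ∧
    ∃ d₁ d₂ d₃ d₄ : D, (L.tl d₁ = x₀ ∧ L.tl d₂ = x₀ ∧ L.tl d₃ = x₀ ∧ L.tl d₄ = x₀) ∧
      (L.ty d₁ = τ ∧ L.ty d₂ = τ ∧ L.ty d₃ = τ ∧ L.ty d₄ = τ) ∧ d₁ ≠ d₂ ∧ d₁ ≠ d₃ ∧ d₂ ≠ d₃ ∧
      L.hd d₂ = L.hd d₃ ∧ Cut L 3 x₀ {L.hd d₁} ∧ Cut L 3 x₀ {L.hd d₂} ∧ ¬ Cut L 3 x₀ {L.hd d₄}

variable [Finite V] [Finite D]

omit [Finite V] [Finite D] in
private theorem f2d_hd_rv (d : D) : L.hd (L.rv d) = L.tl d := by
  show L.tl (L.rv (L.rv d)) = L.tl d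
  rw [L.rv_rv]

omit [Finite V] [Finite D] in
private theorem f2d_rv_inj {a b : D} (h : L.rv a = L.rv b) : a = b := by
  rw [← L.rv_rv a, ← L.rv_rv b, h]

omit [Finite V] in
private theorem f2d_count {p q : V} {W Y : Set V} (hpW : p ∉ W) (hp : p ∈ Y) (hq : q ∉ Y)
    (h1 : ∀ y ∈ W, ∃ d, L.tl d = p ∧ L.hd d = y) (h2 : ∀ y ∈ W, ∃ d, L.tl d = q ∧ L.hd d = y) :
    W.ncard ≤ (bd L Y).ncard := by
  rcases W.eq_empty_or_nonempty with h0 | ⟨w, hw⟩
  · rw [h0, Set.ncard_empty]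
    exact Nat.zero_le _
  have key : ∀ y ∈ W, ∃ d, d ∈ bd L Y ∧ (L.tl d = y ∨ (L.tl d = p ∧ L.hd d = y)) := by
    intro y hy
    by_cases hY : y ∈ Y
    · obtain ⟨d, hd1, hd2⟩ := h2 y hy
      have hd3 : L.tl (L.rv d) = y := hd2
      refine ⟨L.rv d, ⟨?_, ?_⟩, Or.inl hd3⟩
      · rw [hd3]
        exact hY
      · rw [f2d_hd_rv, hd1]
        exact hq
    · obtain ⟨d, hd1, hd2⟩ := h1 y hy
      refine ⟨d, ⟨?_, ?_⟩, Or.inr ⟨hd1, hd2⟩⟩
      · rw [hd1]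
        exact hp
      · rw [hd2]
        exact hY
  obtain ⟨d₀, -⟩ := key w hw
  have : Nonempty D := ⟨d₀⟩
  choose! f hf using key
  refine Set.ncard_le_ncard_of_injOn f (fun y hy => (hf y hy).1) ?_ (Set.toFinite _)
  intro y hy y' hy' he
  have e1 := (hf y hy).2
  have e2 := (hf y' hy').2
  rw [← he] at e2
  rcases e1 with e1 | e1 <;> rcases e2 with e2 | e2
  · exact e1.symm.trans e2
  · exact absurd (show p ∈ W by rw [← e2.1, e1]; exact hy) hpW
  · exact absurd (show p ∈ W by rw [← e1.1, e2]; exact hy') hpW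
  · exact e1.2.symm.trans e2.2

private theorem f2d_insert {t : V} {D₀ : Set V} (ht : t ∉ D₀) (h5 : 2 ≤ D₀.ncard) :
    3 ≤ (insert t D₀).ncard := by
  rw [Set.ncard_insert_of_notMem ht (Set.toFinite _)]
  omega

theorem lens_cut {x₁ x₂ t : V} {D₀ : Set V} (hx : x₁ ≠ x₂) (hx₁ : x₁ ∉ D₀) (hx₂ : x₂ ∉ D₀)
    (ht : t ∉ D₀) (ht1 : t ≠ x₁) (ht2 : t ≠ x₂)
    (h1 : ∀ y ∈ D₀, 2 ≤ {d | L.tl d = x₁ ∧ L.hd d = y}.ncard)
    (h2 : ∀ y ∈ D₀, ∃ d, L.tl d = x₂ ∧ L.hd d = y) (h3 : ∃ d, L.tl d = x₁ ∧ L.hd d = t)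
    (h4 : ∃ d, L.tl d = x₂ ∧ L.hd d = t) (h5 : 2 ≤ D₀.ncard) {y : V} (hy : y ∈ D₀) :
    Cut L 3 x₁ {y} ∧ Cut L 3 x₂ {y} := by
  have h1' : ∀ y ∈ D₀, ∃ d, L.tl d = x₁ ∧ L.hd d = y := by
    intro y hy
    have h6 := h1 y hy
    exact Set.nonempty_of_ncard_ne_zero (s := {d | L.tl d = x₁ ∧ L.hd d = y}) (by omega)
  have hA : ∀ y' ∈ insert t D₀, ∃ d, L.tl d = x₁ ∧ L.hd d = y' := by
    rintro y' (rfl | h)
    · exact h3
    · exact h1' y' h
  have hB : ∀ y' ∈ insert t D₀, ∃ d, L.tl d = x₂ ∧ L.hd d = y' := by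
    rintro y' (rfl | h)
    · exact h4
    · exact h2 y' h
  have hx₁' : x₁ ∉ insert t D₀ := by
    rintro (h | h)
    · exact ht1 h.symm
    · exact hx₁ h
  have hx₂' : x₂ ∉ insert t D₀ := by
    rintro (h | h)
    · exact ht2 h.symm
    · exact hx₂ h
  have h6 := f2d_insert ht h5
  have hboth : ∀ Y : Set V, x₁ ∈ Y → x₂ ∈ Y → y ∉ Y → 3 ≤ (bd L Y).ncard := by
    intro Y e1 e2 e3
    obtain ⟨d, hd1, hd2⟩ := h2 y hy
    have h7 : d ∉ {d | L.tl d = x₁ ∧ L.hd d = y} := fun h => hx (h.1.symm.trans hd1)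
    have h8 : insert d {d | L.tl d = x₁ ∧ L.hd d = y} ⊆ bd L Y := by
      rintro d' (rfl | h)
      · exact ⟨by rw [hd1]; exact e2, by rw [hd2]; exact e3⟩
      · exact ⟨by rw [h.1]; exact e1, by rw [h.2]; exact e3⟩
    have h9 := Set.ncard_le_ncard h8 (Set.toFinite _)
    rw [Set.ncard_insert_of_notMem h7 (Set.toFinite _)] at h9
    have := h1 y hy
    omega
  constructor
  · intro Y e1 e2
    have e3 : y ∉ Y := e2 y rfl
    by_cases h7 : x₂ ∈ Y
    · exact hboth Y e1 h7 e3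
    · exact h6.trans (f2d_count hx₁' e1 h7 hA hB)
  · intro Y e1 e2
    have e3 : y ∉ Y := e2 y rfl
    by_cases h7 : x₁ ∈ Y
    · exact hboth Y h7 e1 e3
    · exact h6.trans (f2d_count hx₂' e1 h7 hB hA)

/-! ## cuts at a vertex which is not a cut vertex -/

omit [Finite V] in
private theorem f2d_cut2 {x : V} (h : Nvc L Set.univ x) {d : D} (hd : L.tl d = x) :
    Cut L 2 x {L.hd d} := by
  intro Y h1 h2
  have h3 : L.hd d ∉ Y := h2 _ rfl
  rcases h Y h1 ⟨L.hd d, Set.mem_univ _, h3⟩ with ⟨e, he, hne⟩ | h4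
  · have h5 : ({d, e} : Set D) ⊆ bd L Y := by
      rintro d' (rfl | rfl)
      · exact ⟨by rw [hd]; exact h1, h3⟩
      · exact he
    have h6 := Set.ncard_le_ncard h5 (Set.toFinite _)
    have h7 : d ≠ e := fun h => hne (by rw [← h]; exact hd)
    rwa [Set.ncard_pair h7] at h6
  · omega

omit [Finite V] in
private theorem f2d_cut3 {x : V} (h : Nvc L Set.univ x) {d d' : D} (hd : L.tl d = x)
    (hd' : L.tl d' = x) (hne : d ≠ d') : Cut L 3 x {L.hd d, L.hd d'} := by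
  intro Y h1 h2
  have h3 : L.hd d ∉ Y := h2 _ (Or.inl rfl)
  have h3' : L.hd d' ∉ Y := h2 _ (Or.inr rfl)
  rcases h Y h1 ⟨L.hd d, Set.mem_univ _, h3⟩ with ⟨e, he, hn⟩ | h4
  · have h5 : ({d, d', e} : Set D) ⊆ bd L Y := by
      rintro a (rfl | rfl | rfl)
      · exact ⟨by rw [hd]; exact h1, h3⟩
      · exact ⟨by rw [hd']; exact h1, h3'⟩
      · exact he
    have h6 := Set.ncard_le_ncard h5 (Set.toFinite _)
    have h7 : d ≠ e := fun h => hn (by rw [← h]; exact hd)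
    have h8 : d' ≠ e := fun h => hn (by rw [← h]; exact hd')
    have h9 : d ∉ ({d', e} : Set D) := by
      rintro (h | h)
      · exact hne h
      · exact h7 h
    rwa [Set.ncard_insert_of_notMem h9 (Set.toFinite _), Set.ncard_pair h8] at h6
  · exact h4

omit [Finite V] in
/-- the two darts for `Sub2` -/
private theorem f2d_two {τ ζ : T} {x y z : V} (hy : Dt L τ x y) (hz : Dt L ζ x z)
    (h : ζ = τ → z = y → 2 ≤ L.M τ x y) :
    ∃ d d', L.tl d = x ∧ L.tl d' = x ∧ L.hd d = y ∧ L.hd d' = z ∧ d ≠ d' := by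
  obtain ⟨d, h1, h2, h3⟩ := hy
  obtain ⟨d', h4, h5, h6⟩ := hz
  by_cases he : d = d'
  · subst he
    have h7 := h (h6.symm.trans h3) (h5.symm.trans h2)
    obtain ⟨a, b, ha, hb, hab⟩ := (Set.one_lt_ncard_iff (Set.toFinite _)).1
      (show 1 < {d | L.tl d = x ∧ L.ty d = τ ∧ L.hd d = y}.ncard from h7)
    refine ⟨a, b, ha.1, hb.1, ha.2.2, ?_, hab⟩
    rw [hb.2.2, ← h2, h5]
  · exact ⟨d, d', h1, h4, h2, h5, he⟩

/-! ## two types -/

/-- all darts from `t` to `S` are `a` and `b` -/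
private structure F2D (L : LS V D T K) (S : Set V) (t : V) (a b : D) : Prop where
  tla : L.tl a = t
  tlb : L.tl b = t
  hda : L.hd a ∈ S
  hdb : L.hd b ∈ S
  ne : L.ty a ≠ L.ty b
  al : ∀ d, L.tl d = t → L.hd d ∈ S → d = a ∨ d = b
  ty : ∀ d, L.tl d = t → L.ty d = L.ty a ∨ L.ty d = L.ty b
  na : L.num (L.ty a) ≤ 2
  nb : L.num (L.ty b) ≤ 2
  ma : 3 ≤ L.num (L.bar (L.ty a))
  mb : 3 ≤ L.num (L.bar (L.ty b))
  ca : L.cl (L.hd a) ≠ L.cl t
  cb : L.cl (L.hd b) ≠ L.cl t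
  ta : ∀ d, L.tl d = L.hd a → L.ty d = L.bar (L.ty a)
  tb : ∀ d, L.tl d = L.hd b → L.ty d = L.bar (L.ty b)

omit [Finite V] [Finite D] in
private theorem F2D.swap {S : Set V} {t : V} {a b : D} (h : F2D L S t a b) : F2D L S t b a :=
  ⟨h.tlb, h.tla, h.hdb, h.hda, h.ne.symm, fun d h1 h2 => (h.al d h1 h2).symm,
    fun d h1 => (h.ty d h1).symm, h.nb, h.na, h.mb, h.ma, h.cb, h.ca, h.tb, h.ta⟩

omit [Finite V] [Finite D] in
private theorem f2d_cl (a : D) {t : V} (h : L.tl a = t) : L.cl t = L.sc (L.ty a) := by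
  rw [← h, L.cl_tl]

omit [Finite V] [Finite D] in
private theorem F2D.uniq {S : Set V} {t : V} {a b : D} (h : F2D L S t a b) (hn : NoLive L)
    (hS : StarS L S t) {x : V} (hx : x ∈ S) (hc : L.cl x = L.cl (L.hd a)) : x = L.hd a := by
  obtain ⟨d, hd1, hd2⟩ := hS.xt x hx (by rw [hc]; exact h.ca)
  have h1 : L.ty d = L.bar (L.ty a) := by
    apply nolive_eq hn
    · rw [← L.cl_tl, hd1, hc, f2b_hd]
    · rw [← f2b_hd, hd2, L.bar_bar]
      exact f2d_cl a h.tla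
  have h2 : L.tl (L.rv d) = t := hd2
  have h3 : L.hd (L.rv d) ∈ S := by
    rw [f2d_hd_rv, hd1]
    exact hx
  have h4 : L.ty (L.rv d) = L.ty a := by rw [L.ty_rv, h1, L.bar_bar]
  rcases h.al _ h2 h3 with h5 | h5
  · rw [← h5, f2d_hd_rv, hd1]
  · exfalso
    apply h.ne
    rw [← h4, h5]

omit [Finite V] [Finite D] in
private theorem F2D.xne {S : Set V} {t : V} {a b : D} (h : F2D L S t a b) :
    L.hd a ≠ L.hd b := by
  intro he
  apply h.ne
  have h1 := h.ta (L.rv a) rfl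
  have h2 := h.tb (L.rv a) he
  rw [h1] at h2
  rw [← L.bar_bar (L.ty a), h2, L.bar_bar]

/-- case (A) -/
private theorem F2D.good {C S : Set V} {t : V} {a b : D} (h : F2D L S t a b)
    (h2 : ∀ t, L.num t ≤ 2 ∨ L.num (L.bar t) ≤ 2) (hC : SitF L C S t) {b' : D}
    (hb1 : L.tl b' = t) (hb2 : L.ty b' = L.ty a) (hb3 : b' ≠ a) (hb4 : L.hd b' ∈ C) :
    FGood L := by
  have hset : {d | L.tl d = t ∧ L.ty d = L.ty a}.ncard = L.num (L.ty a) :=
    L.num_eq _ _ (f2d_cl a h.tla)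
  have hsub : ({a, b'} : Set D) ⊆ {d | L.tl d = t ∧ L.ty d = L.ty a} := by
    rintro d (rfl | rfl)
    · exact ⟨h.tla, rfl⟩
    · exact ⟨hb1, hb2⟩
  have hpair : ({a, b'} : Set D).ncard = 2 := Set.ncard_pair hb3.symm
  have hnum : L.num (L.ty a) = 2 := by
    have h4 := Set.ncard_le_ncard hsub (Set.toFinite _)
    have h5 := h.na
    rw [hpair, hset] at h4
    omega
  have hall : ∀ d, L.tl d = t → L.ty d = L.ty a → d = a ∨ d = b' := by
    intro d h4 h5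
    have h6 := Set.eq_of_subset_of_ncard_le hsub (by rw [hset, hnum, hpair]) (Set.toFinite _)
    have h7 : d ∈ ({a, b'} : Set D) := by
      rw [h6]
      exact ⟨h4, h5⟩
    exact h7
  have hxS := h.hda
  have hnx : Nvc L Set.univ (L.hd a) := hC.nv _ hxS
  have hDt : Dt L (L.bar (L.ty a)) (L.hd a) t := by
    refine ⟨L.rv a, rfl, ?_, L.ty_rv a⟩
    rw [f2d_hd_rv]
    exact h.tla
  have hM1 : L.M (L.bar (L.ty a)) (L.hd a) t ≤ 1 := by
    rw [M_bar]
    unfold LS.M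
    have h4 : {d | L.tl d = t ∧ L.ty d = L.ty a ∧ L.hd d = L.hd a} ⊆ {a} := by
      rintro d ⟨h5, h6, h7⟩
      rcases h.al d h5 (by rw [h7]; exact hxS) with h8 | h8
      · exact h8
      · exfalso
        apply h.ne
        rw [← h6, h8]
    have h5 := Set.ncard_le_ncard h4 (Set.toFinite _)
    rwa [Set.ncard_singleton] at h5
  have hend : ∀ y, Dt L (L.bar (L.ty a)) (L.hd a) y → y ∈ S ∨ y = t := by
    rintro y ⟨d, h4, rfl, -⟩
    exact hC.cl d (by rw [h4]; exact hxS)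
  refine ⟨L.bar (L.ty a), L.bar (L.ty a), L.hd a, ⟨?_, ?_, ?_, ?_, ?_, ?_⟩, h.ma, rfl, ?_⟩
  · exact f2b_hd a
  · by_contra hs
    have h4 := supp_one (show supp L (L.bar (L.ty a)) (L.hd a) ≤ 1 by omega) hDt
    have h5 := f2_M h2 (L.bar (L.ty a)) (L.hd a) t
    have h6 := h.ma
    omega
  · rintro y ⟨d, h4, rfl, -⟩
    exact f2d_cut2 hnx h4
  · intro y z hy hz
    rcases hend y hy with h4 | h4
    · obtain ⟨d, h5, rfl, -⟩ := dt_symm hz
      exact cut_symm (f2d_cut2 (hC.nv y h4) h5)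
    · subst h4
      obtain ⟨d, h5, rfl, h6⟩ := dt_symm hz
      rw [L.bar_bar] at h6
      rcases hall d h5 h6 with h7 | h7
      · have h8 := hC.nbC a (by rw [h.tla]; exact hC.tC) (hC.SC h.hda)
        rw [h.tla] at h8
        rw [h7]
        exact cut_symm h8
      · have h8 := hC.nbC b' (by rw [hb1]; exact hC.tC) hb4
        rw [hb1] at h8
        rw [h7]
        exact cut_symm h8
  · intro y y' hyy
    obtain ⟨d, d', h4, h5, rfl, rfl, h6⟩ := f2d_two hyy.1 hyy.2.1 (fun _ he => hyy.2.2 he.symm)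
    exact f2d_cut3 hnx h4 h5 h6
  · intro y z hy hz hyz
    rcases hend y hy with h4 | h4
    · obtain ⟨d, d', h5, h6, h7, h8, h9⟩ := f2d_two (dt_symm hy) (dt_symm hz) (fun _ he => by
        rw [M_bar]
        exact hyz rfl he)
      have h10 := f2d_cut3 (hC.nv y h4) h5 h6 h9
      rwa [h7, h8] at h10
    · subst h4
      have hzx : z ≠ L.hd a := by
        intro he
        have := hyz rfl he
        omega
      obtain ⟨d, h5, h5', h6⟩ := dt_symm hz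
      rw [L.bar_bar] at h6
      have hd : d = b' := by
        rcases hall d h5 h6 with h7 | h7
        · exact absurd (by rw [← h5', h7]) hzx
        · exact h7
      intro Y hY1 hY2
      have h7 : L.hd a ∉ Y := hY2 _ (Or.inl rfl)
      have h8 : L.hd b' ∉ Y := by
        rw [← hd, h5']
        exact hY2 _ (Or.inr rfl)
      rcases sit_t2 hC h.tla hb1 hb3.symm hxS hY1 h7 h8 with h9 | ⟨h9, h10⟩
      · exact h9
      · exfalso
        have h11 : b ∈ bd L Y := ⟨by rw [h.tlb]; exact hY1, h10 _ h.hdb⟩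
        rw [h9] at h11
        rcases h11 with h12 | h12
        · exact h.ne (by rw [h12])
        · have h13 : b = b' := h12
          exact h.ne (by rw [h13, hb2])
  · intro _
    rw [L.bar_bar, hnum]

/-- case (B) -/
private theorem F2D.lens {C S : Set V} {t : V} {a b : D} (h : F2D L S t a b) (hn : NoLive L)
    (h3 : ∀ x, 3 ≤ {d | L.tl d = x}.ncard) (hC : SitF L C S t) (hS : StarS L S t)
    (ha : L.num (L.ty a) = 2) (hb : L.num (L.ty b) = 1) : FLens L := by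
  have hct : L.cl t = L.sc (L.ty a) := f2d_cl a h.tla
  have hct' : L.cl t = L.sc (L.ty b) := f2d_cl b h.tlb
  obtain ⟨D₀, hD⟩ : ∃ D₀ : Set V, D₀ = {y | y ∈ S ∧ L.cl y = L.cl t} := ⟨_, rfl⟩
  have hDS : ∀ y ∈ D₀, y ∈ S ∧ L.cl y = L.cl t := by
    intro y hy
    rw [hD] at hy
    exact hy
  -- the darts at the elements of `D₀`
  have hya : ∀ y ∈ D₀, ∀ d, L.tl d = y → L.ty d = L.ty a → L.hd d = L.hd a := by
    intro y hy d h4 h5
    refine h.uniq hn hS (hS.yy y (hDS y hy).1 (hDS y hy).2 d h4).1 ?_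
    rw [f2b_hd, f2b_hd, h5]
  have hyb : ∀ y ∈ D₀, ∀ d, L.tl d = y → L.ty d = L.ty b → L.hd d = L.hd b := by
    intro y hy d h4 h5
    refine h.swap.uniq hn hS (hS.yy y (hDS y hy).1 (hDS y hy).2 d h4).1 ?_
    rw [f2b_hd, f2b_hd, h5]
  -- the darts at `x₁`, `x₂`
  have hxend : ∀ x ∈ S, L.cl x ≠ L.cl t → ∀ d, L.tl d = x → L.hd d ∈ insert t D₀ := by
    intro x hx hc d hd
    have h4 := hS.xc x hx hc d hd
    rcases hC.cl d (by rw [hd]; exact hx) with h5 | h5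
    · right
      rw [hD]
      exact ⟨h5, h4⟩
    · exact Or.inl h5
  have htD : t ∉ D₀ := fun h4 => hC.tS (hDS t h4).1
  have hclD : ∀ y ∈ insert t D₀, L.cl y = L.cl t := by
    rintro y (rfl | h4)
    · rfl
    · exact (hDS y h4).2
  have hxa : L.hd a ∉ D₀ := fun h4 => h.ca (hDS _ h4).2
  have hxb : L.hd b ∉ D₀ := fun h4 => h.cb (hDS _ h4).2
  have hta : t ≠ L.hd a := fun h4 => hC.tS (by rw [h4]; exact h.hda)
  have htb : t ≠ L.hd b := fun h4 => hC.tS (by rw [h4]; exact h.hdb)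
  -- the number of the elements of `D₀`
  have hinj : ∀ y ∈ insert t D₀, ∀ d d', L.tl d = L.hd b → L.tl d' = L.hd b → L.hd d = y →
      L.hd d' = y → d = d' := by
    intro y hy d d' e1 e2 e3 e4
    have e5 : {d | L.tl d = y ∧ L.ty d = L.ty b}.ncard = 1 := by
      rw [L.num_eq y (L.ty b) (by rw [hclD y hy]; exact hct'), hb]
    obtain ⟨u, hu⟩ := Set.ncard_eq_one.1 e5
    have key : ∀ d, L.tl d = L.hd b → L.hd d = y → L.rv d = u := by
      intro d e6 e7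
      have e8 : L.rv d ∈ {d | L.tl d = y ∧ L.ty d = L.ty b} := by
        refine ⟨e7, ?_⟩
        rw [L.ty_rv, h.tb d e6, L.bar_bar]
      rw [hu] at e8
      exact e8
    exact f2d_rv_inj (L := L) ((key d e1 e3).trans (key d' e2 e4).symm)
  have hD2 : 2 ≤ D₀.ncard := by
    have h4 : {d | L.tl d = L.hd b}.ncard ≤ (insert t D₀).ncard := by
      refine Set.ncard_le_ncard_of_injOn L.hd ?_ ?_ (Set.toFinite _)
      · intro d hd
        exact hxend _ h.hdb h.cb d hd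
      · intro d hd d' hd' he
        exact hinj (L.hd d) (hxend _ h.hdb h.cb d hd) d d' hd hd' rfl he.symm
    rw [Set.ncard_insert_of_notMem htD (Set.toFinite _)] at h4
    have := h3 (L.hd b)
    omega
  -- the darts from `x₁`, `x₂` to `D₀`
  have hto1 : ∀ y ∈ D₀, 2 ≤ {d | L.tl d = L.hd a ∧ L.hd d = y}.ncard := by
    intro y hy
    have e5 : {d | L.tl d = y ∧ L.ty d = L.ty a}.ncard = 2 := by
      rw [L.num_eq y (L.ty a) (by rw [(hDS y hy).2]; exact hct), ha]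
    rw [← e5]
    refine Set.ncard_le_ncard_of_injOn L.rv ?_ ?_ (Set.toFinite _)
    · rintro d ⟨h4, h5⟩
      refine ⟨hya y hy d h4 h5, ?_⟩
      rw [f2d_hd_rv, h4]
    · intro d _ d' _ he
      exact f2d_rv_inj he
  have hto2 : ∀ y ∈ D₀, ∃ d, L.tl d = L.hd b ∧ L.hd d = y := by
    intro y hy
    have e5 : {d | L.tl d = y ∧ L.ty d = L.ty b}.ncard = 1 := by
      rw [L.num_eq y (L.ty b) (by rw [(hDS y hy).2]; exact hct'), hb]
    obtain ⟨u, hu⟩ := Set.nonempty_of_ncard_ne_zero (show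
      {d | L.tl d = y ∧ L.ty d = L.ty b}.ncard ≠ 0 by omega)
    refine ⟨L.rv u, hyb y hy u hu.1 hu.2, ?_⟩
    rw [f2d_hd_rv, hu.1]
  have hcut : ∀ y ∈ D₀, Cut L 3 (L.hd a) {y} ∧ Cut L 3 (L.hd b) {y} := by
    intro y hy
    refine lens_cut h.xne hxa hxb htD hta htb hto1 hto2 ⟨L.rv a, rfl, ?_⟩ ⟨L.rv b, rfl, ?_⟩
      hD2 hy
    · rw [f2d_hd_rv]
      exact h.tla
    · rw [f2d_hd_rv]
      exact h.tlb
  -- the cut `S`
  have hbdS : (bd L S).ncard ≤ 2 := by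
    have h4 : bd L S ⊆ {L.rv a, L.rv b} := by
      rintro d ⟨h5, h6⟩
      have h7 : L.tl (L.rv d) = t := by
        rcases hC.cl d h5 with h8 | h8
        · exact absurd h8 h6
        · exact h8
      rcases h.al (L.rv d) h7 (by rw [f2d_hd_rv]; exact h5) with h8 | h8
      · left
        rw [← h8, L.rv_rv]
      · right
        rw [← h8, L.rv_rv]
        rfl
    calc (bd L S).ncard ≤ ({L.rv a, L.rv b} : Set D).ncard :=
          Set.ncard_le_ncard h4 (Set.toFinite _)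
      _ ≤ ({L.rv b} : Set D).ncard + 1 := Set.ncard_insert_le _ _
      _ ≤ 2 := by rw [Set.ncard_singleton]
  have hncut : ∀ x ∈ S, ¬ Cut L 3 x {t} := by
    intro x hx h4
    have h5 := h4 S hx (fun y hy => by
      have h6 : y = t := hy
      rw [h6]
      exact hC.tS)
    omega
  -- the ends of the darts of type `ζ`
  have hzb : ∀ y z, Dt L (L.bar (L.ty a)) (L.hd a) y → Dt L (L.bar (L.ty b)) z y →
      y ∈ insert t D₀ ∧ z = L.hd b ∧ ∃ d, L.tl d = L.hd b ∧ L.hd d = y := by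
    intro y z hy hz
    have hy' : y ∈ insert t D₀ := by
      obtain ⟨d, h4, rfl, -⟩ := hy
      exact hxend _ h.hda h.ca d h4
    obtain ⟨d, h4, h5, h6⟩ := dt_symm hz
    rw [L.bar_bar] at h6
    have hz' : z = L.hd b := by
      rcases hy' with h7 | h7
      · have e5 : {d | L.tl d = t ∧ L.ty d = L.ty b}.ncard = 1 := by
          rw [L.num_eq t (L.ty b) hct', hb]
        obtain ⟨u, hu⟩ := Set.ncard_eq_one.1 e5
        have e6 : d ∈ {d | L.tl d = t ∧ L.ty d = L.ty b} := ⟨h4.trans h7, h6⟩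
        have e7 : b ∈ {d | L.tl d = t ∧ L.ty d = L.ty b} := ⟨h.tlb, rfl⟩
        rw [hu] at e6 e7
        have e8 : d = u := e6
        have e9 : b = u := e7
        rw [← h5, e8, e9]
      · rw [← h5]
        exact hyb y h7 d h4 h6
    refine ⟨hy', hz', L.rv d, ?_, ?_⟩
    · rw [← hz']
      exact h5
    · rw [f2d_hd_rv]
      exact h4
  have hnxa : Nvc L Set.univ (L.hd a) := hC.nv _ h.hda
  have hnxb : Nvc L Set.univ (L.hd b) := hC.nv _ h.hdb
  have hstar : PStar L (L.bar (L.ty a)) (L.bar (L.ty b)) (L.hd a) := by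
    refine ⟨f2b_hd a, ?_, ?_, ?_⟩
    · rintro y ⟨d, h4, rfl, -⟩
      exact f2d_cut2 hnxa h4
    · intro y z hy hz
      obtain ⟨-, h4, d, h5, h6⟩ := hzb y z hy hz
      rw [h4, ← h6]
      exact f2d_cut2 hnxb h5
    · intro y z hy hz
      obtain ⟨h4, h5, -⟩ := hzb y z hy hz
      rw [h5]
      rcases h4 with h6 | h6
      · rw [h6]
        exact iff_of_false (hncut _ h.hda) (hncut _ h.hdb)
      · exact iff_of_true (hcut y h6).1 (hcut y h6).2
  -- the four darts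
  obtain ⟨y₁, y₂, hy1, hy2, hyne⟩ := (Set.one_lt_ncard_iff (Set.toFinite D₀)).1
    (show 1 < D₀.ncard by omega)
  have hne1 := hto1 y₁ hy1
  obtain ⟨d₁, hd1⟩ := Set.nonempty_of_ncard_ne_zero (show
    {d | L.tl d = L.hd a ∧ L.hd d = y₁}.ncard ≠ 0 by omega)
  have hne2 := hto1 y₂ hy2
  obtain ⟨d₂, d₃, hd2, hd3, h23⟩ := (Set.one_lt_ncard_iff (Set.toFinite _)).1
    (show 1 < {d | L.tl d = L.hd a ∧ L.hd d = y₂}.ncard by omega)
  refine ⟨L.bar (L.ty a), L.bar (L.ty b), L.hd a, ?_, ?_, ?_, hstar, d₁, d₂, d₃, L.rv a,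
    ⟨hd1.1, hd2.1, hd3.1, rfl⟩, ⟨h.ta _ hd1.1, h.ta _ hd2.1, h.ta _ hd3.1, L.ty_rv a⟩, ?_, ?_, h23,
    hd2.2.trans hd3.2.symm, ?_, ?_, ?_⟩
  · rw [L.bar_bar, L.bar_bar, ← hct, hct']
  · intro h4
    apply h.ne
    rw [← L.bar_bar (L.ty a), h4, L.bar_bar]
  · rw [L.bar_bar, ha]
    have := h.ma
    omega
  · intro h4
    apply hyne
    rw [← hd1.2, ← hd2.2, h4]
  · intro h4
    apply hyne
    rw [← hd1.2, ← hd3.2, h4]
  · rw [hd1.2]
    exact (hcut y₁ hy1).1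
  · rw [hd2.2]
    exact (hcut y₂ hy2).1
  · rw [f2d_hd_rv, h.tla]
    exact hncut _ h.hda

omit [Finite V] [Finite D] in
private theorem f2d_second {t : V} {a : D} (hta : L.tl a = t) (h : L.num (L.ty a) = 2) :
    ∃ b', L.tl b' = t ∧ L.ty b' = L.ty a ∧ b' ≠ a := by
  have h1 : {d | L.tl d = t ∧ L.ty d = L.ty a}.ncard = 2 := by
    rw [L.num_eq _ _ (f2d_cl a hta), h]
  obtain ⟨b', h2, h3⟩ := Set.exists_ne_of_one_lt_ncard (show
    1 < {d | L.tl d = t ∧ L.ty d = L.ty a}.ncard by omega) a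
  exact ⟨b', h2.1, h2.2, h3⟩

private theorem F2D.fin {C S : Set V} {t : V} {a b : D} (h : F2D L S t a b) (hn : NoLive L)
    (h3 : ∀ x, 3 ≤ {d | L.tl d = x}.ncard) (hC : SitF L C S t) (hS : StarS L S t)
    (ha : L.num (L.ty a) = 2) (hA : ∀ b', L.tl b' = t → L.ty b' = L.ty a → b' ≠ a → L.hd b' ∉ C)
    (hB : ∀ b', L.tl b' = t → L.ty b' = L.ty b → b' ≠ b → L.hd b' ∉ C) : FLens L := by
  refine h.lens hn h3 hC hS ha ?_
  by_contra hb
  have hb2 : L.num (L.ty b) = 2 := by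
    have h4 := h.nb
    have h5 := L.num_pos (L.ty b)
    omega
  obtain ⟨b₁, h4, h5, h6⟩ := f2d_second h.tla ha
  obtain ⟨b₂, h7, h8, h9⟩ := f2d_second h.tlb hb2
  have h10 : b₁ = b₂ := by
    refine hC.br b₁ ⟨?_, hA b₁ h4 h5 h6⟩ b₂ ⟨?_, hB b₂ h7 h8 h9⟩
    · rw [h4]
      exact hC.tC
    · rw [h7]
      exact hC.tC
  apply h.ne
  rw [← h5, ← h8, h10]

theorem starS_two (hn : NoLive L) (hp : NoPal L) (h3 : ∀ x, 3 ≤ {d | L.tl d = x}.ncard)
    (h2 : ∀ t, L.num t ≤ 2 ∨ L.num (L.bar t) ≤ 2) {C S : Set V} {t : V} (hC : SitF L C S t)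
    (hS : StarS L S t) (hE : {d | L.tl d = t ∧ L.hd d ∈ S}.ncard ≤ 2) :
    FGood L ∨ FLens L := by
  obtain ⟨e₁, he1⟩ := f2b_dart h3 t
  have hst := fun {σ : T} => star_type hn h3 h2 hS (σ := σ)
  obtain ⟨n1, m1, a, ta1, ta2, ta3, ta4, ta5⟩ := hst (f2d_cl e₁ he1).symm
  obtain ⟨e₂, he2, hne2⟩ : ∃ d, L.tl d = t ∧ L.ty d ≠ L.ty e₁ := by
    by_contra hcon
    have e : {d | L.tl d = t ∧ L.ty d = L.ty e₁} = {d | L.tl d = t} := by
      ext d
      refine ⟨fun h => h.1, fun h => ⟨h, ?_⟩⟩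
      by_contra h6
      exact hcon ⟨d, h, h6⟩
    have h4 := L.num_eq t (L.ty e₁) (f2d_cl e₁ he1)
    rw [e] at h4
    have := h3 t
    omega
  obtain ⟨n2, m2, b, tb1, tb2, tb3, tb4, tb5⟩ := hst (f2d_cl e₂ he2).symm
  have hty : L.ty a ≠ L.ty b := by
    rw [ta2, tb2]
    exact hne2.symm
  have hab : a ≠ b := fun h4 => hty (by rw [h4])
  have hsub : ({a, b} : Set D) ⊆ {d | L.tl d = t ∧ L.hd d ∈ S} := by
    rintro d (rfl | rfl)
    · exact ⟨ta1, ta3⟩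
    · exact ⟨tb1, tb3⟩
  have hEq := Set.eq_of_subset_of_ncard_le hsub (by rw [Set.ncard_pair hab]; exact hE)
    (Set.toFinite _)
  have hal : ∀ d, L.tl d = t → L.hd d ∈ S → d = a ∨ d = b := by
    intro d h4 h5
    have h6 : d ∈ ({a, b} : Set D) := by
      rw [hEq]
      exact ⟨h4, h5⟩
    exact h6
  have hallty : ∀ d, L.tl d = t → L.ty d = L.ty a ∨ L.ty d = L.ty b := by
    intro d hd
    obtain ⟨-, -, u, u1, u2, u3, -, -⟩ := hst (f2d_cl d hd).symm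
    rcases hal u u1 u3 with h4 | h4
    · left
      rw [← u2, h4]
    · right
      rw [← u2, h4]
  have hF : F2D L S t a b := by
    refine ⟨ta1, tb1, ta3, tb3, hty, hal, hallty, ?_, ?_, ?_, ?_, ta4, tb4, ?_, ?_⟩
    · rw [ta2]
      exact n1
    · rw [tb2]
      exact n2
    · rw [ta2]
      exact m1
    · rw [tb2]
      exact m2
    · intro d hd
      rw [ta2]
      exact ta5 d hd
    · intro d hd
      rw [tb2]
      exact tb5 d hd
  by_cases hA : ∃ b', L.tl b' = t ∧ L.ty b' = L.ty a ∧ b' ≠ a ∧ L.hd b' ∈ C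
  · obtain ⟨b', h4, h5, h6, h7⟩ := hA
    exact Or.inl (hF.good h2 hC h4 h5 h6 h7)
  by_cases hB : ∃ b', L.tl b' = t ∧ L.ty b' = L.ty b ∧ b' ≠ b ∧ L.hd b' ∈ C
  · obtain ⟨b', h4, h5, h6, h7⟩ := hB
    exact Or.inl (hF.swap.good h2 hC h4 h5 h6 h7)
  have hA' : ∀ b', L.tl b' = t → L.ty b' = L.ty a → b' ≠ a → L.hd b' ∉ C :=
    fun b' h4 h5 h6 h7 => hA ⟨b', h4, h5, h6, h7⟩
  have hB' : ∀ b', L.tl b' = t → L.ty b' = L.ty b → b' ≠ b → L.hd b' ∉ C :=
    fun b' h4 h5 h6 h7 => hB ⟨b', h4, h5, h6, h7⟩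
  right
  by_cases hna : L.num (L.ty a) = 2
  · exact hF.fin hn h3 hC hS hna hA' hB'
  · have hnb : L.num (L.ty b) = 2 := by
      by_contra hnb
      have e1 := L.num_eq t (L.ty a) (f2d_cl a ta1)
      have e2 := L.num_eq t (L.ty b) (f2d_cl b tb1)
      have e3 : {d | L.tl d = t} ⊆ {d | L.tl d = t ∧ L.ty d = L.ty a} ∪
          {d | L.tl d = t ∧ L.ty d = L.ty b} := by
        intro d hd
        rcases hallty d hd with h4 | h4
        · exact Or.inl ⟨hd, h4⟩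
        · exact Or.inr ⟨hd, h4⟩
      have e4 := Set.ncard_le_ncard e3 (Set.toFinite _)
      have e5 := Set.ncard_union_le {d | L.tl d = t ∧ L.ty d = L.ty a}
        {d | L.tl d = t ∧ L.ty d = L.ty b}
      have e6 := h3 t
      have e7 := hF.na
      have e8 := hF.nb
      omega
    exact hF.swap.fin hn h3 hC hS hnb hB' hA'

end Pool.Agent.H24.GI
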