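import Pool.Agent.H24.GI.SigK
import Pool.Agent.H24.GI.SCol

/-!
# JOB GI-13: hardness at a vertex with a pendant

`y₀` has an end `x₁` all darts of type `bar τ` of which lead to `y₀`, and another end `x₂` for which this does not hold.
`τ ≠ bar τ`: `M τ y₀ x₁ = M (bar τ) x₁ y₀ = num (bar τ)` (`supp_one`, `M_bar`); if `τ = bar τ` then all darts of type `τ` at `y₀` lead to
`x₁`, but one leads to `x₂ ≠ x₁`. For a value `α = (y, x)` of type `τ` let `St α = Sz α` be `supp L (bar τ) x ≤ 1`; then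
`M τ y x = num (bar τ) ≥ 3`. `Gt`, `Gz`: `True`. `ζ = τ`.
(S) For a labelling which is cut at one dart `δ` of type `τ`: `St (evt δ) ↔ St (evh δ)`: if one of them holds then `strong_val`
for this value gives `evt δ = evh δ` (`val_dt`).
(P) For a labelling which is cut at two darts `δ, δ'` of type `τ` with the same head (`δ ≠ δ'`, `δ ≠ rv δ'`): let `x = f (hd δ)`. If
`supp (bar τ) x ≤ 1`: `x` has only one end `y` of type `bar τ`, both `evh` are `(y, x)`, and by `strong_val` both `evt` too. Otherwise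
no `evh` has the property; if an `evt` has it, then by `strong_val` some `evh` is equal to it, contradiction. So the four
properties agree.
The kit. Let `d₁` be a dart of type `τ` from `y₀` to `x₁` (`cut_M`: `Cut L 3`), `k₁, q` from `exists_pin`; `k₀, κ` from `exists_ukit`; for
`y` with `A y` (`supp L (bar τ) y ≤ 1`) and `Dt L τ y₀ y` let `k y, q y` be from `exists_ring` for a dart `d_y` of type `τ` from `y₀` to `y`
(`cut_M`), for other `y` any kit. `k = sigKt` of the family `ι = Bool ⊕ V`: `k₁`, `k₀`, `k y`.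
`m`: the number of the darts of type `τ` at `y₀` different from `d₁`, `dd : Fin m → D` a bijection to them; `sd i = (dd i, q)` in
`k₁`. `Nv z = {i | hd (dd i) = z}.ncard`, `r = {i | A (hd (dd i))}.ncard`. `x₀` of the structure is `y₀`.
`s_sp`: (S). `s_cnt`: `sig_res`, `exists_pin` with `C` the set of the `dd i`: the label of `(y₀, q)` is `g y₀`, `e (d₁, q) = g x₁`. By
`star` the number of the darts `d` of type `τ` at `y₀` with `A (e (d, q))` is the number of the darts of type `τ` at `g y₀` with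
`A (hd d)`, which is the number of those at `y₀` (`Aut.M`, `aut_supp`, `g` is bijective), which is `r + 1` (`A x₁`). As
`A (g x₁)` exactly `r` of them are different from `d₁`.
`s_cp`: let `y' (dd i) = y i`, `y' d₁ = x₁`, `y' d = hd d` for the other darts `d` (those which are not of type `τ` at `y₀`); this is a
star of `y₀`; `exists_pin`, `proj_el` on the other parts, `sig_glue`.
`b1, b2`: let `d_a ≠ d_b` be darts of type `bar τ` at `x₁`; `b1 = rv (d_a, κ x₁)`, `b2 = rv (d_b, κ x₁)` in the part `k₀`. `b_sp1`,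
`b_sp2`: (S); `b_tie`: (P). `b_cp`: `zt y = y₀` if `2 ≤ M τ y₀ y`, otherwise some `z ≠ y₀` with `Dt L τ z y` (`3 ≤ num (bar τ)`);
`star_pair` at `x₁` with the label `y` and the ends `y₀`, `zt y`; `UStar`.
`rd y`: the dart `(d_y, q y)` of the part `k y`: `exists_ring`: `evt = evh = (g y₀, g y)`, `aut_supp`; `zt y = y₀` (`M τ y₀ y ≥ 3`).
`hp_sts`: `y₀ i = hd (dd i)`; `i₁, i₂`: two of the at least two `i` with `hd (dd i) = x₁` (`M τ y₀ x₁ ≥ 3`, without `d₁`);
`i₃` with `hd (dd i₃) = x₂`.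
-/

namespace Pool.Agent.H24.GI

open Pool.Agent.H24.GC Pool.Agent.H24.GG Pool.Agent.H24.GH

variable {V D T K : Type} {L : LS V D T K} [Finite V] [Finite D] [Finite T]

omit [Finite V] [Finite T] in
private theorem pen_M {τ : T} {x y : V} (hs : supp L (L.bar τ) x ≤ 1) (hd : Dt L τ y x) :
    L.M τ y x = L.num (L.bar τ) := by
  rw [← M_bar L τ y x]
  exact supp_one hs (dt_symm hd)

omit [Finite V] [Finite D] [Finite T] in
private theorem pen_nc {ι : Type} [Finite ι] {P Q : ι → Prop}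
    (h : {i | P i}.ncard = {i | Q i}.ncard) {i : ι} (hi : P i) : ∃ j, Q j := by
  have h1 : 0 < {i | P i}.ncard := (Set.ncard_pos (Set.toFinite _)).mpr ⟨i, hi⟩
  rw [h] at h1
  exact Set.nonempty_of_ncard_ne_zero h1.ne'

theorem pen_single {τ : T} (hm : 3 ≤ L.num (L.bar τ)) (ht : τ ≠ L.bar τ) {k : Kt L}
    {f : V × k.Q → V} {e : D × k.Q → V} {δ : D × k.Q} (hδ : L.ty δ.1 = τ)
    (h : EL k.net {δ} f e) :
    supp L (L.bar τ) (evt k.net f e δ).2 ≤ 1 ↔ supp L (L.bar τ) (evh k.net f e δ).2 ≤ 1 := by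
  have hv := val_dt h δ
  have hty : k.net.ty δ = τ := hδ
  rw [hty] at hv
  have key : ∀ α : V × V, Dt L τ α.1 α.2 → supp L (L.bar τ) α.2 ≤ 1 →
      {_i : Unit | evt k.net f e δ = α}.ncard = {_i : Unit | evh k.net f e δ = α}.ncard := by
    intro α h1 h2
    have h3 := pen_M h2 h1
    exact strong_val (N := k.net) (ι := Unit) (u := fun _ => δ) (by simp) (fun _ _ _ => rfl)
      (fun _ _ => (k.net.rv_ne δ).symm) ht (fun _ => hδ) (f := f) (e := e)
      (by rw [Set.range_const]; exact h) (x := α.1) (y := α.2) (by omega)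
  constructor
  · intro hs
    obtain ⟨-, hj⟩ := pen_nc (key _ hv.1 hs) (i := ()) rfl
    rw [hj]
    exact hs
  · intro hs
    obtain ⟨-, hj⟩ := pen_nc (key _ hv.2 hs).symm (i := ()) rfl
    rw [hj]
    exact hs

theorem pen_pair {τ : T} (hm : 3 ≤ L.num (L.bar τ)) (ht : τ ≠ L.bar τ) {k : Kt L}
    {f : V × k.Q → V} {e : D × k.Q → V} {δ δ' : D × k.Q} (hδ : L.ty δ.1 = τ)
    (hδ' : L.ty δ'.1 = τ) (hne : δ ≠ δ') (hnr : δ ≠ k.net.rv δ') (hhd : k.net.hd δ = k.net.hd δ')
    (h : EL k.net {δ, δ'} f e) :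
    (supp L (L.bar τ) (evt k.net f e δ).2 ≤ 1 ↔ supp L (L.bar τ) (f (k.net.hd δ)) ≤ 1) ∧
    (supp L (L.bar τ) (evt k.net f e δ').2 ≤ 1 ↔ supp L (L.bar τ) (f (k.net.hd δ)) ≤ 1) := by
  have hv := val_dt h δ
  have hv' := val_dt h δ'
  have hty : k.net.ty δ = τ := hδ
  have hty' : k.net.ty δ' = τ := hδ'
  rw [hty] at hv
  rw [hty'] at hv'
  obtain ⟨u, hut, huf⟩ : ∃ u : Bool → D × k.Q, u true = δ ∧ u false = δ' :=
    ⟨fun b => cond b δ δ', rfl, rfl⟩
  have hinj : Function.Injective u := by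
    intro b b' hb
    cases b <;> cases b'
    · rfl
    · rw [hut, huf] at hb
      exact absurd hb.symm hne
    · rw [hut, huf] at hb
      exact absurd hb hne
    · rfl
  have hran : Set.range u = {δ, δ'} := by
    ext x
    constructor
    · rintro ⟨b, rfl⟩
      cases b
      · right
        exact huf
      · left
        exact hut
    · rintro (hx | hx)
      · exact ⟨true, hut.trans hx.symm⟩
      · exact ⟨false, huf.trans (Set.mem_singleton_iff.mp hx).symm⟩
  have hrv : ∀ i j, u i ≠ k.net.rv (u j) := by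
    intro i j
    cases i <;> cases j
    · rw [huf]
      exact (k.net.rv_ne δ').symm
    · rw [huf, hut]
      intro hx
      apply hnr
      rw [hx, k.net.rv_rv]
    · rw [huf, hut]
      exact hnr
    · rw [hut]
      exact (k.net.rv_ne δ).symm
  have htyu : ∀ i, k.net.ty (u i) = τ := by
    intro i
    cases i
    · rw [huf]
      exact hδ'
    · rw [hut]
      exact hδ
  have hvu : ∀ i, Dt L τ (evt k.net f e (u i)).1 (evt k.net f e (u i)).2 := by
    intro i
    cases i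
    · rw [huf]
      exact hv'.1
    · rw [hut]
      exact hv.1
  have hhu : ∀ i, (evh k.net f e (u i)).2 = f (k.net.hd δ) := by
    intro i
    cases i
    · rw [huf, hhd]
      rfl
    · rw [hut]
      rfl
  have key : ∀ α : V × V, Dt L τ α.1 α.2 → supp L (L.bar τ) α.2 ≤ 1 →
      {i : Bool | evt k.net f e (u i) = α}.ncard = {i : Bool | evh k.net f e (u i) = α}.ncard := by
    intro α h1 h2
    have h3 := pen_M h2 h1
    exact strong_val (N := k.net) (ι := Bool) (u := u) (by simp) hinj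
      hrv ht htyu (f := f) (e := e)
      (by rw [hran]; exact h) (x := α.1) (y := α.2) (by omega)
  have main : ∀ i, (supp L (L.bar τ) (evt k.net f e (u i)).2 ≤ 1 ↔
      supp L (L.bar τ) (f (k.net.hd δ)) ≤ 1) := by
    intro i
    constructor
    · intro hs
      obtain ⟨j, hj⟩ := pen_nc (key _ (hvu i) hs) (i := i) rfl
      rw [← hhu j, hj]
      exact hs
    · intro hs
      have hd1 : Dt L (L.bar τ) (f (k.net.hd δ)) (evh k.net f e δ).1 := dt_symm hv.2
      have hd2 : Dt L (L.bar τ) (f (k.net.hd δ)) (evh k.net f e δ').1 := by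
        rw [hhd]
        exact dt_symm hv'.2
      have hfin : {y | Dt L (L.bar τ) (f (k.net.hd δ)) y}.Finite := Set.toFinite _
      have he : (evh k.net f e δ).1 = (evh k.net f e δ').1 :=
        (Set.ncard_le_one hfin).mp hs _ hd1 _ hd2
      have he2 : evh k.net f e δ' = evh k.net f e δ := by
        refine Prod.ext he.symm ?_
        change f (k.net.hd δ') = f (k.net.hd δ)
        rw [hhd]
      have hk := key (evh k.net f e δ) hv.2 hs
      have hall : {i : Bool | evh k.net f e (u i) = evh k.net f e δ} = Set.univ := by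
        ext j
        refine ⟨fun _ => trivial, fun _ => ?_⟩
        cases j
        · change evh k.net f e (u false) = _
          rw [huf]
          exact he2
        · change evh k.net f e (u true) = _
          rw [hut]
      rw [hall] at hk
      have hall' : {i : Bool | evt k.net f e (u i) = evh k.net f e δ} = Set.univ :=
        Set.eq_of_subset_of_ncard_le (Set.subset_univ _) hk.ge (Set.toFinite _)
      have hi : i ∈ {i : Bool | evt k.net f e (u i) = evh k.net f e δ} := by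
        rw [hall']
        trivial
      have hi' : evt k.net f e (u i) = evh k.net f e δ := hi
      rw [hi']
      exact hs
  have m1 := main true
  have m2 := main false
  rw [hut] at m1
  rw [huf] at m2
  exact ⟨m1, m2⟩

omit [Finite V] [Finite T] in
open Classical in
/-- counting the darts of a star -/
private theorem pen_split {S : Set D} {d₁ : D} (h1 : d₁ ∈ S) {m : ℕ} {dd : Fin m → D}
    (hi : Function.Injective dd) (hr : ∀ d, d ∈ S ↔ d = d₁ ∨ ∃ i, dd i = d)
    (hn : ∀ i, dd i ≠ d₁) (P : D → Prop) :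
    {d | d ∈ S ∧ P d}.ncard = {i | P (dd i)}.ncard + if P d₁ then 1 else 0 := by
  have himg : (dd '' {i | P (dd i)}).ncard = {i | P (dd i)}.ncard :=
    Set.ncard_image_of_injective _ hi
  by_cases hP : P d₁
  · rw [if_pos hP, ← himg]
    have h2 : {d | d ∈ S ∧ P d} = insert d₁ (dd '' {i | P (dd i)}) := by
      ext d
      constructor
      · rintro ⟨h3, h4⟩
        rcases (hr d).mp h3 with h5 | ⟨i, h5⟩
        · exact Or.inl h5
        · right
          refine ⟨i, ?_, h5⟩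
          change P (dd i)
          rw [h5]
          exact h4
      · rintro (h3 | ⟨i, h3, h4⟩)
        · rw [h3]
          exact ⟨h1, hP⟩
        · refine ⟨(hr d).mpr (Or.inr ⟨i, h4⟩), ?_⟩
          rw [← h4]
          exact h3
    rw [h2]
    refine Set.ncard_insert_of_notMem ?_ (Set.toFinite _)
    rintro ⟨i, -, h3⟩
    exact hn i h3
  · rw [if_neg hP, ← himg, add_zero]
    congr 1
    ext d
    constructor
    · rintro ⟨h3, h4⟩
      rcases (hr d).mp h3 with h5 | ⟨i, h5⟩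
      · rw [h5] at h4
        exact absurd h4 hP
      · refine ⟨i, ?_, h5⟩
        change P (dd i)
        rw [h5]
        exact h4
    · rintro ⟨i, h3, h4⟩
      refine ⟨(hr d).mpr (Or.inr ⟨i, h4⟩), ?_⟩
      rw [← h4]
      exact h3

omit [Finite T] in
open Classical in
/-- equal multiplicities give equal numbers for a property -/
private theorem pen_cnt {S : Set D} {F G : D → V}
    (h : ∀ z, {a | a ∈ S ∧ F a = z}.ncard = {a | a ∈ S ∧ G a = z}.ncard) (A : V → Prop) :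
    {a | a ∈ S ∧ A (F a)}.ncard = {a | a ∈ S ∧ A (G a)}.ncard := by
  have := Fintype.ofFinite V
  have := Fintype.ofFinite D
  have key : ∀ F : D → V, {a | a ∈ S ∧ A (F a)}.ncard =
      ∑ z : V, if A z then {a | a ∈ S ∧ F a = z}.ncard else 0 := by
    intro F
    have h1 : {a | a ∈ S ∧ A (F a)}.ncard = (Finset.univ.filter fun a => a ∈ S ∧ A (F a)).card := by
      rw [← Set.ncard_coe_finset]
      congr 1
      ext a
      simp
    rw [h1, Finset.card_eq_sum_card_fiberwise (f := F) (t := Finset.univ)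
      (fun d _ => Finset.mem_coe.mpr (Finset.mem_univ _))]
    refine Finset.sum_congr rfl fun z _ => ?_
    by_cases hz : A z
    · rw [if_pos hz, ← Set.ncard_coe_finset]
      congr 1
      ext a
      simp only [Finset.coe_filter, Finset.mem_filter, Finset.mem_univ, true_and]
      constructor
      · rintro ⟨⟨h2, -⟩, h3⟩
        exact ⟨h2, h3⟩
      · rintro ⟨h2, h3⟩
        have h4 : F a = z := h3
        exact ⟨⟨h2, by rw [h4]; exact hz⟩, h3⟩
    · rw [if_neg hz, Finset.card_eq_zero, Finset.filter_eq_empty_iff]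
      intro a ha h2
      apply hz
      rw [← h2]
      exact (Finset.mem_filter.mp ha).2.2
  rw [key F, key G]
  refine Finset.sum_congr rfl fun z _ => ?_
  rw [h z]

omit [Finite V] [Finite D] [Finite T] in
/-- a labelling of one part gives a labelling of the union -/
private theorem pen_part {ι : Type} [Finite ι] (κ : ι → Kt L) (i₀ : ι) {f₀ : V × (κ i₀).Q → V}
    {e₀ : D × (κ i₀).Q → V} (h : EL (κ i₀).net ∅ f₀ e₀) :
    ∃ f e, EL (sigKt κ).net ∅ f e ∧ (∀ w : V × (κ i₀).Q, f (w.1, ⟨i₀, w.2⟩) = f₀ w) ∧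
      ∀ δ : D × (κ i₀).Q, e (δ.1, ⟨i₀, δ.2⟩) = e₀ δ := by
  classical
  have hex : ∀ i, ∃ p : (V × (κ i).Q → V) × (D × (κ i).Q → V), EL (κ i).net ∅ p.1 p.2 ∧
      ∀ hi : i₀ = i, p = hi ▸ (f₀, e₀) := by
    intro i
    by_cases hi : i₀ = i
    · subst hi
      exact ⟨(f₀, e₀), h, fun _ => rfl⟩
    · exact ⟨(fun w => w.1, fun δ => L.hd δ.1), proj_el (κ i), fun hi' => absurd hi' hi⟩
  choose p hp1 hp2 using hex
  refine ⟨_, _, sig_glue (f := fun i => (p i).1) (e := fun i => (p i).2) hp1, ?_, ?_⟩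
  · rintro ⟨x, q⟩
    have h1 := hp2 i₀ rfl
    change (p i₀).1 (x, q) = f₀ (x, q)
    rw [h1]
  · rintro ⟨d, q⟩
    have h1 := hp2 i₀ rfl
    change (p i₀).2 (d, q) = e₀ (d, q)
    rw [h1]


omit [Finite V] [Finite D] [Finite T] in
/-- the restriction of a labelling which is cut at one dart -/
private theorem pen_res1 {ι : Type} [Finite ι] {κ : ι → Kt L} {i : ι} {d : D} {q : (κ i).Q}
    {f : V × (Σ i, (κ i).Q) → V} {e : D × (Σ i, (κ i).Q) → V}
    (h : EL (sigKt κ).net {(d, ⟨i, q⟩)} f e) :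
    EL (κ i).net {(d, q)} (fun w => f (w.1, ⟨i, w.2⟩)) (fun δ => e (δ.1, ⟨i, δ.2⟩)) := by
  refine sumK_congr (sig_res h i) ?_
  ext ⟨d', q'⟩
  constructor
  · intro h1
    have h2 : ((d', ⟨i, q'⟩) : D × (Σ i, (κ i).Q)) = (d, ⟨i, q⟩) := h1
    have h3 : d' = d := congrArg Prod.fst h2
    have h4 : (⟨i, q'⟩ : Σ i, (κ i).Q) = ⟨i, q⟩ := congrArg Prod.snd h2
    have h5 : q' = q := eq_of_heq (Sigma.mk.inj h4).2
    rw [h3, h5]
    rfl
  · intro h1
    have h2 : ((d', q') : D × (κ i).Q) = (d, q) := h1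
    have h3 : d' = d := congrArg Prod.fst h2
    have h4 : q' = q := congrArg Prod.snd h2
    rw [h3, h4]
    rfl

theorem pen_hpat (hc : LConn L) (hl : ∀ d, L.tl d ≠ L.hd d) {τ : T}
    (hm : 3 ≤ L.num (L.bar τ)) {y₀ x₁ x₂ : V} (h1 : Dt L τ y₀ x₁)
    (h1' : supp L (L.bar τ) x₁ ≤ 1) (h2 : Dt L τ y₀ x₂) (h2' : 2 ≤ supp L (L.bar τ) x₂) :
    ∃ k : Kt L, HPat k := by
  classical
  have hx12 : x₁ ≠ x₂ := by
    rintro rfl
    omega
  have hM1 : L.M τ y₀ x₁ = L.num (L.bar τ) := pen_M h1' h1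
  have ht : τ ≠ L.bar τ := by
    intro ht
    have e1 := M_two (L := L) (τ := τ) (x := y₀) hx12
    have e2 := dt_iff.mp h2
    rw [hM1, ← ht] at e1
    omega
  obtain ⟨d₁, a1, a2, a3⟩ := id h1
  obtain ⟨d₂, b1, b2, b3⟩ := id h2
  have hd12 : d₂ ≠ d₁ := by
    rintro rfl
    exact hx12 (a2.symm.trans b2)
  -- the darts of the star without `d₁`
  obtain ⟨m, hmc⟩ : ∃ m, Nat.card {d | (L.tl d = y₀ ∧ L.ty d = τ) ∧ d ≠ d₁} = m := ⟨_, rfl⟩
  obtain ⟨dd, hdd, hdi, hdr⟩ : ∃ dd : Fin m → D,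
      (∀ i, (L.tl (dd i) = y₀ ∧ L.ty (dd i) = τ) ∧ dd i ≠ d₁) ∧ Function.Injective dd ∧
      ∀ d, L.tl d = y₀ → L.ty d = τ → d ≠ d₁ → ∃ i, dd i = d := by
    let E := Finite.equivFinOfCardEq hmc
    refine ⟨fun i => (E.symm i).1, fun i => (E.symm i).2,
      fun i j hij => E.symm.injective (Subtype.ext hij), ?_⟩
    intro d e1 e2 e3
    refine ⟨E ⟨d, ⟨e1, e2⟩, e3⟩, ?_⟩
    change (E.symm (E ⟨d, ⟨e1, e2⟩, e3⟩)).1 = d
    rw [Equiv.symm_apply_apply]
  obtain ⟨S, hS⟩ : ∃ S : Set D, S = {d | L.tl d = y₀ ∧ L.ty d = τ} := ⟨_, rfl⟩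
  have hSm : ∀ d, d ∈ S ↔ L.tl d = y₀ ∧ L.ty d = τ := by
    intro d
    rw [hS]
    rfl
  have hd₁S : d₁ ∈ S := (hSm d₁).mpr ⟨a1, a3⟩
  have hSr : ∀ d, d ∈ S ↔ d = d₁ ∨ ∃ i, dd i = d := by
    intro d
    rw [hSm]
    constructor
    · rintro ⟨e1, e2⟩
      by_cases e3 : d = d₁
      · exact Or.inl e3
      · exact Or.inr (hdr d e1 e2 e3)
    · rintro (e1 | ⟨i, e1⟩)
      · rw [e1]
        exact ⟨a1, a3⟩
      · rw [← e1]
        exact (hdd i).1
  have hsplit : ∀ P : D → Prop, {d | d ∈ S ∧ P d}.ncard = {i | P (dd i)}.ncard +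
      if P d₁ then 1 else 0 := fun P => pen_split hd₁S hdi hSr (fun i => (hdd i).2) P
  have hMS : ∀ (F : D → V) (z : V), {d | L.tl d = y₀ ∧ L.ty d = τ ∧ F d = z}.ncard =
      {d | d ∈ S ∧ F d = z}.ncard := by
    intro F z
    congr 1
    ext d
    rw [hS]
    constructor
    · rintro ⟨e1, e2, e3⟩
      exact ⟨⟨e1, e2⟩, e3⟩
    · rintro ⟨⟨e1, e2⟩, e3⟩
      exact ⟨e1, e2, e3⟩
  obtain ⟨Nv, hNv⟩ : ∃ Nv : V → ℕ, ∀ z, Nv z = {i | L.hd (dd i) = z}.ncard := ⟨_, fun _ => rfl⟩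
  have hMN : ∀ z, L.M τ y₀ z = Nv z + if x₁ = z then 1 else 0 := by
    intro z
    have e1 : L.M τ y₀ z = {d | d ∈ S ∧ L.hd d = z}.ncard := hMS L.hd z
    rw [e1, hNv, hsplit (fun d => L.hd d = z)]
    simp only [a2]
  have hND : ∀ z, 0 < Nv z → Dt L τ y₀ z := by
    intro z hz
    rw [dt_iff, hMN]
    omega
  obtain ⟨A, hA⟩ : ∃ A : V → Prop, ∀ z, A z ↔ supp L (L.bar τ) z ≤ 1 := ⟨_, fun _ => Iff.rfl⟩
  obtain ⟨r, hr⟩ : ∃ r, {i | A (L.hd (dd i))}.ncard = r := ⟨_, rfl⟩
  have hAM : ∀ y, A y → Dt L τ y₀ y → 3 ≤ L.M τ y₀ y := by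
    intro y e1 e2
    rw [pen_M ((hA y).mp e1) e2]
    exact hm
  have hAx : A x₁ := (hA x₁).mpr h1'
  -- the other ends
  have hzt : ∀ y, ∃ z, 0 < Nv y → Dt L τ z y ∧ (z = y₀ → 2 ≤ L.M τ y₀ y) ∧ (A y → z = y₀) := by
    intro y
    by_cases hy : A y
    · exact ⟨y₀, fun e1 => ⟨hND y e1, fun _ => by have := hAM y hy (hND y e1); omega,
        fun _ => rfl⟩⟩
    · by_cases hN : 0 < Nv y
      · have e1 : 1 < {z | Dt L (L.bar τ) y z}.ncard := by
          by_contra e2
          exact hy ((hA y).mpr (by unfold supp; omega))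
        obtain ⟨z, e2, e3⟩ := Set.exists_ne_of_one_lt_ncard e1 y₀
        have e4 : Dt L (L.bar τ) y z := e2
        have e5 := dt_symm e4
        rw [L.bar_bar] at e5
        exact ⟨z, fun _ => ⟨e5, fun e6 => absurd e6 e3, fun e6 => absurd e6 hy⟩⟩
      · exact ⟨y₀, fun e1 => absurd e1 hN⟩
  choose zt hzt using hzt
  -- the parts
  have hcut : ∀ d, L.tl d = y₀ → L.ty d = τ → A (L.hd d) → Cut L 2 (L.tl d) {L.hd d} := by
    intro d e1 e2 e3
    rw [e1]
    have e4 := hAM _ e3 ⟨d, e1, rfl, e2⟩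
    exact cut_mono (cut_M τ y₀ (L.hd d)) (by omega) subset_rfl
  obtain ⟨k₁, q, hp1, hp2⟩ := exists_pin hc hl (hcut d₁ a1 a3 (by rw [a2]; exact hAx))
  obtain ⟨k₀, -, κ, -, -, hU⟩ := exists_ukit L
  have hUs : UStar k₀ x₁ (κ x₁) := ukit_star (hU x₁)
  have hring : ∀ y, ∃ (k : Kt L) (q : k.Q) (d : D), A y → Dt L τ y₀ y → L.tl d = y₀ ∧ L.hd d = y ∧
      L.ty d = τ ∧ ∀ f e, EL k.net {(d, q)} f e →
        evt k.net f e (d, q) = evh k.net f e (d, q) ∧
        ∃ g, Aut L g ∧ evt k.net f e (d, q) = (g (L.tl d), g (L.hd d)) := by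
    intro y
    by_cases hy : A y ∧ Dt L τ y₀ y
    · obtain ⟨e1, d, e2, e3, e4⟩ := hy
      obtain ⟨k, q, hk⟩ := exists_ring hc hl (hcut d e2 e4 (by rw [e3]; exact e1))
      exact ⟨k, q, d, fun _ _ => ⟨e2, e3, e4, hk⟩⟩
    · exact ⟨unitKt L, (), d₁, fun e1 e2 => absurd ⟨e1, e2⟩ hy⟩
  choose kk qq dy hk using hring
  let KK : Bool ⊕ V → Kt L := fun i => match i with
    | Sum.inl true => k₁
    | Sum.inl false => k₀
    | Sum.inr y => kk y
  let q1 : (sigKt KK).Q := ⟨Sum.inl true, q⟩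
  let q0 : (sigKt KK).Q := ⟨Sum.inl false, κ x₁⟩
  let qr : V → (sigKt KK).Q := fun y => ⟨Sum.inr y, qq y⟩
  -- the darts at `x₁`
  obtain ⟨da, db, hab, ⟨ta1, ta2⟩, tb1, tb2⟩ : ∃ da db : D, da ≠ db ∧
      (L.tl da = x₁ ∧ L.ty da = L.bar τ) ∧ L.tl db = x₁ ∧ L.ty db = L.bar τ := by
    have e1 : 1 < {d | L.tl d = x₁ ∧ L.ty d = L.bar τ}.ncard := by
      rw [L.num_eq x₁ (L.bar τ) (dt_cl h1).2]
      omega
    obtain ⟨u, hu, w, hw, huw⟩ := (Set.one_lt_ncard_iff_nontrivial).1 e1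
    exact ⟨u, w, huw, hu, hw⟩
  have hAg : ∀ g, Aut L g → ∀ z, A (g z) ↔ A z := by
    intro g hg z
    rw [hA, hA, aut_supp hg]
  -- the star
  have s_cnt : ∀ f e, EL (sigKt KK).net
      (Set.range fun i => ((dd i, q1) : D × (sigKt KK).Q)) f e →
      {i | A (evt (sigKt KK).net f e (dd i, q1)).2}.ncard = r := by
    intro f e h
    have e1 := sig_res h (Sum.inl true)
    have e2 : {δ : D × (KK (Sum.inl true)).Q | (δ.1, (⟨Sum.inl true, δ.2⟩ : (sigKt KK).Q)) ∈
        (Set.range fun i => ((dd i, q1) : D × (sigKt KK).Q))} =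
        {δ : D × k₁.Q | δ.1 ∈ Set.range dd ∧ δ.2 = q} := by
      ext ⟨d, q'⟩
      constructor
      · rintro ⟨i, hi⟩
        have h3 : dd i = d := congrArg Prod.fst hi
        have h4 : (⟨Sum.inl true, q⟩ : Σ i, (KK i).Q) = ⟨Sum.inl true, q'⟩ := congrArg Prod.snd hi
        have h5 : q = q' := eq_of_heq (Sigma.mk.inj h4).2
        exact ⟨⟨i, h3⟩, h5.symm⟩
      · rintro ⟨⟨i, hi⟩, h5⟩
        refine ⟨i, ?_⟩
        change ((dd i, (⟨Sum.inl true, q⟩ : Σ i, (KK i).Q)) : D × (Σ i, (KK i).Q)) =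
          (d, ⟨Sum.inl true, q'⟩)
        have h6 : dd i = d := hi
        have h7 : q' = q := h5
        rw [h6, h7]
    obtain ⟨g, hg, g1, g2⟩ := hp1 (Set.range dd)
      (by
        rintro _ ⟨i, rfl⟩
        exact ⟨(hdd i).1.1.trans a1.symm, (hdd i).2⟩) _ _ (sumK_congr e1 e2)
    rw [a1] at g1
    rw [a2] at g2
    have g1' : f (y₀, q1) = g y₀ := g1
    have g2' : e (d₁, q1) = g x₁ := g2
    have hF : ∀ z, {d | d ∈ S ∧ e (d, q1) = z}.ncard = {d | d ∈ S ∧ g (L.hd d) = z}.ncard := by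
      intro z
      obtain ⟨z', rfl⟩ := hg.bij.2 z
      have r1 : {d | d ∈ S ∧ g (L.hd d) = g z'} = {d | d ∈ S ∧ L.hd d = z'} := by
        ext d
        exact and_congr_right fun _ => hg.bij.1.eq_iff
      rw [r1, ← hMS L.hd z', ← hMS (fun d => e (d, q1))]
      have st := h.star (y₀, q1) τ (g z')
      rw [g1', hg.M] at st
      have r2 : {d | L.tl d = y₀ ∧ L.ty d = τ ∧ L.hd d = z'}.ncard = L.M τ y₀ z' := rfl
      rw [r2, ← st]
      refine Set.ncard_congr (fun d _ => ((d, q1) : D × (sigKt KK).Q)) ?_ ?_ ?_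
      · rintro d ⟨c1, c2, c3⟩
        refine ⟨?_, c2, c3⟩
        change (L.tl d, q1) = (y₀, q1)
        rw [c1]
      · rintro d d' _ _ c3
        exact congrArg Prod.fst c3
      · rintro ⟨d, q'⟩ ⟨c1, c2, c3⟩
        have c4 : L.tl d = y₀ := congrArg Prod.fst c1
        have c5 : q' = q1 := congrArg Prod.snd c1
        subst c5
        exact ⟨d, ⟨c4, c2, c3⟩, rfl⟩
    have c1 := pen_cnt (F := fun d => e (d, q1)) (G := fun d => g (L.hd d)) hF A
    rw [hsplit (fun d => A (e (d, q1))), hsplit (fun d => A (g (L.hd d)))] at c1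
    rw [g2', a2, if_pos ((hAg g hg x₁).mpr hAx)] at c1
    have c2 : {i | A (e (dd i, q1))}.ncard = {i | A (g (L.hd (dd i)))}.ncard := by omega
    have c3 : {i | A (g (L.hd (dd i)))} = {i | A (L.hd (dd i))} := by
      ext i
      exact hAg g hg _
    rw [c3, hr] at c2
    exact c2
  have s_cp : ∀ y : Fin m → V, (∀ z, {i | y i = z}.ncard = Nv z) →
      ∃ f e, EL (sigKt KK).net ∅ f e ∧
        ∀ i, evt (sigKt KK).net f e (dd i, q1) = (y₀, y i) := by
    intro y hy
    have y1 : ∀ i, Function.extend dd y L.hd (dd i) = y i := fun i => hdi.extend_apply _ _ i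
    have y2 : Function.extend dd y L.hd d₁ = L.hd d₁ := by
      rw [Function.extend_apply']
      rintro ⟨i, hi⟩
      exact (hdd i).2 hi
    have hY : ∀ t z, {d | L.tl d = L.tl d₁ ∧ L.ty d = t ∧
        Function.extend dd y L.hd d = z}.ncard = L.M t (L.tl d₁) z := by
      intro t z
      rw [a1]
      by_cases htt : t = τ
      · subst htt
        rw [hMS, hsplit (fun d => Function.extend dd y L.hd d = z), y2, a2, hMN, ← hy]
        simp only [y1]
      · unfold LS.M
        congr 1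
        ext d
        have c1 : L.ty d = t → Function.extend dd y L.hd d = L.hd d := by
          intro c1
          rw [Function.extend_apply']
          rintro ⟨i, hi⟩
          apply htt
          rw [← c1, ← hi]
          exact (hdd i).1.2
        constructor
        · rintro ⟨c2, c3, c4⟩
          exact ⟨c2, c3, by rw [← c1 c3]; exact c4⟩
        · rintro ⟨c2, c3, c4⟩
          exact ⟨c2, c3, by rw [c1 c3]; exact c4⟩
    obtain ⟨f, e, c1, c2, c3⟩ := hp2 _ hY y2
    obtain ⟨f', e', c4, c5, c6⟩ := pen_part KK (Sum.inl true) c1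
    refine ⟨f', e', c4, fun i => ?_⟩
    have c7 : L.tl (dd i) = L.tl d₁ := (hdd i).1.1.trans a1.symm
    have c8 : f' (L.tl (dd i), q1) = y₀ := by
      have c9 := c5 (L.tl (dd i), q)
      rw [c7] at c9
      rw [c7, ← a1]
      exact c9.trans c2
    have c9 : e' (dd i, q1) = y i := by
      have c10 := c6 (dd i, q)
      rw [← y1 i, ← c3 (dd i) c7]
      exact c10
    change (f' (L.tl (dd i), q1), e' (dd i, q1)) = (y₀, y i)
    rw [c8, c9]
  -- the ties
  have hrvrv : ∀ δ, (sigKt KK).net.hd ((sigKt KK).net.rv δ) = (sigKt KK).net.tl δ := by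
    intro δ
    unfold Net.hd
    rw [(sigKt KK).net.rv_rv]
  have htr : ∀ d, L.ty d = L.bar τ → L.ty (L.rv d) = τ := by
    intro d e1
    rw [L.ty_rv, e1, L.bar_bar]
  have b_cp : ∀ y, 0 < Nv y → ∃ f e, EL (sigKt KK).net ∅ f e ∧
      evt (sigKt KK).net f e ((sigKt KK).net.rv (da, q0)) = (y₀, y) ∧
      evt (sigKt KK).net f e ((sigKt KK).net.rv (db, q0)) = (zt y, y) := by
    intro y hy
    have hD := hND y hy
    obtain ⟨z1, z2, -⟩ := hzt y hy
    have hcl : L.cl y = L.cl x₁ := by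
      rw [(dt_cl hD).2, (dt_cl h1).2]
    obtain ⟨Y, u1, u2, u3⟩ := star_pair (L := L) hcl ta1 tb1 hab (y₁ := y₀) (y₂ := zt y)
      (by rw [ta2]; exact dt_symm hD) (by rw [tb2]; exact dt_symm z1) (fun _ e2 => by
        rw [ta2, M_bar]
        exact z2 e2.symm)
    obtain ⟨f, e, v1, v2, v3⟩ := hUs y Y hcl u1
    obtain ⟨f', e', v4, v5, v6⟩ := pen_part KK (Sum.inl false) v1
    have v7 : ∀ δ, e' δ = f' ((sigKt KK).net.hd δ) := fun δ =>
      v4.unc δ (Set.notMem_empty _) (Set.notMem_empty _)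
    have v8 : f' (x₁, q0) = y := (v5 (x₁, κ x₁)).trans v2
    have v9 : ∀ d, L.tl d = x₁ → evt (sigKt KK).net f' e' ((sigKt KK).net.rv (d, q0)) =
        (Y d, y) := by
      intro d e1
      have e2 : e' (d, q0) = Y d := (v6 (d, κ x₁)).trans (v3 d e1)
      have e3 : f' ((sigKt KK).net.tl ((sigKt KK).net.rv (d, q0))) = Y d := by
        rw [← e2]
        exact (v7 (d, q0)).symm
      have e4 : e' ((sigKt KK).net.rv (d, q0)) = y := by
        rw [v7, hrvrv]
        change f' (L.tl d, q0) = y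
        rw [e1]
        exact v8
      unfold evt
      rw [e3, e4]
    refine ⟨f', e', v4, ?_, ?_⟩
    · rw [v9 da ta1, u2]
    · rw [v9 db tb1, u3]
  have r_sp : ∀ y, A y → 0 < Nv y → ∀ f e, EL (sigKt KK).net {(dy y, qr y)} f e →
      A (evt (sigKt KK).net f e (dy y, qr y)).2 ∧ A (evh (sigKt KK).net f e (dy y, qr y)).2 := by
    intro y e1 e2 f e h
    obtain ⟨c1, c2, c3, c4⟩ := hk y e1 (hND y e2)
    obtain ⟨c5, g, hg, c6⟩ := c4 _ _ (pen_res1 (κ := KK) (i := Sum.inr y) h)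
    have c7 : evt (sigKt KK).net f e (dy y, qr y) = (g (L.tl (dy y)), g (L.hd (dy y))) := c6
    have c8 : evt (sigKt KK).net f e (dy y, qr y) = evh (sigKt KK).net f e (dy y, qr y) := c5
    have c9 : A (evt (sigKt KK).net f e (dy y, qr y)).2 := by
      rw [c7, c2]
      exact (hAg g hg y).mpr e1
    exact ⟨c9, by rw [← c8]; exact c9⟩
  have hsing : ∀ (δ : D × (sigKt KK).Q) f e, L.ty δ.1 = τ → EL (sigKt KK).net {δ} f e →
      (A (evt (sigKt KK).net f e δ).2 ↔ A (evh (sigKt KK).net f e δ).2) := by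
    intro δ f e e1 h
    rw [hA, hA]
    exact pen_single hm ht e1 h
  have hnrv : ∀ δ δ' : D × (sigKt KK).Q, L.ty δ.1 = τ → L.ty δ'.1 = τ →
      δ ≠ (sigKt KK).net.rv δ' := by
    intro δ δ' e1 e2 e3
    apply ht
    have e4 : L.ty δ.1 = L.ty (L.rv δ'.1) := congrArg L.ty (congrArg Prod.fst e3)
    rw [e1, L.ty_rv, e2] at e4
    exact e4
  obtain ⟨i₁, i₂, h12, hi₁, hi₂⟩ : ∃ i₁ i₂ : Fin m, i₁ ≠ i₂ ∧ L.hd (dd i₁) = x₁ ∧
      L.hd (dd i₂) = x₁ := by
    have e1 : 1 < {i | L.hd (dd i) = x₁}.ncard := by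
      rw [← hNv]
      have e2 := hMN x₁
      rw [if_pos rfl, hM1] at e2
      omega
    obtain ⟨u, hu, w, hw, huw⟩ := (Set.one_lt_ncard_iff_nontrivial).1 e1
    exact ⟨u, w, huw, hu, hw⟩
  obtain ⟨i₃, hi₃⟩ := hdr d₂ b1 b3 hd12
  have b_tie : ∀ f e, EL (sigKt KK).net
      {(sigKt KK).net.rv (da, q0), (sigKt KK).net.rv (db, q0)} f e →
      (A (evt (sigKt KK).net f e ((sigKt KK).net.rv (da, q0))).2 ↔
        A (evh (sigKt KK).net f e ((sigKt KK).net.rv (da, q0))).2) ∧
      (A (evt (sigKt KK).net f e ((sigKt KK).net.rv (db, q0))).2 ↔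
        A (evt (sigKt KK).net f e ((sigKt KK).net.rv (da, q0))).2) ∧
      (A (evh (sigKt KK).net f e ((sigKt KK).net.rv (db, q0))).2 ↔
        A (evh (sigKt KK).net f e ((sigKt KK).net.rv (da, q0))).2) := by
    intro f e h
    have e1 : (sigKt KK).net.hd ((sigKt KK).net.rv (da, q0)) =
        (sigKt KK).net.hd ((sigKt KK).net.rv (db, q0)) := by
      rw [hrvrv, hrvrv]
      change (L.tl da, q0) = (L.tl db, q0)
      rw [ta1, tb1]
    have e2 : (sigKt KK).net.rv (da, q0) ≠ (sigKt KK).net.rv (db, q0) := by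
      intro e2
      have e3 := congrArg (sigKt KK).net.rv e2
      rw [(sigKt KK).net.rv_rv, (sigKt KK).net.rv_rv] at e3
      exact hab (congrArg Prod.fst e3)
    obtain ⟨p1, p2⟩ := pen_pair hm ht (htr da ta2) (htr db tb2) e2
      (hnrv _ _ (htr da ta2) (htr db tb2)) e1 h
    rw [← hA, ← hA] at p1 p2
    have p3 : A (evh (sigKt KK).net f e ((sigKt KK).net.rv (da, q0))).2 ↔
        A (f ((sigKt KK).net.hd ((sigKt KK).net.rv (da, q0)))) := Iff.rfl
    have p4 : A (evh (sigKt KK).net f e ((sigKt KK).net.rv (db, q0))).2 ↔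
        A (f ((sigKt KK).net.hd ((sigKt KK).net.rv (da, q0)))) := by
      rw [e1]
      exact Iff.rfl
    exact ⟨p1.trans p3.symm, p2.trans p1.symm, p4.trans p3.symm⟩
  have r_cp : ∀ y, A y → 0 < Nv y → ∃ f e, EL (sigKt KK).net ∅ f e ∧
      evt (sigKt KK).net f e (dy y, qr y) = (zt y, y) := by
    intro y e1 e2
    obtain ⟨c1, c2, -, -⟩ := hk y e1 (hND y e2)
    refine ⟨_, _, proj_el (sigKt KK), ?_⟩
    change (L.tl (dy y), L.hd (dy y)) = (zt y, y)
    rw [c1, c2, (hzt y e2).2.2 e1]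
  have hties : TiesS (sigKt KK) τ τ m r y₀ Nv zt A (fun α => A α.2) (fun α => A α.2)
      (fun _ => True) (fun _ => True) :=
    { sd := fun i => (dd i, q1)
      s_inj := fun i j h => hdi (congrArg Prod.fst h)
      s_ty := fun i => (hdd i).1.2
      s_nrev := fun i j => hnrv _ _ (hdd i).1.2 (hdd j).1.2
      s_sp := fun i f e h => ⟨hsing _ f e (hdd i).1.2 h, trivial, trivial⟩
      s_cnt := s_cnt
      s_cp := s_cp
      b1 := (sigKt KK).net.rv (da, q0)
      b2 := (sigKt KK).net.rv (db, q0)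
      b_ty1 := htr da ta2
      b_ty2 := htr db tb2
      b_ne := fun h => by
        have e1 := congrArg (sigKt KK).net.rv h
        rw [(sigKt KK).net.rv_rv, (sigKt KK).net.rv_rv] at e1
        exact hab (congrArg Prod.fst e1)
      b_nrev := hnrv _ _ (htr da ta2) (htr db tb2)
      b_sp1 := fun f e h => ⟨hsing _ f e (htr da ta2) h, trivial, trivial⟩
      b_sp2 := fun f e h => ⟨hsing _ f e (htr db tb2) h, trivial, trivial⟩
      b_tie := fun f e h _ _ _ _ => b_tie f e h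
      b_cp := b_cp
      rd := fun y => (dy y, qr y)
      r_ty := fun y e1 e2 => (hk y e1 (hND y e2)).2.2.1
      r_sp := fun y e1 e2 f e h => ⟨r_sp y e1 e2 f e h, trivial, trivial⟩
      r_cp := r_cp }
  exact ⟨sigKt KK, hp_sts hties (y₀ := fun i => L.hd (dd i)) (fun z => (hNv z).symm) hr h12
    (hi₁.trans hi₂.symm) (by rw [hi₁]; exact hAx) (i₃ := i₃) (by
      rw [hi₃, b2, hA]
      omega)⟩

end Pool.Agent.H24.GI
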