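import Pool.Agent.H24.GI.F3
import Pool.Agent.H24.GI.F2d
import Pool.Agent.H24.GI.Pen

/-!
# JOB GI-22: the choice of the star

`f_choice`: if there is a type `t` with `3 ≤ num t`, `3 ≤ num (bar t)` let `t` be the one of `hr`; `f3_choice` (`nolive_ne`,
`nolive_loop`): `GoodC L σ σ x` gives `FGood` (`ζ = σ`; `num σ`, `num (bar σ) ≥ 3`), the second case `FPen`. Otherwise `exists_sit`;
`good_all`, or `sit_level` and `starS_three`, `starS_two`.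
`f_hpat`: `good_hpat`, `pen_hpat`, `lens_hpat`. (For `lens_hpat`: `τ ≠ bar ζ`: otherwise `sc τ = sc (bar ζ) = sc (bar τ)`, so `τ` is live or
`τ = bar τ` (the walk `τ, τ, ...`); the latter is impossible as `num (bar τ) < num τ`.)
-/

namespace Pool.Agent.H24.GI

open Pool.Agent.H24.GC Pool.Agent.H24.GG Pool.Agent.H24.GH

variable {V D T K : Type} {L : LS V D T K}

/-- there is a vertex with a pendant and another end -/
def FPen (L : LS V D T K) : Prop :=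
  ∃ τ y₀ x₁ x₂, 3 ≤ L.num (L.bar τ) ∧ Dt L τ y₀ x₁ ∧ supp L (L.bar τ) x₁ ≤ 1 ∧ Dt L τ y₀ x₂ ∧
    2 ≤ supp L (L.bar τ) x₂

theorem f_choice [Finite V] [Finite D] [Nonempty V] (hc : LConn L) (hn : NoLive L)
    (hp : NoPal L) (h3 : ∀ x, 3 ≤ {d | L.tl d = x}.ncard)
    (hr : (∃ t, 3 ≤ L.num t ∧ 3 ≤ L.num (L.bar t)) →
      ∃ t, 3 ≤ L.num t ∧ 3 ≤ L.num (L.bar t) ∧ ¬ Mtd L t) :
    FGood L ∨ FPen L ∨ FLens L := by
  by_cases hE : ∃ t, 3 ≤ L.num t ∧ 3 ≤ L.num (L.bar t)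
  · obtain ⟨t, e1, e2, e3⟩ := hr hE
    have hnum : ∀ σ, σ = t ∨ σ = L.bar t → 3 ≤ L.num σ ∧ 3 ≤ L.num (L.bar σ) := by
      rintro σ (rfl | rfl)
      · exact ⟨e1, e2⟩
      · rw [L.bar_bar]
        exact ⟨e2, e1⟩
    rcases f3_choice (nolive_loop hn hp) (nolive_ne hn hp t) e1 e2 e3 with
      ⟨σ, x, hσ, hg⟩ | ⟨σ, y₀, x₁, x₂, hσ, g1, g2, g3, g4⟩
    · obtain ⟨n1, n2⟩ := hnum σ hσ
      exact Or.inl ⟨σ, σ, x, hg, n1, rfl, fun _ => by omega⟩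
    · exact Or.inr (Or.inl ⟨σ, y₀, x₁, x₂, (hnum σ hσ).2, g1, g2, g3, g4⟩)
  · have h2 : ∀ t, L.num t ≤ 2 ∨ L.num (L.bar t) ≤ 2 := by
      intro t
      by_contra h4
      exact hE ⟨t, by omega, by omega⟩
    rcases exists_sit hc hn hp h3 with h4 | ⟨C, S, t, hS⟩
    · exact Or.inl (good_all hc hn hp h3 h2 h4)
    · rcases sit_level hc hn hp h3 h2 hS with h5 | h5
      · exact Or.inl h5
      · by_cases h6 : 3 ≤ {d | L.tl d = t ∧ L.hd d ∈ S}.ncard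
        · exact Or.inl (starS_three hn hp h3 h2 hS h5 h6)
        · rcases starS_two hn hp h3 h2 hS h5 (by omega) with h7 | h7
          · exact Or.inl h7
          · exact Or.inr (Or.inr h7)

theorem f_hpat [Finite V] [Finite D] [Finite T] (hc : LConn L) (hn : NoLive L)
    (hl : ∀ d, L.tl d ≠ L.hd d) (h : FGood L ∨ FPen L ∨ FLens L) : ∃ k : Kt L, HPat k := by
  rcases h with ⟨τ, ζ, x, h1, h2, h3, h4⟩ | ⟨τ, y₀, x₁, x₂, h1, h2, h3, h4, h5⟩ |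
    ⟨τ, ζ, x₀, h1, h2, h3, h4, d₁, d₂, d₃, d₄, ⟨a1, a2, a3, a4⟩, ⟨b1, b2, b3, b4⟩, c1, c2, c3,
      g1, g2, g3, g4⟩
  · exact good_hpat hc hl h2 h3 h4 ⟨x, h1⟩
  · exact pen_hpat hc hl h1 h2 h3 h4 h5
  · have h5 : τ ≠ L.bar ζ := by
      intro h5
      have h6 : L.sc τ = L.sc (L.bar τ) := by
        rw [← h1, ← h5]
      refine hn τ ⟨fun _ => τ, rfl, fun _ => ⟨h6, fun h7 => ?_⟩⟩
      have h8 : L.num τ = L.num (L.bar τ) := congrArg L.num h7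
      omega
    exact lens_hpat hc hl h1 h2 h5 h4 a1 a2 a3 a4 b1 b2 b3 b4 c1 c2 c3 g1 g2 g3 g4

end Pool.Agent.H24.GI
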