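import Pool.Agent.H24.GI.SideL

/-!
# JOB GI-24: the double cover of a label structure

`dcLS L`: the vertices are `(x, b)`, `b : Bool`; the darts whose type is its own reverse change the side `b`.

`dc_M`: the darts of type `(t, b)` from `(x, b₁)` are the `(d, b)`, and `b₁ = b`; their heads are `(hd d, fl L (ty d) b)`.
`dc_nopal`, `dc_nolive`, `dc_mtd`: as in the file `SideL` (`(t, b)` matched in `dcLS L` implies that `t` is matched: for darts `d, d'`
of type `t` with the same tail take `(d, b)`, `(d', b)`; for type `bar t` take the side `fl L t b`). `dc_deg`: `d ↦ (d, b)`.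
`dc_side`. Let `v₀ : V` (if `V` is empty `dcLS L` is connected), `A` the set of the vertices which are reachable from `(v₀, false)`
(the relation is symmetric). For every `x` some `(x, b)` is in `A`: lift a path from `v₀` to `x` (the dart `d` at `(x, b)` leads to
`(hd d, fl L (ty d) b)`). The involution `(x, b) ↦ (x, !b)` maps darts to darts (`fl L t (!b) = !(fl L t b)`). If both `(v, false)`,
`(v, true)` are in `A` for some `v` then both are for every `x` (lift a path from `v` to `x`, starting at `(v, false)` and at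
`(v, true)`; the two lifts end at different points over `x`), so everything is in `A`, so `dcLS L` is connected. Otherwise let
`s x` be the `b` with `(x, b) ∈ A`; for a dart `d`: `(hd d, fl L (ty d) (s (tl d))) ∈ A`, so `s (hd d) = fl L (ty d) (s (tl d))`.
-/

namespace Pool.Agent.H24.GI

open Pool.Agent.H24.GG Pool.Agent.H24.GH

variable {V D T K : Type}

/-- the double cover -/
noncomputable def dcLS (L : LS V D T K) : LS (V × Bool) (D × Bool) (T × Bool) (K × Bool) where
  tl d := (L.tl d.1, d.2)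
  rv d := (L.rv d.1, fl L (L.ty d.1) d.2)
  ty d := (L.ty d.1, d.2)
  bar t := (L.bar t.1, fl L t.1 t.2)
  cl x := (L.cl x.1, x.2)
  sc t := (L.sc t.1, t.2)
  num t := L.num t.1
  rv_rv d := Prod.ext (L.rv_rv d.1) (by
    show fl L (L.ty (L.rv d.1)) (fl L (L.ty d.1) d.2) = d.2
    rw [L.ty_rv, fl_bar, fl_fl])
  rv_ne d h := L.rv_ne d.1 (congrArg Prod.fst h)
  ty_rv d := Prod.ext (L.ty_rv d.1) rfl
  bar_bar t := Prod.ext (L.bar_bar t.1) (by
    show fl L (L.bar t.1) (fl L t.1 t.2) = t.2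
    rw [fl_bar, fl_fl])
  cl_tl d := Prod.ext (L.cl_tl d.1) rfl
  num_eq := by
    rintro ⟨x, b⟩ ⟨t, b'⟩ h
    rw [Prod.mk.injEq] at h
    obtain ⟨h1, rfl⟩ := h
    rw [← L.num_eq x t h1]
    refine Set.ncard_congr (fun d _ => d.1) ?_ ?_ ?_
    · rintro ⟨d, c⟩ ⟨h2, h3⟩
      exact ⟨congrArg Prod.fst h2, congrArg Prod.fst h3⟩
    · rintro ⟨d, c⟩ ⟨d', c'⟩ ⟨h2, -⟩ ⟨h3, -⟩ (h4 : d = d')
      have h5 : c = b := congrArg Prod.snd h2
      have h6 : c' = b := congrArg Prod.snd h3
      rw [h4, h5, h6]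
    · rintro d ⟨h2, h3⟩
      exact ⟨(d, b), ⟨Prod.ext h2 rfl, Prod.ext h3 rfl⟩, rfl⟩
  num_pos t := L.num_pos t.1
  cls t := by
    obtain ⟨x, hx⟩ := L.cls t.1
    exact ⟨(x, t.2), Prod.ext hx rfl⟩

variable {L : LS V D T K}

theorem dc_hd (d : D × Bool) : (dcLS L).hd d = (L.hd d.1, fl L (L.ty d.1) d.2) := rfl

theorem dc_M (t : T) (b : Bool) (x : V) (y : V × Bool) :
    (dcLS L).M (t, b) (x, b) y = if y.2 = fl L t b then L.M t x y.1 else 0 := by
  unfold LS.M
  split_ifs with h
  · refine Set.ncard_congr (fun d _ => d.1) ?_ ?_ ?_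
    · rintro ⟨d, c⟩ ⟨h1, h2, h3⟩
      exact ⟨congrArg Prod.fst h1, congrArg Prod.fst h2, congrArg Prod.fst h3⟩
    · rintro ⟨d, c⟩ ⟨d', c'⟩ ⟨h1, -⟩ ⟨h2, -⟩ (h4 : d = d')
      have h5 : c = b := congrArg Prod.snd h1
      have h6 : c' = b := congrArg Prod.snd h2
      rw [h4, h5, h6]
    · rintro d ⟨h1, h2, h3⟩
      refine ⟨(d, b), ⟨Prod.ext h1 rfl, Prod.ext h2 rfl, Prod.ext h3 ?_⟩, rfl⟩
      show fl L (L.ty d) b = y.2
      rw [h2, h]
  · refine (congrArg Set.ncard (?_ : _ = (∅ : Set (D × Bool)))).trans (Set.ncard_empty _)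
    refine Set.eq_empty_iff_forall_notMem.2 ?_
    rintro ⟨d, c⟩ ⟨h1, h2, h3⟩
    have h4 : c = b := congrArg Prod.snd h1
    have h5 : L.ty d = t := congrArg Prod.fst h2
    have h6 : fl L (L.ty d) c = y.2 := congrArg Prod.snd h3
    rw [h4, h5] at h6
    exact h h6.symm

theorem dc_nopal : NoPal (dcLS L) := by
  rintro ⟨t, b⟩ h
  have h1 : L.bar t = t := congrArg Prod.fst h
  have h2 : fl L t b = b := congrArg Prod.snd h
  unfold fl at h2
  rw [if_pos h1] at h2
  cases b <;> simp at h2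

theorem dc_nolive (hn : NoLive L) : NoLive (dcLS L) := by
  rintro s ⟨w, h0, hw⟩
  refine hn s.1 ⟨fun i => (w i).1, congrArg Prod.fst h0, fun i => ?_⟩
  obtain ⟨h1, h2⟩ := hw i
  have h4 : ((dcLS L).sc (w (i + 1))).2 = ((dcLS L).sc ((dcLS L).bar (w i))).2 :=
    congrArg Prod.snd h1
  exact ⟨congrArg Prod.fst h1, fun h3 => h2 (Prod.ext h3 h4)⟩

theorem dc_mtd {t : T × Bool} (h : Mtd (dcLS L) t) : Mtd L t.1 := by
  obtain ⟨t, b⟩ := t
  refine ⟨fun d d' h1 h2 h3 => ?_, fun d d' h1 h2 h3 => ?_⟩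
  · exact congrArg Prod.fst (h.1 (d, b) (d', b) (Prod.ext h1 rfl) (Prod.ext h2 rfl)
      (Prod.ext h3 rfl))
  · exact congrArg Prod.fst (h.2 (d, fl L t b) (d', fl L t b) (Prod.ext h1 rfl)
      (Prod.ext h2 rfl) (Prod.ext h3 rfl))

theorem dc_deg (x : V × Bool) :
    {d | (dcLS L).tl d = x}.ncard = {d | L.tl d = x.1}.ncard := by
  obtain ⟨x, b⟩ := x
  refine Set.ncard_congr (fun d _ => d.1) ?_ ?_ ?_
  · rintro ⟨d, c⟩ h
    exact congrArg Prod.fst h
  · rintro ⟨d, c⟩ ⟨d', c'⟩ h1 h2 (h4 : d = d')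
    have h5 : c = b := congrArg Prod.snd h1
    have h6 : c' = b := congrArg Prod.snd h2
    rw [h4, h5, h6]
  · rintro d h
    exact ⟨(d, b), Prod.ext h rfl, rfl⟩

/-! ### Connectedness -/

private theorem dcl_fl_not (t : T) (b : Bool) : fl L t (!b) = !(fl L t b) := by
  unfold fl
  split_ifs <;> rfl

/-- reachability in the double cover -/
private def dclR (L : LS V D T K) (x y : V × Bool) : Prop :=
  Relation.ReflTransGen (fun a b => ∃ d, (dcLS L).tl d = a ∧ (dcLS L).hd d = b) x y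

private theorem dclR_step (d : D) (b : Bool) :
    dclR L (L.tl d, b) (L.hd d, fl L (L.ty d) b) :=
  Relation.ReflTransGen.single ⟨(d, b), rfl, rfl⟩

private theorem dclR_symm {x y : V × Bool} (h : dclR L x y) : dclR L y x := by
  unfold dclR at h ⊢
  induction h with
  | refl => exact Relation.ReflTransGen.refl
  | tail _ h2 ih =>
    obtain ⟨d, h3, h4⟩ := h2
    refine Relation.ReflTransGen.head ⟨(dcLS L).rv d, ?_, ?_⟩ ih
    · exact h4
    · show (dcLS L).tl ((dcLS L).rv ((dcLS L).rv d)) = _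
      rw [(dcLS L).rv_rv]
      exact h3

private theorem dclR_not {x y : V × Bool} (h : dclR L x y) : dclR L (x.1, !x.2) (y.1, !y.2) := by
  unfold dclR at h
  induction h with
  | refl => exact Relation.ReflTransGen.refl
  | tail _ h2 ih =>
    obtain ⟨⟨d, c⟩, h3, h4⟩ := h2
    refine Relation.ReflTransGen.tail ih ⟨(d, !c), ?_, ?_⟩
    · rw [← h3]; rfl
    · rw [← h4]
      exact Prod.ext rfl (dcl_fl_not (L.ty d) c)

/-- lifting of paths -/
private theorem dclR_lift {x y : V}
    (h : Relation.ReflTransGen (fun a b => ∃ d, L.tl d = a ∧ L.hd d = b) x y) (b : Bool) :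
    ∃ c, dclR L (x, b) (y, c) := by
  induction h with
  | refl => exact ⟨b, Relation.ReflTransGen.refl⟩
  | tail _ h2 ih =>
    obtain ⟨c, hc⟩ := ih
    obtain ⟨d, rfl, rfl⟩ := h2
    exact ⟨fl L (L.ty d) c, Relation.ReflTransGen.trans hc (dclR_step d c)⟩

theorem dc_side (hc : LConn L) : LConn (dcLS L) ∨ ∃ s, SideF L s := by
  classical
  rcases isEmpty_or_nonempty V with hV | ⟨⟨v₀⟩⟩
  · exact Or.inl fun x => (hV.false x.1).elim
  by_cases hb : ∃ v, dclR L (v₀, false) (v, false) ∧ dclR L (v₀, false) (v, true)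
  · left
    obtain ⟨v, h1, h2⟩ := hb
    have h3 : dclR L (v, false) (v, true) := Relation.ReflTransGen.trans (dclR_symm h1) h2
    have h4 : ∀ x b, dclR L (x, b) (x, !b) := by
      intro x b
      obtain ⟨c, hc'⟩ := dclR_lift (hc x v) b
      have h5 : dclR L (v, c) (v, !c) := by
        cases c
        · exact h3
        · exact dclR_symm h3
      have h6 := dclR_symm (dclR_not hc')
      exact Relation.ReflTransGen.trans (Relation.ReflTransGen.trans hc' h5) h6
    intro x y
    obtain ⟨c, hc'⟩ := dclR_lift (hc x.1 y.1) x.2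
    by_cases h5 : c = y.2
    · rw [h5] at hc'
      exact hc'
    · have h6 : (!c) = y.2 := by
        cases c <;> cases hy : y.2 <;> simp_all
      have h7 := h4 y.1 c
      rw [h6] at h7
      exact Relation.ReflTransGen.trans hc' h7
  · right
    have hex : ∀ x, ∃ b, dclR L (v₀, false) (x, b) := fun x => dclR_lift (hc v₀ x) false
    choose s hs using hex
    have huniq : ∀ x b, dclR L (v₀, false) (x, b) → s x = b := by
      intro x b h
      by_contra hne
      apply hb
      refine ⟨x, ?_⟩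
      have h1 := hs x
      cases b <;> cases hsx : s x
      · exact absurd hsx hne
      · rw [hsx] at h1; exact ⟨h, h1⟩
      · rw [hsx] at h1; exact ⟨h1, h⟩
      · exact absurd hsx hne
    exact ⟨s, fun d => huniq _ _ (Relation.ReflTransGen.trans (hs (L.tl d)) (dclR_step d _))⟩

end Pool.Agent.H24.GI
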