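import Pool.Agent.H24.GI.DcL

/-!
# JOB GI-25: observed relations of the double cover

A kit `k` of the double cover gives the kit `dcKt k` of `L`: its vertices are `(x, (b, q))` for the vertices `((x, b), q)`, its
darts `(d, (b, q))` for the darts `((d, b), q)`; the labels are the first components.

`dc_rv`: `rv (d, (b, q)) = (rv d, (fl L (ty d) b, k.R (d, b) q))` corresponds to `rv ((d, b), q)`.
`el_up`: `f' w = (f (w.1.1, (w.1.2, w.2)), w.1.2)`, `e' δ = (e (δ.1.1, (δ.1.2, δ.2)), fl L (ty δ.1.1) δ.1.2)`. `star`: at `w` with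
`w.1.2 = b` the darts of type `(t, b)` with `e' = (y, fl L t b)` are those of type `t` with `e = y` (`dc_M`; for another side both
numbers are `0`). `el_dn`: the first components; `cls` and `val_dt` (or `star`) give that the second components are `w.1.2` and
`fl L (ty δ.1.1) δ.1.2`.
`dn_srt`: `sp`, `ob` of the value with the sides added: `upv t α = ((α.1, t.2), (α.2, fl L t.1 t.2))` for the type `t`.
`OF.dc`: the same pieces, slots (`dt s = ((d, b), q)` becomes `(d, (b, q))`), `tY`, `spY` with `upv` as in `dnS`. For `spc`,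
`sound`: `el_up`: the values of `f', e'` at `δ` are `upv (ty δ)` of the values of `f, e`. For `Cyc`: `σ` is the same, the values
`upv ..` of `a, b`. For `comp`: `el_dn`, the values are the first components; those of `fv`.
`HPat.dc`: the same data.
-/

namespace Pool.Agent.H24.GI

open Pool.Agent.H24.GG Pool.Agent.H24.GH

variable {V D T K : Type} {L : LS V D T K}

/-- the permutations of the kit -/
noncomputable def dcR (k : Kt (dcLS L)) (d : D) : Equiv.Perm (Bool × k.Q) where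
  toFun p := (fl L (L.ty d) p.1, k.R (d, p.1) p.2)
  invFun p := (fl L (L.ty d) p.1, (k.R (d, fl L (L.ty d) p.1)).symm p.2)
  left_inv := by
    rintro ⟨b, q⟩
    show (fl L (L.ty d) (fl L (L.ty d) b),
      (k.R (d, fl L (L.ty d) (fl L (L.ty d) b))).symm (k.R (d, b) q)) = (b, q)
    rw [fl_fl, Equiv.symm_apply_apply]
  right_inv := by
    rintro ⟨b, q⟩
    show (fl L (L.ty d) (fl L (L.ty d) b),
      k.R (d, fl L (L.ty d) b) ((k.R (d, fl L (L.ty d) b)).symm q)) = (b, q)
    rw [fl_fl, Equiv.apply_symm_apply]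

theorem dcR_rv (k : Kt (dcLS L)) (d : D) : dcR k (L.rv d) = (dcR k d).symm := by
  refine Equiv.ext ?_
  rintro ⟨b, q⟩
  have h1 := k.R_rv (d, fl L (L.ty d) b)
  have h2 : (dcLS L).rv (d, fl L (L.ty d) b) = (L.rv d, b) :=
    Prod.ext rfl (fl_fl L (L.ty d) b)
  rw [h2] at h1
  show (fl L (L.ty (L.rv d)) b, k.R (L.rv d, b) q) =
    (fl L (L.ty d) b, (k.R (d, fl L (L.ty d) b)).symm q)
  rw [L.ty_rv, fl_bar, h1]

/-- the kit of `L` for a kit of the double cover -/
noncomputable def dcKt (k : Kt (dcLS L)) : Kt L where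
  Q := Bool × k.Q
  fin := inferInstance
  R := dcR k
  R_rv := dcR_rv k

/-- the value with the sides added -/
noncomputable def upv (L : LS V D T K) (t : T × Bool) (α : V × V) : (V × Bool) × (V × Bool) :=
  ((α.1, t.2), (α.2, fl L t.1 t.2))

/-- the sort for `L` -/
noncomputable def dnS {Ω : Type} (L : LS V D T K) (s : Srt (V × Bool) (T × Bool) Ω) :
    Srt V T Ω where
  t := s.t.1
  sp α β := s.sp (upv L s.t α) (upv L s.t β)
  ob α := s.ob (upv L s.t α)
  fv ω := ((s.fv ω).1.1, (s.fv ω).2.1)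
  hob α β h := s.hob _ _ h

/-! ### Auxiliary facts -/

private theorem dcof_inj {A B C : Type} {x y : (A × B) × C}
    (h : (x.1.1, (x.1.2, x.2)) = (y.1.1, (y.1.2, y.2))) : x = y := by
  obtain ⟨⟨a, b⟩, c⟩ := x
  obtain ⟨⟨a', b'⟩, c'⟩ := y
  have h1 : a = a' := congrArg Prod.fst h
  have h2 : b = b' := congrArg (fun z => z.2.1) h
  have h3 : c = c' := congrArg (fun z => z.2.2) h
  subst h1 h2 h3
  rfl

private theorem dcof_M0 {t : T} {b b' : Bool} (hb : b' ≠ b) (z : V) (y : V × Bool) :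
    (dcLS L).M (t, b') (z, b) y = 0 := by
  have h0 : {d | (dcLS L).tl d = (z, b) ∧ (dcLS L).ty d = (t, b') ∧ (dcLS L).hd d = y} =
      (∅ : Set (D × Bool)) := by
    refine Set.eq_empty_iff_forall_notMem.2 ?_
    rintro ⟨d, c⟩ ⟨h1, h2, h3⟩
    have h4 : c = b := congrArg Prod.snd h1
    have h5 : c = b' := congrArg Prod.snd h2
    exact hb (h5.symm.trans h4)
  show Set.ncard {d | (dcLS L).tl d = (z, b) ∧ (dcLS L).ty d = (t, b') ∧ (dcLS L).hd d = y} = 0
  rw [h0, Set.ncard_empty]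

theorem el_up {k : Kt (dcLS L)} {C : Set (D × (Bool × k.Q))} {f : V × (Bool × k.Q) → V}
    {e : D × (Bool × k.Q) → V} (h : EL (dcKt k).net C f e) :
    EL k.net {δ | (δ.1.1, (δ.1.2, δ.2)) ∈ C} (fun w => (f (w.1.1, (w.1.2, w.2)), w.1.2))
      (fun δ => (e (δ.1.1, (δ.1.2, δ.2)), fl L (L.ty δ.1.1) δ.1.2)) := by
  refine ⟨?_, ?_, ?_⟩
  · rintro ⟨⟨x, b⟩, q⟩
    exact Prod.ext (h.cls (x, (b, q))) rfl
  · rintro ⟨⟨x, b⟩, q⟩ ⟨t, b'⟩ ⟨y, c⟩
    by_cases hb : b' = b
    · subst hb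
      have hM : (dcLS L).M (t, b') (f (x, (b', q)), b') (y, c) =
          if c = fl L t b' then L.M t (f (x, (b', q))) y else 0 := dc_M t b' _ (y, c)
      show _ = (dcLS L).M (t, b') (f (x, (b', q)), b') (y, c)
      rw [hM]
      split_ifs with hc
      · refine Eq.trans ?_ (h.star (x, (b', q)) t y)
        refine Set.ncard_congr (fun δ _ => (δ.1.1, (δ.1.2, δ.2))) ?_ ?_ ?_
        · rintro ⟨⟨d, b⟩, p⟩ ⟨h1, h2, h3⟩
          have h4 : L.tl d = x := congrArg (fun z => z.1.1) h1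
          have h5 : b = b' := congrArg (fun z => z.1.2) h1
          have h6 : p = q := congrArg (fun z => z.2) h1
          refine ⟨?_, congrArg Prod.fst h2, congrArg Prod.fst h3⟩
          show (L.tl d, (b, p)) = (x, (b', q))
          rw [h4, h5, h6]
        · intro δ δ' _ _ h4
          exact dcof_inj h4
        · rintro ⟨d, ⟨b, p⟩⟩ ⟨h1, h2, h3⟩
          have h4 : L.tl d = x := congrArg (fun z => z.1) h1
          have h5 : b = b' := congrArg (fun z => z.2.1) h1
          have h6 : p = q := congrArg (fun z => z.2.2) h1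
          have h7 : L.ty d = t := h2
          refine ⟨((d, b), p), ⟨?_, ?_, ?_⟩, rfl⟩
          · show ((L.tl d, b), p) = ((x, b'), q)
            rw [h4, h5, h6]
          · show (L.ty d, b) = (t, b')
            rw [h7, h5]
          · show (e (d, (b, p)), fl L (L.ty d) b) = (y, c)
            rw [hc, h7, h5]
            exact Prod.ext (by rw [← h5]; exact h3) rfl
      · have h0 : {δ | k.net.tl δ = ((x, b'), q) ∧ k.net.ty δ = (t, b') ∧
            (e (δ.1.1, (δ.1.2, δ.2)), fl L (L.ty δ.1.1) δ.1.2) = (y, c)} =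
            (∅ : Set ((D × Bool) × k.Q)) := by
          refine Set.eq_empty_iff_forall_notMem.2 ?_
          rintro ⟨⟨d, b⟩, p⟩ ⟨h1, h2, h3⟩
          have h5 : b = b' := congrArg (fun z => z.1.2) h1
          have h7 : L.ty d = t := congrArg Prod.fst h2
          have h8 : fl L (L.ty d) b = c := congrArg Prod.snd h3
          rw [h7, h5] at h8
          exact hc h8.symm
        exact (congrArg Set.ncard h0).trans (Set.ncard_empty _)
    · show _ = (dcLS L).M (t, b') (f (x, (b, q)), b) (y, c)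
      rw [dcof_M0 hb]
      have h0 : {δ | k.net.tl δ = ((x, b), q) ∧ k.net.ty δ = (t, b') ∧
          (e (δ.1.1, (δ.1.2, δ.2)), fl L (L.ty δ.1.1) δ.1.2) = (y, c)} =
          (∅ : Set ((D × Bool) × k.Q)) := by
        refine Set.eq_empty_iff_forall_notMem.2 ?_
        rintro ⟨⟨d, b''⟩, p⟩ ⟨h1, h2, h3⟩
        have h5 : b'' = b := congrArg (fun z => z.1.2) h1
        have h6 : b'' = b' := congrArg Prod.snd h2
        exact hb (h6.symm.trans h5)
      exact (congrArg Set.ncard h0).trans (Set.ncard_empty _)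
  · rintro ⟨⟨d, b⟩, q⟩ h1 h2
    exact Prod.ext (h.unc (d, (b, q)) h1 h2) rfl

private theorem dcof_side {k : Kt (dcLS L)} {C : Set ((D × Bool) × k.Q)}
    {f : (V × Bool) × k.Q → V × Bool} {e : (D × Bool) × k.Q → V × Bool} (h : EL k.net C f e)
    (w : (V × Bool) × k.Q) : (f w).2 = w.1.2 := by
  have h1 : ((dcLS L).cl (f w)).2 = (k.net.cl w).2 := congrArg Prod.snd (h.cls w)
  exact h1

theorem el_dn {k : Kt (dcLS L)} {f : (V × Bool) × k.Q → V × Bool}
    {e : (D × Bool) × k.Q → V × Bool} (h : EL k.net ∅ f e) :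
    EL (dcKt k).net ∅ (fun w => (f ((w.1, w.2.1), w.2.2)).1)
      (fun δ => (e ((δ.1, δ.2.1), δ.2.2)).1) := by
  have hes : ∀ δ, (e δ).2 = fl L (L.ty δ.1.1) δ.1.2 := fun δ => by
    rw [h.unc δ (Set.notMem_empty _) (Set.notMem_empty _), dcof_side h]
    rfl
  refine ⟨?_, ?_, ?_⟩
  · rintro ⟨x, ⟨b, q⟩⟩
    exact congrArg Prod.fst (h.cls ((x, b), q))
  · rintro ⟨x, ⟨b, q⟩⟩ t y
    have h1 := h.star ((x, b), q) (t, b) (y, fl L t b)
    have h2 : f ((x, b), q) = ((f ((x, b), q)).1, b) := Prod.ext rfl (dcof_side h _)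
    rw [h2, dc_M, if_pos rfl] at h1
    refine Eq.trans ?_ h1
    refine Set.ncard_congr (fun δ _ => ((δ.1, δ.2.1), δ.2.2)) ?_ ?_ ?_
    · rintro ⟨d, ⟨b', p⟩⟩ ⟨h3, h4, h5⟩
      have h6 : L.tl d = x := congrArg (fun z => z.1) h3
      have h7 : b' = b := congrArg (fun z => z.2.1) h3
      have h8 : p = q := congrArg (fun z => z.2.2) h3
      have h9 : L.ty d = t := h4
      refine ⟨?_, ?_, Prod.ext h5 ?_⟩
      · show ((L.tl d, b'), p) = ((x, b), q)
        rw [h6, h7, h8]
      · show (L.ty d, b') = (t, b)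
        rw [h9, h7]
      · rw [hes]
        show fl L (L.ty d) b' = fl L t b
        rw [h9, h7]
    · rintro ⟨d, ⟨b', p⟩⟩ ⟨d', ⟨b'', p'⟩⟩ _ _ h4
      have h5 : d = d' := congrArg (fun z => z.1.1) h4
      have h6 : b' = b'' := congrArg (fun z => z.1.2) h4
      have h7 : p = p' := congrArg (fun z => z.2) h4
      rw [h5, h6, h7]
    · rintro ⟨⟨d, b'⟩, p⟩ ⟨h3, h4, h5⟩
      have h6 : L.tl d = x := congrArg (fun z => z.1.1) h3
      have h7 : b' = b := congrArg (fun z => z.1.2) h3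
      have h8 : p = q := congrArg (fun z => z.2) h3
      have h9 : L.ty d = t := congrArg Prod.fst h4
      refine ⟨(d, (b', p)), ⟨?_, h9, congrArg Prod.fst h5⟩, rfl⟩
      show (L.tl d, (b', p)) = (x, (b, q))
      rw [h6, h7, h8]
  · rintro ⟨d, ⟨b, q⟩⟩ _ _
    exact congrArg Prod.fst (h.unc ((d, b), q) (Set.notMem_empty _) (Set.notMem_empty _))

private theorem dcof_evt (k : Kt (dcLS L)) (f : V × (Bool × k.Q) → V)
    (e : D × (Bool × k.Q) → V) (δ : (D × Bool) × k.Q) :
    evt k.net (fun w => (f (w.1.1, (w.1.2, w.2)), w.1.2))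
      (fun δ => (e (δ.1.1, (δ.1.2, δ.2)), fl L (L.ty δ.1.1) δ.1.2)) δ =
    upv L ((dcLS L).ty δ.1) (evt (dcKt k).net f e (δ.1.1, (δ.1.2, δ.2))) := rfl

private theorem dcof_evh (k : Kt (dcLS L)) (f : V × (Bool × k.Q) → V)
    (e : D × (Bool × k.Q) → V) (δ : (D × Bool) × k.Q) :
    evh k.net (fun w => (f (w.1.1, (w.1.2, w.2)), w.1.2))
      (fun δ => (e (δ.1.1, (δ.1.2, δ.2)), fl L (L.ty δ.1.1) δ.1.2)) δ =
    upv L ((dcLS L).ty δ.1) (evh (dcKt k).net f e (δ.1.1, (δ.1.2, δ.2))) := by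
  obtain ⟨⟨d, b⟩, q⟩ := δ
  refine Prod.ext (Prod.ext rfl ?_) rfl
  show fl L (L.ty (L.rv d)) (fl L (L.ty d) b) = b
  rw [L.ty_rv, fl_bar, fl_fl]

private theorem dcof_congr {L : LS V D T K} {W Δ : Type} {N : Net L W Δ} {C C' : Set Δ}
    {f : W → V} {e : Δ → V} (h : C = C') (h' : EL N C f e) : EL N C' f e := h ▸ h'

private theorem dcof_two {A : Type} {P : A → A → Prop} {α α' β β' : A} (h1 : α = α')
    (h2 : β = β') (h : P α β) : P α' β' := by
  subst h1 h2
  exact h

theorem OF.dc {X Ω : Type} {k : Kt (dcLS L)} {sX : X → Srt (V × Bool) (T × Bool) Ω}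
    {Rs Rc : (X → Ω) → Prop} (h : OF k sX Rs Rc) :
    OF (dcKt k) (fun x => dnS L (sX x)) Rs Rc := by
  obtain ⟨Y, B, S, fY, fB, fS, tY, spY, E, hE⟩ := h
  have hinl : ∀ s x, E.sy s = Sum.inl x → (dcLS L).ty (E.dt s).1 = (sX x).t := by
    intro s x hs
    rw [hE.ty s, hs]
    rfl
  have hinr : ∀ s y, E.sy s = Sum.inr y → (dcLS L).ty (E.dt s).1 = tY y := by
    intro s y hs
    rw [hE.ty s, hs]
    rfl
  refine ⟨Y, B, S, fY, fB, fS, fun y => (tY y).1,
    fun y α β => spY y (upv L (tY y) α) (upv L (tY y) β),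
    ⟨E.pc, fun s => ((E.dt s).1.1, ((E.dt s).1.2, (E.dt s).2)), E.sy⟩, ⟨?_, ?_, ?_, ?_, ?_, ?_⟩⟩
  · intro s s' h1 h2
    exact hE.inj s s' h1 (dcof_inj h2)
  · intro s s' h1 h2
    refine hE.nrev s s' h1 (dcof_inj ?_)
    exact h2
  · intro s
    show L.ty (E.dt s).1.1 = Sum.elim (fun x => (sX x).t.1) (fun y => (tY y).1) (E.sy s)
    have h1 := congrArg Prod.fst (hE.ty s)
    refine Eq.trans h1 ?_
    cases E.sy s with
    | inl x => rfl
    | inr y => rfl
  · intro s f e hf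
    have h1 := el_up hf
    have h2 : {δ : (D × Bool) × k.Q | (δ.1.1, (δ.1.2, δ.2)) ∈
        ({((E.dt s).1.1, ((E.dt s).1.2, (E.dt s).2))} : Set (D × (Bool × k.Q)))} = {E.dt s} := by
      ext δ
      constructor
      · intro h3
        exact dcof_inj h3
      · intro h3
        have h4 : δ = E.dt s := h3
        subst h4
        exact rfl
    have h3 := dcof_two (P := Sum.elim (fun x => (sX x).sp) spY (E.sy s))
      (dcof_evt k f e (E.dt s)) (dcof_evh k f e (E.dt s)) (hE.spc s _ _ (dcof_congr h2 h1))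
    show Sum.elim (fun x => (dnS L (sX x)).sp)
      (fun y α β => spY y (upv L (tY y) α) (upv L (tY y) β)) (E.sy s) _ _
    cases hc : E.sy s with
    | inl x =>
      rw [hc, hinl s x hc] at h3
      exact h3
    | inr y =>
      rw [hc, hinr s y hc] at h3
      exact h3
  · intro a b h3 h4 h5
    have key := hE.sound (fun s => upv L ((dcLS L).ty (E.dt s).1) (a s))
      (fun s => upv L ((dcLS L).ty (E.dt s).1) (b s))
      (by
        intro s x hs
        obtain ⟨⟨α, hα⟩, β, hβ⟩ := h3 s x hs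
        rw [hinl s x hs]
        exact ⟨⟨_, hα⟩, _, hβ⟩)
      (by
        obtain ⟨σ, hσ1, hσ2, hσ3⟩ := h4
        refine ⟨σ, hσ1, hσ2, ?_⟩
        intro s y hy
        have h6 : E.sy (σ s).1 = Sum.inr y := (hσ1 s).trans hy
        show spY y (upv L ((dcLS L).ty (E.dt (σ s).1).1) (b (σ s).1))
          (upv L ((dcLS L).ty (E.dt s.1).1) (a s.1))
        rw [hinr _ _ hy, hinr _ _ h6]
        exact hσ3 s y hy)
      (by
        intro p
        obtain ⟨f, e, hf, hs⟩ := h5 p
        have h1 := el_up hf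
        have h2 : {δ : (D × Bool) × k.Q | (δ.1.1, (δ.1.2, δ.2)) ∈
            {δ' : D × (Bool × k.Q) | ∃ s, E.pc s = p ∧
              ((E.dt s).1.1, ((E.dt s).1.2, (E.dt s).2)) = δ'}} =
            {δ | ∃ s, E.pc s = p ∧ E.dt s = δ} := by
          ext δ
          constructor
          · rintro ⟨s, h6, h7⟩
            exact ⟨s, h6, dcof_inj h7⟩
          · rintro ⟨s, h6, rfl⟩
            exact ⟨s, h6, rfl⟩
        refine ⟨_, _, dcof_congr h2 h1, fun s hsp => ?_⟩
        obtain ⟨h6, h7⟩ := hs s hsp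
        exact ⟨(dcof_evt k f e (E.dt s)).trans (congrArg (upv L ((dcLS L).ty (E.dt s).1)) h6),
          (dcof_evh k f e (E.dt s)).trans (congrArg (upv L ((dcLS L).ty (E.dt s).1)) h7)⟩)
    refine ⟨?_, ?_⟩
    · intro s x hs
      have h6 := key.1 s x hs
      rw [hinl s x hs] at h6
      exact h6
    · intro c hc
      refine key.2 c fun s x hs => ?_
      have h6 := hc s x hs
      rw [hinl s x hs]
      exact h6
  · intro c hc
    obtain ⟨y, hy⟩ := hE.comp c hc
    refine ⟨fun z => ((y z).1.1, (y z).2.1), fun p => ?_⟩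
    obtain ⟨f, e, hf, hs⟩ := hy p
    refine ⟨_, _, el_dn hf, fun s hsp => ?_⟩
    have h6 := hs s hsp
    have h7 : ((evt k.net f e (E.dt s)).1.1, (evt k.net f e (E.dt s)).2.1) =
        Sum.elim (fun x => (dnS L (sX x)).fv (c x)) (fun z => ((y z).1.1, (y z).2.1))
          (E.sy s) := by
      rw [h6]
      cases E.sy s with
      | inl x => rfl
      | inr z => rfl
    exact h7

theorem HPat.dc {k : Kt (dcLS L)} (h : HPat k) : HPat (dcKt k) := by
  obtain ⟨J₀, J, Ω, i1, i2, i3, s₀, sJ, Rs, Rc, β, c₀, γ, g1, g2, g3⟩ := h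
  have h1 := OF.dc g1
  have h2 : (fun x => dnS L (Sum.elim s₀ (fun p : Bool × J => sJ p.2) x)) =
      Sum.elim (fun i => dnS L (s₀ i)) (fun p : Bool × J => dnS L (sJ p.2)) := by
    funext x
    rcases x with x | x <;> rfl
  rw [h2] at h1
  exact ⟨J₀, J, Ω, i1, i2, i3, fun i => dnS L (s₀ i), fun j => dnS L (sJ j), Rs, Rc, β, c₀, γ,
    h1, g2, g3⟩

end Pool.Agent.H24.GI
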