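import Pool.Agent.H24.GI.Lev

/-!
# JOB GI-3: exactness of one and two cuts

`nf_units`: `unit_flow`.
`lev_one`: if `nf f` is not constant: `lev_main` for `ι = Unit` (`u = rv u` is impossible, `rv_ne`): `bd L E₁`, `bd L E₂` have exactly one
element each, and equality holds, so `evt` is separated by some `E j`, in contradiction to `Cut 2` for `evt`; the same for `evh`
(`Sp2 ... (evh).2 (evh).1`, use `(E j)ᶜ`, `bd_compl`).
`one_exact`: `nf f` is constant, so `uP = uN` for `t = ty δ`, `(x, y) = evt δ`; `uP` is positive; so `evh δ = (x, y)`, or `bar t = t` and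
`evt δ = (y, x)`; the latter gives `x = y`, but there is a dart from `x` to `y` (`EL.star`: the number of the darts of type `t` at
`tl δ` with `e = y` is `M t x y`, positive), contradiction to `hl`. `one_el`: the values are equal, so nothing is cut.
`lev_two`: four values satisfy `Cut 2`, one of the following holds: some value satisfies `Cut 3`; the tails of the `evt` are
equal to `x` and `Cut 3 x {y, y'}`; then `nf f` is constant. Proof: otherwise `lev_main` for `ι = Fin 2`, `![u, u']`. Every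
`d ∈ bd L (E j)` has `0 < uP ..`, so some `(tl d, hd d)` is `evt (u i)` or `evh (u i)` exchanged, so `2 ≤ (bd L (E j)).ncard`
(`Cut 2`, `cut_symm`). So both have exactly two elements and equality holds. So every value is separated by some `E j` with
`(bd L (E j)).ncard = 2`: this excludes the first case. Second case: let `x, y` be separated by `E i` and `x, y'` by `E j`. If `i = j`:
contradiction to `Cut 3 x {y, y'}`. If `i ≠ j`: `x ∈ E₁` (as `x ∈ E₁` and `x ∈ E₂`), and `E₁ ⊆ E₂`; the one of `y, y'` which is not in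
`E₂` is not in `E₁`, so both are not in `E₁`: contradiction.
`two_tail`: `lev_two`, `nf_units`. Let `x = f (tl u)`, `evt u = (x, y)`, `evt u' = (x, y')`. If `(ty u, y) ≠ (ty u', y')`: `0 < uP (ty u) x y`, so
`0 < uN`; as `(y, x)` is no value `evt` (`x ≠ y`, the tail of both `evt` is `x`) some `evh` is `(x, y)` with the type `ty u`; the same for
`u'`; the two indices are different (types or values differ). If `(ty u, y) = (ty u', y')` then `2 ≤ uP`, `2 ≤ uN`, so both `evh` are
`(x, y)`.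
`two_head`: `two_tail` for `rv u, rv u'` (`el_symm`; `evt (rv u)` is `evh u` exchanged).
`two_val`: if some value satisfies `Cut 3` then `nf f` is constant (`lev_two`); as the types are different and not reversed the
units of `u` can only be cancelled by `u`: `evh u = evt u` (as in `one_exact`), the same for `u'`.
`strong_val`: `unit_flow`: `3 * |nf f x - nf f y| ≤ |uP - uN|`; as `t ≠ bar t`, `uP - uN` is
`{i | evt (u i) = (x, y)}.ncard - {i | evh (u i) = (x, y)}.ncard`, which is between `-2` and `2`. So it is zero.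
`aut_of_el`: `el_const`: all fibres of `g x = f (x, ())` have the same number of elements; the sum is `Nat.card V`, so it is one
(`V` is not empty as `x : V` is given, otherwise clear). `cl`: `EL.cls`. `M`: `star` at `(x, ())` for `t`, `g y`:
`e (d, ()) = f (hd d, ()) = g (hd d)`, `g` is injective.
-/

namespace Pool.Agent.H24.GI

open Pool.Agent.H24.GG Pool.Agent.H24.GH

variable {V D T K : Type} {L : LS V D T K}

/-- no small cut separates the value `α` -/
def CutV (L : LS V D T K) (j : ℕ) (α : V × V) : Prop := Cut L j α.1 {α.2}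

theorem nf_units {W Δ : Type} [Finite W] [Finite Δ] {N : Net L W Δ} {f : W → V} {e : Δ → V}
    {ι : Type} [Fintype ι] {u : ι → Δ} (hu : Function.Injective u) (hr : ∀ i j, u i ≠ N.rv (u j))
    (h : EL N (Set.range u) f e) (hn : ∀ x y, nf f x = nf f y) (t : T) (x y : V) :
    uP N f e u t x y = uN N f e u t x y := by
  have h1 := unit_flow hu hr h t x y
  rw [hn x y, sub_self, mul_zero] at h1
  have h2 : (uP N f e u t x y : ℤ) = uN N f e u t x y := by linarith
  exact_mod_cast h2

/-- a unit with the given type and value -/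
theorem exg_uP_pos {W Δ : Type} (N : Net L W Δ) (f : W → V) (e : Δ → V) {ι : Type} [Finite ι]
    (u : ι → Δ) (i : ι) :
    0 < uP N f e u (N.ty (u i)) (evt N f e (u i)).1 (evt N f e (u i)).2 := by
  unfold uP
  refine Nat.add_pos_left ?_ _
  exact (Set.ncard_pos (Set.toFinite _)).2 ⟨i, rfl, rfl⟩

theorem exg_pos_uP {W Δ : Type} {N : Net L W Δ} {f : W → V} {e : Δ → V} {ι : Type}
    {u : ι → Δ} {t : T} {x y : V} (h : 0 < uP N f e u t x y) :
    ∃ i, (N.ty (u i) = t ∧ evt N f e (u i) = (x, y)) ∨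
      (L.bar (N.ty (u i)) = t ∧ evh N f e (u i) = (y, x)) := by
  unfold uP at h
  rcases Nat.add_pos_iff_pos_or_pos.1 h with h1 | h1
  · obtain ⟨i, hi⟩ := Set.nonempty_of_ncard_ne_zero h1.ne'
    exact ⟨i, Or.inl hi⟩
  · obtain ⟨i, hi⟩ := Set.nonempty_of_ncard_ne_zero h1.ne'
    exact ⟨i, Or.inr hi⟩

theorem exg_pos_uN {W Δ : Type} {N : Net L W Δ} {f : W → V} {e : Δ → V} {ι : Type}
    {u : ι → Δ} {t : T} {x y : V} (h : 0 < uN N f e u t x y) :
    ∃ i, (N.ty (u i) = t ∧ evh N f e (u i) = (x, y)) ∨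
      (L.bar (N.ty (u i)) = t ∧ evt N f e (u i) = (y, x)) := by
  unfold uN at h
  rcases Nat.add_pos_iff_pos_or_pos.1 h with h1 | h1
  · obtain ⟨i, hi⟩ := Set.nonempty_of_ncard_ne_zero h1.ne'
    exact ⟨i, Or.inl hi⟩
  · obtain ⟨i, hi⟩ := Set.nonempty_of_ncard_ne_zero h1.ne'
    exact ⟨i, Or.inr hi⟩

/-- every unit is cancelled by a unit -/
theorem exg_cancel {W Δ : Type} [Finite W] [Finite Δ] {N : Net L W Δ} {f : W → V} {e : Δ → V}
    {ι : Type} [Fintype ι] {u : ι → Δ} (hu : Function.Injective u) (hr : ∀ i j, u i ≠ N.rv (u j))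
    (h : EL N (Set.range u) f e) (hn : ∀ x y, nf f x = nf f y) (i : ι) :
    ∃ j, (N.ty (u j) = N.ty (u i) ∧ evh N f e (u j) = evt N f e (u i)) ∨
      (L.bar (N.ty (u j)) = N.ty (u i) ∧
        evt N f e (u j) = ((evt N f e (u i)).2, (evt N f e (u i)).1)) := by
  have h1 := exg_uP_pos N f e u i
  rw [nf_units hu hr h hn] at h1
  exact exg_pos_uN h1

theorem val_dt [Finite D] {W Δ : Type} [Finite Δ] {N : Net L W Δ} {C : Set Δ} {f : W → V}
    {e : Δ → V} (h : EL N C f e) (δ : Δ) : Dt L (N.ty δ) (evt N f e δ).1 (evt N f e δ).2 ∧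
      Dt L (N.ty δ) (evh N f e δ).1 (evh N f e δ).2 := by
  have key : ∀ δ, Dt L (N.ty δ) (f (N.tl δ)) (e δ) := by
    intro δ
    rw [dt_iff, ← h.star (N.tl δ) (N.ty δ) (e δ)]
    intro h1
    rw [Set.ncard_eq_zero (Set.toFinite _)] at h1
    have h2 : δ ∈ {δ' | N.tl δ' = N.tl δ ∧ N.ty δ' = N.ty δ ∧ e δ' = e δ} := ⟨rfl, rfl, rfl⟩
    rw [h1] at h2
    exact h2
  refine ⟨key δ, ?_⟩
  obtain ⟨d, h1, h2, h3⟩ := key (N.rv δ)
  refine ⟨L.rv d, h2, ?_, ?_⟩
  · show L.hd (L.rv d) = f (N.hd δ)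
    rw [hon_hd_rv, h1]
    rfl
  · rw [L.ty_rv, h3, N.ty_rv, L.bar_bar]

/-- a value which is its own reverse gives a loop -/
theorem exg_swap [Finite D] (hl : ∀ d, L.tl d ≠ L.hd d) {W Δ : Type} [Finite Δ] {N : Net L W Δ}
    {C : Set Δ} {f : W → V} {e : Δ → V} (h : EL N C f e) (δ : Δ) :
    (evt N f e δ).1 ≠ (evt N f e δ).2 := by
  intro h1
  obtain ⟨d, h2, h3, -⟩ := (val_dt h δ).1
  exact hl d (by rw [h2, h3, h1])

section

variable [Finite V] [Finite D] [Finite T] {k : Kt L} {f : V × k.Q → V} {e : D × k.Q → V}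

theorem lev_one (hc : LConn L) {δ : D × k.Q} (h : EL k.net {δ} f e)
    (hv : CutV L 2 (evt k.net f e δ) ∨ CutV L 2 (evh k.net f e δ)) (x y : V) :
    nf f x = nf f y := by
  by_contra hne
  have hu : Function.Injective (fun _ : Unit => δ) := fun _ _ _ => rfl
  have hr : ∀ i j : Unit, (fun _ : Unit => δ) i ≠ k.net.rv ((fun _ : Unit => δ) j) :=
    fun _ _ h1 => k.net.rv_ne δ h1.symm
  have h' : EL k.net (Set.range (fun _ : Unit => δ)) f e := by
    rw [Set.range_const]
    exact h
  obtain ⟨E₁, E₂, -, h1, h2, h3, -, h4⟩ := lev_main hc hu hr h' ⟨x, y, hne⟩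
  have h5 := (Set.ncard_pos (Set.toFinite _)).2 h1
  have h6 := (Set.ncard_pos (Set.toFinite _)).2 h2
  rw [Fintype.card_unit] at h3 h4
  have h7 : (bd L E₁).ncard = 1 := by omega
  have h8 : (bd L E₂).ncard = 1 := by omega
  obtain ⟨h9, h10⟩ := h4 (by omega) ()
  have key : ∀ a b : V, Sp2 E₁ E₂ a b → ¬ Cut L 2 a {b} := by
    intro a b hab hcut
    rcases hab with ⟨h11, h12⟩ | ⟨h11, h12⟩
    · have h13 := hcut E₁ h11 (fun z hz => by rw [Set.mem_singleton_iff.1 hz]; exact h12)
      omega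
    · have h13 := hcut E₂ h11 (fun z hz => by rw [Set.mem_singleton_iff.1 hz]; exact h12)
      omega
  rcases hv with hv | hv
  · exact key _ _ h9 hv
  · exact key _ _ h10 (cut_symm hv)

theorem one_exact (hc : LConn L) (hl : ∀ d, L.tl d ≠ L.hd d) {δ : D × k.Q}
    (h : EL k.net {δ} f e) (hv : CutV L 2 (evt k.net f e δ) ∨ CutV L 2 (evh k.net f e δ)) :
    evt k.net f e δ = evh k.net f e δ := by
  have hn := lev_one hc h hv
  have hu : Function.Injective (fun _ : Unit => δ) := fun _ _ _ => rfl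
  have hr : ∀ i j : Unit, (fun _ : Unit => δ) i ≠ k.net.rv ((fun _ : Unit => δ) j) :=
    fun _ _ h1 => k.net.rv_ne δ h1.symm
  have h' : EL k.net (Set.range (fun _ : Unit => δ)) f e := by
    rw [Set.range_const]
    exact h
  obtain ⟨-, h1 | h1⟩ := exg_cancel hu hr h' hn ()
  · exact h1.2.symm
  · have h2 : evt k.net f e δ = ((evt k.net f e δ).2, (evt k.net f e δ).1) := h1.2
    exact absurd (congrArg Prod.fst h2) (exg_swap hl h δ)

theorem one_el (hc : LConn L) (hl : ∀ d, L.tl d ≠ L.hd d) {δ : D × k.Q}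
    (h : EL k.net {δ} f e) (hv : CutV L 2 (evt k.net f e δ) ∨ CutV L 2 (evh k.net f e δ)) :
    EL k.net ∅ f e := by
  have h1 := one_exact hc hl h hv
  refine ⟨h.cls, h.star, ?_⟩
  intro δ' _ _
  by_cases h2 : δ' = δ
  · rw [h2]
    exact congrArg Prod.snd h1
  · by_cases h3 : k.net.rv δ' = δ
    · have h4 : δ' = k.net.rv δ := by rw [← h3, k.net.rv_rv]
      rw [h4, hon_nhd_rv]
      exact (congrArg Prod.fst h1).symm
    · exact h.unc δ' (fun h4 => h2 h4) (fun h4 => h3 h4)

omit [Finite V] [Finite D] [Finite T] in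
theorem exg_pair {u u' : D × k.Q} (hne : u ≠ u') (hnr : u ≠ k.net.rv u')
    (h : EL k.net {u, u'} f e) :
    Function.Injective (![u, u'] : Fin 2 → D × k.Q) ∧
      (∀ i j, (![u, u'] : Fin 2 → D × k.Q) i ≠ k.net.rv ((![u, u'] : Fin 2 → D × k.Q) j)) ∧
      EL k.net (Set.range (![u, u'] : Fin 2 → D × k.Q)) f e := by
  refine ⟨?_, ?_, ?_⟩
  · intro i j hij
    fin_cases i <;> fin_cases j
    · rfl
    · exact absurd hij hne
    · exact absurd hij hne.symm
    · rfl
  · intro i j hij
    fin_cases i <;> fin_cases j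
    · exact k.net.rv_ne u (Eq.symm hij)
    · exact hnr hij
    · have h1 : u' = k.net.rv u := hij
      exact hnr (by rw [h1, k.net.rv_rv])
    · exact k.net.rv_ne u' (Eq.symm hij)
  · rw [Matrix.range_cons, Matrix.range_cons, Matrix.range_empty, Set.union_empty]
    exact h

theorem lev_two (hc : LConn L) {u u' : D × k.Q} (hne : u ≠ u') (hnr : u ≠ k.net.rv u')
    (h : EL k.net {u, u'} f e) (h1 : CutV L 2 (evt k.net f e u)) (h2 : CutV L 2 (evt k.net f e u'))
    (h3 : CutV L 2 (evh k.net f e u)) (h4 : CutV L 2 (evh k.net f e u'))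
    (h5 : CutV L 3 (evt k.net f e u) ∨ CutV L 3 (evt k.net f e u') ∨
      CutV L 3 (evh k.net f e u) ∨ CutV L 3 (evh k.net f e u') ∨
      ((evt k.net f e u).1 = (evt k.net f e u').1 ∧
        Cut L 3 (evt k.net f e u).1 {(evt k.net f e u).2, (evt k.net f e u').2})) (x y : V) :
    nf f x = nf f y := by
  by_contra hne'
  obtain ⟨hu, hr, h'⟩ := exg_pair hne hnr h
  obtain ⟨E₁, E₂, hsub, b1, b2, b3, b4, b5⟩ := lev_main hc hu hr h' ⟨x, y, hne'⟩
  rw [Fintype.card_fin] at b3 b5
  -- the values satisfy `Cut 2`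
  have hcv : ∀ i : Fin 2, Cut L 2 (evt k.net f e ((![u, u'] : Fin 2 → D × k.Q) i)).1
      {(evt k.net f e ((![u, u'] : Fin 2 → D × k.Q) i)).2} ∧
      Cut L 2 (evh k.net f e ((![u, u'] : Fin 2 → D × k.Q) i)).2
      {(evh k.net f e ((![u, u'] : Fin 2 → D × k.Q) i)).1} := by
    intro i
    fin_cases i
    · exact ⟨h1, cut_symm h3⟩
    · exact ⟨h2, cut_symm h4⟩
  have hcd : ∀ d, d ∈ bd L E₁ ∨ d ∈ bd L E₂ → Cut L 2 (L.tl d) {L.hd d} := by
    intro d hd
    obtain ⟨i, hi | hi⟩ := exg_pos_uP (b4 d hd)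
    · have h6 := (hcv i).1
      rw [hi.2] at h6
      exact h6
    · have h6 := (hcv i).2
      rw [hi.2] at h6
      exact h6
  have c1 : 2 ≤ (bd L E₁).ncard := by
    obtain ⟨d, hd⟩ := b1
    exact hcd d (Or.inl hd) E₁ hd.1 (fun z hz => by rw [Set.mem_singleton_iff.1 hz]; exact hd.2)
  have c2 : 2 ≤ (bd L E₂).ncard := by
    obtain ⟨d, hd⟩ := b2
    exact hcd d (Or.inr hd) E₂ hd.1 (fun z hz => by rw [Set.mem_singleton_iff.1 hz]; exact hd.2)
  have c3 : (bd L E₁).ncard = 2 := by omega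
  have c4 : (bd L E₂).ncard = 2 := by omega
  have c5 := b5 (by omega)
  obtain ⟨s1, s3⟩ := c5 0
  obtain ⟨s2, s4⟩ := c5 1
  have key : ∀ a b : V, Sp2 E₁ E₂ a b → ¬ Cut L 3 a {b} := by
    intro a b hab hcut
    rcases hab with ⟨h11, h12⟩ | ⟨h11, h12⟩
    · have h13 := hcut E₁ h11 (fun z hz => by rw [Set.mem_singleton_iff.1 hz]; exact h12)
      omega
    · have h13 := hcut E₂ h11 (fun z hz => by rw [Set.mem_singleton_iff.1 hz]; exact h12)
      omega
  rcases h5 with h5 | h5 | h5 | h5 | ⟨h5, h6⟩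
  · exact key _ _ s1 h5
  · exact key _ _ s2 h5
  · exact key _ _ s3 (cut_symm h5)
  · exact key _ _ s4 (cut_symm h5)
  · have key2 : ∀ S : Set V, (bd L S).ncard = 2 → (evt k.net f e u).1 ∈ S →
        (evt k.net f e u).2 ∉ S → (evt k.net f e u').2 ∉ S → False := by
      intro S d1 d2 d3 d4
      have d5 := h6 S d2 (fun z hz => by
        rcases hz with hz | hz
        · rw [hz]
          exact d3
        · rw [Set.mem_singleton_iff.1 hz]
          exact d4)
      omega
    have s1' : Sp2 E₁ E₂ (evt k.net f e u).1 (evt k.net f e u).2 := s1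
    have s2' : Sp2 E₁ E₂ (evt k.net f e u).1 (evt k.net f e u').2 := by
      rw [h5]
      exact s2
    rcases s1' with ⟨p1, p2⟩ | ⟨p1, p2⟩ <;> rcases s2' with ⟨q1, q2⟩ | ⟨q1, q2⟩
    · exact key2 E₁ c3 p1 p2 q2
    · exact key2 E₁ c3 p1 p2 (fun h => q2 (hsub h))
    · exact key2 E₁ c3 q1 (fun h => p2 (hsub h)) q2
    · exact key2 E₂ c4 p1 p2 q2

theorem two_tail (hc : LConn L) (hl : ∀ d, L.tl d ≠ L.hd d) {u u' : D × k.Q} (hne : u ≠ u')
    (hnr : u ≠ k.net.rv u') (htl : k.net.tl u = k.net.tl u')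
    (h : EL k.net {u, u'} f e) (h1 : CutV L 2 (evt k.net f e u)) (h2 : CutV L 2 (evt k.net f e u'))
    (h3 : CutV L 2 (evh k.net f e u)) (h4 : CutV L 2 (evh k.net f e u'))
    (h5 : Cut L 3 (f (k.net.tl u)) {(evt k.net f e u).2, (evt k.net f e u').2}) :
    (evh k.net f e u).1 = f (k.net.tl u) ∧ (evh k.net f e u').1 = f (k.net.tl u) := by
  obtain ⟨hu, hr, h'⟩ := exg_pair hne hnr h
  have hft : f (k.net.tl u') = f (k.net.tl u) := by rw [htl]
  have hn := lev_two hc hne hnr h h1 h2 h3 h4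
    (Or.inr (Or.inr (Or.inr (Or.inr ⟨hft.symm, h5⟩))))
  have hcan := exg_cancel hu hr h' hn
  -- no value `evt` is the reverse of another one
  have hnsw : ∀ i j : Fin 2, evt k.net f e ((![u, u'] : Fin 2 → D × k.Q) j) ≠
      ((evt k.net f e ((![u, u'] : Fin 2 → D × k.Q) i)).2,
        (evt k.net f e ((![u, u'] : Fin 2 → D × k.Q) i)).1) := by
    intro i j hij
    have e1 : ∀ i : Fin 2, (evt k.net f e ((![u, u'] : Fin 2 → D × k.Q) i)).1 =
        f (k.net.tl u) := by
      intro i
      fin_cases i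
      · rfl
      · exact hft
    have e2 := congrArg Prod.fst hij
    rw [e1 j, ← e1 i] at e2
    exact exg_swap hl h _ e2
  have hcan' : ∀ i : Fin 2, ∃ j : Fin 2,
      k.net.ty ((![u, u'] : Fin 2 → D × k.Q) j) = k.net.ty ((![u, u'] : Fin 2 → D × k.Q) i) ∧
      evh k.net f e ((![u, u'] : Fin 2 → D × k.Q) j) =
        evt k.net f e ((![u, u'] : Fin 2 → D × k.Q) i) := by
    intro i
    obtain ⟨j, hj | hj⟩ := hcan i
    · exact ⟨j, hj⟩
    · exact absurd hj.2 (hnsw i j)
  by_cases hty : k.net.ty u = k.net.ty u' ∧ evt k.net f e u = evt k.net f e u'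
  · -- both units have the same type and value
    have e1 := nf_units hu hr h' hn (k.net.ty u) (evt k.net f e u).1 (evt k.net f e u).2
    have e2 : 2 ≤ uP k.net f e ![u, u'] (k.net.ty u) (evt k.net f e u).1
        (evt k.net f e u).2 := by
      unfold uP
      refine le_add_right ?_
      have e3 : {i : Fin 2 | k.net.ty ((![u, u'] : Fin 2 → D × k.Q) i) = k.net.ty u ∧
          evt k.net f e ((![u, u'] : Fin 2 → D × k.Q) i) =
            ((evt k.net f e u).1, (evt k.net f e u).2)} = Set.univ := by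
        ext i
        refine ⟨fun _ => Set.mem_univ _, fun _ => ?_⟩
        fin_cases i
        · exact ⟨rfl, rfl⟩
        · exact ⟨hty.1.symm, hty.2.symm⟩
      rw [e3, Set.ncard_univ, Nat.card_eq_fintype_card, Fintype.card_fin]
    rw [e1] at e2
    have e4 : {i : Fin 2 | L.bar (k.net.ty ((![u, u'] : Fin 2 → D × k.Q) i)) = k.net.ty u ∧
        evt k.net f e ((![u, u'] : Fin 2 → D × k.Q) i) =
          ((evt k.net f e u).2, (evt k.net f e u).1)} = ∅ := by
      ext i
      refine ⟨fun hi => hnsw 0 i hi.2, fun hi => hi.elim⟩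
    unfold uN at e2
    rw [e4, Set.ncard_empty, add_zero] at e2
    have e5 : {i : Fin 2 | k.net.ty ((![u, u'] : Fin 2 → D × k.Q) i) = k.net.ty u ∧
        evh k.net f e ((![u, u'] : Fin 2 → D × k.Q) i) =
          ((evt k.net f e u).1, (evt k.net f e u).2)} = Set.univ := by
      refine Set.eq_of_subset_of_ncard_le (Set.subset_univ _) ?_ (Set.toFinite _)
      rw [Set.ncard_univ, Nat.card_eq_fintype_card, Fintype.card_fin]
      exact e2
    have e6 : (0 : Fin 2) ∈ {i : Fin 2 | k.net.ty ((![u, u'] : Fin 2 → D × k.Q) i) =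
        k.net.ty u ∧ evh k.net f e ((![u, u'] : Fin 2 → D × k.Q) i) =
          ((evt k.net f e u).1, (evt k.net f e u).2)} := by
      rw [e5]
      exact Set.mem_univ _
    have e7 : (1 : Fin 2) ∈ {i : Fin 2 | k.net.ty ((![u, u'] : Fin 2 → D × k.Q) i) =
        k.net.ty u ∧ evh k.net f e ((![u, u'] : Fin 2 → D × k.Q) i) =
          ((evt k.net f e u).1, (evt k.net f e u).2)} := by
      rw [e5]
      exact Set.mem_univ _
    exact ⟨congrArg Prod.fst e6.2, congrArg Prod.fst e7.2⟩
  · obtain ⟨i, hi1, hi2⟩ := hcan' 0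
    obtain ⟨j, hj1, hj2⟩ := hcan' 1
    have hi3 : (evh k.net f e ((![u, u'] : Fin 2 → D × k.Q) i)).1 = f (k.net.tl u) :=
      congrArg Prod.fst hi2
    have hj3 : (evh k.net f e ((![u, u'] : Fin 2 → D × k.Q) j)).1 = f (k.net.tl u) :=
      (congrArg Prod.fst hj2).trans hft
    have hij : i ≠ j := by
      intro hij
      rw [← hij] at hj1 hj2
      exact hty ⟨hi1.symm.trans hj1, hi2.symm.trans hj2⟩
    have hall : ∀ m : Fin 2, m = i ∨ m = j := by
      intro m
      omega
    constructor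
    · rcases hall 0 with h6 | h6
      · rw [← h6] at hi3
        exact hi3
      · rw [← h6] at hj3
        exact hj3
    · rcases hall 1 with h6 | h6
      · rw [← h6] at hi3
        exact hi3
      · rw [← h6] at hj3
        exact hj3

theorem two_head (hc : LConn L) (hl : ∀ d, L.tl d ≠ L.hd d) {u u' : D × k.Q} (hne : u ≠ u')
    (hnr : u ≠ k.net.rv u') (hhd : k.net.hd u = k.net.hd u')
    (h : EL k.net {u, u'} f e) (h1 : CutV L 2 (evt k.net f e u)) (h2 : CutV L 2 (evt k.net f e u'))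
    (h3 : CutV L 2 (evh k.net f e u)) (h4 : CutV L 2 (evh k.net f e u'))
    (h5 : Cut L 3 (f (k.net.hd u)) {(evh k.net f e u).1, (evh k.net f e u').1}) :
    (evt k.net f e u).2 = f (k.net.hd u) ∧ (evt k.net f e u').2 = f (k.net.hd u) := by
  have e1 : ∀ w : D × k.Q, evh k.net f e (k.net.rv w) = (e w, f (k.net.tl w)) := by
    intro w
    unfold evh
    rw [k.net.rv_rv, hon_nhd_rv]
  have h' : EL k.net {k.net.rv u, k.net.rv u'} f e := by
    refine el_symm ?_ h
    have e2 : ∀ a b : D × k.Q, k.net.rv a = b ↔ a = k.net.rv b := by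
      intro a b
      constructor
      · intro h6
        rw [← h6, k.net.rv_rv]
      · intro h6
        rw [h6, k.net.rv_rv]
    intro w
    constructor
    · rintro ((h6 | h6) | (h6 | h6))
      · exact Or.inr (Or.inl (congrArg k.net.rv h6))
      · exact Or.inr (Or.inr (congrArg k.net.rv h6))
      · exact Or.inl (Or.inl ((e2 _ _).1 h6))
      · exact Or.inl (Or.inr ((e2 _ _).1 h6))
    · rintro ((h6 | h6) | (h6 | h6))
      · exact Or.inr (Or.inl ((e2 _ _).2 h6))
      · exact Or.inr (Or.inr ((e2 _ _).2 h6))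
      · exact Or.inl (Or.inl (hon_nrv_inj k.net h6))
      · exact Or.inl (Or.inr (hon_nrv_inj k.net h6))
  have h6 := two_tail hc hl (u := k.net.rv u) (u' := k.net.rv u')
    (fun h7 => hne (hon_nrv_inj k.net h7))
    (fun h7 => hnr (by rw [k.net.rv_rv] at h7; rw [← h7, k.net.rv_rv])) hhd h'
    (cut_symm h3) (cut_symm h4)
    (by
      show CutV L 2 (evh k.net f e (k.net.rv u))
      rw [e1]
      exact cut_symm h1)
    (by
      show CutV L 2 (evh k.net f e (k.net.rv u'))
      rw [e1]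
      exact cut_symm h2) h5
  rw [e1, e1] at h6
  exact h6

theorem two_val (hc : LConn L) (hl : ∀ d, L.tl d ≠ L.hd d) {u u' : D × k.Q} (hne : u ≠ u')
    (hnr : u ≠ k.net.rv u') (ht : L.ty u.1 ≠ L.ty u'.1) (ht' : L.ty u.1 ≠ L.bar (L.ty u'.1))
    (h : EL k.net {u, u'} f e) (h1 : CutV L 2 (evt k.net f e u)) (h2 : CutV L 2 (evt k.net f e u'))
    (h3 : CutV L 2 (evh k.net f e u)) (h4 : CutV L 2 (evh k.net f e u')) :
    (evt k.net f e u = evh k.net f e u ∧ evt k.net f e u' = evh k.net f e u') ∨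
      (¬ CutV L 3 (evt k.net f e u) ∧ ¬ CutV L 3 (evt k.net f e u') ∧
        ¬ CutV L 3 (evh k.net f e u) ∧ ¬ CutV L 3 (evh k.net f e u')) := by
  by_cases h5 : CutV L 3 (evt k.net f e u) ∨ CutV L 3 (evt k.net f e u') ∨
      CutV L 3 (evh k.net f e u) ∨ CutV L 3 (evh k.net f e u')
  · left
    obtain ⟨hu, hr, h'⟩ := exg_pair hne hnr h
    have hn := lev_two hc hne hnr h h1 h2 h3 h4
      (by
        rcases h5 with h5 | h5 | h5 | h5
        · exact Or.inl h5
        · exact Or.inr (Or.inl h5)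
        · exact Or.inr (Or.inr (Or.inl h5))
        · exact Or.inr (Or.inr (Or.inr (Or.inl h5))))
    have hcan := exg_cancel hu hr h' hn
    have hb : ∀ t t' : T, L.bar t = t' → t = L.bar t' := by
      intro t t' h6
      rw [← h6, L.bar_bar]
    constructor
    · obtain ⟨j, hj⟩ := hcan 0
      fin_cases j
      · rcases hj with hj | hj
        · exact hj.2.symm
        · exact absurd (congrArg Prod.fst hj.2) (exg_swap hl h u)
      · rcases hj with hj | hj
        · exact absurd hj.1.symm ht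
        · exact absurd hj.1.symm ht'
    · obtain ⟨j, hj⟩ := hcan 1
      fin_cases j
      · rcases hj with hj | hj
        · exact absurd hj.1 ht
        · exact absurd (hb _ _ hj.1) ht'
      · rcases hj with hj | hj
        · exact hj.2.symm
        · exact absurd (congrArg Prod.fst hj.2) (exg_swap hl h u')
  · right
    push Not at h5
    exact h5

end

theorem strong_val {W Δ : Type} [Finite W] [Finite Δ] {N : Net L W Δ} {f : W → V} {e : Δ → V}
    {ι : Type} [Fintype ι] (hι : Fintype.card ι ≤ 2) {u : ι → Δ} (hu : Function.Injective u)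
    (hr : ∀ i j, u i ≠ N.rv (u j)) {t : T} (ht : t ≠ L.bar t) (hty : ∀ i, N.ty (u i) = t)
    (h : EL N (Set.range u) f e) {x y : V} (hM : 3 ≤ L.M t x y) :
    {i | evt N f e (u i) = (x, y)}.ncard = {i | evh N f e (u i) = (x, y)}.ncard := by
  have h1 := unit_flow hu hr h t x y
  have e1 : uP N f e u t x y = {i | evt N f e (u i) = (x, y)}.ncard := by
    unfold uP
    have e2 : {i | L.bar (N.ty (u i)) = t ∧ evh N f e (u i) = (y, x)} = ∅ := by
      ext i
      refine ⟨fun hi => ?_, fun hi => hi.elim⟩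
      have e3 := hi.1
      rw [hty i] at e3
      exact ht e3.symm
    have e4 : {i | N.ty (u i) = t ∧ evt N f e (u i) = (x, y)} =
        {i | evt N f e (u i) = (x, y)} := by
      ext i
      exact ⟨fun hi => hi.2, fun hi => ⟨hty i, hi⟩⟩
    rw [e2, e4, Set.ncard_empty, add_zero]
  have e1' : uN N f e u t x y = {i | evh N f e (u i) = (x, y)}.ncard := by
    unfold uN
    have e2 : {i | L.bar (N.ty (u i)) = t ∧ evt N f e (u i) = (y, x)} = ∅ := by
      ext i
      refine ⟨fun hi => ?_, fun hi => hi.elim⟩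
      have e3 := hi.1
      rw [hty i] at e3
      exact ht e3.symm
    have e4 : {i | N.ty (u i) = t ∧ evh N f e (u i) = (x, y)} =
        {i | evh N f e (u i) = (x, y)} := by
      ext i
      exact ⟨fun hi => hi.2, fun hi => ⟨hty i, hi⟩⟩
    rw [e2, e4, Set.ncard_empty, add_zero]
  rw [e1, e1'] at h1
  have b : ∀ S : Set ι, S.ncard ≤ 2 := by
    intro S
    refine le_trans (Set.ncard_le_ncard (Set.subset_univ S) (Set.toFinite _)) ?_
    rw [Set.ncard_univ, Nat.card_eq_fintype_card]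
    exact hι
  have b1 := b {i | evt N f e (u i) = (x, y)}
  have b2 := b {i | evh N f e (u i) = (x, y)}
  generalize {i | evt N f e (u i) = (x, y)}.ncard = p at h1 b1 ⊢
  generalize {i | evh N f e (u i) = (x, y)}.ncard = q at h1 b2 ⊢
  have hM' : (3 : ℤ) ≤ L.M t x y := by exact_mod_cast hM
  have h2 : nf f x - nf f y = 0 := by
    by_contra hne
    rcases lt_or_gt_of_ne hne with h3 | h3
    · have h4 : nf f x - nf f y ≤ -1 := by omega
      nlinarith
    · have h4 : 1 ≤ nf f x - nf f y := by omega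
      nlinarith
  rw [h2, mul_zero] at h1
  omega

theorem aut_of_el [Finite V] [Finite D] (hc : LConn L) {f : V × Unit → V} {e : D × Unit → V}
    (h : EL (unitKt L).net ∅ f e) : Aut L (fun x => f (x, ())) := by
  have hsurj : Function.Surjective (fun x : V => f (x, ())) := by
    intro y
    have h1 := el_const hc (W := V × Unit) (Δ := D × Unit) h (f (y, ())) y
    have h2 : 0 < {w | f w = f (y, ())}.ncard :=
      (Set.ncard_pos (Set.toFinite _)).2 ⟨(y, ()), rfl⟩
    rw [h1] at h2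
    obtain ⟨⟨x, ⟨⟩⟩, hx⟩ := Set.nonempty_of_ncard_ne_zero h2.ne'
    exact ⟨x, hx⟩
  have hbij : Function.Bijective (fun x : V => f (x, ())) :=
    (Finite.surjective_iff_bijective).1 hsurj
  refine ⟨hbij, fun x => h.cls (x, ()), ?_⟩
  intro t x y
  refine (h.star (x, ()) t (f (y, ()))).symm.trans ?_
  unfold LS.M
  refine Set.ncard_congr (fun δ _ => δ.1) ?_ ?_ ?_
  · rintro ⟨d, ⟨⟩⟩ ⟨h1, h2, h3⟩
    refine ⟨congrArg Prod.fst h1, h2, ?_⟩
    have h4 : e (d, ()) = f (L.hd d, ()) :=
      h.unc (d, ()) (Set.notMem_empty _) (Set.notMem_empty _)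
    exact hbij.1 (h4.symm.trans h3)
  · rintro ⟨d, ⟨⟩⟩ ⟨d', ⟨⟩⟩ _ _ h3
    have h0 : d = d' := h3
    rw [h0]
  · rintro d ⟨h1, h2, h3⟩
    refine ⟨(d, ()), ⟨?_, h2, ?_⟩, rfl⟩
    · show (L.tl d, ()) = (x, ())
      rw [h1]
    · have h4 : e (d, ()) = f (L.hd d, ()) :=
        h.unc (d, ()) (Set.notMem_empty _) (Set.notMem_empty _)
      have h5 : f (L.hd d, ()) = f (y, ()) := by rw [h3]
      exact h4.trans h5

end Pool.Agent.H24.GI
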