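import Pool.Agent.H24.GH.SumK
import Pool.Agent.H24.GE.FTree

/-!
# JOB GI-15: the tree of the classes

`NoLive L`: no type is live. `NoPal L`: no type is its own reverse.

`nolive_eq`: if `s ≠ s'` then the walk `s, bar s', s, bar s', ...` shows that `s` is live. `nolive_ne`: if `sc s = sc (bar s)`,
`s ≠ bar s` then `s, s, s, ...` is such a walk. `nolive_loop`: a dart from `x` to `x` has `sc (ty d) = cl x = sc (bar (ty d))`.
`level_exists`: let `G` be the graph on the classes `{κ // ∃ x, L.cl x = κ}` (finite); two classes are adjacent if there is a type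
`s` with `sc s = κ`, `sc (bar s) = κ'` (different by `nolive_ne`). It is connected (`hc`: a dart `d` gives the edge from `cl (tl d)` to
`cl (hd d)`; `cls`). `TreeP G (fun a b => a = b)` (file `Pool.Agent.H24.GE.FTree`): `eq` is trivial; `fin`: an infinite walk
`w` of classes with `w i ≠ w (i + 2)` gives types `s i` from `w i` to `w (i + 1)`, `NX (s i) (s (i + 1))` (if `s (i + 1) = bar (s i)` then
`w (i + 2) = w i`), so `s 0` is live. `tree_level` for `t = cl t₀` gives `d`; `dl x = d (cl x)`. The last property: the heads are in the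
same class, so the types agree by `nolive_eq`.
-/

namespace Pool.Agent.H24.GI

open Pool.Agent.H24.GG Pool.Agent.H24.GH

variable {V D T K : Type} {L : LS V D T K}

/-- no type is live -/
def NoLive (L : LS V D T K) : Prop := ∀ s, ¬ TLive L.sc L.bar s

/-- no type is its own reverse -/
def NoPal (L : LS V D T K) : Prop := ∀ t, L.bar t ≠ t

theorem nolive_eq (hn : NoLive L) {s s' : T} (h : L.sc s = L.sc s')
    (h' : L.sc (L.bar s) = L.sc (L.bar s')) : s = s' := by
  by_contra hne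
  refine hn s (TG20_inf (fun a => a = s ∨ a = L.bar s') ?_ (Or.inl rfl))
  rintro a (rfl | rfl)
  · refine ⟨L.bar s', Or.inr rfl, h'.symm, ?_⟩
    intro hb
    apply hne
    rw [← L.bar_bar a, ← L.bar_bar s', hb]
  · refine ⟨s, Or.inl rfl, ?_, ?_⟩
    · rw [L.bar_bar]
      exact h
    · rw [L.bar_bar]
      exact hne

theorem nolive_ne (hn : NoLive L) (hp : NoPal L) (s : T) : L.sc s ≠ L.sc (L.bar s) := by
  intro h
  exact hn s ⟨fun _ => s, rfl, fun _ => ⟨h, fun hb => hp s hb.symm⟩⟩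

theorem trl_cl_hd (L : LS V D T K) (d : D) : L.cl (L.hd d) = L.sc (L.bar (L.ty d)) := by
  show L.cl (L.tl (L.rv d)) = L.sc (L.bar (L.ty d))
  rw [L.cl_tl, L.ty_rv]

theorem nolive_loop (hn : NoLive L) (hp : NoPal L) (d : D) : L.tl d ≠ L.hd d := by
  intro h
  apply nolive_ne hn hp (L.ty d)
  rw [← L.cl_tl, ← trl_cl_hd, ← h]

/-- the classes -/
abbrev TrlC (L : LS V D T K) : Type := {κ : K // ∃ x, L.cl x = κ}

/-- the class of a vertex -/
def trlMk (L : LS V D T K) (x : V) : TrlC L := ⟨L.cl x, x, rfl⟩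

/-- the graph on the classes -/
def trlGraph (hn : NoLive L) (hp : NoPal L) : SimpleGraph (TrlC L) where
  Adj a b := ∃ s, L.sc s = a.1 ∧ L.sc (L.bar s) = b.1
  symm := by
    constructor
    rintro a b ⟨s, h1, h2⟩
    refine ⟨L.bar s, h2, ?_⟩
    rw [L.bar_bar]
    exact h1
  loopless := by
    constructor
    rintro a ⟨s, h1, h2⟩
    exact nolive_ne hn hp s (h1.trans h2.symm)

theorem trl_adj (hn : NoLive L) (hp : NoPal L) (d : D) :
    (trlGraph hn hp).Adj (trlMk L (L.tl d)) (trlMk L (L.hd d)) :=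
  ⟨L.ty d, (L.cl_tl d).symm, (trl_cl_hd L d).symm⟩

theorem trl_conn (hc : LConn L) (hn : NoLive L) (hp : NoPal L) (t₀ : V) :
    (trlGraph hn hp).Connected := by
  have : Nonempty (TrlC L) := ⟨trlMk L t₀⟩
  have key : ∀ x y, Relation.ReflTransGen (fun a b => ∃ d, L.tl d = a ∧ L.hd d = b) x y →
      (trlGraph hn hp).Reachable (trlMk L x) (trlMk L y) := by
    intro x y h
    induction h with
    | refl => exact SimpleGraph.Reachable.refl _
    | tail _ h2 ih =>
      obtain ⟨d, rfl, rfl⟩ := h2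
      exact ih.trans (trl_adj hn hp d).reachable
  refine SimpleGraph.Connected.mk ?_
  rintro ⟨a, x, rfl⟩ ⟨b, y, rfl⟩
  exact key x y (hc x y)

theorem trl_treeP (hn : NoLive L) (hp : NoPal L) :
    Pool.Agent.H24.GE.TreeP (trlGraph hn hp) (fun a b => a = b) := by
  refine ⟨fun _ => rfl, fun _ _ h => h.symm, fun _ _ _ h h' => h.trans h', ?_, ?_, ?_⟩
  · intro u v h c
    rw [h]
  · intro u v h
    exact h.ne
  · rintro ⟨w, hw1, hw2⟩
    have hw3 : ∀ i, ∃ s, L.sc s = (w i).1 ∧ L.sc (L.bar s) = (w (i + 1)).1 := by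
      intro i
      obtain ⟨a, h1, h2⟩ := hw1 i
      rw [← h2]
      exact h1
    choose s hs1 hs2 using hw3
    refine hn (s 0) ⟨s, rfl, ?_⟩
    intro i
    refine ⟨?_, ?_⟩
    · rw [hs1, hs2]
    · intro hb
      apply hw2 i
      apply Subtype.ext
      have h1 := hs2 (i + 1)
      rw [hb, L.bar_bar, hs1] at h1
      exact h1

theorem level_exists [Finite V] (hc : LConn L) (hn : NoLive L) (hp : NoPal L) (t₀ : V) :
    ∃ dl : V → ℕ, (∀ x, dl x = 0 ↔ L.cl x = L.cl t₀) ∧ (∀ x y, L.cl x = L.cl y → dl x = dl y) ∧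
      (∀ d, dl (L.hd d) = dl (L.tl d) + 1 ∨ dl (L.tl d) = dl (L.hd d) + 1) ∧
      ∀ d d', L.cl (L.tl d) = L.cl (L.tl d') → dl (L.tl d) = dl (L.hd d) + 1 →
        dl (L.tl d') = dl (L.hd d') + 1 → L.ty d = L.ty d' := by
  have hfin : Finite (TrlC L) := by
    refine Finite.of_surjective (trlMk L) ?_
    rintro ⟨a, x, rfl⟩
    exact ⟨x, rfl⟩
  obtain ⟨dd, h1, h2, -, h4⟩ :=
    Pool.Agent.H24.GE.tree_level (trl_conn hc hn hp t₀) (trl_treeP hn hp) (trlMk L t₀)
  have hmk : ∀ x y, L.cl x = L.cl y → trlMk L x = trlMk L y := fun x y h => Subtype.ext h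
  have hmk' : ∀ x y, trlMk L x = trlMk L y → L.cl x = L.cl y := fun x y h => congrArg Subtype.val h
  refine ⟨fun x => dd (trlMk L x), ?_, ?_, ?_, ?_⟩
  · intro x
    rw [h1]
    exact ⟨fun h => (hmk' _ _ h).symm, fun h => (hmk _ _ h).symm⟩
  · intro x y h
    show dd (trlMk L x) = dd (trlMk L y)
    rw [hmk x y h]
  · intro d
    exact h2 _ _ (trl_adj hn hp d)
  · intro d d' h h5 h6
    have h6' : dd (trlMk L (L.tl d)) = dd (trlMk L (L.hd d')) + 1 := by
      rw [hmk _ _ h]
      exact h6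
    have ha : (trlGraph hn hp).Adj (trlMk L (L.tl d)) (trlMk L (L.hd d')) := by
      rw [hmk _ _ h]
      exact trl_adj hn hp d'
    have h7 := h4 _ _ _ (trl_adj hn hp d) ha h5 h6'
    apply nolive_eq hn
    · rw [← L.cl_tl, ← L.cl_tl, h]
    · rw [← trl_cl_hd, ← trl_cl_hd]
      exact hmk' _ _ h7

end Pool.Agent.H24.GI
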