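import Pool.Agent.H24.GI.NvC
import Pool.Agent.H24.GI.TreeL

/-!
# JOB GI-18: the choice of a set with a small boundary

Throughout `L` is connected, without live types, without types which are their own reverse, every vertex has at least three
darts, and (`h2`) every type or its reverse has at most two darts at a vertex.

`f2_M`: `M t x y ≤ num t` and `M t x y = M (bar t) y x ≤ num (bar t)` (`M_le`, `M_bar`).
`f2_two`: otherwise all darts at `x` lead to `y`, so they have the same type `t` (`nolive_eq`: `sc t = cl x`, `sc (bar t) = cl y`), and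
`3 ≤ M t x y`, contradiction to `f2_M`.
`exists_C`: if all `d` satisfy `Cut 2` let `C` be everything. Otherwise there is a set with exactly one dart in `bd L` (from a
failure of `Cut 2`: the set contains `tl d`, not `hd d`, so `bd L S` contains `d`); let `C` be such a set with the smallest number
of elements, `bd L C = {d₀}`. Suppose `tl d, hd d ∈ C`, and `Cut L 2 (tl d) {hd d}` fails for `S`: `bd L S = {d}`. If `hd d₀ ∈ S` replace
`S` by its complement and `d` by `rv d` (`bd L Sᶜ` is the image of `bd L S` under `rv`). So `hd d₀ ∉ S`. Let `A = S \ C`. No dart leaves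
`A`: a dart from `a ∈ A` to a vertex outside `S` is in `bd L S`, but `tl d ∈ C`; a dart from `a` to `S ∩ C` is the reverse of a dart
from `C` to `a ∉ C`, so of `d₀`, but `hd d₀ ∉ S`. As `L` is connected and `tl d ∉ A`, `A` is empty. So `S ⊆ C`, `S ≠ C` (`hd d ∉ S`),
contradiction to the choice of `C`.
`exists_sit`. Let `E x y` be `∃ d, tl d = x ∧ hd d = y`, `U = univ`; `hconn` by connectedness. Let `C` be from `exists_C`. If there is no
bad pair `(t, S)` with `t ∈ C`, `S ⊆ C`: then `C` is everything: otherwise `C ≠ univ`, there is a dart `d₀` which leaves `C`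
(connectedness, `C` is not empty), it is the only one; let `p = tl d₀`, `S = C \ {p}`: `S` is not empty (`p` has at least three
darts, two of them lead to `C`, not to `p`, `nolive_loop`), and `(p, S)` is bad (a dart from `s ∈ S` to the outside of `C` would be
`d₀`), contradiction. So there is no bad pair at all, and all vertices satisfy `Nvc L univ` (`nvc_of`). Otherwise let `(t, S)` be
such a bad pair with `S.ncard` minimal; `bad_min`, `nvc_of` give `nv`. `mn`: `(t, A)` is a bad pair.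
-/

namespace Pool.Agent.H24.GI

open Pool.Agent.H24.GG Pool.Agent.H24.GH

variable {V D T K : Type} {L : LS V D T K}

/-- a minimal set `S` which is separated by `t`, in a set `C` without bridges which is left by at most one dart -/
structure SitF (L : LS V D T K) (C S : Set V) (t : V) : Prop where
  tC : t ∈ C
  SC : S ⊆ C
  tS : t ∉ S
  ne : S.Nonempty
  out : ∃ u, u ∉ S ∧ u ≠ t
  cl : ∀ d, L.tl d ∈ S → L.hd d ∈ S ∨ L.hd d = t
  nv : ∀ s ∈ S, Nvc L Set.univ s
  mn : ∀ A : Set V, A.Nonempty → A ⊆ S → (∀ d, L.tl d ∈ A → L.hd d ∈ A ∨ L.hd d = t) → A = S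
  nbC : ∀ d, L.tl d ∈ C → L.hd d ∈ C → Cut L 2 (L.tl d) {L.hd d}
  br : ∀ d ∈ bd L C, ∀ d' ∈ bd L C, d = d'

variable [Finite V] [Finite D]

theorem f2_M (h2 : ∀ t, L.num t ≤ 2 ∨ L.num (L.bar t) ≤ 2) (t : T) (x y : V) : L.M t x y ≤ 2 := by
  rcases h2 t with h | h
  · exact (M_le t x y).trans h
  · rw [← M_bar]
    exact (M_le (L.bar t) y x).trans h

theorem f2_two (hn : NoLive L) (h3 : ∀ x, 3 ≤ {d | L.tl d = x}.ncard)
    (h2 : ∀ t, L.num t ≤ 2 ∨ L.num (L.bar t) ≤ 2) (x y : V) : ∃ d, L.tl d = x ∧ L.hd d ≠ y := by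
  by_contra hcon
  push Not at hcon
  have hne : {d | L.tl d = x}.Nonempty := by
    by_contra h
    rw [Set.not_nonempty_iff_eq_empty] at h
    have := h3 x
    rw [h, Set.ncard_empty] at this
    omega
  obtain ⟨d₀, hd₀⟩ := hne
  have hd₀' : L.tl d₀ = x := hd₀
  have hsub : {d | L.tl d = x} ⊆ {d | L.tl d = x ∧ L.ty d = L.ty d₀ ∧ L.hd d = y} := by
    intro d hd
    have hd' : L.tl d = x := hd
    refine ⟨hd', ?_, hcon d hd'⟩
    apply nolive_eq hn
    · rw [← L.cl_tl, ← L.cl_tl, hd', hd₀']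
    · rw [← trl_cl_hd, ← trl_cl_hd, hcon d hd', hcon d₀ hd₀']
  have h4 : {d | L.tl d = x}.ncard ≤ L.M (L.ty d₀) x y :=
    Set.ncard_le_ncard hsub (Set.toFinite _)
  have h5 := f2_M h2 (L.ty d₀) x y
  have h6 := h3 x
  omega

omit [Finite V] [Finite D] in
/-- a dart leaves every set which is not closed -/
private theorem f2a_leave (hc : LConn L) {A : Set V} {a z : V} (ha : a ∈ A) (hz : z ∉ A) :
    ∃ d, d ∈ bd L A := by
  by_contra hcon
  have key : ∀ b, Relation.ReflTransGen (fun a b => ∃ d, L.tl d = a ∧ L.hd d = b) a b → b ∈ A := by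
    intro b h
    induction h with
    | refl => exact ha
    | tail _ h2 ih =>
      obtain ⟨d, h3, h4⟩ := h2
      by_contra h5
      refine hcon ⟨d, ?_, ?_⟩
      · rw [h3]
        exact ih
      · rw [h4]
        exact h5
  exact hz (key z (hc a z))

omit [Finite V] [Finite D] in
private theorem f2a_hd_rv (d : D) : L.hd (L.rv d) = L.tl d := by
  unfold LS.hd
  rw [L.rv_rv]

/-- the main step for `exists_C` -/
private theorem f2a_key (hc : LConn L) {C : Set V}
    (hmin : ∀ S : Set V, (bd L S).ncard = 1 → C.ncard ≤ S.ncard) {d₀ : D}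
    (hC : ∀ e ∈ bd L C, e = d₀) {S : Set V} {d : D} (h1 : L.tl d ∈ C) (h2 : L.hd d ∈ C)
    (hd : d ∈ bd L S) (hS : (bd L S).ncard ≤ 1) (h5 : L.hd d₀ ∉ S) : False := by
  have hS1 : ∀ e ∈ bd L S, e = d := fun e he =>
    (Set.ncard_le_one (Set.toFinite _)).1 hS e he d hd
  have hSC : S ⊆ C := by
    intro a haS
    by_contra haC
    obtain ⟨e, he1, he2⟩ := f2a_leave hc (A := S \ C) (a := a) (z := L.tl d) ⟨haS, haC⟩
      (fun h => h.2 h1)
    by_cases heS : L.hd e ∈ S
    · have heC : L.hd e ∈ C := by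
        by_contra h
        exact he2 ⟨heS, h⟩
      have h6 : L.rv e ∈ bd L C := by
        refine ⟨heC, ?_⟩
        rw [f2a_hd_rv]
        exact he1.2
      have h7 := hC _ h6
      apply h5
      rw [← h7, f2a_hd_rv]
      exact he1.1
    · have h6 := hS1 e ⟨he1.1, heS⟩
      rw [h6] at he1
      exact he1.2 h1
  have h6 : (bd L S).ncard = 1 := by
    have : 0 < (bd L S).ncard := (Set.ncard_pos (Set.toFinite _)).2 ⟨d, hd⟩
    omega
  have h7 := hmin S h6
  have h8 : S = C := Set.eq_of_subset_of_ncard_le hSC h7 (Set.toFinite _)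
  apply hd.2
  rw [h8]
  exact h2

theorem exists_C (hc : LConn L) [Nonempty V] : ∃ C : Set V, C.Nonempty ∧
    (∀ d, L.tl d ∈ C → L.hd d ∈ C → Cut L 2 (L.tl d) {L.hd d}) ∧
    ∀ d ∈ bd L C, ∀ d' ∈ bd L C, d = d' := by
  by_cases hall : ∀ d, Cut L 2 (L.tl d) {L.hd d}
  · refine ⟨Set.univ, Set.univ_nonempty, fun d _ _ => hall d, ?_⟩
    intro d hd
    exact absurd (Set.mem_univ _) hd.2
  · have hex : ∃ S : Set V, (bd L S).ncard = 1 := by
      by_contra hcon
      apply hall
      intro d S h1 h2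
      have h3 : d ∈ bd L S := ⟨h1, h2 _ rfl⟩
      have h4 : 0 < (bd L S).ncard := (Set.ncard_pos (Set.toFinite _)).2 ⟨d, h3⟩
      have h5 : (bd L S).ncard ≠ 1 := fun h => hcon ⟨S, h⟩
      omega
    obtain ⟨S₀, hS₀⟩ := hex
    obtain ⟨C, hC1, hC2⟩ := Set.exists_min_image {S : Set V | (bd L S).ncard = 1}
      (fun S => S.ncard) (Set.toFinite _) ⟨S₀, hS₀⟩
    have hC1' : (bd L C).ncard = 1 := hC1
    have hmin : ∀ S : Set V, (bd L S).ncard = 1 → C.ncard ≤ S.ncard := fun S hS => hC2 S hS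
    obtain ⟨d₀, hd₀⟩ := Set.ncard_eq_one.1 hC1'
    have hCd : ∀ e ∈ bd L C, e = d₀ := by
      intro e he
      rw [hd₀] at he
      exact he
    have hd₀C : d₀ ∈ bd L C := by
      rw [hd₀]
      rfl
    refine ⟨C, ⟨L.tl d₀, hd₀C.1⟩, ?_, fun d hd d' hd' => (hCd d hd).trans (hCd d' hd').symm⟩
    intro d h1 h2 S hS1 hS2
    have hS3 : L.hd d ∉ S := hS2 _ rfl
    by_contra hlt
    have hlt' : (bd L S).ncard ≤ 1 := by omega
    by_cases h5 : L.hd d₀ ∈ S
    · refine f2a_key hc hmin hCd (S := Sᶜ) (d := L.rv d) ?_ ?_ ?_ ?_ ?_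
      · exact h2
      · rw [f2a_hd_rv]
        exact h1
      · refine ⟨hS3, ?_⟩
        rw [f2a_hd_rv]
        exact fun h => h hS1
      · rw [bd_compl]
        exact hlt'
      · exact fun h => h h5
    · exact f2a_key hc hmin hCd h1 h2 ⟨hS1, hS3⟩ hlt' h5

theorem exists_sit (hc : LConn L) [Nonempty V] (hn : NoLive L) (hp : NoPal L)
    (h3 : ∀ x, 3 ≤ {d | L.tl d = x}.ncard) :
    (∀ x, Nvc L Set.univ x) ∨ ∃ C S t, SitF L C S t := by
  obtain ⟨C, hCn, hCb, hC1⟩ := exists_C hc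
  have hE : ∀ x y, (∃ d, L.tl d = x ∧ L.hd d = y) → ∃ d, L.tl d = y ∧ L.hd d = x := by
    rintro x y ⟨d, h1, h2⟩
    exact ⟨L.rv d, h2, (f2a_hd_rv d).trans h1⟩
  have hconn : ∀ A ⊆ (Set.univ : Set V), A.Nonempty → A ≠ Set.univ →
      ∃ a ∈ A, ∃ b ∈ (Set.univ : Set V), b ∉ A ∧ ∃ d, L.tl d = a ∧ L.hd d = b := by
    intro A _ hA hA2
    obtain ⟨a, ha⟩ := hA
    obtain ⟨z, hz⟩ := (Set.ne_univ_iff_exists_notMem A).1 hA2
    obtain ⟨d, hd⟩ := f2a_leave hc ha hz
    exact ⟨L.tl d, hd.1, L.hd d, Set.mem_univ _, hd.2, d, rfl, rfl⟩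
  have hnvc : ∀ x, (∀ A, ¬ BadP (fun x y => ∃ d, L.tl d = x ∧ L.hd d = y) Set.univ x A) →
      Nvc L Set.univ x := by
    intro x h
    refine nvc_of (E := fun x y => ∃ d, L.tl d = x ∧ L.hd d = y) (nolive_loop hn hp)
      (fun _ _ _ _ => Set.mem_univ _) (fun _ _ h => h) (Set.mem_univ _) ?_ h
    have h4 : {d | L.tl d = x ∧ L.hd d ∈ (Set.univ : Set V)} = {d | L.tl d = x} := by
      ext d
      exact ⟨fun h => h.1, fun h => ⟨h, Set.mem_univ _⟩⟩
    rw [h4]
    exact h3 x
  by_cases hbad : ∃ t S, BadP (fun x y => ∃ d, L.tl d = x ∧ L.hd d = y) Set.univ t S ∧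
      S ⊆ C ∧ t ∈ C
  · right
    obtain ⟨t₁, S₁, hbad₁⟩ := hbad
    obtain ⟨p, hp1, hp2⟩ := Set.exists_min_image
      {p : V × Set V | BadP (fun x y => ∃ d, L.tl d = x ∧ L.hd d = y) Set.univ p.1 p.2 ∧
        p.2 ⊆ C ∧ p.1 ∈ C} (fun p => p.2.ncard) (Set.toFinite _) ⟨(t₁, S₁), hbad₁⟩
    obtain ⟨t, S⟩ := p
    obtain ⟨hb, hSC, htC⟩ := hp1
    simp only at hb hSC htC
    have hmin : ∀ t' S', BadP (fun x y => ∃ d, L.tl d = x ∧ L.hd d = y) Set.univ t' S' →
        S' ⊆ C → t' ∈ C → S.ncard ≤ S'.ncard := by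
      intro t' S' h1 h2 h4
      exact hp2 (t', S') ⟨h1, h2, h4⟩
    have hbm := bad_min hE hconn hb hSC htC hmin
    obtain ⟨_, hSn, _, htS, ⟨u, _, huS, hut⟩, hcl⟩ := id hb
    refine ⟨C, S, t, ⟨htC, hSC, htS, hSn, ⟨u, huS, hut⟩, fun d hd => hcl _ hd _ ⟨d, rfl, rfl⟩,
      fun s hs => hnvc s (hbm s hs), ?_, hCb, hC1⟩⟩
    intro A hA hAS hAcl
    have h4 : S.ncard ≤ A.ncard := by
      refine hmin t A ⟨Set.subset_univ _, hA, Set.mem_univ _, fun h => htS (hAS h),
        ⟨u, Set.mem_univ _, fun h => huS (hAS h), hut⟩, ?_⟩ (hAS.trans hSC) htC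
      rintro s hs y ⟨d, h5, h6⟩
      rw [← h6]
      refine hAcl d ?_
      rw [h5]
      exact hs
    exact Set.eq_of_subset_of_ncard_le hAS h4 (Set.toFinite _)
  · left
    have hCu : C = Set.univ := by
      by_contra hCne
      obtain ⟨a, ha⟩ := hCn
      obtain ⟨z, hz⟩ := (Set.ne_univ_iff_exists_notMem C).1 hCne
      obtain ⟨d₀, hd₀⟩ := f2a_leave hc ha hz
      apply hbad
      refine ⟨L.tl d₀, C \ {L.tl d₀}, ⟨Set.subset_univ _, ?_, Set.mem_univ _, fun h => h.2 rfl,
        ⟨L.hd d₀, Set.mem_univ _, fun h => hd₀.2 h.1, fun h => (nolive_loop hn hp d₀) h.symm⟩, ?_⟩,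
        fun x hx => hx.1, hd₀.1⟩
      · have h4 : ∃ d, d ∈ {d | L.tl d = L.tl d₀} ∧ d ≠ d₀ := by
          by_contra hcon
          have h5 : {d | L.tl d = L.tl d₀} ⊆ {d₀} := by
            intro d hd
            by_contra h
            exact hcon ⟨d, hd, h⟩
          have h6 := Set.ncard_le_ncard h5 (Set.toFinite _)
          rw [Set.ncard_singleton] at h6
          have h7 := h3 (L.tl d₀)
          omega
        obtain ⟨d, hd1, hd2⟩ := h4
        have hd1' : L.tl d = L.tl d₀ := hd1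
        refine ⟨L.hd d, ?_, ?_⟩
        · by_contra h
          apply hd2
          refine hC1 d ⟨?_, h⟩ d₀ hd₀
          rw [hd1']
          exact hd₀.1
        · intro h
          have h5 : L.hd d = L.tl d₀ := h
          exact nolive_loop hn hp d (hd1'.trans h5.symm)
      · rintro s hs y ⟨d, h5, h6⟩
        by_cases hyC : y ∈ C
        · by_cases hy : y = L.tl d₀
          · exact Or.inr hy
          · exact Or.inl ⟨hyC, hy⟩
        · exfalso
          have h7 : d = d₀ := by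
            refine hC1 d ⟨?_, ?_⟩ d₀ hd₀
            · rw [h5]
              exact hs.1
            · rw [h6]
              exact hyC
          apply hs.2
          rw [← h5, h7]
          rfl
    intro x
    apply hnvc
    intro A hA
    apply hbad
    refine ⟨x, A, hA, ?_, ?_⟩
    · rw [hCu]
      exact Set.subset_univ _
    · rw [hCu]
      exact Set.mem_univ _

end Pool.Agent.H24.GI
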