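import Pool.Agent.H24.GI.F2a

/-!
# JOB GI-19: levels

`good_leaf`: `GoodC L τ ζ x` by `good_of_nvc` (`U = univ`); `2 ≤ supp L τ x`: `f2_two` (if `supp ≤ 1` all darts at `x` lead to one
vertex); `3 ≤ num τ`: all darts at `x` have the type `τ`. `ζ`: if `2 ≤ num (bar τ)` let `ζ = τ`. Otherwise let `y` be an end of `x`; it
has at least three darts, at most one of them has the type `bar τ`; let `s` be another type of a dart at `y`, `ζ = bar s`.
`good_all`: `level_exists` for any `t₀`; let `x` be a vertex with `dl x` maximal. All darts at `x` lead to vertices with a smaller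
level, so they have the same type (`level_exists`, last property). `good_leaf`.
`sit_level`: `level_exists` for `t`, `dl`. Let `x ∈ S` with `dl x` maximal in `S`.
(1) `2 ≤ dl x`. A dart from `x` leads to `S` or to `t`; `t` is impossible as `dl t = 0`; so it leads to `S`, so to a smaller level. So
all darts at `x` have the same type, all heads are in `S`: `good_leaf`.
(2) `dl x ≤ 1` for all `x ∈ S`. For `x ∈ S` with `cl x ≠ cl t`: `dl x = 1`, and the heads of the darts at `x` are in `S ∪ {t}` and have the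
level `0` (not `2`), so they are in the class of `t`; this is `xc`; as in (1) all darts at `x` have the same type. For `y ∈ S` with
`cl y = cl t`: `dl y = 0`, the heads have level `1`, so they are not `t` and not in the class of `t`: `yy`. `ex`: let `s ∈ S`; if
`cl s ≠ cl t` then `s` has a dart to a vertex `≠ t` (`f2_two`), which is in `S` and in the class of `t`. If some `x ∈ S`, `cl x ≠ cl t`, has no
dart to `t` then all heads are in `S`: `good_leaf`. Otherwise `xt` holds.
-/

namespace Pool.Agent.H24.GI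

open Pool.Agent.H24.GG Pool.Agent.H24.GH

variable {V D T K : Type} {L : LS V D T K}

/-- there is a good star -/
def FGood (L : LS V D T K) : Prop :=
  ∃ τ ζ x, GoodC L τ ζ x ∧ 3 ≤ L.num τ ∧ L.sc (L.bar ζ) = L.sc (L.bar τ) ∧
    (ζ = τ → 2 ≤ L.num (L.bar τ))

/-- all classes of `S` are the class of `t` and classes next to it, all of whose vertices in `S` are adjacent to `t` -/
structure StarS (L : LS V D T K) (S : Set V) (t : V) : Prop where
  ex : ∃ y ∈ S, L.cl y = L.cl t
  yy : ∀ y ∈ S, L.cl y = L.cl t → ∀ d, L.tl d = y → L.hd d ∈ S ∧ L.cl (L.hd d) ≠ L.cl t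
  xc : ∀ x ∈ S, L.cl x ≠ L.cl t → ∀ d, L.tl d = x → L.cl (L.hd d) = L.cl t
  xt : ∀ x ∈ S, L.cl x ≠ L.cl t → ∃ d, L.tl d = x ∧ L.hd d = t

variable [Finite V] [Finite D]

omit [Finite V] [Finite D] in
theorem f2b_hd (d : D) : L.cl (L.hd d) = L.sc (L.bar (L.ty d)) := by
  unfold LS.hd
  rw [L.cl_tl, L.ty_rv]

omit [Finite V] [Finite D] in
theorem f2b_dart (h3 : ∀ x, 3 ≤ {d | L.tl d = x}.ncard) (x : V) : ∃ d, L.tl d = x := by
  have h : {d | L.tl d = x}.Nonempty := Set.nonempty_of_ncard_ne_zero (by have := h3 x; omega)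
  exact h

theorem good_leaf (hn : NoLive L) (h3 : ∀ x, 3 ≤ {d | L.tl d = x}.ncard)
    (h2 : ∀ t, L.num t ≤ 2 ∨ L.num (L.bar t) ≤ 2) {τ : T} {x : V}
    (hx : ∀ d, L.tl d = x → L.ty d = τ) (hv : Nvc L Set.univ x)
    (hy : ∀ d, L.tl d = x → Nvc L Set.univ (L.hd d)) : FGood L := by
  obtain ⟨d₀, hd₀⟩ := f2b_dart h3 x
  have ht₀ := hx d₀ hd₀
  have hcl : L.cl x = L.sc τ := by rw [← hd₀, L.cl_tl, ht₀]
  have hnum : 3 ≤ L.num τ := by
    rw [← L.num_eq x τ hcl]
    have e : {d | L.tl d = x ∧ L.ty d = τ} = {d | L.tl d = x} := by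
      ext d
      exact ⟨fun h => h.1, fun h => ⟨h, hx d h⟩⟩
    rw [e]
    exact h3 x
  have hsup : 2 ≤ supp L τ x := by
    by_contra hs
    have hs1 : supp L τ x ≤ 1 := by omega
    have h4 := supp_one hs1 ⟨d₀, hd₀, rfl, ht₀⟩
    have h5 := f2_M h2 τ x (L.hd d₀)
    omega
  have hg : ∀ ζ, GoodC L τ ζ x := fun ζ => by
    refine good_of_nvc (U := Set.univ) (Set.mem_univ x) hv ?_ ?_ hcl hsup
    · rintro y ⟨d, hd, rfl, -⟩
      exact ⟨Set.mem_univ _, hy d hd⟩
    · intro y z _ _
      exact Set.mem_univ z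
  by_cases hb : 2 ≤ L.num (L.bar τ)
  · exact ⟨τ, τ, x, hg τ, hnum, rfl, fun _ => hb⟩
  · have hcy : L.cl (L.hd d₀) = L.sc (L.bar τ) := by rw [f2b_hd, ht₀]
    have h4 : {d | L.tl d = L.hd d₀ ∧ L.ty d = L.bar τ}.ncard = L.num (L.bar τ) :=
      L.num_eq _ _ hcy
    have h5 : ∃ d, L.tl d = L.hd d₀ ∧ L.ty d ≠ L.bar τ := by
      by_contra hcon
      have e : {d | L.tl d = L.hd d₀ ∧ L.ty d = L.bar τ} = {d | L.tl d = L.hd d₀} := by
        ext d
        refine ⟨fun h => h.1, fun h => ⟨h, ?_⟩⟩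
        by_contra h6
        exact hcon ⟨d, h, h6⟩
      rw [e] at h4
      have := h3 (L.hd d₀)
      omega
    obtain ⟨d₁, h6, h7⟩ := h5
    refine ⟨τ, L.bar (L.ty d₁), x, hg _, hnum, ?_, ?_⟩
    · rw [L.bar_bar, ← L.cl_tl, h6, hcy]
    · intro h8
      exfalso
      apply h7
      rw [← h8, L.bar_bar]

theorem good_all (hc : LConn L) [Nonempty V] (hn : NoLive L) (hp : NoPal L)
    (h3 : ∀ x, 3 ≤ {d | L.tl d = x}.ncard) (h2 : ∀ t, L.num t ≤ 2 ∨ L.num (L.bar t) ≤ 2)
    (h : ∀ x, Nvc L Set.univ x) : FGood L := by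
  obtain ⟨t₀⟩ := ‹Nonempty V›
  obtain ⟨dl, -, -, hst, hty⟩ := level_exists hc hn hp t₀
  have : Nonempty V := ⟨t₀⟩
  obtain ⟨x, hx⟩ := Finite.exists_max dl
  obtain ⟨d₀, hd₀⟩ := f2b_dart h3 x
  have hdown : ∀ d, L.tl d = x → dl (L.tl d) = dl (L.hd d) + 1 := by
    intro d hd
    rcases hst d with h1 | h1
    · have h4 := hx (L.hd d)
      rw [hd] at h1
      omega
    · exact h1
  refine good_leaf hn h3 h2 (τ := L.ty d₀) (x := x) ?_ (h x) fun d _ => h _
  intro d hd
  exact hty d d₀ (by rw [hd, hd₀]) (hdown d hd) (hdown d₀ hd₀)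

theorem sit_level (hc : LConn L) (hn : NoLive L) (hp : NoPal L)
    (h3 : ∀ x, 3 ≤ {d | L.tl d = x}.ncard) (h2 : ∀ t, L.num t ≤ 2 ∨ L.num (L.bar t) ≤ 2)
    {C S : Set V} {t : V} (hS : SitF L C S t) : FGood L ∨ StarS L S t := by
  obtain ⟨dl, h0, -, hst, hty⟩ := level_exists hc hn hp t
  have ht0 : dl t = 0 := (h0 t).2 rfl
  have key : ∀ x ∈ S, (∀ d, L.tl d = x → L.hd d ∈ S ∧ dl (L.tl d) = dl (L.hd d) + 1) →
      FGood L := by
    intro x hxS hd
    obtain ⟨d₀, hd₀⟩ := f2b_dart h3 x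
    refine good_leaf hn h3 h2 (τ := L.ty d₀) (x := x) ?_ (hS.nv x hxS)
      fun d h => hS.nv _ (hd d h).1
    intro d h
    exact hty d d₀ (by rw [h, hd₀]) (hd d h).2 (hd d₀ hd₀).2
  by_cases hA : ∃ x ∈ S, 2 ≤ dl x
  · left
    obtain ⟨x₂, hx₂, h2x⟩ := hA
    obtain ⟨x, hxS, hmax⟩ := Set.exists_max_image S dl (Set.toFinite S) hS.ne
    have h2x' : 2 ≤ dl x := h2x.trans (hmax x₂ hx₂)
    refine key x hxS fun d hd => ?_
    have hmem : L.hd d ∈ S := by
      rcases hS.cl d (hd ▸ hxS) with h1 | h1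
      · exact h1
      · exfalso
        rcases hst d with h4 | h4
        · rw [h1, ht0] at h4
          omega
        · rw [h1, ht0, hd] at h4
          omega
    refine ⟨hmem, ?_⟩
    rcases hst d with h4 | h4
    · have h5 := hmax _ hmem
      rw [hd] at h4
      omega
    · exact h4
  · have hle : ∀ x ∈ S, dl x ≤ 1 := by
      intro x hx
      by_contra h
      exact hA ⟨x, hx, by omega⟩
    have hone : ∀ x ∈ S, L.cl x ≠ L.cl t → ∀ d, L.tl d = x →
        dl (L.tl d) = dl (L.hd d) + 1 ∧ L.cl (L.hd d) = L.cl t := by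
      intro x hx hne d hd
      have h1 : dl x ≠ 0 := fun h => hne ((h0 x).1 h)
      have h4 : dl x = 1 := by
        have := hle x hx
        omega
      rcases hst d with h5 | h5
      · exfalso
        rw [hd, h4] at h5
        rcases hS.cl d (hd ▸ hx) with h6 | h6
        · have := hle _ h6
          omega
        · rw [h6, ht0] at h5
          omega
      · refine ⟨h5, ?_⟩
        rw [hd, h4] at h5
        exact (h0 _).1 (by omega)
    by_cases hB : ∀ x ∈ S, L.cl x ≠ L.cl t → ∃ d, L.tl d = x ∧ L.hd d = t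
    · right
      refine ⟨?_, ?_, fun x hx hne d hd => (hone x hx hne d hd).2, hB⟩
      · obtain ⟨s, hs⟩ := hS.ne
        by_cases hst' : L.cl s = L.cl t
        · exact ⟨s, hs, hst'⟩
        · obtain ⟨d, hd, hne⟩ := f2_two hn h3 h2 s t
          rcases hS.cl d (hd ▸ hs) with h6 | h6
          · exact ⟨L.hd d, h6, (hone s hs hst' d hd).2⟩
          · exact absurd h6 hne
      · intro y hy hcy d hd
        have h1 : dl y = 0 := (h0 y).2 hcy
        have h4 : dl (L.hd d) = 1 := by
          rcases hst d with h5 | h5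
          · rw [hd, h1] at h5
            exact h5
          · rw [hd, h1] at h5
            omega
        refine ⟨?_, ?_⟩
        · rcases hS.cl d (hd ▸ hy) with h6 | h6
          · exact h6
          · rw [h6, ht0] at h4
            omega
        · intro h6
          rw [(h0 _).2 h6] at h4
          omega
    · left
      push Not at hB
      obtain ⟨x, hx, hne, hnt⟩ := hB
      refine key x hx fun d hd => ⟨?_, (hone x hx hne d hd).1⟩
      rcases hS.cl d (hd ▸ hx) with h6 | h6
      · exact h6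
      · exact absurd h6 (hnt d hd)

end Pool.Agent.H24.GI
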