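import Pool.Agent.H24.GI.F2b

/-!
# JOB GI-20: a set which is left by at least three darts

`sit_t2`: suppose `(bd L T).ncard ≤ 2`. `a, b ∈ bd L T`, so `bd L T = {a, b}`. Let `A = S \ T`, `hd a ∈ A`. A dart from `A` leads to `A` or to
`t`: by `SitF.cl` it leads to `S` or to `t`; if it leads to `S ∩ T` then its reverse is in `bd L T`, but starts at a vertex of `S`, not at
`t`. By `mn` `A = S`.
`star_type`: the type `σ` has a dart from `y ∈ S` (`ex`) to `x ∈ S` (`yy`). All darts at `x` lead to the class of `t` (`xc`), so they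
have the type `bar σ` (`nolive_eq`); `3 ≤ num (bar σ)`, so `num σ ≤ 2`; the dart from `x` to `t` (`xt`) is the reverse of one of type `σ`.
`starS_three`. If there is `d₀ ∈ bd L C` with `tl d₀ = t` let `σ₀ = ty d₀`, otherwise let `σ₀` be the type of any dart at `t`. Let `x` be
from `star_type` for `σ₀`, `τ = bar σ₀`. As `num σ₀ ≤ 2` there is another type `s` of a dart at `t` (`h3`); `ζ = bar s`, `ζ ≠ τ`.
`GoodC L τ ζ x`: `s2`: `f2_two`. The ends `y` of `x` are in `S` or equal to `t`. `nb`, `t1`: as in `good_of_nvc` from `Nvc L univ x`.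
`nz`, `t2` for `y ∈ S`: as in `good_of_nvc` from `Nvc L univ y`. `y = t`: let `b` be a dart of type `s` from `t` to `z`. `hd b ∈ C`:
otherwise `b ∈ bd L C`, so `σ₀ = ty d₀`, `b = d₀` (`br`), `s = σ₀`, contradiction. So `Cut L 2 t {z}` (`nbC`), `cut_symm`. `t2`: let `a` be a
dart of type `σ₀` from `t` to `x`, `t ∈ T`, `x, z ∉ T`; `sit_t2`: otherwise `bd L T = {a, b}` contains all darts from `t` to `S`,
contradiction to `hE`.
-/

namespace Pool.Agent.H24.GI

open Pool.Agent.H24.GG Pool.Agent.H24.GH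

variable {V D T K : Type} {L : LS V D T K} [Finite V] [Finite D]

omit [Finite V] [Finite D] in
private theorem f2c_hd_rv (d : D) : L.hd (L.rv d) = L.tl d := by
  show L.tl (L.rv (L.rv d)) = L.tl d
  rw [L.rv_rv]

omit [Finite V] in
private theorem f2c_cut2 {x : V} (h : Nvc L Set.univ x) {d : D} (hd : L.tl d = x) :
    Cut L 2 x {L.hd d} := by
  intro Y h1 h2
  have h3 : L.hd d ∉ Y := h2 _ rfl
  rcases h Y h1 ⟨L.hd d, Set.mem_univ _, h3⟩ with ⟨e, he, hne⟩ | h4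
  · have h5 : ({d, e} : Set D) ⊆ bd L Y := by
      rintro d' (rfl | rfl)
      · exact ⟨by rw [hd]; exact h1, h3⟩
      · exact he
    have h6 := Set.ncard_le_ncard h5 (Set.toFinite _)
    have h7 : d ≠ e := fun h => hne (by rw [← h]; exact hd)
    rwa [Set.ncard_pair h7] at h6
  · omega

omit [Finite V] in
private theorem f2c_cut3 {x : V} (h : Nvc L Set.univ x) {d d' : D} (hd : L.tl d = x)
    (hd' : L.tl d' = x) (hne : d ≠ d') : Cut L 3 x {L.hd d, L.hd d'} := by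
  intro Y h1 h2
  have h3 : L.hd d ∉ Y := h2 _ (Or.inl rfl)
  have h3' : L.hd d' ∉ Y := h2 _ (Or.inr rfl)
  rcases h Y h1 ⟨L.hd d, Set.mem_univ _, h3⟩ with ⟨e, he, hn⟩ | h4
  · have h5 : ({d, d', e} : Set D) ⊆ bd L Y := by
      rintro a (rfl | rfl | rfl)
      · exact ⟨by rw [hd]; exact h1, h3⟩
      · exact ⟨by rw [hd']; exact h1, h3'⟩
      · exact he
    have h6 := Set.ncard_le_ncard h5 (Set.toFinite _)
    have h7 : d ≠ e := fun h => hn (by rw [← h]; exact hd)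
    have h8 : d' ≠ e := fun h => hn (by rw [← h]; exact hd')
    have h9 : d ∉ ({d', e} : Set D) := by
      rintro (h | h)
      · exact hne h
      · exact h7 h
    rwa [Set.ncard_insert_of_notMem h9 (Set.toFinite _), Set.ncard_pair h8] at h6
  · exact h4

omit [Finite V] in
/-- two different darts for `Sub2` -/
private theorem f2c_two {τ ζ : T} {x y z : V} (hy : Dt L τ x y) (hz : Dt L ζ x z)
    (h : ζ = τ → z = y → 2 ≤ L.M τ x y) :
    ∃ d d', L.tl d = x ∧ L.tl d' = x ∧ L.hd d = y ∧ L.hd d' = z ∧ d ≠ d' := by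
  obtain ⟨d, h1, h2, h3⟩ := hy
  obtain ⟨d', h4, h5, h6⟩ := hz
  by_cases he : d = d'
  · subst he
    have h7 := h (h6.symm.trans h3) (h5.symm.trans h2)
    obtain ⟨a, b, ha, hb, hab⟩ := (Set.one_lt_ncard_iff (Set.toFinite _)).1
      (show 1 < {d | L.tl d = x ∧ L.ty d = τ ∧ L.hd d = y}.ncard from h7)
    refine ⟨a, b, ha.1, hb.1, ha.2.2, ?_, hab⟩
    rw [hb.2.2, ← h2, h5]
  · exact ⟨d, d', h1, h4, h2, h5, he⟩

omit [Finite V] in
theorem sit_t2 {C S : Set V} {t : V} (hS : SitF L C S t) {a b : D} (ha : L.tl a = t)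
    (hb : L.tl b = t) (hab : a ≠ b) (haS : L.hd a ∈ S) {Y : Set V} (ht : t ∈ Y)
    (h1 : L.hd a ∉ Y) (h2 : L.hd b ∉ Y) :
    3 ≤ (bd L Y).ncard ∨ (bd L Y = {a, b} ∧ ∀ s ∈ S, s ∉ Y) := by
  by_cases hcard : 3 ≤ (bd L Y).ncard
  · exact Or.inl hcard
  · right
    have hsub : ({a, b} : Set D) ⊆ bd L Y := by
      rintro d (rfl | rfl)
      · exact ⟨by rw [ha]; exact ht, h1⟩
      · exact ⟨by rw [hb]; exact ht, h2⟩
    have hpair : ({a, b} : Set D).ncard = 2 := Set.ncard_pair hab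
    have heq : ({a, b} : Set D) = bd L Y :=
      Set.eq_of_subset_of_ncard_le hsub (by rw [hpair]; omega) (Set.toFinite _)
    refine ⟨heq.symm, ?_⟩
    have hA : S \ Y = S := by
      refine hS.mn (S \ Y) ⟨L.hd a, haS, h1⟩ (fun x hx => hx.1) ?_
      intro d hd
      rcases hS.cl d hd.1 with h4 | h4
      · by_cases h5 : L.hd d ∈ Y
        · exfalso
          have h6 : L.rv d ∈ bd L Y := by
            refine ⟨h5, ?_⟩
            rw [f2c_hd_rv]
            exact hd.2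
          rw [← heq] at h6
          have h7 : L.hd d = t := by
            rcases h6 with h6 | h6
            · change L.rv d = a at h6
              rw [← ha, ← h6]
              rfl
            · change L.rv d = b at h6
              rw [← hb, ← h6]
              rfl
          exact hS.tS (h7 ▸ h4)
        · exact Or.inl ⟨h4, h5⟩
      · exact Or.inr h4
    intro s hs hsY
    have h8 : s ∈ S \ Y := by
      rw [hA]
      exact hs
    exact h8.2 hsY

theorem star_type (hn : NoLive L) (h3 : ∀ x, 3 ≤ {d | L.tl d = x}.ncard)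
    (h2 : ∀ t, L.num t ≤ 2 ∨ L.num (L.bar t) ≤ 2) {S : Set V} {t : V} (hS : StarS L S t) {σ : T}
    (hσ : L.sc σ = L.cl t) :
    L.num σ ≤ 2 ∧ 3 ≤ L.num (L.bar σ) ∧ ∃ a, L.tl a = t ∧ L.ty a = σ ∧ L.hd a ∈ S ∧
      L.cl (L.hd a) ≠ L.cl t ∧ ∀ d, L.tl d = L.hd a → L.ty d = L.bar σ := by
  obtain ⟨y, hyS, hyc⟩ := hS.ex
  obtain ⟨z, d, hd1, hd2, hd3⟩ := dt_exists (t := σ) (x := y) (by rw [hyc, hσ])
  obtain ⟨hxS, hxc⟩ := hS.yy y hyS hyc d hd1
  have hclx : L.cl (L.hd d) = L.sc (L.bar σ) := by rw [f2b_hd, hd3]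
  have hall : ∀ e, L.tl e = L.hd d → L.ty e = L.bar σ := by
    intro e he
    have h4 : L.cl (L.hd e) = L.cl t := hS.xc _ hxS hxc e he
    apply nolive_eq hn
    · rw [← L.cl_tl, he, hclx]
    · rw [← f2b_hd, h4, L.bar_bar, hσ]
  have hnum : 3 ≤ L.num (L.bar σ) := by
    rw [← L.num_eq (L.hd d) (L.bar σ) hclx]
    have e : {e | L.tl e = L.hd d ∧ L.ty e = L.bar σ} = {e | L.tl e = L.hd d} := by
      ext e
      exact ⟨fun h => h.1, fun h => ⟨h, hall e h⟩⟩
    rw [e]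
    exact h3 (L.hd d)
  obtain ⟨e, he1, he2⟩ := hS.xt _ hxS hxc
  have hea : L.hd (L.rv e) = L.hd d := by rw [f2c_hd_rv, he1]
  refine ⟨?_, hnum, L.rv e, he2, ?_, ?_, ?_, ?_⟩
  · rcases h2 σ with h4 | h4
    · exact h4
    · omega
  · rw [L.ty_rv, hall e he1, L.bar_bar]
  · rw [hea]
    exact hxS
  · rw [hea]
    exact hxc
  · intro d' hd'
    rw [hea] at hd'
    exact hall d' hd'

theorem starS_three (hn : NoLive L) (hp : NoPal L) (h3 : ∀ x, 3 ≤ {d | L.tl d = x}.ncard)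
    (h2 : ∀ t, L.num t ≤ 2 ∨ L.num (L.bar t) ≤ 2) {C S : Set V} {t : V} (hC : SitF L C S t)
    (hS : StarS L S t) (hE : 3 ≤ {d | L.tl d = t ∧ L.hd d ∈ S}.ncard) : FGood L := by
  obtain ⟨d₀, hd₀, hbr⟩ : ∃ d₀, L.tl d₀ = t ∧ ∀ b ∈ bd L C, L.tl b = t → L.ty b = L.ty d₀ := by
    by_cases h : ∃ d ∈ bd L C, L.tl d = t
    · obtain ⟨d, hd, hdt⟩ := h
      exact ⟨d, hdt, fun b hb _ => by rw [hC.br b hb d hd]⟩
    · obtain ⟨d, hd⟩ := f2b_dart h3 t
      exact ⟨d, hd, fun b hb hbt => absurd ⟨b, hb, hbt⟩ h⟩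
  have hclt : L.cl t = L.sc (L.ty d₀) := by rw [← hd₀, L.cl_tl]
  obtain ⟨hnσ, hnτ, a, ha1, ha2, haS, -, -⟩ := star_type hn h3 h2 hS (σ := L.ty d₀) hclt.symm
  obtain ⟨b', hb'1, hb'2⟩ : ∃ b', L.tl b' = t ∧ L.ty b' ≠ L.ty d₀ := by
    by_contra hcon
    have e : {d | L.tl d = t ∧ L.ty d = L.ty d₀} = {d | L.tl d = t} := by
      ext d
      refine ⟨fun h => h.1, fun h => ⟨h, ?_⟩⟩
      by_contra h6
      exact hcon ⟨d, h, h6⟩
    have h4 := L.num_eq t (L.ty d₀) hclt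
    rw [e] at h4
    have h5 := h3 t
    omega
  have hclt' : L.cl t = L.sc (L.ty b') := by rw [← hb'1, L.cl_tl]
  have hζ : L.bar (L.ty b') ≠ L.bar (L.ty d₀) := by
    intro h
    apply hb'2
    rw [← L.bar_bar (L.ty b'), h, L.bar_bar]
  have hnx : Nvc L Set.univ (L.hd a) := hC.nv _ haS
  have hDt : Dt L (L.bar (L.ty d₀)) (L.hd a) t := by
    refine ⟨L.rv a, rfl, ?_, ?_⟩
    · rw [f2c_hd_rv]
      exact ha1
    · rw [L.ty_rv, ha2]
  have hend : ∀ y, Dt L (L.bar (L.ty d₀)) (L.hd a) y → y ∈ S ∨ y = t := by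
    rintro y ⟨d, h4, rfl, -⟩
    exact hC.cl d (by rw [h4]; exact haS)
  refine ⟨L.bar (L.ty d₀), L.bar (L.ty b'), L.hd a, ⟨?_, ?_, ?_, ?_, ?_, ?_⟩, hnτ, ?_, ?_⟩
  · rw [f2b_hd, ha2]
  · by_contra hs
    have h4 := supp_one (show supp L (L.bar (L.ty d₀)) (L.hd a) ≤ 1 by omega) hDt
    have h5 := f2_M h2 (L.bar (L.ty d₀)) (L.hd a) t
    omega
  · rintro y ⟨d, h4, rfl, -⟩
    exact f2c_cut2 hnx h4
  · intro y z hy hz
    rcases hend y hy with h4 | h4
    · obtain ⟨d, h5, rfl, -⟩ := dt_symm hz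
      exact cut_symm (f2c_cut2 (hC.nv y h4) h5)
    · obtain ⟨d, h5, rfl, h6⟩ := dt_symm hz
      rw [L.bar_bar] at h6
      rw [h4] at h5
      have h7 : L.hd d ∈ C := by
        by_contra h8
        have h9 : d ∈ bd L C := ⟨by rw [h5]; exact hC.tC, h8⟩
        apply hb'2
        rw [← h6]
        exact hbr d h9 h5
      have h8 := hC.nbC d (by rw [h5]; exact hC.tC) h7
      rw [h5] at h8
      rw [h4]
      exact cut_symm h8
  · rintro y y' ⟨e1, e2, e3⟩
    obtain ⟨d, d', f1, f2, f3, f4, f5⟩ := f2c_two e1 e2 (fun _ h => e3 h.symm)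
    have h4 := f2c_cut3 hnx f1 f2 f5
    rw [f3, f4] at h4
    exact h4
  · intro y z hy hz _
    obtain ⟨d, g1, g2, g3⟩ := dt_symm hy
    obtain ⟨d', k1, k2, k3⟩ := dt_symm hz
    rw [L.bar_bar] at g3 k3
    rcases hend y hy with h4 | h4
    · have h5 : d ≠ d' := by
        intro h
        apply hb'2
        rw [← k3, ← h, g3]
      have h6 := f2c_cut3 (hC.nv y h4) g1 k1 h5
      rw [g2, k2] at h6
      exact h6
    · subst h4
      intro Y hY1 hY2
      have hne : a ≠ d' := by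
        intro h
        apply hb'2
        rw [← k3, ← h, ha2]
      rcases sit_t2 hC ha1 k1 hne haS (Y := Y) hY1 (hY2 _ (Or.inl rfl))
        (by rw [k2]; exact hY2 _ (Or.inr rfl)) with h6 | ⟨h6, h7⟩
      · exact h6
      · exfalso
        have hsub : {d | L.tl d = y ∧ L.hd d ∈ S} ⊆ ({a, d'} : Set D) := by
          rintro e ⟨he1, he2⟩
          rw [← h6]
          exact ⟨by rw [he1]; exact hY1, h7 _ he2⟩
        have h8 := Set.ncard_le_ncard hsub (Set.toFinite _)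
        rw [Set.ncard_pair hne] at h8
        omega
  · rw [L.bar_bar, L.bar_bar, ← hclt, ← hclt']
  · intro h
    exact absurd h hζ

end Pool.Agent.H24.GI
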