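import Pool.Agent.H24.GI.NvC

/-!
# JOB GI-17: the choice of the star for a type with at least three darts at both ends

`σ` stands for `τ` or `bar τ`.
Case P: there are `σ`, `y₀`, `x₁` with `Dt L σ y₀ x₁`, `supp (bar σ) x₁ ≤ 1`, `2 ≤ supp σ y₀`. If some end `x₂` of `y₀` (type `σ`) has
`2 ≤ supp (bar σ) x₂`: second case of the theorem. Otherwise all ends `x` of `y₀` of type `σ` have `supp (bar σ) x ≤ 1`, so
`M σ y₀ x = num (bar σ) ≥ 3` (`supp_one`, `M_bar`), and `GoodC L σ σ y₀`: all cuts which separate `y₀` and `x` have at least three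
darts (`cut_M`, `cut_mono`, `cut_symm`), and the only `z` with `Dt L σ z x` is `y₀`.
Case N: otherwise. `τ` is not matched, so there are `σ` and two darts of type `σ` with the same tail `v` and different heads:
`2 ≤ supp σ v`. Let `E x y` be `Dt L τ x y ∨ Dt L τ y x`, and `U` the set of the vertices which are connected to `v` by `E`. (★) For
all `x ∈ U` in the class `sc σ'` (`σ' = τ` or `bar τ`): `2 ≤ supp σ' x`. Otherwise: if `supp σ' x ≤ 1` and `E x w` then `supp (bar σ') w ≤ 1`,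
as we are not in case P (for `σ = bar σ'`, `y₀ = w`, `x₁ = x`); so along the path to `v` we get `supp σ v ≤ 1`, contradiction.
(`sc τ ≠ sc (bar τ)`, so every vertex of `U` is in exactly one of the two classes.)
`hconn` of `bad_min` holds for `E`, `U`. Every `x ∈ U` has at least three darts to elements of `U` (`num σ' ≥ 3`).
If there is no bad pair for `E, U`: all elements of `U` satisfy `Nvc L U` (`nvc_of`), and `good_of_nvc` for `v` (`ζ = τ = σ`).
Otherwise let `(t, S)` be a bad pair with `S.ncard` minimal (`C = U`). By `bad_min`, `nvc_of` all `s ∈ S` satisfy `Nvc L U s`. By `hconn`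
for `S` there are `s ∈ S`, `b ∉ S`, `E s b`, so `b = t`. By (★) `s` has an end `u ≠ t` (of its type), `u ∈ S`; `u` is in the class of `t`.
The ends of `u` are in `S` or equal to `t`; the latter is impossible, as adjacent vertices are in different classes.
`good_of_nvc` for `u` (`ζ = τ = σ'`, the type of `u`).
-/

namespace Pool.Agent.H24.GI

open Pool.Agent.H24.GG Pool.Agent.H24.GH

variable {V D T K : Type} {L : LS V D T K}

/-- the two types -/
private def f3_S (L : LS V D T K) (τ σ : T) : Prop := σ = τ ∨ σ = L.bar τ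

private theorem f3_S_bar {τ σ : T} (h : f3_S L τ σ) : f3_S L τ (L.bar σ) := by
  rcases h with h | h
  · rw [h]
    exact Or.inr rfl
  · rw [h]
    exact Or.inl (L.bar_bar τ)

private theorem f3_S_ne {τ σ : T} (hp : L.sc τ ≠ L.sc (L.bar τ)) (h : f3_S L τ σ) :
    L.sc σ ≠ L.sc (L.bar σ) := by
  rcases h with h | h
  · rw [h]
    exact hp
  · rw [h, L.bar_bar]
    exact hp.symm

private theorem f3_S_num {τ σ : T} (h1 : 3 ≤ L.num τ) (h2 : 3 ≤ L.num (L.bar τ))
    (h : f3_S L τ σ) : 3 ≤ L.num σ := by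
  rcases h with h | h
  · rw [h]
    exact h1
  · rw [h]
    exact h2

private theorem f3_S_eq {τ σ σ' : T} (hp : L.sc τ ≠ L.sc (L.bar τ)) (h : f3_S L τ σ)
    (h' : f3_S L τ σ') (he : L.sc σ = L.sc σ') : σ = σ' := by
  rcases h with h | h <;> rcases h' with h' | h'
  · rw [h, h']
  · rw [h, h'] at he
    exact absurd he hp
  · rw [h, h'] at he
    exact absurd he.symm hp
  · rw [h, h']

/-- adjacent by a dart of the two types -/
private def f3_E (L : LS V D T K) (τ : T) (x y : V) : Prop := ∃ σ, f3_S L τ σ ∧ Dt L σ x y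

private theorem f3_E_symm {τ : T} {x y : V} (h : f3_E L τ x y) : f3_E L τ y x := by
  obtain ⟨σ, hσ, hd⟩ := h
  exact ⟨L.bar σ, f3_S_bar hσ, dt_symm hd⟩

private theorem f3_E_dt {τ : T} (hp : L.sc τ ≠ L.sc (L.bar τ)) {x y : V} (h : f3_E L τ x y)
    {σ : T} (hσ : f3_S L τ σ) (hc : L.cl x = L.sc σ) : Dt L σ x y := by
  obtain ⟨σ', hσ', hd⟩ := h
  rw [f3_S_eq hp hσ hσ' (hc.symm.trans (dt_cl hd).1)]
  exact hd

private theorem f3_E_dart {τ : T} {x y : V} (h : f3_E L τ x y) :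
    ∃ d, L.tl d = x ∧ L.hd d = y := by
  obtain ⟨σ, -, d, h1, h2, -⟩ := h
  exact ⟨d, h1, h2⟩

private theorem f3_start [Finite V] {τ : T} (hm : ¬ Mtd L τ) :
    ∃ σ v, f3_S L τ σ ∧ 2 ≤ supp L σ v := by
  have key : ∀ (σ : T) (d d' : D), L.ty d = σ → L.ty d' = σ → L.tl d = L.tl d' →
      L.hd d ≠ L.hd d' → 2 ≤ supp L σ (L.tl d) := by
    intro σ d d' h1 h2 h3 h4
    exact (Set.one_lt_ncard (Set.toFinite _)).2
      ⟨L.hd d, ⟨d, rfl, rfl, h1⟩, L.hd d', ⟨d', h3.symm, rfl, h2⟩, h4⟩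
  unfold Mtd at hm
  rw [not_and_or] at hm
  rcases hm with hm | hm
  · push Not at hm
    obtain ⟨d, d', h1, h2, h3, h4⟩ := hm
    exact ⟨τ, _, Or.inl rfl, key τ d d' h1 h2 h3 h4⟩
  · push Not at hm
    obtain ⟨d, d', h1, h2, h3, h4⟩ := hm
    exact ⟨L.bar τ, _, Or.inr rfl, key _ d d' h1 h2 h3 h4⟩

private theorem f3_caseP [Finite V] [Finite D] {σ : T} (h3 : 3 ≤ L.num (L.bar σ)) {y₀ x₁ : V}
    (hd : Dt L σ y₀ x₁) (hs : 2 ≤ supp L σ y₀)
    (hall : ∀ x, Dt L σ y₀ x → supp L (L.bar σ) x ≤ 1) : GoodC L σ σ y₀ := by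
  have hM : ∀ y, Dt L σ y₀ y → 3 ≤ L.M σ y₀ y := by
    intro y hy
    rw [← M_bar, supp_one (hall y hy) (dt_symm hy)]
    exact h3
  have hcut : ∀ y, Dt L σ y₀ y → Cut L 3 y₀ {y} := fun y hy =>
    cut_mono (cut_M σ y₀ y) (hM y hy) (Set.Subset.refl _)
  have hcut2 : ∀ y, Dt L σ y₀ y → Cut L 2 y₀ {y} := fun y hy =>
    cut_mono (hcut y hy) (by omega) (Set.Subset.refl _)
  refine ⟨(dt_cl hd).1, hs, hcut2, ?_, ?_, ?_⟩
  · intro y z hy hz
    have h4 := hall y hy
    have h5 : z = y₀ := (Set.ncard_le_one (Set.toFinite _)).1 h4 z (dt_symm hz) y₀ (dt_symm hy)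
    rw [h5]
    exact hcut2 y hy
  · intro y y' hyy
    exact cut_mono (hcut y hyy.1) le_rfl (by
      intro a ha
      exact Or.inl ha)
  · intro y z hy hz _
    exact cut_mono (cut_symm (hcut y hy)) le_rfl (by
      intro a ha
      exact Or.inl ha)

theorem f3_choice [Finite V] [Finite D] (hl : ∀ d, L.tl d ≠ L.hd d) {τ : T}
    (hp : L.sc τ ≠ L.sc (L.bar τ)) (h1 : 3 ≤ L.num τ) (h2 : 3 ≤ L.num (L.bar τ))
    (hm : ¬ Mtd L τ) :
    (∃ σ x, (σ = τ ∨ σ = L.bar τ) ∧ GoodC L σ σ x) ∨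
      ∃ σ y₀ x₁ x₂, (σ = τ ∨ σ = L.bar τ) ∧ Dt L σ y₀ x₁ ∧ supp L (L.bar σ) x₁ ≤ 1 ∧
        Dt L σ y₀ x₂ ∧ 2 ≤ supp L (L.bar σ) x₂ := by
  by_cases hP : ∃ σ y₀ x₁, f3_S L τ σ ∧ Dt L σ y₀ x₁ ∧ supp L (L.bar σ) x₁ ≤ 1 ∧
      2 ≤ supp L σ y₀
  · obtain ⟨σ, y₀, x₁, hσ, hd1, hs1, hs2⟩ := hP
    by_cases hx : ∃ x₂, Dt L σ y₀ x₂ ∧ 2 ≤ supp L (L.bar σ) x₂
    · obtain ⟨x₂, hd2, hs3⟩ := hx
      exact Or.inr ⟨σ, y₀, x₁, x₂, hσ, hd1, hs1, hd2, hs3⟩
    · refine Or.inl ⟨σ, y₀, hσ, f3_caseP (f3_S_num h1 h2 (f3_S_bar hσ)) hd1 hs2 ?_⟩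
      intro x hdx
      by_contra hlt
      exact hx ⟨x, hdx, by omega⟩
  · left
    have hN : ∀ σ y₀ x₁, f3_S L τ σ → Dt L σ y₀ x₁ → supp L (L.bar σ) x₁ ≤ 1 →
        supp L σ y₀ ≤ 1 := by
      intro σ y₀ x₁ hσ hd hs
      by_contra hlt
      exact hP ⟨σ, y₀, x₁, hσ, hd, hs, by omega⟩
    obtain ⟨σ, v, hσ, hv⟩ := f3_start hm
    obtain ⟨y, hy, -⟩ := Set.exists_ne_of_one_lt_ncard (a := v) (by
      change 1 < supp L σ v
      omega)
    have hcv : L.cl v = L.sc σ := (dt_cl hy).1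
    obtain ⟨U, hUdef⟩ : ∃ U : Set V, U = {x | Relation.ReflTransGen (f3_E L τ) v x} := ⟨_, rfl⟩
    have hvU : v ∈ U := by
      rw [hUdef]
      exact Relation.ReflTransGen.refl
    have hUc : ∀ x ∈ U, ∀ y, f3_E L τ x y → y ∈ U := by
      intro x hx y hxy
      rw [hUdef] at hx ⊢
      exact Relation.ReflTransGen.tail hx hxy
    have hinv : ∀ x ∈ U, (∃ σ', f3_S L τ σ' ∧ L.cl x = L.sc σ') ∧
        ∀ σ', f3_S L τ σ' → L.cl x = L.sc σ' → 2 ≤ supp L σ' x := by
      intro x hx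
      rw [hUdef] at hx
      induction hx with
      | refl =>
        refine ⟨⟨σ, hσ, hcv⟩, ?_⟩
        intro σ' hσ' hc
        rw [← f3_S_eq hp hσ hσ' (hcv.symm.trans hc)]
        exact hv
      | @tail x w _ hxw ih =>
        obtain ⟨ρ, hρ, hd⟩ := hxw
        refine ⟨⟨L.bar ρ, f3_S_bar hρ, (dt_cl hd).2⟩, ?_⟩
        intro σ' hσ' hc
        have he : L.bar ρ = σ' := f3_S_eq hp (f3_S_bar hρ) hσ' ((dt_cl hd).2.symm.trans hc)
        rw [← he]
        by_contra hlt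
        have h3 := hN ρ x w hρ hd (by omega)
        have h4 := ih.2 ρ hρ (dt_cl hd).1
        omega
    have hconn : ∀ A ⊆ U, A.Nonempty → A ≠ U →
        ∃ a ∈ A, ∃ b ∈ U, b ∉ A ∧ f3_E L τ a b := by
      intro A hA hne hAU
      obtain ⟨a₀, ha₀⟩ := hne
      obtain ⟨u, huU, huA⟩ : ∃ u ∈ U, u ∉ A := by
        by_contra hno
        apply hAU
        refine Set.Subset.antisymm hA ?_
        intro u hu
        by_contra huA
        exact hno ⟨u, hu, huA⟩
      have hpath : Relation.ReflTransGen (f3_E L τ) a₀ u := by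
        have h3 := hA ha₀
        rw [hUdef] at h3 huU
        have hsym : Std.Symm (f3_E L τ) := ⟨fun _ _ h => f3_E_symm h⟩
        exact (Relation.ReflTransGen.stdSymm.symm _ _ h3).trans huU
      by_contra hno
      have hall : ∀ w, Relation.ReflTransGen (f3_E L τ) a₀ w → w ∈ A := by
        intro w hw
        induction hw with
        | refl => exact ha₀
        | @tail b c _ hbc ih =>
          by_contra hcA
          exact hno ⟨b, ih, c, hUc b (hA ih) c hbc, hcA, hbc⟩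
      exact huA (hall u hpath)
    have hnvc : ∀ x ∈ U, (∀ A, ¬ BadP (f3_E L τ) U x A) → Nvc L U x := by
      intro x hx hbad
      obtain ⟨⟨σ', hσ', hc⟩, -⟩ := hinv x hx
      refine nvc_of hl hUc (fun x y h => f3_E_dart h) hx ?_ hbad
      have h3 := f3_S_num h1 h2 hσ'
      rw [← L.num_eq x σ' hc] at h3
      refine h3.trans (Set.ncard_le_ncard ?_ (Set.toFinite _))
      rintro d ⟨hd1, hd2⟩
      exact ⟨hd1, hUc x hx _ ⟨σ', hσ', d, hd1, rfl, hd2⟩⟩
    by_cases hb : ∃ t S, BadP (f3_E L τ) U t S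
    · have hex : ∃ k, ∃ t S, BadP (f3_E L τ) U t S ∧ S.ncard = k := by
        obtain ⟨t, S, hb⟩ := hb
        exact ⟨_, t, S, hb, rfl⟩
      classical
      obtain ⟨t, S, hbad, hk⟩ := Nat.find_spec hex
      have hmin : ∀ t' S', BadP (f3_E L τ) U t' S' → S' ⊆ U → t' ∈ U →
          S.ncard ≤ S'.ncard := by
        intro t' S' h' _ _
        rw [hk]
        exact Nat.find_min' hex ⟨t', S', h', rfl⟩
      have hno := bad_min (fun _ _ h => f3_E_symm h) hconn hbad hbad.1 hbad.2.2.1 hmin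
      have hSn : ∀ s ∈ S, Nvc L U s := fun s hs => hnvc s (hbad.1 hs) (hno s hs)
      obtain ⟨s, hs, b, hbU, hbS, hsb⟩ := hconn S hbad.1 hbad.2.1 (by
        intro he
        exact hbad.2.2.2.1 (by rw [he]; exact hbad.2.2.1))
      have hbt : b = t := by
        rcases hbad.2.2.2.2.2 s hs b hsb with h3 | h3
        · exact absurd h3 hbS
        · exact h3
      subst hbt
      obtain ⟨⟨σ', hσ', hcs⟩, hs2⟩ := hinv s (hbad.1 hs)
      have hdb : Dt L σ' s b := f3_E_dt hp hsb hσ' hcs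
      obtain ⟨u, hu, hub⟩ := Set.exists_ne_of_one_lt_ncard (s := {y | Dt L σ' s y}) (by
        have h3 := hs2 σ' hσ' hcs
        change 1 < supp L σ' s
        omega) b
      have hu' : Dt L σ' s u := hu
      have huS : u ∈ S := by
        rcases hbad.2.2.2.2.2 s hs u ⟨σ', hσ', hu'⟩ with h3 | h3
        · exact h3
        · exact absurd h3 hub
      have hcu : L.cl u = L.sc (L.bar σ') := (dt_cl hu').2
      refine ⟨L.bar σ', u, f3_S_bar hσ', ?_⟩
      have hyS : ∀ y, Dt L (L.bar σ') u y → y ∈ S := by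
        intro y hy
        rcases hbad.2.2.2.2.2 u huS y ⟨L.bar σ', f3_S_bar hσ', hy⟩ with h3 | h3
        · exact h3
        · exfalso
          subst h3
          have h4 := (dt_cl hy).2
          rw [L.bar_bar] at h4
          exact f3_S_ne hp hσ' (h4.symm.trans (dt_cl hdb).2)
      refine good_of_nvc (U := U) (hbad.1 huS) (hSn u huS) ?_ ?_ hcu
        ((hinv u (hbad.1 huS)).2 _ (f3_S_bar hσ') hcu)
      · intro y hy
        exact ⟨hbad.1 (hyS y hy), hSn y (hyS y hy)⟩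
      · intro y z hy hz
        exact hUc y (hbad.1 (hyS y hy)) z
          ⟨L.bar (L.bar σ'), f3_S_bar (f3_S_bar hσ'), dt_symm hz⟩
    · have hall : ∀ x ∈ U, Nvc L U x := fun x hx => hnvc x hx (fun A hA => hb ⟨x, A, hA⟩)
      refine ⟨σ, v, hσ, good_of_nvc (U := U) hvU (hall v hvU) ?_ ?_ hcv hv⟩
      · intro y hy
        have h3 := hUc v hvU y ⟨σ, hσ, hy⟩
        exact ⟨h3, hall y h3⟩
      · intro y z hy hz
        exact hUc y (hUc v hvU y ⟨σ, hσ, hy⟩) z ⟨L.bar σ, f3_S_bar hσ, dt_symm hz⟩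

end Pool.Agent.H24.GI
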