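import Pool.Agent.H24.GI.DcOF
import Pool.Agent.H24.GH.NFin

/-!
# JOB GI-26: hardness if there is no live type

`hpat_dead`: `dc_side`. (1) `LConn (dcLS L)`: `f_choice` for `dcLS L` (`dc_nolive`, `dc_nopal`, `dc_deg`; `hr`: a type `t` of `dcLS L` with
`3 ≤ num t` is not matched, otherwise `num t.1 = 1` by `dc_mtd`), `f_hpat` (`nolive_loop`), `HPat.dc`. (2) There is `s` with
`SideF L s`: `f_choice` for `sdLS L hs` (`sd_nolive`, `sd_nopal`, `sd_conn`, `sd_mtd`), `sd_back`, `f_hpat` for `L` (`sd_loop`).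
(`V` is not empty.)
`hard_dead`: as `hard_leaf` (file `Pool.Agent.H24.GH.NFin`): `lab_deg` and `lab_conn` for `L'`, `hpat_dead`, `HPat.tr`,
`hard_of_hpat`. If there is no branch vertex (`V` empty) then `LV H` is empty; this is excluded by `hne`.
-/

namespace Pool.Agent.H24.GI

open Pool.Agent.H24.GC Pool.Agent.H24.GG Pool.Agent.H24.GH

theorem hpat_dead {V D T K : Type} {L : LS V D T K} [Finite V] [Finite D] [Finite T] [Nonempty V]
    (h3 : ∀ x, 3 ≤ {d | L.tl d = x}.ncard) (hc : LConn L) (hr : ∀ t, Mtd L t → L.num t = 1)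
    (hn : NoLive L) : ∃ k : Kt L, HPat k := by
  rcases dc_side hc with h1 | ⟨s, hs⟩
  · have h4 : ∀ x, 3 ≤ {d | (dcLS L).tl d = x}.ncard := by
      intro x
      rw [dc_deg]
      exact h3 x.1
    have h5 := f_choice h1 (dc_nolive hn) dc_nopal h4 (by
      rintro ⟨t, e1, e2⟩
      refine ⟨t, e1, e2, fun e3 => ?_⟩
      have e4 := hr t.1 (dc_mtd e3)
      have e5 : 3 ≤ L.num t.1 := e1
      omega)
    obtain ⟨k, hk⟩ := f_hpat h1 (dc_nolive hn) (nolive_loop (dc_nolive hn) dc_nopal) h5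
    exact ⟨dcKt k, HPat.dc hk⟩
  · have h5 := f_choice (sd_conn hs hc) (sd_nolive hs hn) (sd_nopal hs) h3 (sd_mtd hs hr)
    exact f_hpat hc hn (sd_loop hs hn) (sd_back hs h5)

theorem hard_dead {V : Type} [Finite V] {H : SimpleGraph V} (hH : Gd H) (hc : H.Connected)
    (hne : ∃ v, Br H v) {T' : Type} [Finite T'] {L' : LS (LV H) (LD H) T' (LK H)}
    {ρ : T' → LT H} (h : Rf (lab H) L' ρ) (hr : ∀ t', Mtd L' t' → L'.num t' = 1)
    (hn : NoLive L') : HardH H := by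
  have h3 : ∀ x, 3 ≤ {d | L'.tl d = x}.ncard := by
    intro x
    rw [h.tl]
    exact lab_deg H x
  have hcn : LConn L' := by
    intro x y
    refine Relation.ReflTransGen.mono ?_ x y (lab_conn hc x y)
    rintro a b ⟨d, h1, h2⟩
    refine ⟨d, ?_, ?_⟩
    · rw [h.tl]
      exact h1
    · show L'.tl (L'.rv d) = b
      rw [h.tl, h.rv]
      exact h2
  obtain ⟨v, hv⟩ := hne
  have : Nonempty (LV H) := ⟨⟨v, hv⟩⟩
  obtain ⟨k, hk⟩ := hpat_dead h3 hcn hr hn
  exact hard_of_hpat hH (HPat.tr h hk)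

end Pool.Agent.H24.GI
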