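import Pool.Agent.H24.GI.FinF
import Pool.Agent.H24.GE.CspNP
import Pool.Agent.H24.GE.R2

/-!
# The classification for connected graphs with a branch vertex
-/

namespace Pool.Agent.H24.GI

open Pool.Agent.H24.GC Pool.Agent.H24.GD Pool.Agent.H24.GE Pool.Agent.H24.GG Pool.Agent.H24.GH
  Pool.Agent.PPS Pool.Agent.H64.Cook Pool.Agent.H79.Thr

theorem fin_sc {V D T T' K : Type} [Finite D] {L : LS V D T K} {L' : LS V D T' K} {ρ : T' → T}
    (h : Rf L L' ρ) (t' : T') : L.sc (ρ t') = L'.sc t' := by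
  obtain ⟨d, hd⟩ := refi_surj L' t'
  rw [← hd, ← h.ty, ← L.cl_tl, ← L'.cl_tl, h.cl, h.tl]

theorem hard_single {n : ℕ} {H : SimpleGraph (Fin n)} (hH : Gd H) (hc : H.Connected)
    (hne : ∃ v, Br H v)
    (hm : ∃ t : LT H, ¬ Mtd (lab H) t ∧ ∀ t', (lab H).sc t' = (lab H).sc t → t' = t) :
    HardH H := by
  obtain ⟨t, ht, hu⟩ := hm
  obtain ⟨T', hT', L', ρ, hR, -, hr⟩ := refine_exists (lab H)
  obtain ⟨d, hd⟩ := refi_surj (lab H) t
  have h1 : ρ (L'.ty d) = t := by rw [← hR.ty, hd]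
  have hlf : ∃ s, Lfs L'.sc s := by
    refine ⟨L'.ty d, fun s' hs => ?_⟩
    refine refi_unm hR (by rw [h1]; exact ht) ?_
    rw [h1]
    refine hu _ ?_
    rw [fin_sc hR, hs, ← fin_sc hR, h1]
  by_cases hl : ∃ s, TLive L'.sc L'.bar s
  · exact hard_leaf hH hc hR hr hl hlf
  · exact hard_dead hH hc hne hR hr (fun s hs => hl ⟨s, hs⟩)

theorem gd_conn {V : Type} {H : SimpleGraph V} (hc : H.Connected) (hne : ∃ v, Br H v) : Gd H := by
  obtain ⟨b, hb⟩ := hne
  exact fun v => ⟨b, hb, hc.preconnected v b⟩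

/-- the classification for connected graphs with a branch vertex -/
theorem csp_all {n : ℕ} {H : SimpleGraph (Fin n)} (hc : H.Connected) (hne : ∃ v, Br H v) :
    PolyEq (LB H) (CSet (TR H)) := by
  have hn : 0 < n := by
    obtain ⟨v, -⟩ := hne
    exact v.pos
  have hH : Gd H := gd_conn hc hne
  by_cases hm : ∀ t : LT H, ¬ Mtd (lab H) t → ∃ t', (lab H).sc t' = (lab H).sc t ∧ t' ≠ t
  · exact multi_csp_all hn hH hm
  · push Not at hm
    obtain ⟨t, ht, hu⟩ := hm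
    have hhard : HardH H := hard_single hH hc hne ⟨t, ht, hu⟩
    refine ⟨red_up hn hH, ?_⟩
    obtain ⟨φ, hφ, h2⟩ := hhard _ (cset_NP (by positivity) (TR H))
    refine ⟨φ, hφ, fun x => ?_⟩
    obtain ⟨k, G, h3, h4⟩ := h2 x
    rw [h3, enc_mem_lb]
    exact h4

end Pool.Agent.H24.GI
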