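import Pool.Agent.H24.GI.StB
import Pool.Agent.H24.GH.OColA
import Pool.Agent.H24.GH.OColB
import Pool.Agent.H24.GH.OColC

/-!
# JOB GI-9: hardness at a good star

`GoodC L τ ζ x`: two different ends of type `τ`; the darts of type `τ` at `x`, and the darts of type `ζ` which lead to an end of `x`
are not bridges; two darts of type `τ` at `x`, and two darts of type `τ`, `ζ` from `x`, `z` to the same end `y` are not a cut of two
edges.

`goodc_p`: `GoodP L τ (GoodC L τ ζ)`; `au`: `aut_dt`, `aut_supp`, `aut_cut`, `Aut.M` (the ends of `g x` are the `g y`, surjectivity).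
`good_ties`: `k = sumKt k₁ k₂` with `k₁` from `exists_stb`, `k₂` from `exists_prb` for `P = GoodC L τ ζ`. `Gt α`: `GoodC L τ ζ α.1` and
`Dt L τ α.1 α.2`; `Gz α`: `CutV L 2 α`. `sd i = (dd i, inl q)`, `dd` a bijection of `Fin m` to the darts of type `τ` at `x₀`.
Every labelling of `k` cut at `(d, inl q)` restricts to one of `k₁` cut at `(d, q)` (`sum_el_inl`), so `GoodC (f (x₀, inl q))`, the
value `evt` is not a bridge (`val_dt`, `nb`), `one_exact` for `k`. This is `s_sp`, `a_sp1`, `a_sp2` (`a1 = sd 0`, `a2 = sd 1`) and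
`g_sp` (`g1 = sd 0`, `Xg = GoodC L τ ζ`). `s_cp`, `a_cp`, `g_cp`: `star_full`, `star_pair`, `StB.cp`, and `proj_el` on the part `k₂` (put the
labellings together as in `sum_ustar_inl`). `a_tie`: `two_tail` with `t1` at `f (x₀, inl q)` (the two darts are different, so if their
ends agree then `2 ≤ M`, by `EL.star`: `Sub2`).
`b1, b2`: the darts of `exists_prb` in the second part. `b_sp1`: as before. `b_sp2`: for a labelling cut at `b2`: `GoodC (f (tl b1))`,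
`b1` is not cut (`ne`, `nrev`), so `y = f (hd b1)` is an end of `x = f (tl b1)`; `evh b2 = (z, y)` with `Dt L ζ z y` (`val_dt`), so
`CutV 2 (evh b2)` by `nz`; `one_exact`. `b_tie`: `two_head`; `h5` from `t2` at `x = (evh b1).1` (`Gt (evh b1)`): `y = f (hd b1)`,
`z = (evh b2).1`; if `ζ = τ` and `z = x` then `rv b1`, `rv b2` are two darts of type `bar τ` at `hd b1` with the end `x`, so
`2 ≤ M (bar τ) y x = M τ x y` (`EL.star`, `M_bar`). `b_cp`: `PrB.cp`, `hzt`.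
`good_hpat`: (1) if there are `x₀, v₀` with `GoodC x₀`, `M τ x₀ v₀ + 1 = m`: `hp_one`; `hX`: `Gt (x', z)` gives `2 ≤ supp τ x'`, but
`Ful τ x' (fun _ => z)` gives `supp τ x' = 1` (`supp_eq`). (2) Otherwise `M τ x z + 2 ≤ m` for all `x` with `GoodC x`
(`M τ x z < m`, as `2 ≤ supp`: `M_two`, `supp_one`...). Choose `x₀` with `GoodC x₀` and the smallest `supp L τ x₀`; `hp_nae` if it is
`2`, otherwise `hp_three`. `zt y`: some `z` with `Dt ζ z y` and (`ζ = τ → z = x₀ → 2 ≤ M τ x₀ y`): as in the file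
`Pool.Agent.H24.GH.NCaseX` (`hz`, `hz'`).
-/

namespace Pool.Agent.H24.GI

open Pool.Agent.H24.GC Pool.Agent.H24.GG Pool.Agent.H24.GH

variable {V D T K : Type} {L : LS V D T K}

/-- a good star -/
structure GoodC (L : LS V D T K) (τ ζ : T) (x : V) : Prop where
  cl : L.cl x = L.sc τ
  s2 : 2 ≤ supp L τ x
  nb : ∀ y, Dt L τ x y → Cut L 2 x {y}
  nz : ∀ y z, Dt L τ x y → Dt L ζ z y → Cut L 2 z {y}
  t1 : ∀ y y', Sub2 L τ x y y' → Cut L 3 x {y, y'}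
  t2 : ∀ y z, Dt L τ x y → Dt L ζ z y → (ζ = τ → z = x → 2 ≤ L.M τ x y) → Cut L 3 y {x, z}

variable [Finite V] [Finite D] [Finite T]

/-! ## auxiliary lemmas -/

omit [Finite V] [Finite D] [Finite T] in
theorem gdst_set_inl {k₁ k₂ : Kt L} (δ : D × k₁.Q) :
    {δ' : D × k₁.Q | ((δ'.1, Sum.inl δ'.2) : D × (k₁.Q ⊕ k₂.Q)) ∈
      ({(δ.1, Sum.inl δ.2)} : Set (D × (k₁.Q ⊕ k₂.Q)))} = {δ} := by
  ext δ'
  constructor
  · intro h
    have h3 : ((δ'.1, Sum.inl δ'.2) : D × (k₁.Q ⊕ k₂.Q)) = (δ.1, Sum.inl δ.2) := h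
    have h4 := Prod.ext_iff.1 h3
    exact Prod.ext h4.1 (Sum.inl_injective h4.2)
  · rintro rfl
    rfl

omit [Finite V] [Finite D] [Finite T] in
theorem gdst_set_inr {k₁ k₂ : Kt L} (δ : D × k₂.Q) :
    {δ' : D × k₂.Q | ((δ'.1, Sum.inr δ'.2) : D × (k₁.Q ⊕ k₂.Q)) ∈
      ({(δ.1, Sum.inr δ.2)} : Set (D × (k₁.Q ⊕ k₂.Q)))} = {δ} := by
  ext δ'
  constructor
  · intro h
    have h3 : ((δ'.1, Sum.inr δ'.2) : D × (k₁.Q ⊕ k₂.Q)) = (δ.1, Sum.inr δ.2) := h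
    have h4 := Prod.ext_iff.1 h3
    exact Prod.ext h4.1 (Sum.inr_injective h4.2)
  · rintro rfl
    rfl

omit [Finite V] [Finite D] [Finite T] in
theorem gdst_res_inl {k₁ k₂ : Kt L} {δ : D × k₁.Q} {f : V × (k₁.Q ⊕ k₂.Q) → V}
    {e : D × (k₁.Q ⊕ k₂.Q) → V} (h : EL (sumKt k₁ k₂).net {(δ.1, Sum.inl δ.2)} f e) :
    EL k₁.net {δ} (fun w => f (w.1, Sum.inl w.2)) (fun δ' => e (δ'.1, Sum.inl δ'.2)) := by
  exact sumK_congr (sum_el_inl (k₁ := k₁) (k₂ := k₂) h) (gdst_set_inl (k₂ := k₂) δ)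

omit [Finite V] [Finite D] [Finite T] in
theorem gdst_res_inr {k₁ k₂ : Kt L} {δ : D × k₂.Q} {f : V × (k₁.Q ⊕ k₂.Q) → V}
    {e : D × (k₁.Q ⊕ k₂.Q) → V} (h : EL (sumKt k₁ k₂).net {(δ.1, Sum.inr δ.2)} f e) :
    EL k₂.net {δ} (fun w => f (w.1, Sum.inr w.2)) (fun δ' => e (δ'.1, Sum.inr δ'.2)) := by
  exact sumK_congr (sum_el_inr (k₁ := k₁) (k₂ := k₂) h) (gdst_set_inr (k₁ := k₁) δ)

omit [Finite V] [Finite D] [Finite T] in
/-- labellings of the two parts -/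
theorem gdst_glue {k₁ k₂ : Kt L} {f₁ : V × k₁.Q → V} {e₁ : D × k₁.Q → V} {f₂ : V × k₂.Q → V}
    {e₂ : D × k₂.Q → V} (h1 : EL k₁.net ∅ f₁ e₁) (h2 : EL k₂.net ∅ f₂ e₂) :
    EL (sumKt k₁ k₂).net ∅
      (fun w => Sum.elim (fun κ => f₁ (w.1, κ)) (fun κ => f₂ (w.1, κ)) w.2)
      (fun δ => Sum.elim (fun κ => e₁ (δ.1, κ)) (fun κ => e₂ (δ.1, κ)) δ.2) := by
  refine ⟨?_, ?_, ?_⟩
  · rintro ⟨z, κ | κ⟩
    · exact h1.cls (z, κ)
    · exact h2.cls (z, κ)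
  · rintro ⟨z, κ | κ⟩ t u
    · exact (sumK_star_inl _ z κ t u).trans (h1.star (z, κ) t u)
    · exact (sumK_star_inr _ z κ t u).trans (h2.star (z, κ) t u)
  · rintro ⟨d, κ | κ⟩ _ _
    · exact h1.unc (d, κ) (Set.notMem_empty _) (Set.notMem_empty _)
    · exact h2.unc (d, κ) (Set.notMem_empty _) (Set.notMem_empty _)

/-- one cut dart with a good tail -/
theorem gdst_sp (hc : LConn L) (hl : ∀ d, L.tl d ≠ L.hd d) {τ ζ : T} {k : Kt L} {δ : D × k.Q}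
    (ht : L.ty δ.1 = τ) {f : V × k.Q → V} {e : D × k.Q → V} (h : EL k.net {δ} f e)
    (hg : GoodC L τ ζ (f (k.net.tl δ))) :
    evt k.net f e δ = evh k.net f e δ ∧
      (GoodC L τ ζ (evt k.net f e δ).1 ∧ Dt L τ (evt k.net f e δ).1 (evt k.net f e δ).2) := by
  have := k.fin
  have h1 := (val_dt h δ).1
  have h2 : Dt L τ (evt k.net f e δ).1 (evt k.net f e δ).2 := by
    rw [← ht]
    exact h1
  have h3 : CutV L 2 (evt k.net f e δ) := hg.nb _ h2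
  exact ⟨one_exact hc hl h (Or.inl h3), hg, h2⟩

omit [Finite V] [Finite T] in
/-- two darts with the same value -/
theorem gdst_two {k : Kt L} {C : Set (D × k.Q)} {f : V × k.Q → V} {e : D × k.Q → V}
    (h : EL k.net C f e) {u u' : D × k.Q} (hne : u ≠ u') {w : V × k.Q} (h1 : k.net.tl u = w)
    (h2 : k.net.tl u' = w) {t : T} (h3 : L.ty u.1 = t) (h4 : L.ty u'.1 = t) {y : V}
    (h5 : e u = y) (h6 : e u' = y) : 2 ≤ L.M t (f w) y := by
  have := k.fin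
  rw [← h.star w t y]
  have h7 : ({u, u'} : Set (D × k.Q)) ⊆ {δ | k.net.tl δ = w ∧ k.net.ty δ = t ∧ e δ = y} := by
    rintro δ (rfl | rfl)
    · exact ⟨h1, h3, h5⟩
    · exact ⟨h2, h4, h6⟩
  have h8 := Set.ncard_le_ncard h7 (Set.toFinite _)
  rwa [Set.ncard_pair hne] at h8

omit [Finite V] [Finite T] in
/-- the darts of type `τ` at `x₀` -/
theorem gdst_dd {τ : T} {m : ℕ} (hn : L.num τ = m) {x₀ : V} (hx : L.cl x₀ = L.sc τ) :
    ∃ dd : Fin m → D, Function.Injective dd ∧ (∀ i, L.tl (dd i) = x₀) ∧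
      ∀ i, L.ty (dd i) = τ := by
  have h1 : Nat.card {d | L.tl d = x₀ ∧ L.ty d = τ} = m := by
    rw [← hn, ← L.num_eq x₀ τ hx]
    rfl
  obtain ⟨ee⟩ : Nonempty (Fin m ≃ {d | L.tl d = x₀ ∧ L.ty d = τ}) :=
    ⟨(Finite.equivFinOfCardEq h1).symm⟩
  refine ⟨fun i => (ee i).1, ?_, fun i => (ee i).2.1, fun i => (ee i).2.2⟩
  intro i j hij
  exact ee.injective (Subtype.ext hij)

omit [Finite V] [Finite T] in
/-- the other ends -/
theorem gdst_zt {τ ζ : T} (hz : L.sc (L.bar ζ) = L.sc (L.bar τ))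
    (hz' : ζ = τ → 2 ≤ L.num (L.bar τ)) (x₀ : V) :
    ∃ zt : V → V, ∀ y, Dt L τ x₀ y → Dt L ζ (zt y) y ∧
      (ζ = τ → zt y = x₀ → 2 ≤ L.M τ x₀ y) := by
  have key : ∀ y, ∃ z, Dt L τ x₀ y → Dt L ζ z y ∧ (ζ = τ → z = x₀ → 2 ≤ L.M τ x₀ y) := by
    intro y
    by_cases hy : Dt L τ x₀ y
    · have hcy : L.cl y = L.sc (L.bar τ) := (dt_cl hy).2
      by_cases h : ζ = τ
      · subst h
        by_cases h2 : 2 ≤ L.M ζ x₀ y
        · exact ⟨x₀, fun _ => ⟨hy, fun _ _ => h2⟩⟩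
        · have h4 : L.M (L.bar ζ) y x₀ < L.num (L.bar ζ) := by
            have h5 := hz' rfl
            rw [M_bar]
            omega
          have h5 : {d | L.tl d = y ∧ L.ty d = L.bar ζ ∧ L.hd d = x₀}.ncard <
              {d | L.tl d = y ∧ L.ty d = L.bar ζ}.ncard := by
            rw [L.num_eq y (L.bar ζ) hcy]
            exact h4
          obtain ⟨d, hd, hd'⟩ := Set.exists_mem_notMem_of_ncard_lt_ncard h5 (Set.toFinite _)
          refine ⟨L.hd d, fun _ => ⟨?_, fun _ h6 => ?_⟩⟩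
          · have h7 : Dt L (L.bar ζ) y (L.hd d) := ⟨d, hd.1, rfl, hd.2⟩
            have h8 := dt_symm h7
            rwa [L.bar_bar] at h8
          · exact absurd ⟨hd.1, hd.2, h6⟩ hd'
      · obtain ⟨z, hz1⟩ := dt_exists (t := L.bar ζ) (x := y) (by rw [hz]; exact hcy)
        refine ⟨z, fun _ => ⟨?_, fun h6 => absurd h6 h⟩⟩
        have h8 := dt_symm hz1
        rwa [L.bar_bar] at h8
    · exact ⟨x₀, fun h => absurd h hy⟩
  choose zt hzt using key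
  exact ⟨zt, hzt⟩

theorem goodc_p (τ ζ : T) : GoodP L τ (GoodC L τ ζ) := by
  refine ⟨fun x h => h.cl, fun x y h hd => h.nb y hd, ?_⟩
  intro g x hg h
  have hs : ∀ y, ∃ y', g y' = y := hg.bij.2
  refine ⟨?_, ?_, ?_, ?_, ?_, ?_⟩
  · rw [hg.cl]
    exact h.cl
  · rw [aut_supp hg]
    exact h.s2
  · intro y hy
    obtain ⟨y', rfl⟩ := hs y
    have h1 := aut_cut hg (h.nb y' ((aut_dt hg).1 hy))
    rwa [Set.image_singleton] at h1
  · intro y z hy hz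
    obtain ⟨y', rfl⟩ := hs y
    obtain ⟨z', rfl⟩ := hs z
    have h1 := aut_cut hg (h.nz y' z' ((aut_dt hg).1 hy) ((aut_dt hg).1 hz))
    rwa [Set.image_singleton] at h1
  · intro y y₁ hy
    obtain ⟨y', rfl⟩ := hs y
    obtain ⟨y₂, rfl⟩ := hs y₁
    have h1 := aut_cut hg (h.t1 y' y₂ ⟨(aut_dt hg).1 hy.1, (aut_dt hg).1 hy.2.1, fun he => by
      have h2 := hy.2.2 (congrArg g he)
      rwa [hg.M] at h2⟩)
    rwa [Set.image_pair] at h1
  · intro y z hy hz hyz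
    obtain ⟨y', rfl⟩ := hs y
    obtain ⟨z', rfl⟩ := hs z
    have h1 := aut_cut hg (h.t2 y' z' ((aut_dt hg).1 hy) ((aut_dt hg).1 hz) (fun h2 h3 => by
      have h4 := hyz h2 (congrArg g h3)
      rwa [hg.M] at h4))
    rwa [Set.image_pair] at h1

theorem good_ties (hc : LConn L) (hl : ∀ d, L.tl d ≠ L.hd d) {τ ζ : T} {m : ℕ} (hm : 3 ≤ m)
    (hn : L.num τ = m) (hz : L.sc (L.bar ζ) = L.sc (L.bar τ))
    (hz' : ζ = τ → 2 ≤ L.num (L.bar τ)) {x₀ : V} (hx : GoodC L τ ζ x₀) :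
    ∃ (k : Kt L) (yt : V) (zt : V → V), Nonempty (Ties k τ ζ m x₀ yt zt (GoodC L τ ζ)
      (fun α => GoodC L τ ζ α.1 ∧ Dt L τ α.1 α.2) (CutV L 2)) := by
  obtain ⟨k₁, q, hS⟩ := exists_stb hc hl (τ := τ) (by omega) (goodc_p τ ζ) hx
  obtain ⟨k₂, b1, b2, hB⟩ := exists_prb hc hl (τ := τ) (ζ := ζ) (by omega) hz hz' (goodc_p τ ζ) hx
  obtain ⟨dd, hdi, hdt, hdy⟩ := gdst_dd hn hx.cl
  obtain ⟨y₀, hy₀⟩ := ful_exists hn hx.cl
  obtain ⟨zt, hzt⟩ := gdst_zt hz hz' x₀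
  have hk1 := k₁.fin
  have hk2 := k₂.fin
  obtain ⟨i0, i1, h01⟩ : ∃ i0 i1 : Fin m, i0 ≠ i1 :=
    ⟨⟨0, by omega⟩, ⟨1, by omega⟩, fun h => absurd (congrArg Fin.val h) (by simp)⟩
  obtain ⟨sd, hsd⟩ : ∃ sd : Fin m → D × (sumKt k₁ k₂).Q, ∀ i, sd i = (dd i, Sum.inl q) :=
    ⟨_, fun _ => rfl⟩
  obtain ⟨c1, hc1⟩ : ∃ c1 : D × (sumKt k₁ k₂).Q, c1 = (b1.1, Sum.inr b1.2) := ⟨_, rfl⟩
  obtain ⟨c2, hc2⟩ : ∃ c2 : D × (sumKt k₁ k₂).Q, c2 = (b2.1, Sum.inr b2.2) := ⟨_, rfl⟩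
  -- the star
  have s_inj : Function.Injective sd := by
    intro i j hij
    rw [hsd, hsd] at hij
    exact hdi (congrArg Prod.fst hij)
  have s_tl0 : ∀ i, (sumKt k₁ k₂).net.tl (sd i) = (x₀, Sum.inl q) := by
    intro i
    rw [hsd]
    exact Prod.ext (hdt i) rfl
  have s_ty : ∀ i, L.ty (sd i).1 = τ := by
    intro i
    rw [hsd]
    exact hdy i
  have s_nrev : ∀ i j, sd i ≠ (sumKt k₁ k₂).net.rv (sd j) := by
    intro i j hij
    have h1 : (sumKt k₁ k₂).net.hd (sd j) = (x₀, Sum.inl q) := by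
      unfold Net.hd
      rw [← hij]
      exact s_tl0 i
    rw [hsd] at h1
    have h2 : (((L.hd (dd j), Sum.inl (k₁.R (dd j) q))) : V × (k₁.Q ⊕ k₂.Q)) =
        (x₀, Sum.inl q) := h1
    apply hS.ne (dd j) (hdt j) (hdy j)
    have h3 := Prod.ext_iff.1 h2
    exact Prod.ext h3.1 (Sum.inl_injective h3.2)
  have s_sp : ∀ i f e, EL (sumKt k₁ k₂).net {sd i} f e →
      evt (sumKt k₁ k₂).net f e (sd i) = evh (sumKt k₁ k₂).net f e (sd i) ∧
        (GoodC L τ ζ (evt (sumKt k₁ k₂).net f e (sd i)).1 ∧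
          Dt L τ (evt (sumKt k₁ k₂).net f e (sd i)).1 (evt (sumKt k₁ k₂).net f e (sd i)).2) := by
    intro i f e h
    refine gdst_sp hc hl (s_ty i) h ?_
    rw [s_tl0]
    rw [hsd] at h
    exact hS.gd (dd i) (hdt i) (hdy i) _ _ (gdst_res_inl (δ := (dd i, q)) h)
  have s_cp0 : ∀ y : D → V, (∀ t z, {d | L.tl d = x₀ ∧ L.ty d = t ∧ y d = z}.ncard = L.M t x₀ z) →
      ∃ f e, EL (sumKt k₁ k₂).net ∅ f e ∧
        ∀ i, evt (sumKt k₁ k₂).net f e (sd i) = (x₀, y (dd i)) := by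
    intro y hy
    obtain ⟨f₁, e₁, h1, h2, h3⟩ := hS.cp y hy
    refine ⟨_, _, gdst_glue h1 (proj_el k₂), ?_⟩
    intro i
    unfold evt
    rw [s_tl0, hsd]
    exact Prod.ext h2 (h3 (dd i) (hdt i))
  have s_cp : ∀ y : Fin m → V, Ful L τ x₀ y → ∃ f e, EL (sumKt k₁ k₂).net ∅ f e ∧
      ∀ i, evt (sumKt k₁ k₂).net f e (sd i) = (x₀, y i) := by
    intro y hy
    obtain ⟨y', h1, h2⟩ := star_full hn rfl hy hdi hdt hdy
    obtain ⟨f, e, h3, h4⟩ := s_cp0 y' h1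
    exact ⟨f, e, h3, fun i => by rw [h4, h2]⟩
  -- the pair
  have ty1 : L.ty c1.1 = τ := by
    rw [hc1]
    exact hB.ty1
  have ty2 : L.ty c2.1 = ζ := by
    rw [hc2]
    exact hB.ty2
  have b_hd : (sumKt k₁ k₂).net.hd c1 = (sumKt k₁ k₂).net.hd c2 := by
    rw [hc1, hc2]
    exact congrArg (fun w : V × k₂.Q => ((w.1, Sum.inr w.2) : V × (k₁.Q ⊕ k₂.Q))) hB.hd
  have b_ne : c1 ≠ c2 := by
    rw [hc1, hc2]
    intro h
    have h' := Prod.ext_iff.1 h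
    exact hB.ne (Prod.ext h'.1 (Sum.inr_injective h'.2))
  have b_nrev : c1 ≠ (sumKt k₁ k₂).net.rv c2 := by
    rw [hc1, hc2]
    intro h
    have h' : ((b1.1, Sum.inr b1.2) : D × (k₁.Q ⊕ k₂.Q)) =
        ((k₂.net.rv b2).1, Sum.inr (k₂.net.rv b2).2) := h
    have h1 := Prod.ext_iff.1 h'
    exact hB.nrev (Prod.ext h1.1 (Sum.inr_injective h1.2))
  have b_sp1 : ∀ f e, EL (sumKt k₁ k₂).net {c1} f e →
      evt (sumKt k₁ k₂).net f e c1 = evh (sumKt k₁ k₂).net f e c1 ∧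
        (GoodC L τ ζ (evt (sumKt k₁ k₂).net f e c1).1 ∧
          Dt L τ (evt (sumKt k₁ k₂).net f e c1).1 (evt (sumKt k₁ k₂).net f e c1).2) := by
    intro f e h
    refine gdst_sp hc hl ty1 h ?_
    rw [hc1] at h ⊢
    exact hB.gd1 _ _ (gdst_res_inr (δ := b1) h)
  have b_sp2 : ∀ f e, EL (sumKt k₁ k₂).net {c2} f e →
      evt (sumKt k₁ k₂).net f e c2 = evh (sumKt k₁ k₂).net f e c2 ∧
        CutV L 2 (evt (sumKt k₁ k₂).net f e c2) := by
    intro f e h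
    have hg : GoodC L τ ζ (f ((sumKt k₁ k₂).net.tl c1)) := by
      have h' := h
      rw [hc2] at h'
      rw [hc1]
      exact hB.gd2 _ _ (gdst_res_inr (δ := b2) h')
    have h1 : e c1 = f ((sumKt k₁ k₂).net.hd c1) := by
      refine h.unc c1 (fun hx => b_ne hx) (fun hx => b_nrev ?_)
      have hx' : (sumKt k₁ k₂).net.rv c1 = c2 := hx
      rw [← hx', (sumKt k₁ k₂).net.rv_rv]
    have h2 : Dt L τ (f ((sumKt k₁ k₂).net.tl c1)) (f ((sumKt k₁ k₂).net.hd c1)) := by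
      have h3 := (val_dt h c1).1
      rw [← h1, ← ty1]
      exact h3
    have h4 : Dt L ζ (e ((sumKt k₁ k₂).net.rv c2)) (f ((sumKt k₁ k₂).net.hd c1)) := by
      have h3 := (val_dt h c2).2
      rw [b_hd, ← ty2]
      exact h3
    have h5 : CutV L 2 (evh (sumKt k₁ k₂).net f e c2) := by
      have h6 := hg.nz _ _ h2 h4
      rw [b_hd] at h6
      exact h6
    have h7 := one_exact hc hl h (Or.inr h5)
    refine ⟨h7, ?_⟩
    rw [h7]
    exact h5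
  have b_tie : ∀ f e, EL (sumKt k₁ k₂).net {c1, c2} f e →
      (GoodC L τ ζ (evt (sumKt k₁ k₂).net f e c1).1 ∧
          Dt L τ (evt (sumKt k₁ k₂).net f e c1).1 (evt (sumKt k₁ k₂).net f e c1).2) →
      (GoodC L τ ζ (evh (sumKt k₁ k₂).net f e c1).1 ∧
          Dt L τ (evh (sumKt k₁ k₂).net f e c1).1 (evh (sumKt k₁ k₂).net f e c1).2) →
      CutV L 2 (evt (sumKt k₁ k₂).net f e c2) → CutV L 2 (evh (sumKt k₁ k₂).net f e c2) →
      (evt (sumKt k₁ k₂).net f e c1).2 = f ((sumKt k₁ k₂).net.hd c1) ∧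
        (evt (sumKt k₁ k₂).net f e c2).2 = f ((sumKt k₁ k₂).net.hd c1) := by
    intro f e h g1 g2 g3 g4
    refine two_head hc hl b_ne b_nrev b_hd h (g1.1.nb _ g1.2) g3 (g2.1.nb _ g2.2) g4 ?_
    have h4 : Dt L ζ (evh (sumKt k₁ k₂).net f e c2).1 (f ((sumKt k₁ k₂).net.hd c1)) := by
      have h3 := (val_dt h c2).2
      rw [b_hd, ← ty2]
      exact h3
    refine g2.1.t2 _ _ g2.2 h4 ?_
    intro h5 h6
    have h7 : 2 ≤ L.M (L.bar τ) (f ((sumKt k₁ k₂).net.hd c1)) (evh (sumKt k₁ k₂).net f e c1).1 := by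
      refine gdst_two h (u := (sumKt k₁ k₂).net.rv c1) (u' := (sumKt k₁ k₂).net.rv c2) ?_ rfl
        b_hd.symm ?_ ?_ rfl h6
      · intro h8
        apply b_ne
        rw [← (sumKt k₁ k₂).net.rv_rv c1, h8, (sumKt k₁ k₂).net.rv_rv]
      · show L.ty (L.rv c1.1) = L.bar τ
        rw [L.ty_rv, ty1]
      · show L.ty (L.rv c2.1) = L.bar τ
        rw [L.ty_rv, ty2, h5]
    rw [M_bar] at h7
    exact h7
  have b_cp : ∀ y, Dt L τ x₀ y → ∃ f e, EL (sumKt k₁ k₂).net ∅ f e ∧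
      evt (sumKt k₁ k₂).net f e c1 = (x₀, y) ∧ evt (sumKt k₁ k₂).net f e c2 = (zt y, y) := by
    intro y hy
    obtain ⟨h1, h2⟩ := hzt y hy
    obtain ⟨f₂, e₂, h3, h4, h5⟩ := hB.cp y (zt y) hy h1 h2
    refine ⟨_, _, gdst_glue (proj_el k₁) h3, ?_, ?_⟩
    · rw [hc1]
      exact h4
    · rw [hc2]
      exact h5
  refine ⟨sumKt k₁ k₂, y₀ i0, zt, ⟨?_⟩⟩
  exact {
    m3 := hm
    num := hn
    sd := sd
    s_inj := s_inj
    s_tl := fun i j => (s_tl0 i).trans (s_tl0 j).symm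
    s_ty := s_ty
    s_nrev := s_nrev
    s_sp := s_sp
    s_cp := s_cp
    a1 := sd i0
    a2 := sd i1
    a_tl := (s_tl0 i0).trans (s_tl0 i1).symm
    a_ty1 := s_ty i0
    a_ty2 := s_ty i1
    a_ne := fun h => h01 (s_inj h)
    a_nrev := s_nrev i0 i1
    a_sp1 := s_sp i0
    a_sp2 := s_sp i1
    a_tie := by
      intro f e h g1 g2 g3 g4
      have htl : (sumKt k₁ k₂).net.tl (sd i0) = (sumKt k₁ k₂).net.tl (sd i1) :=
        (s_tl0 i0).trans (s_tl0 i1).symm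
      refine two_tail hc hl (fun h => h01 (s_inj h)) (s_nrev i0 i1) htl h (g1.1.nb _ g1.2)
        (g3.1.nb _ g3.2) (g2.1.nb _ g2.2) (g4.1.nb _ g4.2) ?_
      refine g1.1.t1 _ _ ⟨g1.2, ?_, ?_⟩
      · have h1 := g3.2
        have h2 : (evt (sumKt k₁ k₂).net f e (sd i1)).1 = (evt (sumKt k₁ k₂).net f e (sd i0)).1 :=
          congrArg f htl.symm
        rw [h2] at h1
        exact h1
      · intro h1
        exact gdst_two h (fun h => h01 (s_inj h)) rfl htl.symm (s_ty i0) (s_ty i1) rfl h1.symm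
    a_cp := by
      intro y y' hy
      obtain ⟨yy, h1, h2, h3⟩ := star_pair (v := x₀) (x := x₀) rfl (hdt i0) (hdt i1)
        (fun h => h01 (hdi h)) (y₁ := y) (y₂ := y') (by rw [hdy]; exact hy.1)
        (by rw [hdy]; exact hy.2.1) (fun _ h => by rw [hdy]; exact hy.2.2 h)
      obtain ⟨f, e, h4, h5⟩ := s_cp0 yy h1
      exact ⟨f, e, h4, by rw [h5, h2], by rw [h5, h3]⟩
    b1 := c1
    b2 := c2
    b_hd := b_hd
    b_ty1 := ty1
    b_ty2 := ty2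
    b_ne := b_ne
    b_nrev := b_nrev
    b_sp1 := b_sp1
    b_sp2 := b_sp2
    b_tie := b_tie
    b_cp := b_cp
    g1 := sd i0
    g_ty := s_ty i0
    g_sp := fun f e h => ⟨(s_sp i0 f e h).1, (s_sp i0 f e h).2, (s_sp i0 f e h).2.1⟩
    yt_dt := ful_dt hy₀ i0
    g_cp := by
      obtain ⟨f, e, h1, h2⟩ := s_cp y₀ hy₀
      exact ⟨f, e, h1, h2 i0⟩ }

theorem good_hpat (hc : LConn L) (hl : ∀ d, L.tl d ≠ L.hd d) {τ ζ : T} (hm : 3 ≤ L.num τ)
    (hz : L.sc (L.bar ζ) = L.sc (L.bar τ)) (hz' : ζ = τ → 2 ≤ L.num (L.bar τ))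
    (hx : ∃ x, GoodC L τ ζ x) : ∃ k : Kt L, HPat k := by
  have hle : ∀ x z, GoodC L τ ζ x → L.M τ x z < L.num τ := by
    intro x z hx
    refine lt_of_le_of_ne (M_le τ x z) (fun h => ?_)
    have h1 : {y | Dt L τ x y} ⊆ {z} := by
      intro y' hy'
      by_contra hne
      have h2 := M_two (L := L) (τ := τ) (x := x) (y := y') (y' := z) hne
      have h3 : L.M τ x y' ≠ 0 := dt_iff.1 hy'
      omega
    have h4 : supp L τ x ≤ 1 := by
      unfold supp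
      calc {y | Dt L τ x y}.ncard ≤ ({z} : Set V).ncard :=
            Set.ncard_le_ncard h1 (Set.finite_singleton z)
        _ = 1 := Set.ncard_singleton z
    have h5 := hx.s2
    omega
  by_cases h1 : ∃ x₀ v₀, GoodC L τ ζ x₀ ∧ L.M τ x₀ v₀ + 1 = L.num τ
  · obtain ⟨x₀, v₀, hx₀, hv⟩ := h1
    obtain ⟨k, yt, zt, ⟨t⟩⟩ := good_ties hc hl hm rfl hz hz' hx₀
    refine ⟨k, hp_one t hx₀.cl hv ?_⟩
    intro x z x' _ _ hg hf
    have h2 := supp_eq hf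
    have h3 : (Set.range (fun _ : Fin (L.num τ) => z)).ncard ≤ 1 := by
      have h4 : Set.range (fun _ : Fin (L.num τ) => z) ⊆ {z} := by
        rintro _ ⟨i, rfl⟩
        rfl
      calc (Set.range (fun _ : Fin (L.num τ) => z)).ncard ≤ ({z} : Set V).ncard :=
            Set.ncard_le_ncard h4 (Set.finite_singleton z)
        _ = 1 := Set.ncard_singleton z
    have h5 : 2 ≤ supp L τ x' := hg.1.s2
    omega
  · have hB : ∀ x, GoodC L τ ζ x → ∀ z, L.M τ x z + 2 ≤ L.num τ := by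
      intro x hx z
      have h2 := hle x z hx
      have h3 : L.M τ x z + 1 ≠ L.num τ := fun h => h1 ⟨x, z, hx, h⟩
      omega
    obtain ⟨x₀, hx₀, hmin⟩ := Set.exists_min_image {x | GoodC L τ ζ x} (supp L τ) (Set.toFinite _)
      hx
    have hx₀' : GoodC L τ ζ x₀ := hx₀
    obtain ⟨k, yt, zt, ⟨t⟩⟩ := good_ties hc hl hm rfl hz hz' hx₀'
    have h2 := hx₀'.s2
    rcases h2.lt_or_eq with h3 | h3
    · exact ⟨k, hp_three t hx₀'.cl (fun x hx _ z => hB x hx z) (fun x hx _ => hmin x hx) h3⟩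
    · exact ⟨k, hp_nae t hx₀'.cl (hB x₀ hx₀') (fun x hx _ z => hB x hx z) h3.symm⟩

end Pool.Agent.H24.GI
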