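import Pool.Agent.H24.GI.Ex

/-!
# JOB GI-6: switching of two kits

`swKt k₁ k₂ d q₁ q₂`: the disjoint union of `k₁` and `k₂`, where the heads of the darts `(d, q₁)` of `k₁` and `(d, q₂)` of `k₂` are
exchanged.

`sw_R_rv`: cases `d' = d`, `d' = rv d`, other `d'`. `sw_rv`: a dart `(d', inl κ)` which is not `(d, inl q₁)`, and for which
`(d', κ)` is not `rv (d, q₁)`, is reversed as in `k₁`.
Let `r = (d, q₁)`, `r' = (d, q₂)`. In the net of `swKt`: `hd (d, inl q₁) = (hd d, inr (R₂ d q₂))`, `hd (d, inr q₂) = (hd d, inl (R₁ d q₁))`,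
`rv (d, inl q₁) = (rv d, inr (R₂ d q₂))`, `rv (d, inr q₂) = (rv d, inl (R₁ d q₁))`.
`sw_res`: the labels of the part `k₁`; `cls`, `star` are clear (tails and types are those of `k₁`), `unc`: `sw_rv`.
`sw_guard`: let `f₁, e₁`, `f₂, e₂` be the two parts. As in `sw_res` `f₂, e₂` is a labelling of `k₂` cut at `r'`, and `f₁, e₁` one of `k₁`
cut at `r` and at the darts of `C`. The darts `(d, inl q₁)`, `(d, inr q₂)` and their reverses are not cut (`hC`), so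
`e₁ r = f₂ (hd r')`, `e₂ r' = f₁ (hd r)`, `e₂ (rv r') = f₁ (tl r)`, `e₁ (rv r) = f₂ (tl r')`. So `evh r' = (f₁ (tl r), f₂ (hd r'))`,
`evt r' = (f₂ (tl r'), f₁ (hd r))`; by `hG` they are equal: `f₁ (tl r) = f₂ (tl r')`, `f₁ (hd r) = f₂ (hd r')`, so
`e₁ r = f₁ (hd r)`, `e₁ (rv r) = f₁ (tl r)`: `f₁, e₁` is not cut at `r`, and `P (f₁ (tl r), f₁ (hd r))`.
`sw_cov`: put the two labellings together; `unc` at the exchanged darts: `hv`.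
-/

namespace Pool.Agent.H24.GI

open Pool.Agent.H24.GG Pool.Agent.H24.GH

variable {V D T K : Type} {L : LS V D T K}

open Classical in
/-- the permutations of the switched kit -/
noncomputable def swR (k₁ k₂ : Kt L) (d : D) (q₁ : k₁.Q) (q₂ : k₂.Q) (d' : D) :
    Equiv.Perm (k₁.Q ⊕ k₂.Q) :=
  if d' = d then (Equiv.swap (Sum.inl q₁) (Sum.inr q₂)).trans (Equiv.sumCongr (k₁.R d) (k₂.R d))
  else if d' = L.rv d then
    ((Equiv.swap (Sum.inl q₁) (Sum.inr q₂)).trans (Equiv.sumCongr (k₁.R d) (k₂.R d))).symm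
  else Equiv.sumCongr (k₁.R d') (k₂.R d')

theorem sw_R_rv (k₁ k₂ : Kt L) (d : D) (q₁ : k₁.Q) (q₂ : k₂.Q) (d' : D) :
    swR k₁ k₂ d q₁ q₂ (L.rv d') = (swR k₁ k₂ d q₁ q₂ d').symm := by
  unfold swR
  by_cases h1 : d' = d
  · subst h1
    rw [if_neg (L.rv_ne d'), if_pos rfl, if_pos rfl]
  · by_cases h2 : d' = L.rv d
    · subst h2
      rw [L.rv_rv, if_pos rfl, if_neg h1, if_pos rfl, Equiv.symm_symm]
    · have h3 : L.rv d' ≠ d := by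
        intro h
        exact h2 (by rw [← h, L.rv_rv])
      have h4 : L.rv d' ≠ L.rv d := by
        intro h
        exact h1 (by rw [← L.rv_rv d', h, L.rv_rv])
      rw [if_neg h3, if_neg h4, if_neg h1, if_neg h2, k₁.R_rv, k₂.R_rv]
      rfl

/-- the switched kit -/
noncomputable def swKt (k₁ k₂ : Kt L) (d : D) (q₁ : k₁.Q) (q₂ : k₂.Q) : Kt L where
  Q := k₁.Q ⊕ k₂.Q
  fin := inferInstance
  R := swR k₁ k₂ d q₁ q₂
  R_rv := sw_R_rv k₁ k₂ d q₁ q₂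

variable {k₁ k₂ : Kt L} {d : D} {q₁ : k₁.Q} {q₂ : k₂.Q}

open Classical in
theorem swg_R_self : swR k₁ k₂ d q₁ q₂ d =
    (Equiv.swap (Sum.inl q₁) (Sum.inr q₂)).trans (Equiv.sumCongr (k₁.R d) (k₂.R d)) := by
  unfold swR
  rw [if_pos rfl]

open Classical in
theorem swg_R_inl {d' : D} {κ : k₁.Q} (h1 : (d', κ) ≠ (d, q₁)) (h2 : (d', κ) ≠ k₁.net.rv (d, q₁)) :
    swR k₁ k₂ d q₁ q₂ d' (Sum.inl κ) = Sum.inl (k₁.R d' κ) := by
  by_cases h3 : d' = d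
  · subst h3
    have h4 : κ ≠ q₁ := fun h => h1 (by rw [h])
    rw [swg_R_self]
    show Equiv.sumCongr (k₁.R d') (k₂.R d') (Equiv.swap (Sum.inl q₁) (Sum.inr q₂) (Sum.inl κ)) = _
    rw [Equiv.swap_apply_of_ne_of_ne (fun h => h4 (Sum.inl_injective h)) Sum.inl_ne_inr]
    rfl
  · by_cases h5 : d' = L.rv d
    · subst h5
      have h6 : (k₁.R d).symm κ ≠ q₁ := by
        intro h
        apply h2
        show (L.rv d, κ) = (L.rv d, k₁.R d q₁)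
        rw [← h, Equiv.apply_symm_apply]
      rw [sw_R_rv, swg_R_self]
      show Equiv.swap (Sum.inl q₁) (Sum.inr q₂) (Sum.inl ((k₁.R d).symm κ)) = _
      rw [Equiv.swap_apply_of_ne_of_ne (fun h => h6 (Sum.inl_injective h)) Sum.inl_ne_inr, k₁.R_rv]
    · unfold swR
      rw [if_neg h3, if_neg h5]
      rfl

open Classical in
theorem swg_R_inr {d' : D} {κ : k₂.Q} (h1 : (d', κ) ≠ (d, q₂)) (h2 : (d', κ) ≠ k₂.net.rv (d, q₂)) :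
    swR k₁ k₂ d q₁ q₂ d' (Sum.inr κ) = Sum.inr (k₂.R d' κ) := by
  by_cases h3 : d' = d
  · subst h3
    have h4 : κ ≠ q₂ := fun h => h1 (by rw [h])
    rw [swg_R_self]
    show Equiv.sumCongr (k₁.R d') (k₂.R d') (Equiv.swap (Sum.inl q₁) (Sum.inr q₂) (Sum.inr κ)) = _
    rw [Equiv.swap_apply_of_ne_of_ne Sum.inr_ne_inl (fun h => h4 (Sum.inr_injective h))]
    rfl
  · by_cases h5 : d' = L.rv d
    · subst h5
      have h6 : (k₂.R d).symm κ ≠ q₂ := by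
        intro h
        apply h2
        show (L.rv d, κ) = (L.rv d, k₂.R d q₂)
        rw [← h, Equiv.apply_symm_apply]
      rw [sw_R_rv, swg_R_self]
      show Equiv.swap (Sum.inl q₁) (Sum.inr q₂) (Sum.inr ((k₂.R d).symm κ)) = _
      rw [Equiv.swap_apply_of_ne_of_ne Sum.inr_ne_inl (fun h => h6 (Sum.inr_injective h)), k₂.R_rv]
    · unfold swR
      rw [if_neg h3, if_neg h5]
      rfl

open Classical in
theorem swg_R_q1 : swR k₁ k₂ d q₁ q₂ d (Sum.inl q₁) = Sum.inr (k₂.R d q₂) := by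
  rw [swg_R_self]
  show Equiv.sumCongr (k₁.R d) (k₂.R d) (Equiv.swap (Sum.inl q₁) (Sum.inr q₂) (Sum.inl q₁)) = _
  rw [Equiv.swap_apply_left]
  rfl

open Classical in
theorem swg_R_q2 : swR k₁ k₂ d q₁ q₂ d (Sum.inr q₂) = Sum.inl (k₁.R d q₁) := by
  rw [swg_R_self]
  show Equiv.sumCongr (k₁.R d) (k₂.R d) (Equiv.swap (Sum.inl q₁) (Sum.inr q₂) (Sum.inr q₂)) = _
  rw [Equiv.swap_apply_right]
  rfl

theorem swg_rv_a : (swKt k₁ k₂ d q₁ q₂).net.rv (d, Sum.inl q₁) =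
    ((k₂.net.rv (d, q₂)).1, Sum.inr (k₂.net.rv (d, q₂)).2) := by
  show (L.rv d, swR k₁ k₂ d q₁ q₂ d (Sum.inl q₁)) = (L.rv d, Sum.inr (k₂.R d q₂))
  rw [swg_R_q1]

theorem swg_rv_b : (swKt k₁ k₂ d q₁ q₂).net.rv (d, Sum.inr q₂) =
    ((k₁.net.rv (d, q₁)).1, Sum.inl (k₁.net.rv (d, q₁)).2) := by
  show (L.rv d, swR k₁ k₂ d q₁ q₂ d (Sum.inr q₂)) = (L.rv d, Sum.inl (k₁.R d q₁))
  rw [swg_R_q2]

theorem swg_rv_a' : (swKt k₁ k₂ d q₁ q₂).net.rv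
    ((k₂.net.rv (d, q₂)).1, Sum.inr (k₂.net.rv (d, q₂)).2) = (d, Sum.inl q₁) :=
  (congrArg (swKt k₁ k₂ d q₁ q₂).net.rv swg_rv_a.symm).trans
    ((swKt k₁ k₂ d q₁ q₂).net.rv_rv (d, Sum.inl q₁))

theorem swg_rv_b' : (swKt k₁ k₂ d q₁ q₂).net.rv
    ((k₁.net.rv (d, q₁)).1, Sum.inl (k₁.net.rv (d, q₁)).2) = (d, Sum.inr q₂) :=
  (congrArg (swKt k₁ k₂ d q₁ q₂).net.rv swg_rv_b.symm).trans
    ((swKt k₁ k₂ d q₁ q₂).net.rv_rv (d, Sum.inr q₂))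

theorem swg_rv_inr {δ : D × k₂.Q} (h1 : δ ≠ (d, q₂)) (h2 : δ ≠ k₂.net.rv (d, q₂)) :
    (swKt k₁ k₂ d q₁ q₂).net.rv (δ.1, Sum.inr δ.2) =
      ((k₂.net.rv δ).1, Sum.inr (k₂.net.rv δ).2) := by
  show (L.rv δ.1, swR k₁ k₂ d q₁ q₂ δ.1 (Sum.inr δ.2)) = (L.rv δ.1, Sum.inr (k₂.R δ.1 δ.2))
  rw [swg_R_inr h1 h2]

theorem swg_star_inl (e : D × (k₁.Q ⊕ k₂.Q) → V) (x : V) (κ : k₁.Q) (t : T) (y : V) :
    {δ | (swKt k₁ k₂ d q₁ q₂).net.tl δ = (x, Sum.inl κ) ∧ (swKt k₁ k₂ d q₁ q₂).net.ty δ = t ∧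
      e δ = y}.ncard =
      {δ | k₁.net.tl δ = (x, κ) ∧ k₁.net.ty δ = t ∧ e (δ.1, Sum.inl δ.2) = y}.ncard :=
  sumK_star_inl e x κ t y

theorem swg_star_inr (e : D × (k₁.Q ⊕ k₂.Q) → V) (x : V) (κ : k₂.Q) (t : T) (y : V) :
    {δ | (swKt k₁ k₂ d q₁ q₂).net.tl δ = (x, Sum.inr κ) ∧ (swKt k₁ k₂ d q₁ q₂).net.ty δ = t ∧
      e δ = y}.ncard =
      {δ | k₂.net.tl δ = (x, κ) ∧ k₂.net.ty δ = t ∧ e (δ.1, Sum.inr δ.2) = y}.ncard :=
  sumK_star_inr e x κ t y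

theorem swg_ne_rv {W Δ : Type} {N : Net L W Δ} {r δ : Δ} (h : N.rv δ ≠ r) : δ ≠ N.rv r := by
  intro h1
  exact h (by rw [h1, N.rv_rv])

theorem sw_rv {δ : D × k₁.Q} (h1 : δ ≠ (d, q₁)) (h2 : δ ≠ k₁.net.rv (d, q₁)) :
    (swKt k₁ k₂ d q₁ q₂).net.rv (δ.1, Sum.inl δ.2) =
      ((k₁.net.rv δ).1, Sum.inl (k₁.net.rv δ).2) := by
  show (L.rv δ.1, swR k₁ k₂ d q₁ q₂ δ.1 (Sum.inl δ.2)) = (L.rv δ.1, Sum.inl (k₁.R δ.1 δ.2))
  rw [swg_R_inl h1 h2]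

theorem sw_res {C : Set (D × (k₁.Q ⊕ k₂.Q))} {f : V × (k₁.Q ⊕ k₂.Q) → V}
    {e : D × (k₁.Q ⊕ k₂.Q) → V} (h : EL (swKt k₁ k₂ d q₁ q₂).net C f e) :
    EL k₁.net ({δ | (δ.1, Sum.inl δ.2) ∈ C} ∪ {(d, q₁)}) (fun w => f (w.1, Sum.inl w.2))
      (fun δ => e (δ.1, Sum.inl δ.2)) := by
  refine ⟨fun w => h.cls (w.1, Sum.inl w.2), ?_, ?_⟩
  · rintro ⟨x, κ⟩ t y
    exact (swg_star_inl e x κ t y).symm.trans (h.star (x, Sum.inl κ) t y)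
  · intro δ h1 h2
    have h3 : δ ≠ (d, q₁) := fun h4 => h1 (Or.inr h4)
    have h4 : δ ≠ k₁.net.rv (d, q₁) := swg_ne_rv (fun h5 => h2 (Or.inr h5))
    have h5 := sw_rv (k₂ := k₂) (q₂ := q₂) h3 h4
    have h6 : (swKt k₁ k₂ d q₁ q₂).net.rv (δ.1, Sum.inl δ.2) ∉ C := by
      rw [h5]
      exact fun h7 => h2 (Or.inl h7)
    have h7 := h.unc (δ.1, Sum.inl δ.2) (fun h8 => h1 (Or.inl h8)) h6
    exact h7.trans (congrArg (fun z => f ((swKt k₁ k₂ d q₁ q₂).net.tl z)) h5)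

theorem swg_res_inr {C : Set (D × (k₁.Q ⊕ k₂.Q))} {f : V × (k₁.Q ⊕ k₂.Q) → V}
    {e : D × (k₁.Q ⊕ k₂.Q) → V} (h : EL (swKt k₁ k₂ d q₁ q₂).net C f e)
    (hC : ∀ δ : D × k₂.Q, (δ.1, Sum.inr δ.2) ∉ C) :
    EL k₂.net {(d, q₂)} (fun w => f (w.1, Sum.inr w.2)) (fun δ => e (δ.1, Sum.inr δ.2)) := by
  refine ⟨fun w => h.cls (w.1, Sum.inr w.2), ?_, ?_⟩
  · rintro ⟨x, κ⟩ t y
    exact (swg_star_inr e x κ t y).symm.trans (h.star (x, Sum.inr κ) t y)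
  · intro δ h1 h2
    have h3 : δ ≠ (d, q₂) := fun h4 => h1 h4
    have h4 : δ ≠ k₂.net.rv (d, q₂) := swg_ne_rv (fun h5 => h2 h5)
    have h5 := swg_rv_inr (k₁ := k₁) (q₁ := q₁) h3 h4
    have h6 : (swKt k₁ k₂ d q₁ q₂).net.rv (δ.1, Sum.inr δ.2) ∉ C := by
      rw [h5]
      exact hC _
    have h7 := h.unc (δ.1, Sum.inr δ.2) (hC δ) h6
    exact h7.trans (congrArg (fun z => f ((swKt k₁ k₂ d q₁ q₂).net.tl z)) h5)

theorem sw_guard {C : Set (D × (k₁.Q ⊕ k₂.Q))} {f : V × (k₁.Q ⊕ k₂.Q) → V}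
    {e : D × (k₁.Q ⊕ k₂.Q) → V} (h : EL (swKt k₁ k₂ d q₁ q₂).net C f e)
    (hC : ∀ δ ∈ C, ∃ δ₁ : D × k₁.Q, δ = (δ₁.1, Sum.inl δ₁.2) ∧ δ₁ ≠ (d, q₁) ∧
      δ₁ ≠ k₁.net.rv (d, q₁)) {P : V × V → Prop}
    (hG : ∀ f₂ e₂, EL k₂.net {(d, q₂)} f₂ e₂ →
      evt k₂.net f₂ e₂ (d, q₂) = evh k₂.net f₂ e₂ (d, q₂) ∧ P (evt k₂.net f₂ e₂ (d, q₂))) :
    EL k₁.net {δ | (δ.1, Sum.inl δ.2) ∈ C} (fun w => f (w.1, Sum.inl w.2))
      (fun δ => e (δ.1, Sum.inl δ.2)) ∧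
      P (evt k₁.net (fun w => f (w.1, Sum.inl w.2)) (fun δ => e (δ.1, Sum.inl δ.2)) (d, q₁)) := by
  have hCr : ∀ δ : D × k₂.Q, (δ.1, Sum.inr δ.2) ∉ C := by
    intro δ h1
    obtain ⟨δ₁, h2, -, -⟩ := hC _ h1
    exact Sum.inr_ne_inl (congrArg Prod.snd h2)
  have ha : ((d, Sum.inl q₁) : D × (k₁.Q ⊕ k₂.Q)) ∉ C := by
    intro h1
    obtain ⟨δ₁, h2, h3, -⟩ := hC _ h1
    have h4 : d = δ₁.1 := congrArg Prod.fst h2
    have h5 : (Sum.inl q₁ : k₁.Q ⊕ k₂.Q) = Sum.inl δ₁.2 := congrArg Prod.snd h2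
    exact h3 (Prod.ext h4.symm (Sum.inl_injective h5).symm)
  have hb : (((k₁.net.rv (d, q₁)).1, Sum.inl (k₁.net.rv (d, q₁)).2) : D × (k₁.Q ⊕ k₂.Q)) ∉ C := by
    intro h1
    obtain ⟨δ₁, h2, -, h3⟩ := hC _ h1
    have h4 : (k₁.net.rv (d, q₁)).1 = δ₁.1 := (Prod.mk.inj h2).1
    have h5 : (Sum.inl (k₁.net.rv (d, q₁)).2 : k₁.Q ⊕ k₂.Q) = Sum.inl δ₁.2 := (Prod.mk.inj h2).2
    exact h3 (Prod.ext h4.symm (Sum.inl_injective h5).symm)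
  have hra : (swKt k₁ k₂ d q₁ q₂).net.rv (d, Sum.inl q₁) ∉ C := by
    rw [swg_rv_a]
    exact hCr _
  have hrb : (swKt k₁ k₂ d q₁ q₂).net.rv (d, Sum.inr q₂) ∉ C := by
    rw [swg_rv_b]
    exact hb
  have hra' : (swKt k₁ k₂ d q₁ q₂).net.rv
      ((k₂.net.rv (d, q₂)).1, Sum.inr (k₂.net.rv (d, q₂)).2) ∉ C := by
    rw [swg_rv_a']
    exact ha
  have hrb' : (swKt k₁ k₂ d q₁ q₂).net.rv
      ((k₁.net.rv (d, q₁)).1, Sum.inl (k₁.net.rv (d, q₁)).2) ∉ C := by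
    rw [swg_rv_b']
    exact hCr (d, q₂)
  -- the four exchanged darts
  have e1 : e (d, Sum.inl q₁) = f ((k₂.net.hd (d, q₂)).1, Sum.inr (k₂.net.hd (d, q₂)).2) :=
    (h.unc (d, Sum.inl q₁) ha hra).trans
      (congrArg (fun z => f ((swKt k₁ k₂ d q₁ q₂).net.tl z)) swg_rv_a)
  have e2 : e (d, Sum.inr q₂) = f ((k₁.net.hd (d, q₁)).1, Sum.inl (k₁.net.hd (d, q₁)).2) :=
    (h.unc (d, Sum.inr q₂) (hCr (d, q₂)) hrb).trans
      (congrArg (fun z => f ((swKt k₁ k₂ d q₁ q₂).net.tl z)) swg_rv_b)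
  have e3 : e ((k₂.net.rv (d, q₂)).1, Sum.inr (k₂.net.rv (d, q₂)).2) =
      f ((k₁.net.tl (d, q₁)).1, Sum.inl (k₁.net.tl (d, q₁)).2) :=
    (h.unc _ (hCr _) hra').trans
      (congrArg (fun z => f ((swKt k₁ k₂ d q₁ q₂).net.tl z)) swg_rv_a')
  have e4 : e ((k₁.net.rv (d, q₁)).1, Sum.inl (k₁.net.rv (d, q₁)).2) =
      f ((k₂.net.tl (d, q₂)).1, Sum.inr (k₂.net.tl (d, q₂)).2) :=
    (h.unc _ hb hrb').trans
      (congrArg (fun z => f ((swKt k₁ k₂ d q₁ q₂).net.tl z)) swg_rv_b')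
  obtain ⟨g1, g2⟩ := hG _ _ (swg_res_inr h hCr)
  have g3 : f ((k₂.net.tl (d, q₂)).1, Sum.inr (k₂.net.tl (d, q₂)).2) =
      e ((k₂.net.rv (d, q₂)).1, Sum.inr (k₂.net.rv (d, q₂)).2) := congrArg Prod.fst g1
  have g4 : e (d, Sum.inr q₂) = f ((k₂.net.hd (d, q₂)).1, Sum.inr (k₂.net.hd (d, q₂)).2) :=
    congrArg Prod.snd g1
  have k1 : e (d, Sum.inl q₁) = f ((k₁.net.hd (d, q₁)).1, Sum.inl (k₁.net.hd (d, q₁)).2) := by
    rw [e1, ← g4, e2]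
  have k2 : e ((k₁.net.rv (d, q₁)).1, Sum.inl (k₁.net.rv (d, q₁)).2) =
      f ((k₁.net.tl (d, q₁)).1, Sum.inl (k₁.net.tl (d, q₁)).2) := by
    rw [e4, g3, e3]
  refine ⟨⟨(sw_res h).cls, (sw_res h).star, ?_⟩, ?_⟩
  · intro δ h1 h2
    by_cases h3 : δ = (d, q₁)
    · subst h3
      exact k1
    · by_cases h4 : δ = k₁.net.rv (d, q₁)
      · subst h4
        refine k2.trans ?_
        show f ((k₁.net.tl (d, q₁)).1, Sum.inl (k₁.net.tl (d, q₁)).2) =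
          f ((k₁.net.tl (k₁.net.rv (k₁.net.rv (d, q₁)))).1,
            Sum.inl (k₁.net.tl (k₁.net.rv (k₁.net.rv (d, q₁)))).2)
        rw [k₁.net.rv_rv]
      · refine (sw_res h).unc δ ?_ ?_
        · rintro (h5 | h5)
          · exact h1 h5
          · exact h3 h5
        · rintro (h5 | h5)
          · exact h2 h5
          · have h6 : k₁.net.rv δ = (d, q₁) := h5
            exact h4 (by rw [← h6, k₁.net.rv_rv])
  · have h5 : evt k₂.net (fun w => f (w.1, Sum.inr w.2)) (fun δ => e (δ.1, Sum.inr δ.2)) (d, q₂) =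
        evt k₁.net (fun w => f (w.1, Sum.inl w.2)) (fun δ => e (δ.1, Sum.inl δ.2)) (d, q₁) := by
      refine Prod.ext ?_ ?_
      · exact g3.trans e3
      · exact e2.trans k1.symm
    rw [← h5]
    exact g2

theorem sw_cov {f₁ : V × k₁.Q → V} {e₁ : D × k₁.Q → V} {f₂ : V × k₂.Q → V} {e₂ : D × k₂.Q → V}
    (h1 : EL k₁.net ∅ f₁ e₁) (h2 : EL k₂.net ∅ f₂ e₂)
    (hv : evt k₁.net f₁ e₁ (d, q₁) = evt k₂.net f₂ e₂ (d, q₂)) :
    EL (swKt k₁ k₂ d q₁ q₂).net ∅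
      (fun w => Sum.elim (fun κ => f₁ (w.1, κ)) (fun κ => f₂ (w.1, κ)) w.2)
      (fun δ => Sum.elim (fun κ => e₁ (δ.1, κ)) (fun κ => e₂ (δ.1, κ)) δ.2) := by
  have v1 : f₁ (k₁.net.tl (d, q₁)) = f₂ (k₂.net.tl (d, q₂)) := congrArg Prod.fst hv
  have v2 : e₁ (d, q₁) = e₂ (d, q₂) := congrArg Prod.snd hv
  refine ⟨?_, ?_, ?_⟩
  · rintro ⟨z, κ | κ⟩
    · exact h1.cls (z, κ)
    · exact h2.cls (z, κ)
  · rintro ⟨z, κ | κ⟩ t u
    · exact (swg_star_inl _ z κ t u).trans (h1.star (z, κ) t u)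
    · exact (swg_star_inr _ z κ t u).trans (h2.star (z, κ) t u)
  · have F : ∀ {a b : D × (k₁.Q ⊕ k₂.Q)}, (swKt k₁ k₂ d q₁ q₂).net.rv a = b →
        (fun w : V × (k₁.Q ⊕ k₂.Q) => Sum.elim (fun κ => f₁ (w.1, κ)) (fun κ => f₂ (w.1, κ)) w.2)
          ((swKt k₁ k₂ d q₁ q₂).net.tl b) =
        (fun w : V × (k₁.Q ⊕ k₂.Q) => Sum.elim (fun κ => f₁ (w.1, κ)) (fun κ => f₂ (w.1, κ)) w.2)
          ((swKt k₁ k₂ d q₁ q₂).net.hd a) := by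
      intro a b hab
      rw [← hab]
      rfl
    rintro ⟨d', κ | κ⟩ _ _
    · by_cases h3 : (d', κ) = (d, q₁)
      · have h4 : d' = d := congrArg Prod.fst h3
        have h5 : κ = q₁ := congrArg Prod.snd h3
        subst h4
        subst h5
        refine Eq.trans ?_ (F swg_rv_a)
        exact v2.trans (h2.unc (d', q₂) (Set.notMem_empty _) (Set.notMem_empty _))
      · by_cases h4 : (d', κ) = k₁.net.rv (d, q₁)
        · have h5 : d' = (k₁.net.rv (d, q₁)).1 := congrArg Prod.fst h4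
          have h6 : κ = (k₁.net.rv (d, q₁)).2 := congrArg Prod.snd h4
          subst h5
          subst h6
          refine Eq.trans ?_ (F swg_rv_b')
          have h7 := h1.unc (k₁.net.rv (d, q₁)) (Set.notMem_empty _) (Set.notMem_empty _)
          refine h7.trans (Eq.trans ?_ v1)
          show f₁ (k₁.net.tl (k₁.net.rv (k₁.net.rv (d, q₁)))) = f₁ (k₁.net.tl (d, q₁))
          rw [k₁.net.rv_rv]
        · refine Eq.trans ?_ (F (sw_rv h3 h4))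
          exact h1.unc (d', κ) (Set.notMem_empty _) (Set.notMem_empty _)
    · by_cases h3 : (d', κ) = (d, q₂)
      · have h4 : d' = d := congrArg Prod.fst h3
        have h5 : κ = q₂ := congrArg Prod.snd h3
        subst h4
        subst h5
        refine Eq.trans ?_ (F swg_rv_b)
        exact v2.symm.trans (h1.unc (d', q₁) (Set.notMem_empty _) (Set.notMem_empty _))
      · by_cases h4 : (d', κ) = k₂.net.rv (d, q₂)
        · have h5 : d' = (k₂.net.rv (d, q₂)).1 := congrArg Prod.fst h4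
          have h6 : κ = (k₂.net.rv (d, q₂)).2 := congrArg Prod.snd h4
          subst h5
          subst h6
          refine Eq.trans ?_ (F swg_rv_a')
          have h7 := h2.unc (k₂.net.rv (d, q₂)) (Set.notMem_empty _) (Set.notMem_empty _)
          refine h7.trans (Eq.trans ?_ v1.symm)
          show f₂ (k₂.net.tl (k₂.net.rv (k₂.net.rv (d, q₂)))) = f₂ (k₂.net.tl (d, q₂))
          rw [k₂.net.rv_rv]
        · refine Eq.trans ?_ (F (swg_rv_inr h3 h4))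
          exact h2.unc (d', κ) (Set.notMem_empty _) (Set.notMem_empty _)

end Pool.Agent.H24.GI
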