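import Pool.Agent.H24.GI.RingV
import Pool.Agent.H24.GI.Sw
import Pool.Agent.H24.GH.NTie

/-!
# JOB GI-7: guards

`GoodP L τ P`: the vertices with `P` are in the class of `τ` and their darts of type `τ` are not bridges, and `P` is invariant under
automorphisms. `GrdK L d P x₀ S`: there is a kit with a dart over `d` such that in every labelling which is cut at this dart only
the two values agree and the tail satisfies `P`, and the values `(x₀, y)`, `y ∈ S`, are possible.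

`grd_ring`: `exists_ring` for `d` (`GoodP.nb`), `proj_el`.
`grd_step`: `exists_ukit` gives a kit `k₀` with universal base vertices `(v, κ v)`; let `q₁ = κ x₀`, `k', q'` the guard for `d`,
`k = swKt k₀ k' d q₁ q'`, the dart `(d', inl q₁)`. `(d', q₁) ≠ (d, q₁)`, `(d', q₁) ≠ rv (d, q₁)` (its tail is over `hd d ≠ tl d`, `hl`). Let
`f, e` be a labelling cut at `(d', inl q₁)`; by `sw_guard` (`C` the singleton) its restriction to `k₀` is cut at `(d', q₁)` only and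
`P (f₁ (x₀, q₁))`. The value `evt (d', q₁)` has the tail `f₁ (x₀, q₁)`, so it is not a bridge (`val_dt`, `GoodP.nb`), `one_exact` for
`k₀`: `evt = evh`; the values in `k` are the same (`sw_rv`: `hd (d', inl q₁)` is in the part `k₀`).
For `y' ∈ S'` let `y ∈ S`, `Sub2 L τ x₀ y y'`. `star_pair` (`v = x = x₀`, `d₁ = d`, `d₂ = d'`) and `UStar` give a labelling of `k₀` with
`evt (d, q₁) = (x₀, y)`, `evt (d', q₁) = (x₀, y')`; the guard has a labelling with `evt (d, q') = (x₀, y)`; `sw_cov`.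
`grd_full`: let `d' ≠ d` be another dart of type `τ` at `x₀` (`3 ≤ num τ`). `grd_ring` for `d` (`S = {hd d}`), `grd_step` to `d'`,
`grd_step` to `d`; for an end `y` of `x₀` there is `y'` with `Sub2 (hd d) y'`, `Sub2 y' y` (`two_mid`, `ful_exists`). Restrict `S`.
-/

namespace Pool.Agent.H24.GI

open Pool.Agent.H24.GG Pool.Agent.H24.GH

variable {V D T K : Type} {L : LS V D T K} [Finite V] [Finite D] [Finite T]

/-- good vertices -/
structure GoodP (L : LS V D T K) (τ : T) (P : V → Prop) : Prop where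
  cl : ∀ x, P x → L.cl x = L.sc τ
  nb : ∀ x y, P x → Dt L τ x y → Cut L 2 x {y}
  au : ∀ g x, Aut L g → P x → P (g x)

/-- there is a guard for the dart `d` -/
def GrdK (L : LS V D T K) (d : D) (P : V → Prop) (x₀ : V) (S : Set V) : Prop :=
  ∃ (k : Kt L) (q : k.Q), (∀ f e, EL k.net {(d, q)} f e →
    evt k.net f e (d, q) = evh k.net f e (d, q) ∧ P (evt k.net f e (d, q)).1) ∧
    ∀ y ∈ S, ∃ f e, EL k.net ∅ f e ∧ evt k.net f e (d, q) = (x₀, y)

theorem grd_ring (hc : LConn L) (hl : ∀ d, L.tl d ≠ L.hd d) {τ : T} {P : V → Prop}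
    (hP : GoodP L τ P) {d : D} (hd : L.ty d = τ) (hx : P (L.tl d)) :
    GrdK L d P (L.tl d) {L.hd d} := by
  obtain ⟨k, q, hk⟩ := exists_ring hc hl (d₀ := d) (hP.nb _ _ hx ⟨d, rfl, rfl, hd⟩)
  refine ⟨k, q, ?_, ?_⟩
  · intro f e h
    obtain ⟨h1, g, hg, h2⟩ := hk f e h
    refine ⟨h1, ?_⟩
    rw [h2]
    exact hP.au g _ hg hx
  · rintro y hy
    have hy' : y = L.hd d := hy
    subst hy'
    exact ⟨_, _, proj_el k, rfl⟩

theorem grd_step (hc : LConn L) (hl : ∀ d, L.tl d ≠ L.hd d) {τ : T} {P : V → Prop}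
    (hP : GoodP L τ P) {d d' : D} (hd : L.ty d = τ) (hd' : L.ty d' = τ) (hdd : L.tl d = L.tl d')
    (hne : d ≠ d') {S : Set V} (h : GrdK L d P (L.tl d) S) :
    GrdK L d' P (L.tl d) {y' | ∃ y ∈ S, Sub2 L τ (L.tl d) y y'} := by
  obtain ⟨k₀, sd, κ, -, -, hU⟩ := exists_ukit L
  obtain ⟨k', q', hk1, hk2⟩ := h
  have hus : UStar k₀ (L.tl d) (κ (L.tl d)) := ukit_star (hU _)
  obtain ⟨q₁, hq₁⟩ : ∃ q₁, κ (L.tl d) = q₁ := ⟨_, rfl⟩
  rw [hq₁] at hus
  have hn1 : ((d', q₁) : D × k₀.Q) ≠ (d, q₁) := fun hx => hne (congrArg Prod.fst hx).symm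
  have hn2 : ((d', q₁) : D × k₀.Q) ≠ k₀.net.rv (d, q₁) := by
    intro hx
    have h1 : d' = L.rv d := congrArg Prod.fst hx
    apply hl d
    rw [hdd, h1]
    rfl
  refine ⟨swKt k₀ k' d q₁ q', Sum.inl q₁, ?_, ?_⟩
  · intro f e h
    obtain ⟨h1, h2⟩ := sw_guard (P := fun α => P α.1) h
      (fun δ hδ => ⟨(d', q₁), hδ, hn1, hn2⟩) hk1
    have hset : {δ : D × k₀.Q | ((δ.1, Sum.inl δ.2) : D × (k₀.Q ⊕ k'.Q)) ∈
        ({(d', Sum.inl q₁)} : Set (D × (k₀.Q ⊕ k'.Q)))} = {(d', q₁)} := by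
      ext δ
      constructor
      · intro hδ
        have h3 : ((δ.1, Sum.inl δ.2) : D × (k₀.Q ⊕ k'.Q)) = (d', Sum.inl q₁) := hδ
        have h4 : δ.1 = d' := congrArg Prod.fst h3
        have h5 : δ.2 = q₁ := Sum.inl_injective (congrArg Prod.snd h3)
        exact Prod.ext h4 h5
      · rintro rfl
        rfl
    have h1' : EL k₀.net {(d', q₁)} (fun w => f (w.1, Sum.inl w.2))
        (fun δ => e (δ.1, Sum.inl δ.2)) := by
      rw [← hset]
      exact h1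
    have hP' : P (f (L.tl d', Sum.inl q₁)) := by
      rw [← hdd]
      exact h2
    have hdt := (val_dt h1' (d', q₁)).1
    have hv : CutV L 2 (evt k₀.net (fun w => f (w.1, Sum.inl w.2))
        (fun δ => e (δ.1, Sum.inl δ.2)) (d', q₁)) := by
      refine hP.nb _ _ hP' ?_
      rw [← hd']
      exact hdt
    have hex := one_exact hc hl h1' (Or.inl hv)
    have hrv := sw_rv (k₁ := k₀) (k₂ := k') (d := d) (q₁ := q₁) (q₂ := q') hn1 hn2
    refine ⟨?_, hP'⟩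
    have hh : evh (swKt k₀ k' d q₁ q').net f e (d', Sum.inl q₁) =
        evh k₀.net (fun w => f (w.1, Sum.inl w.2)) (fun δ => e (δ.1, Sum.inl δ.2)) (d', q₁) := by
      have hrv' : (swKt k₀ k' d q₁ q').net.rv (d', Sum.inl q₁) =
        ((k₀.net.rv (d', q₁)).1, Sum.inl (k₀.net.rv (d', q₁)).2) := hrv
      unfold evh Net.hd
      rw [hrv']
      rfl
    rw [hh, ← hex]
    rfl
  · rintro y' ⟨y, hy, hs⟩
    obtain ⟨Y, hY1, hY2, hY3⟩ := star_pair (L := L) (v := L.tl d) (x := L.tl d) rfl (d₁ := d)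
      (d₂ := d') rfl hdd.symm hne (y₁ := y) (y₂ := y') (by rw [hd]; exact hs.1)
      (by rw [hd']; exact hs.2.1) (fun _ h1 => by rw [hd]; exact hs.2.2 h1)
    obtain ⟨f₁, e₁, h1, h2, h3⟩ := hus (L.tl d) Y rfl hY1
    obtain ⟨f₂, e₂, h4, h5⟩ := hk2 y hy
    have h6 : evt k₀.net f₁ e₁ (d, q₁) = evt k'.net f₂ e₂ (d, q') := by
      rw [h5]
      change (f₁ (L.tl d, q₁), e₁ (d, q₁)) = (L.tl d, y)
      rw [h2, h3 d rfl, hY2]
    refine ⟨_, _, sw_cov h1 h4 h6, ?_⟩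
    change (f₁ (L.tl d', q₁), e₁ (d', q₁)) = (L.tl d, y')
    rw [← hdd, h2, h3 d' hdd.symm, hY3]

theorem grd_full (hc : LConn L) (hl : ∀ d, L.tl d ≠ L.hd d) {τ : T} (hm : 3 ≤ L.num τ)
    {P : V → Prop} (hP : GoodP L τ P) {d : D} (hd : L.ty d = τ) (hx : P (L.tl d)) :
    GrdK L d P (L.tl d) {y | Dt L τ (L.tl d) y} := by
  have hcl : L.cl (L.tl d) = L.sc τ := hP.cl _ hx
  obtain ⟨d', ⟨hd1, hd2⟩, hne⟩ : ∃ d' ∈ {d' | L.tl d' = L.tl d ∧ L.ty d' = τ}, d' ≠ d := by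
    have h1 : 1 < {d' | L.tl d' = L.tl d ∧ L.ty d' = τ}.ncard := by
      rw [L.num_eq _ _ hcl]
      omega
    exact Set.exists_ne_of_one_lt_ncard h1 d
  have h1 := grd_step hc hl hP hd hd2 hd1.symm hne.symm (grd_ring hc hl hP hd hx)
  rw [← hd1] at h1
  have h2 := grd_step hc hl hP hd2 hd hd1 hne h1
  rw [hd1] at h2
  obtain ⟨k, q, h3, h4⟩ := h2
  refine ⟨k, q, h3, ?_⟩
  intro y hy
  obtain ⟨Y, hY⟩ := ful_exists (L := L) (τ := τ) rfl hcl
  obtain ⟨y', h5, h6⟩ := two_mid hm hY (v := L.hd d) (u := y) ⟨d, rfl, rfl, hd⟩ hy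
  exact h4 y ⟨y', ⟨L.hd d, rfl, h5⟩, h6⟩

end Pool.Agent.H24.GI
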