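import Pool.Agent.H24.GI.Bd

/-!
# JOB GI-2: level sets of the number of the vertices with a given label

`nf f x`: the number of the vertices with the label `x`. For cut darts `u i`: `uP t x y` counts the `u i` with type `t` and value
`evt = (x, y)`, and those with type `bar t` and value `evh = (y, x)`; `uN t x y` is the same with `evt` and `evh` exchanged.

`unit_flow`: `flow` (file `Pool.Agent.H24.GG.Flow`) for the positions `Unit` (`g` trivial): the sum over all darts `δ` of type `t` of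
`ind2 (evt δ) (x, y) - ind2 (evh δ) (x, y)`. The terms with `δ ≠ u i, rv (u i)` vanish (`unc`: `evt δ = evh δ`). The `u i`, `rv (u i)` are
pairwise different (`hu`, `hr`), and `evt (rv δ)` is `evh δ` with exchanged components, `evh (rv δ)` is `evt δ` with exchanged
components.
`nf_sum`: the vertices `(x, κ)` with `cl x = κ'` are those with labels of the class `κ'` (`EL.cls`).
`lev_main`. Let `c = Nat.card k.Q`. As `nf f` is not constant there is `x` with `nf f x ≠ c`; by `nf_sum` its class contains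
`x₁` with `nf f x₁ > c` and `x₂` with `nf f x₂ < c`. `E₁ = {x | c + 1 ≤ nf f x}`, `E₂ = {x | c ≤ nf f x}`: both are not empty and not
everything, so `bd L E₁`, `bd L E₂` are not empty (`hc`: a path from a point of the set to a point outside). Let
`W = ∑ d, max 0 (nf f (tl d) - nf f (hd d))`. For every dart `d` the number of the `j ∈ {1, 2}` with `d ∈ bd L (E j)` is at most
`max 0 (nf f (tl d) - nf f (hd d))`; so the left side is at most `W`. And `W` is the sum over all `t, x, y` of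
`max 0 (M t x y * (nf f x - nf f y)) = max 0 (uP t x y - uN t x y) ≤ uP t x y`, and `∑ t x y, uP t x y = 2 * card ι` (every `i` is
counted twice: once for `evt`, once for `evh`). If `d ∈ bd L (E j)` then `0 < M t x y * (nf f x - nf f y)` for `t = ty d`, `x = tl d`,
`y = hd d`, so `0 < uP t x y`: this is `Unt`. If the left side is `2 * card ι` then all inequalities are equalities: for
`(t, x, y) = (ty (u i), evt (u i))`: `0 < uP t x y = max 0 (M t x y * (nf f x - nf f y))`, so there is a dart `d` of this triple with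
`0 < nf f (tl d) - nf f (hd d)`, which is the number of the `j` with `d ∈ bd L (E j)`; so `x ∈ E j`, `y ∉ E j` for some `j`. The
same for the triple `(bar (ty (u i)), (evh (u i)).2, (evh (u i)).1)`.
-/

namespace Pool.Agent.H24.GI

open Pool.Agent.H24.GG Pool.Agent.H24.GH

variable {V D T K : Type} {L : LS V D T K}

/-- the number of the vertices with the label `x` -/
noncomputable def nf {W : Type} (f : W → V) (x : V) : ℤ := ({w | f w = x}.ncard : ℤ)

section

variable {W Δ : Type} (N : Net L W Δ) (f : W → V) (e : Δ → V) {ι : Type} (u : ι → Δ)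

/-- the number of the positive units -/
noncomputable def uP (t : T) (x y : V) : ℕ :=
  {i | N.ty (u i) = t ∧ evt N f e (u i) = (x, y)}.ncard +
    {i | L.bar (N.ty (u i)) = t ∧ evh N f e (u i) = (y, x)}.ncard

/-- the number of the negative units -/
noncomputable def uN (t : T) (x y : V) : ℕ :=
  {i | N.ty (u i) = t ∧ evh N f e (u i) = (x, y)}.ncard +
    {i | L.bar (N.ty (u i)) = t ∧ evt N f e (u i) = (y, x)}.ncard

end

theorem lev_evt_rv {W Δ : Type} (N : Net L W Δ) (f : W → V) (e : Δ → V) (δ : Δ) (x y : V) :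
    ind2 (evt N f e (N.rv δ)) (x, y) = ind2 (evh N f e δ) (y, x) := by
  unfold evt evh
  have h1 : N.tl (N.rv δ) = N.hd δ := rfl
  rw [h1]
  by_cases h : f (N.hd δ) = x ∧ e (N.rv δ) = y
  · rw [flow_ind2_self (Prod.ext h.1 h.2), flow_ind2_self (Prod.ext h.2 h.1)]
  · rw [flow_ind2_ne (fun h2 => h ⟨congrArg Prod.fst h2, congrArg Prod.snd h2⟩),
      flow_ind2_ne (fun h2 => h ⟨congrArg Prod.snd h2, congrArg Prod.fst h2⟩)]

theorem lev_evh_rv {W Δ : Type} (N : Net L W Δ) (f : W → V) (e : Δ → V) (δ : Δ) (x y : V) :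
    ind2 (evh N f e (N.rv δ)) (x, y) = ind2 (evt N f e δ) (y, x) := by
  have h := lev_evt_rv N f e (N.rv δ) y x
  rw [N.rv_rv] at h
  exact h.symm

open Classical in
theorem lev_sum_if {ι α : Type} [Fintype ι] (q : ι → Prop) (φ : ι → α) (c : α) :
    ∑ i, (if q i then ind2 (φ i) c else 0) = ({i | q i ∧ φ i = c}.ncard : ℤ) := by
  rw [← Finset.sum_filter, flow_sum_ind]
  congr 2
  ext i
  simp

theorem unit_flow {W Δ : Type} [Finite W] [Finite Δ] {N : Net L W Δ} {f : W → V} {e : Δ → V}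
    {ι : Type} [Fintype ι] {u : ι → Δ} (hu : Function.Injective u) (hr : ∀ i j, u i ≠ N.rv (u j))
    (h : EL N (Set.range u) f e) (t : T) (x y : V) :
    (L.M t x y : ℤ) * (nf f x - nf f y) = (uP N f e u t x y : ℤ) - uN N f e u t x y := by
  classical
  have := Fintype.ofFinite Δ
  let g : Vt L Unit := ⟨fun _ => Equiv.refl _, fun _ => rfl⟩
  have h1 := flow h (pos := fun _ : W => ()) (g := g) (fun _ => rfl) t x y ()
  have h2 : ∀ z, nq (fun _ : W => ()) f z () = nf f z := by
    intro z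
    unfold nq nf
    congr 2
    ext w
    exact ⟨fun h => h.2, fun h => ⟨rfl, h⟩⟩
  rw [h2, h2] at h1
  let F : Δ → ℤ := fun δ => if N.ty δ = t then
    ind2 (evt N f e δ) (x, y) - ind2 (evh N f e δ) (x, y) else 0
  rw [Finset.sum_filter] at h1
  have h3 : (L.M t x y : ℤ) * (nf f x - nf f y) = ∑ δ, F δ := by
    refine h1.trans (Finset.sum_congr rfl (fun δ _ => ?_))
    by_cases h4 : N.ty δ = t
    · rw [if_pos ⟨h4, rfl⟩]
      exact (if_pos h4).symm
    · rw [if_neg (fun h5 => h4 h5.1)]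
      exact (if_neg h4).symm
  have h4 : ∑ δ, F δ = ∑ δ ∈ Finset.univ.image u ∪ Finset.univ.image (fun i => N.rv (u i)),
      F δ := by
    refine (Finset.sum_subset (Finset.subset_univ _) ?_).symm
    intro δ _ hδ
    rw [Finset.mem_union, not_or] at hδ
    have h5 : δ ∉ Set.range u := by
      rintro ⟨i, rfl⟩
      exact hδ.1 (Finset.mem_image.2 ⟨i, Finset.mem_univ _, rfl⟩)
    have h6 : N.rv δ ∉ Set.range u := by
      rintro ⟨i, hi⟩
      exact hδ.2 (Finset.mem_image.2 ⟨i, Finset.mem_univ _, by rw [hi, N.rv_rv]⟩)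
    have h7 : evt N f e δ = evh N f e δ := by
      unfold evt evh
      rw [h.unc δ h5 h6, h.unc (N.rv δ) h6 (by rw [N.rv_rv]; exact h5), hon_nhd_rv]
    show (if N.ty δ = t then ind2 (evt N f e δ) (x, y) - ind2 (evh N f e δ) (x, y) else 0) = 0
    rw [h7, sub_self, ite_self]
  have h5 : Disjoint (Finset.univ.image u) (Finset.univ.image (fun i => N.rv (u i))) := by
    rw [Finset.disjoint_left]
    intro δ hδ hδ'
    obtain ⟨i, -, hi⟩ := Finset.mem_image.1 hδ
    obtain ⟨j, -, hj⟩ := Finset.mem_image.1 hδ'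
    exact hr i j (hi.trans hj.symm)
  have h6 : ∑ δ ∈ Finset.univ.image u, F δ = ∑ i, F (u i) :=
    Finset.sum_image (fun i _ j _ hij => hu hij)
  have h7 : ∑ δ ∈ Finset.univ.image (fun i => N.rv (u i)), F δ = ∑ i, F (N.rv (u i)) :=
    Finset.sum_image (fun i _ j _ hij => hu (hon_nrv_inj N hij))
  have h8 : ∑ i, F (u i) =
      ({i | N.ty (u i) = t ∧ evt N f e (u i) = (x, y)}.ncard : ℤ) -
        {i | N.ty (u i) = t ∧ evh N f e (u i) = (x, y)}.ncard := by
    rw [← lev_sum_if, ← lev_sum_if, ← Finset.sum_sub_distrib]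
    refine Finset.sum_congr rfl (fun i _ => ?_)
    show (if N.ty (u i) = t then _ else _) = _
    split_ifs <;> simp
  have h9 : ∑ i, F (N.rv (u i)) =
      ({i | L.bar (N.ty (u i)) = t ∧ evh N f e (u i) = (y, x)}.ncard : ℤ) -
        {i | L.bar (N.ty (u i)) = t ∧ evt N f e (u i) = (y, x)}.ncard := by
    rw [← lev_sum_if, ← lev_sum_if, ← Finset.sum_sub_distrib]
    refine Finset.sum_congr rfl (fun i _ => ?_)
    show (if N.ty (N.rv (u i)) = t then _ else _) = _
    rw [lev_evt_rv, lev_evh_rv, N.ty_rv]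
    split_ifs <;> simp
  rw [h3, h4, Finset.sum_union h5, h6, h7, h8, h9]
  unfold uP uN
  push_cast
  ring

open Classical in
theorem nf_sum [Fintype V] {k : Kt L} {C : Set (D × k.Q)} {f : V × k.Q → V} {e : D × k.Q → V}
    (h : EL k.net C f e) (κ : K) :
    ∑ x ∈ Finset.univ.filter (fun x => L.cl x = κ), nf f x =
      (Nat.card k.Q : ℤ) * (Finset.univ.filter (fun x => L.cl x = κ)).card := by
  have := Fintype.ofFinite k.Q
  have h1 : ∀ x, nf f x = ((Finset.univ.filter (fun w => f w = x)).card : ℤ) := by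
    intro x
    unfold nf
    rw [← Set.ncard_coe_finset]
    congr 2
    ext w
    simp
  rw [Finset.sum_congr rfl (fun x _ => h1 x), ← Nat.cast_sum, ← Nat.cast_mul, Nat.cast_inj]
  have h2 := Finset.card_eq_sum_card_fiberwise
    (s := (Finset.univ.filter (fun x => L.cl x = κ)) ×ˢ (Finset.univ : Finset k.Q))
    (t := Finset.univ.filter (fun x => L.cl x = κ)) (f := f) (by
      intro w hw
      have hw' := (Finset.mem_filter.1 (Finset.mem_product.1 hw).1).2
      refine Finset.mem_coe.2 (Finset.mem_filter.2 ⟨Finset.mem_univ _, ?_⟩)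
      rw [h.cls w]
      exact hw')
  rw [Finset.card_product, Finset.card_univ, ← Nat.card_eq_fintype_card] at h2
  rw [mul_comm, h2]
  refine Finset.sum_congr rfl (fun x hx => ?_)
  congr 1
  ext w
  simp only [Finset.mem_filter, Finset.mem_product, Finset.mem_univ, true_and, and_true]
  constructor
  · intro hw
    refine ⟨?_, hw⟩
    have h3 := h.cls w
    rw [hw, (Finset.mem_filter.1 hx).2] at h3
    exact h3.symm
  · exact fun hw => hw.2

/-- `x, y` are separated by `E₁` or `E₂` -/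
def Sp2 (E₁ E₂ : Set V) (x y : V) : Prop := (x ∈ E₁ ∧ y ∉ E₁) ∨ (x ∈ E₂ ∧ y ∉ E₂)

theorem lev_bd_ne (hc : LConn L) {S : Set V} {a b : V} (ha : a ∈ S) (hb : b ∉ S) :
    (bd L S).Nonempty := by
  by_contra hne
  have key : ∀ z, Relation.ReflTransGen (fun a b => ∃ d, L.tl d = a ∧ L.hd d = b) a z →
      z ∈ S := by
    intro z hz
    induction hz with
    | refl => exact ha
    | tail _ h2 ih =>
      obtain ⟨d, h3, h4⟩ := h2
      by_contra h5
      exact hne ⟨d, by rw [h3]; exact ih, by rw [h4]; exact h5⟩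
  exact hb (key b (hc a b))

open Classical in
theorem lev_bd_sum [Fintype V] [Fintype D] [Fintype T] (S : Set V) :
    (bd L S).ncard = ∑ p : T × V × V,
      L.M p.1 p.2.1 p.2.2 * (if p.2.1 ∈ S ∧ p.2.2 ∉ S then 1 else 0) := by
  have h1 : bd L S =
      ((Finset.univ.filter (fun d => L.tl d ∈ S ∧ L.hd d ∉ S) : Finset D) : Set D) := by
    ext d
    simp [bd]
  rw [h1, Set.ncard_coe_finset, Finset.card_eq_sum_card_fiberwise
    (t := (Finset.univ : Finset (T × V × V))) (f := fun d => (L.ty d, L.tl d, L.hd d))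
    (fun d _ => Finset.mem_coe.2 (Finset.mem_univ _))]
  refine Finset.sum_congr rfl ?_
  rintro ⟨t, x, y⟩ -
  by_cases h2 : x ∈ S ∧ y ∉ S
  · rw [if_pos h2, mul_one]
    unfold LS.M
    rw [← Set.ncard_coe_finset]
    congr 1
    ext d
    simp only [Finset.coe_filter, Finset.mem_filter, Finset.mem_univ, true_and,
      Set.mem_ofPred_eq, Prod.mk.injEq]
    constructor
    · rintro ⟨-, a1, a2, a3⟩
      exact ⟨a2, a1, a3⟩
    · rintro ⟨a2, a1, a3⟩
      exact ⟨⟨by rw [a2]; exact h2.1, by rw [a3]; exact h2.2⟩, a1, a2, a3⟩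
  · rw [if_neg h2, mul_zero, Finset.card_eq_zero, Finset.filter_eq_empty_iff]
    intro d hd h3
    simp only [Prod.mk.injEq] at h3
    obtain ⟨-, a2, a3⟩ := h3
    have h4 := (Finset.mem_filter.1 hd).2
    rw [a2, a3] at h4
    exact h2 h4

open Classical in
theorem lev_fib {ι P : Type} [Fintype ι] [Fintype P] (φ : ι → P) :
    ∑ p, {i | φ i = p}.ncard = Fintype.card ι := by
  rw [← Finset.card_univ, Finset.card_eq_sum_card_fiberwise
    (t := (Finset.univ : Finset P)) (f := φ) (fun d _ => Finset.mem_coe.2 (Finset.mem_univ _))]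
  refine Finset.sum_congr rfl (fun p _ => ?_)
  rw [← Set.ncard_coe_finset]
  congr 1
  ext i
  simp

theorem lev_uP_sum {W Δ : Type} (N : Net L W Δ) (f : W → V) (e : Δ → V) {ι : Type} [Fintype ι]
    [Fintype T] [Fintype V] (u : ι → Δ) :
    ∑ p : T × V × V, uP N f e u p.1 p.2.1 p.2.2 = 2 * Fintype.card ι := by
  unfold uP
  rw [Finset.sum_add_distrib, two_mul]
  congr 1
  · rw [← lev_fib (fun i => (N.ty (u i), evt N f e (u i)))]
    refine Finset.sum_congr rfl ?_
    rintro ⟨t, x, y⟩ -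
    congr 1
    ext i
    simp only [Set.mem_ofPred_eq, Prod.mk.injEq]
  · rw [← lev_fib (fun i => (L.bar (N.ty (u i)), (evh N f e (u i)).2, (evh N f e (u i)).1))]
    refine Finset.sum_congr rfl ?_
    rintro ⟨t, x, y⟩ -
    congr 1
    ext i
    simp only [Set.mem_ofPred_eq, Prod.mk.injEq]
    constructor
    · rintro ⟨a1, a2⟩
      exact ⟨a1, by rw [a2], by rw [a2]⟩
    · rintro ⟨a1, a2, a3⟩
      exact ⟨a1, Prod.ext a3 a2⟩

theorem lev_main [Finite V] [Finite D] [Finite T] (hc : LConn L) {k : Kt L} {ι : Type} [Fintype ι]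
    {u : ι → D × k.Q} (hu : Function.Injective u) (hr : ∀ i j, u i ≠ k.net.rv (u j))
    {f : V × k.Q → V} {e : D × k.Q → V} (h : EL k.net (Set.range u) f e)
    (hn : ∃ x y, nf f x ≠ nf f y) :
    ∃ E₁ E₂ : Set V, E₁ ⊆ E₂ ∧ (bd L E₁).Nonempty ∧ (bd L E₂).Nonempty ∧
      (bd L E₁).ncard + (bd L E₂).ncard ≤ 2 * Fintype.card ι ∧
      (∀ d, d ∈ bd L E₁ ∨ d ∈ bd L E₂ → 0 < uP k.net f e u (L.ty d) (L.tl d) (L.hd d)) ∧
      ((bd L E₁).ncard + (bd L E₂).ncard = 2 * Fintype.card ι →
        ∀ i, Sp2 E₁ E₂ (evt k.net f e (u i)).1 (evt k.net f e (u i)).2 ∧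
          Sp2 E₁ E₂ (evh k.net f e (u i)).2 (evh k.net f e (u i)).1) := by
  classical
  have := Fintype.ofFinite V
  have := Fintype.ofFinite D
  have := Fintype.ofFinite T
  set c : ℤ := (Nat.card k.Q : ℤ) with hcdef
  -- the vertices with many and with few copies
  have hx : ∃ x, nf f x ≠ c := by
    obtain ⟨x, y, hxy⟩ := hn
    by_contra hcon
    push Not at hcon
    exact hxy (by rw [hcon x, hcon y])
  obtain ⟨x, hxc⟩ := hx
  have hs : ∑ z ∈ Finset.univ.filter (fun z => L.cl z = L.cl x), (nf f z - c) = 0 := by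
    rw [Finset.sum_sub_distrib, nf_sum h (L.cl x), Finset.sum_const, nsmul_eq_mul]
    ring
  have hxm : x ∈ Finset.univ.filter (fun z => L.cl z = L.cl x) :=
    Finset.mem_filter.2 ⟨Finset.mem_univ _, rfl⟩
  have h12 : (∃ x₁, c < nf f x₁) ∧ ∃ x₂, nf f x₂ < c := by
    constructor
    · by_contra hcon
      push Not at hcon
      have h1 := (Finset.sum_eq_zero_iff_of_nonpos
        (fun z _ => sub_nonpos.2 (hcon z))).1 hs x hxm
      exact hxc (sub_eq_zero.1 h1)
    · by_contra hcon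
      push Not at hcon
      have h1 := (Finset.sum_eq_zero_iff_of_nonneg
        (fun z _ => sub_nonneg.2 (hcon z))).1 hs x hxm
      exact hxc (sub_eq_zero.1 h1)
  obtain ⟨⟨x₁, hx₁⟩, x₂, hx₂⟩ := h12
  let E₁ : Set V := {x | c + 1 ≤ nf f x}
  let E₂ : Set V := {x | c ≤ nf f x}
  have m1 : ∀ z, z ∈ E₁ ↔ c + 1 ≤ nf f z := fun z => Iff.rfl
  have m2 : ∀ z, z ∈ E₂ ↔ c ≤ nf f z := fun z => Iff.rfl
  let kk : V → V → ℕ := fun x y =>
    (if x ∈ E₁ ∧ y ∉ E₁ then 1 else 0) + (if x ∈ E₂ ∧ y ∉ E₂ then 1 else 0)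
  have hkk : ∀ x y, 0 < kk x y ↔ Sp2 E₁ E₂ x y := by
    intro x y
    show 0 < (if x ∈ E₁ ∧ y ∉ E₁ then 1 else 0) + (if x ∈ E₂ ∧ y ∉ E₂ then 1 else 0) ↔ _
    unfold Sp2
    split_ifs with a1 a2 a2
    · exact ⟨fun _ => Or.inl a1, fun _ => by norm_num⟩
    · exact ⟨fun _ => Or.inl a1, fun _ => by norm_num⟩
    · exact ⟨fun _ => Or.inr a2, fun _ => by norm_num⟩
    · exact ⟨fun h => absurd h (by norm_num), fun h => (h.elim a1 a2).elim⟩
  have hle : ∀ x y, 0 < kk x y → (kk x y : ℤ) ≤ nf f x - nf f y := by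
    intro x y
    show 0 < (if x ∈ E₁ ∧ y ∉ E₁ then 1 else 0) + (if x ∈ E₂ ∧ y ∉ E₂ then 1 else 0) →
      (((if x ∈ E₁ ∧ y ∉ E₁ then 1 else 0) + (if x ∈ E₂ ∧ y ∉ E₂ then 1 else 0) : ℕ) : ℤ) ≤ _
    split_ifs with a1 a2 a2
    · rw [m1, m1] at a1
      rw [m2, m2] at a2
      intro _
      push_cast
      omega
    · rw [m1, m1] at a1
      intro _
      push_cast
      omega
    · rw [m2, m2] at a2
      intro _
      push_cast
      omega
    · intro h
      exact absurd h (by norm_num)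
  have hM : ∀ t x y, L.M t x y * kk x y ≤ uP k.net f e u t x y := by
    intro t x y
    rcases Nat.eq_zero_or_pos (kk x y) with h0 | h0
    · rw [h0, mul_zero]
      exact Nat.zero_le _
    · have h1 := unit_flow hu hr h t x y
      have h2 := hle x y h0
      have h3 : (0 : ℤ) ≤ L.M t x y := Int.natCast_nonneg _
      have h4 : (0 : ℤ) ≤ uN k.net f e u t x y := Int.natCast_nonneg _
      have h5 : (L.M t x y : ℤ) * kk x y ≤ (L.M t x y : ℤ) * (nf f x - nf f y) :=
        mul_le_mul_of_nonneg_left h2 h3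
      have h6 : (L.M t x y : ℤ) * kk x y ≤ uP k.net f e u t x y := by linarith
      exact_mod_cast h6
  have hsum : (bd L E₁).ncard + (bd L E₂).ncard =
      ∑ p : T × V × V, L.M p.1 p.2.1 p.2.2 * kk p.2.1 p.2.2 := by
    rw [lev_bd_sum, lev_bd_sum, ← Finset.sum_add_distrib]
    refine Finset.sum_congr rfl (fun p _ => ?_)
    rw [← mul_add]
    congr 1
    show _ = (if p.2.1 ∈ E₁ ∧ p.2.2 ∉ E₁ then 1 else 0) +
      (if p.2.1 ∈ E₂ ∧ p.2.2 ∉ E₂ then 1 else 0)
    split_ifs <;> rfl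
  have hUP := lev_uP_sum k.net f e u
  refine ⟨E₁, E₂, ?_, ?_, ?_, ?_, ?_, ?_⟩
  · intro z hz
    rw [m1] at hz
    rw [m2]
    omega
  · refine lev_bd_ne hc (a := x₁) (b := x₂) ?_ ?_
    · rw [m1]
      omega
    · rw [m1]
      omega
  · refine lev_bd_ne hc (a := x₁) (b := x₂) ?_ ?_
    · rw [m2]
      omega
    · rw [m2]
      omega
  · rw [hsum, ← hUP]
    exact Finset.sum_le_sum (fun p _ => hM _ _ _)
  · intro d hd
    have h1 : 0 < kk (L.tl d) (L.hd d) := (hkk _ _).2 hd
    have h2 : 0 < L.M (L.ty d) (L.tl d) (L.hd d) :=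
      Nat.pos_of_ne_zero (flow_M_ne ⟨d, rfl, rfl, rfl⟩)
    exact lt_of_lt_of_le (Nat.mul_pos h2 h1) (hM _ _ _)
  · intro heq i
    rw [hsum, ← hUP] at heq
    have h1 := (Finset.sum_eq_sum_iff_of_le (fun p _ => hM _ _ _)).1 heq
    have h2 : ∀ t x y, 0 < uP k.net f e u t x y → Sp2 E₁ E₂ x y := by
      intro t x y h3
      rw [← h1 (t, x, y) (Finset.mem_univ _)] at h3
      exact (hkk _ _).1 (Nat.pos_of_mul_pos_left h3)
    constructor
    · refine h2 (k.net.ty (u i)) _ _ ?_
      unfold uP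
      refine Nat.add_pos_left ?_ _
      exact (Set.ncard_pos (Set.toFinite _)).2 ⟨i, rfl, rfl⟩
    · refine h2 (L.bar (k.net.ty (u i))) _ _ ?_
      unfold uP
      refine Nat.add_pos_right _ ?_
      exact (Set.ncard_pos (Set.toFinite _)).2 ⟨i, rfl, rfl⟩

end Pool.Agent.H24.GI
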