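import Pool.Agent.H24.GI.Good

/-!
# JOB GI-16: vertices which are not cut vertices

`BadP E U t S`: `t` separates the set `S` from other vertices of `U`, in the graph `E`. `Nvc L U x`: a set `T` which contains `x`, but
not all of `U`, is left by a dart which does not start at `x`, or by three darts.

`bad_min`: let `(s, A)` be bad, `s ∈ S`. If `t ∈ A` replace `A` by the set of the `u ∈ U` with `u ∉ A`, `u ≠ s`: this is a bad pair too
(`hE`). So let `t ∉ A`. Let `A₁ = A \ S`. If `A₁` is not empty there are `a ∈ A₁`, `b ∈ U`, `b ∉ A₁`, `E a b` (`s ∉ A₁`, so `A₁ ≠ U`). So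
`b ∈ A` or `b = s`, hence `b ∈ S`; then `E b a` gives `a ∈ S` or `a = t`, contradiction. So `A ⊆ S`, `s ∉ A`: `A` is smaller than
`S`, contradiction to `hmin`.
`nvc_of`: suppose that all darts of `bd L T` start at `x`. Let `S₀` be the set of the `u ∈ T`, `u ∈ U`, `u ≠ x`. If `S₀` is not empty then
`(x, S₀)` is bad: for `s ∈ S₀`, `E s y`: `y ∈ U` (`hU`), there is a dart from `s` to `y` (`hd`), it is not in `bd L T`, so `y ∈ T`. So `S₀` is
empty, and the at least three darts from `x` to elements of `U` (`h3`; `hl`) are in `bd L T`.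
`good_of_nvc`: `nb`: let `x ∈ T`, `y ∉ T`; the dart from `x` to `y` is in `bd L T`; if there is a dart in `bd L T` which does not start
at `x` there are two darts, otherwise three. `nz`: the same for `y`, `cut_symm`. `t1`: there are two different darts of type `τ`
from `x` to `y` and `y'` (`Sub2`; if `y = y'` then `2 ≤ M`). `t2`: there are two different darts of the types `bar τ`, `bar ζ` from `y` to
`x` and `z` (different if `ζ ≠ τ` or `z ≠ x`; otherwise `2 ≤ M (bar τ) y x = M τ x y`).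
-/

namespace Pool.Agent.H24.GI

open Pool.Agent.H24.GG Pool.Agent.H24.GH

variable {V D T K : Type} {L : LS V D T K}

/-- `t` separates `S` from other vertices -/
def BadP (E : V → V → Prop) (U : Set V) (t : V) (S : Set V) : Prop :=
  S ⊆ U ∧ S.Nonempty ∧ t ∈ U ∧ t ∉ S ∧ (∃ u ∈ U, u ∉ S ∧ u ≠ t) ∧
    ∀ s ∈ S, ∀ y, E s y → y ∈ S ∨ y = t

/-- `x` is not a cut vertex -/
def Nvc (L : LS V D T K) (U : Set V) (x : V) : Prop :=
  ∀ S : Set V, x ∈ S → (∃ y ∈ U, y ∉ S) → (∃ d ∈ bd L S, L.tl d ≠ x) ∨ 3 ≤ (bd L S).ncard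

theorem bad_min [Finite V] {E : V → V → Prop} (hE : ∀ x y, E x y → E y x) {U : Set V}
    (hconn : ∀ A ⊆ U, A.Nonempty → A ≠ U → ∃ a ∈ A, ∃ b ∈ U, b ∉ A ∧ E a b) {C S : Set V} {t : V}
    (h : BadP E U t S) (hC : S ⊆ C) (htC : t ∈ C)
    (hmin : ∀ t' S', BadP E U t' S' → S' ⊆ C → t' ∈ C → S.ncard ≤ S'.ncard) :
    ∀ s ∈ S, ∀ A, ¬ BadP E U s A := by
  intro s hs A hA
  obtain ⟨hSU, hSn, htU, htS, hSex, hScl⟩ := h
  obtain ⟨hAU, hAn, hsU, hsA, ⟨u, huU, huA, hus⟩, hAcl⟩ := hA
  have hlt : ∀ B : Set V, B ⊆ S → s ∉ B → BadP E U s B → False := by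
    intro B hBS hsB hB
    have h1 := hmin s B hB (hBS.trans hC) (hC hs)
    have h2 : B.ncard < S.ncard :=
      Set.ncard_lt_ncard ⟨hBS, fun h => hsB (h hs)⟩ (Set.toFinite _)
    omega
  by_cases htA : t ∈ A
  · by_cases hB : ((S \ A) \ {s}).Nonempty
    · refine hlt ((S \ A) \ {s}) (fun x hx => hx.1.1) (fun h => h.2 rfl)
        ⟨fun x hx => hSU hx.1.1, hB, hsU, fun h => h.2 rfl,
          ⟨t, htU, fun h => htS h.1.1, fun h => htS (h ▸ hs)⟩, ?_⟩
      intro x hx y hxy
      have hyA : y ∉ A := by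
        intro hy
        rcases hAcl y hy x (hE _ _ hxy) with h | h
        · exact hx.1.2 h
        · exact hx.2 h
      rcases hScl x hx.1.1 y hxy with h | h
      · by_cases hys : y = s
        · exact Or.inr hys
        · exact Or.inl ⟨⟨h, hyA⟩, hys⟩
      · exact absurd (h ▸ htA) hyA
    · obtain ⟨a, ha, b, hbU, hb, hab⟩ := hconn ((U \ A) \ {s}) (fun x hx => hx.1.1)
        ⟨u, ⟨huU, huA⟩, hus⟩ (fun h => by
          have h1 : s ∈ (U \ A) \ {s} := by
            rw [h]
            exact hsU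
          exact h1.2 rfl)
      by_cases hbA : b ∈ A
      · rcases hAcl b hbA a (hE _ _ hab) with h | h
        · exact ha.1.2 h
        · exact ha.2 h
      · have hbs : b = s := by
          by_contra hne
          exact hb ⟨⟨hbU, hbA⟩, hne⟩
        rw [hbs] at hab
        rcases hScl s hs a (hE _ _ hab) with h | h
        · exact hB ⟨a, ⟨h, ha.1.2⟩, ha.2⟩
        · exact ha.1.2 (h ▸ htA)
  · by_cases hA1 : (A \ S).Nonempty
    · obtain ⟨a, ha, b, hbU, hb, hab⟩ := hconn (A \ S) (fun x hx => hAU hx.1) hA1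
        (fun h => by
          have h1 : s ∈ A \ S := by
            rw [h]
            exact hsU
          exact h1.2 hs)
      have hbS : b ∈ S := by
        rcases hAcl a ha.1 b hab with h | h
        · by_contra hne
          exact hb ⟨h, hne⟩
        · exact h ▸ hs
      rcases hScl b hbS a (hE _ _ hab) with h | h
      · exact ha.2 h
      · exact htA (h ▸ ha.1)
    · have hAS : A ⊆ S := by
        intro x hx
        by_contra hne
        exact hA1 ⟨x, hx, hne⟩
      exact hlt A hAS hsA ⟨hAU, hAn, hsU, hsA, ⟨u, huU, huA, hus⟩, hAcl⟩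

theorem nvc_of [Finite D] (hl : ∀ d, L.tl d ≠ L.hd d) {E : V → V → Prop} {U : Set V}
    (hU : ∀ x ∈ U, ∀ y, E x y → y ∈ U) (hd : ∀ x y, E x y → ∃ d, L.tl d = x ∧ L.hd d = y) {x : V}
    (hx : x ∈ U) (h3 : 3 ≤ {d | L.tl d = x ∧ L.hd d ∈ U}.ncard) (h : ∀ A, ¬ BadP E U x A) :
    Nvc L U x := by
  intro S hxS hy
  obtain ⟨y, hyU, hyS⟩ := hy
  by_cases hne : ∃ d ∈ bd L S, L.tl d ≠ x
  · exact Or.inl hne
  · right
    have hall : ∀ d ∈ bd L S, L.tl d = x := by
      intro d hd1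
      by_contra h1
      exact hne ⟨d, hd1, h1⟩
    have hS0 : ∀ u ∈ S, u ∈ U → u = x := by
      by_contra hcon
      push Not at hcon
      obtain ⟨v, hvS, hvU, hvx⟩ := hcon
      refine h {u | u ∈ S ∧ u ∈ U ∧ u ≠ x} ⟨fun u hu => hu.2.1, ⟨v, hvS, hvU, hvx⟩, hx,
        fun hu => hu.2.2 rfl, ⟨y, hyU, fun hu => hyS hu.1, fun h1 => hyS (h1 ▸ hxS)⟩, ?_⟩
      intro s hs z hsz
      obtain ⟨d, hd1, hd2⟩ := hd s z hsz
      have hzU : z ∈ U := hU s hs.2.1 z hsz
      have hzS : z ∈ S := by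
        by_contra hzS
        apply hs.2.2
        rw [← hd1]
        refine hall d ⟨?_, ?_⟩
        · rw [hd1]
          exact hs.1
        · rw [hd2]
          exact hzS
      by_cases hzx : z = x
      · exact Or.inr hzx
      · exact Or.inl ⟨hzS, hzU, hzx⟩
    refine h3.trans (Set.ncard_le_ncard ?_ (Set.toFinite _))
    rintro d ⟨h1, h2⟩
    refine ⟨?_, fun h4 => ?_⟩
    · rw [h1]
      exact hxS
    · exact hl d (h1.trans (hS0 _ h4 h2).symm)

private theorem nvc_two [Finite D] {U : Set V} {a b : V} (hn : Nvc L U a) (hb : b ∈ U)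
    (hd : ∃ d, L.tl d = a ∧ L.hd d = b) : Cut L 2 a {b} := by
  intro S haS hS
  have hbS : b ∉ S := hS b rfl
  obtain ⟨d, h1, h2⟩ := hd
  have hdb : d ∈ bd L S := ⟨by rw [h1]; exact haS, by rw [h2]; exact hbS⟩
  rcases hn S haS ⟨b, hb, hbS⟩ with ⟨e, he, hea⟩ | h3
  · have hsub : ({d, e} : Set D) ⊆ bd L S := by
      rintro f (rfl | rfl)
      · exact hdb
      · exact he
    have hde : d ≠ e := by
      intro h3
      rw [← h3, h1] at hea
      exact hea rfl
    have h4 := Set.ncard_le_ncard hsub (Set.toFinite _)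
    rwa [Set.ncard_pair hde] at h4
  · omega

private theorem nvc_three [Finite D] {U : Set V} {a b : V} (hn : Nvc L U a) (hb : b ∈ U)
    {S : Set V} (haS : a ∈ S) (hbS : b ∉ S) {d e : D} (hde : d ≠ e) (hd : d ∈ bd L S)
    (he : e ∈ bd L S) (hda : L.tl d = a) (hea : L.tl e = a) : 3 ≤ (bd L S).ncard := by
  rcases hn S haS ⟨b, hb, hbS⟩ with ⟨f, hf, hfa⟩ | h3
  · have hsub : ({f, d, e} : Set D) ⊆ bd L S := by
      rintro g (rfl | rfl | rfl)
      · exact hf
      · exact hd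
      · exact he
    have h1 : f ∉ ({d, e} : Set D) := by
      rintro (h2 | h2)
      · exact hfa (h2 ▸ hda)
      · exact hfa (h2 ▸ hea)
    have h4 := Set.ncard_le_ncard hsub (Set.toFinite _)
    rw [Set.ncard_insert_of_notMem h1 (Set.toFinite _), Set.ncard_pair hde] at h4
    exact h4
  · exact h3

private theorem nvc_hd_rv (d : D) : L.hd (L.rv d) = L.tl d := by
  unfold LS.hd
  rw [L.rv_rv]

private theorem nvc_rv_inj {d e : D} (h : L.rv d = L.rv e) : d = e := by
  rw [← L.rv_rv d, ← L.rv_rv e, h]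

theorem good_of_nvc [Finite V] [Finite D] {U : Set V} {τ ζ : T} {x : V} (hx : x ∈ U)
    (hn : Nvc L U x) (hy : ∀ y, Dt L τ x y → y ∈ U ∧ Nvc L U y)
    (hz : ∀ y z, Dt L τ x y → Dt L ζ z y → z ∈ U) (hcl : L.cl x = L.sc τ)
    (hs : 2 ≤ supp L τ x) : GoodC L τ ζ x := by
  refine ⟨hcl, hs, ?_, ?_, ?_, ?_⟩
  · intro y hxy
    obtain ⟨d, h1, h2, -⟩ := id hxy
    exact nvc_two hn (hy y hxy).1 ⟨d, h1, h2⟩
  · intro y z hxy hzy
    obtain ⟨d, h1, h2, -⟩ := id hzy
    exact cut_symm (nvc_two (hy y hxy).2 (hz y z hxy hzy)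
      ⟨L.rv d, h2, (nvc_hd_rv d).trans h1⟩)
  · rintro y y' ⟨h1, h2, h3⟩ S hxS hS
    have hyS : y ∉ S := hS y (Or.inl rfl)
    have hyS' : y' ∉ S := hS y' (Or.inr rfl)
    have key : ∃ d e : D, d ≠ e ∧ d ∈ bd L S ∧ e ∈ bd L S ∧ L.tl d = x ∧ L.tl e = x := by
      by_cases hyy : y = y'
      · have h4 := h3 hyy
        unfold LS.M at h4
        obtain ⟨d, e, hd, he, hde⟩ := (Set.one_lt_ncard_iff (Set.toFinite _)).1 h4
        refine ⟨d, e, hde, ⟨?_, ?_⟩, ⟨?_, ?_⟩, hd.1, he.1⟩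
        · rw [hd.1]
          exact hxS
        · rw [hd.2.2]
          exact hyS
        · rw [he.1]
          exact hxS
        · rw [he.2.2]
          exact hyS
      · obtain ⟨d, hd1, hd2, -⟩ := h1
        obtain ⟨e, he1, he2, -⟩ := h2
        refine ⟨d, e, ?_, ⟨?_, ?_⟩, ⟨?_, ?_⟩, hd1, he1⟩
        · intro hde
          apply hyy
          rw [← hd2, ← he2, hde]
        · rw [hd1]
          exact hxS
        · rw [hd2]
          exact hyS
        · rw [he1]
          exact hxS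
        · rw [he2]
          exact hyS'
    obtain ⟨d, e, hde, hd, he, hdx, hex⟩ := key
    exact nvc_three hn (hy y h1).1 hxS hyS hde hd he hdx hex
  · intro y z hxy hzy h3 S hyS hS
    have hxS : x ∉ S := hS x (Or.inl rfl)
    have hzS : z ∉ S := hS z (Or.inr rfl)
    have key : ∃ d e : D, d ≠ e ∧ d ∈ bd L S ∧ e ∈ bd L S ∧ L.tl d = y ∧ L.tl e = y := by
      by_cases hτ : ζ = τ ∧ z = x
      · have h4 := h3 hτ.1 hτ.2
        unfold LS.M at h4
        obtain ⟨d, e, hd, he, hde⟩ := (Set.one_lt_ncard_iff (Set.toFinite _)).1 h4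
        refine ⟨L.rv d, L.rv e, fun h => hde (nvc_rv_inj h), ⟨?_, ?_⟩, ⟨?_, ?_⟩, hd.2.2, he.2.2⟩
        · have h5 : L.tl (L.rv d) = y := hd.2.2
          rw [h5]
          exact hyS
        · rw [nvc_hd_rv, hd.1]
          exact hxS
        · have h5 : L.tl (L.rv e) = y := he.2.2
          rw [h5]
          exact hyS
        · rw [nvc_hd_rv, he.1]
          exact hxS
      · obtain ⟨d, hd1, hd2, hd3⟩ := id hxy
        obtain ⟨e, he1, he2, he3⟩ := id hzy
        have hde : d ≠ e := by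
          intro h
          apply hτ
          refine ⟨?_, ?_⟩
          · rw [← hd3, ← he3, h]
          · rw [← hd1, ← he1, h]
        refine ⟨L.rv d, L.rv e, fun h => hde (nvc_rv_inj h), ⟨?_, ?_⟩, ⟨?_, ?_⟩, hd2, he2⟩
        · have h5 : L.tl (L.rv d) = y := hd2
          rw [h5]
          exact hyS
        · rw [nvc_hd_rv, hd1]
          exact hxS
        · have h5 : L.tl (L.rv e) = y := he2
          rw [h5]
          exact hyS
        · rw [nvc_hd_rv, he1]
          exact hzS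
    obtain ⟨d, e, hde, hd, he, hdx, hex⟩ := key
    exact nvc_three (hy y hxy).2 hx hyS hxS hde hd he hdx hex

end Pool.Agent.H24.GI
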