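import Pool.Agent.H24.GI.Ex

/-!
# JOB GI-4: rings of copies of the label structure

`permKt L d₀ s`: copies `(·, q)` of `L`; the dart `d₀` of the copy `q` leads to the copy `s q`.

`perm_rv`: cases `d = d₀`, `d = rv d₀`, other `d` (`rv_ne`, `rv_rv`).
`bridge_img`. For `x : V` let `a x = {w ∈ A | f w = x}.ncard`. Let `t, x, y` be given. The darts `δ` with `tl δ ∈ A`, `ty δ = t`,
`f (tl δ) = x`, `e δ = y` are `M t x y * a x` in number (`star`). Those of them with `hd δ ∈ A` are mapped by `rv` bijectively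
onto the darts `δ'` with `tl δ' ∈ A`, `hd δ' ∈ A`, `ty δ' = bar t`, `f (tl δ') = y`, `e δ' = x` (`e δ = f (hd δ)` everywhere). The only
dart which leaves `A` is `δ₀`. So (`M_bar`) `M t x y * (a x - a y)` is `1` if `ty δ₀ = t`, `evt δ₀ = (x, y)`, minus `1` if
`ty δ₀ = bar t`, `evt δ₀ = (y, x)`. Let `evt δ₀ = (x₁, y₁)`, `t₁ = ty δ₀`; `x₁ ≠ y₁` (`val_dt`, `hl`). So
`M t₁ x₁ y₁ * (a x₁ - a y₁) = 1`, so `M t₁ x₁ y₁ = 1`, `a x₁ = a y₁ + 1`. Let `S = {v | a x₁ ≤ a v}`; `x₁ ∈ S`, `y₁ ∉ S`. A dart `d ∈ bd L S`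
has `0 < a (tl d) - a (hd d)`, so by the equation `ty d = t₁`, `tl d = x₁`, `hd d = y₁`; there is only one such dart
(`M t₁ x₁ y₁ = 1`). So `(bd L S).ncard ≤ 1`, contradiction to `CutV 2`.
`ring_bridge`: let `S` be a set with `tl d ∈ S`, `hd d ∉ S`, `(bd L S).ncard < 2`; so `bd L S = {d}`, and the darts from the complement
to `S` are only `rv d`. `d ≠ d₀`, `d ≠ rv d₀` (`h2`, `cut_symm`), so `d₀` does not lead from `S` to the complement or back. If both ends
of `d₀` are not in `S`: `A = {w | w.1 ∈ S ∧ w.2 = q}`, if both are in `S`: `A = {w | w.1 ∈ S ∨ w.2 ≠ q}`. The only dart of the net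
which leaves `A` is `(d, q)`. `bridge_img`.
`ring_nb`: all fibres of `f` have the same number of elements (`el_const`), which is `Nat.card Q` (their sum over `V` is
`Nat.card V * Nat.card Q`, `V` is not empty). Let `B = {d | ¬ Cut L 2 (tl d) {hd d}}`. The number of the darts `δ` of the net with
`¬ CutV L 2 (evt δ)` is `Nat.card Q * B.ncard`: the darts with `ty δ = t`, `evt δ = (x, y)` are `M t x y * Nat.card Q` in number. By
`ring_bridge` the `Nat.card Q * B.ncard` darts `(d, q)`, `d ∈ B`, are of this kind. So these are all, and `(d₀, q)` is not one of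
them.
-/

namespace Pool.Agent.H24.GI

open Pool.Agent.H24.GG Pool.Agent.H24.GH

variable {V D T K : Type} {L : LS V D T K}

open Classical in
/-- the permutations of the ring -/
noncomputable def permR (L : LS V D T K) (d₀ : D) {Q : Type} (s : Equiv.Perm Q) (d : D) :
    Equiv.Perm Q :=
  if d = d₀ then s else if d = L.rv d₀ then s.symm else Equiv.refl _

theorem ringk_other (L : LS V D T K) {d₀ : D} {Q : Type} (s : Equiv.Perm Q) {d : D}
    (h1 : d ≠ d₀) (h2 : d ≠ L.rv d₀) : permR L d₀ s d = Equiv.refl _ := by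
  unfold permR
  rw [if_neg h1, if_neg h2]

theorem perm_rv (L : LS V D T K) (d₀ : D) {Q : Type} (s : Equiv.Perm Q) (d : D) :
    permR L d₀ s (L.rv d) = (permR L d₀ s d).symm := by
  by_cases h1 : d = d₀
  · subst h1
    unfold permR
    rw [if_neg (L.rv_ne d), if_pos rfl, if_pos rfl]
  · by_cases h2 : d = L.rv d₀
    · subst h2
      unfold permR
      rw [L.rv_rv, if_pos rfl, if_neg (L.rv_ne d₀), if_pos rfl, Equiv.symm_symm]
    · have h3 : L.rv d ≠ d₀ := fun h => h2 (by rw [← h, L.rv_rv])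
      have h4 : L.rv d ≠ L.rv d₀ := fun h => h1 (hon_rv_inj L h)
      rw [ringk_other L s h1 h2, ringk_other L s h3 h4]
      rfl

/-- the kit of copies of `L`, joined along `d₀` by the permutation `s` -/
noncomputable def permKt (L : LS V D T K) (d₀ : D) {Q : Type} [Finite Q] (s : Equiv.Perm Q) :
    Kt L where
  Q := Q
  fin := inferInstance
  R := permR L d₀ s
  R_rv := perm_rv L d₀ s

theorem bridge_img [Finite D] (hl : ∀ d, L.tl d ≠ L.hd d) {W Δ : Type} [Finite W] [Finite Δ]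
    {N : Net L W Δ} {f : W → V} {e : Δ → V} (h : EL N ∅ f e) {A : Set W} {δ₀ : Δ}
    (h1 : N.tl δ₀ ∈ A) (h2 : N.hd δ₀ ∉ A) (h3 : ∀ δ, N.tl δ ∈ A → N.hd δ ∉ A → δ = δ₀) :
    ¬ CutV L 2 (evt N f e δ₀) := by
  classical
  let a : V → ℤ := fun x => ({w | w ∈ A ∧ f w = x}.ncard : ℤ)
  -- the darts inside and the darts which leave
  let mi : T → V → V → Set Δ := fun t x y =>
    {δ | N.tl δ ∈ A ∧ N.hd δ ∈ A ∧ N.ty δ = t ∧ f (N.tl δ) = x ∧ e δ = y}
  let mo : T → V → V → Set Δ := fun t x y =>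
    {δ | N.tl δ ∈ A ∧ N.hd δ ∉ A ∧ N.ty δ = t ∧ f (N.tl δ) = x ∧ e δ = y}
  have hcount : ∀ t x y, (L.M t x y : ℤ) * a x = ((mi t x y).ncard : ℤ) + (mo t x y).ncard := by
    intro t x y
    have h4 := flow_count h (fun w => w ∈ A) t x y True
    unfold nq at h4
    have h5 : {w | (w ∈ A) = True ∧ f w = x} = {w | w ∈ A ∧ f w = x} := by
      ext w
      simp
    rw [h5] at h4
    change (L.M t x y : ℤ) * ({w | w ∈ A ∧ f w = x}.ncard : ℤ) = _
    rw [← h4]
    have h6 : {δ | N.ty δ = t ∧ (N.tl δ ∈ A) = True ∧ f (N.tl δ) = x ∧ e δ = y} =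
        mi t x y ∪ mo t x y := by
      ext δ
      constructor
      · rintro ⟨b1, b2, b3, b4⟩
        have b2' : N.tl δ ∈ A := of_eq_true b2
        by_cases hh : N.hd δ ∈ A
        · exact Or.inl ⟨b2', hh, b1, b3, b4⟩
        · exact Or.inr ⟨b2', hh, b1, b3, b4⟩
      · rintro (⟨b2, _, b1, b3, b4⟩ | ⟨b2, _, b1, b3, b4⟩)
        · exact ⟨b1, eq_true b2, b3, b4⟩
        · exact ⟨b1, eq_true b2, b3, b4⟩
    have h7 : Disjoint (mi t x y) (mo t x y) := by
      rw [Set.disjoint_left]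
      rintro δ ⟨_, c1, _⟩ ⟨_, c2, _⟩
      exact c2 c1
    rw [h6, Set.ncard_union_eq h7 (Set.toFinite _) (Set.toFinite _)]
    push_cast
    ring
  have hmi : ∀ t x y, (mi (L.bar t) y x).ncard = (mi t x y).ncard := by
    intro t x y
    refine Set.ncard_congr (fun δ _ => N.rv δ) ?_ ?_ ?_
    · rintro δ ⟨b1, b2, b3, b4, b5⟩
      refine ⟨b2, ?_, ?_, ?_, ?_⟩
      · rw [hon_nhd_rv]
        exact b1
      · rw [N.ty_rv, b3, L.bar_bar]
      · rw [hon_f_hd h, b5]
      · rw [hon_e_rv h, b4]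
    · intro δ δ' _ _ h4
      exact hon_nrv_inj N h4
    · rintro δ ⟨b1, b2, b3, b4, b5⟩
      refine ⟨N.rv δ, ⟨b2, ?_, ?_, ?_, ?_⟩, N.rv_rv δ⟩
      · rw [hon_nhd_rv]
        exact b1
      · rw [N.ty_rv, b3]
      · rw [hon_f_hd h, b5]
      · rw [hon_e_rv h, b4]
  have hflow : ∀ t x y, (L.M t x y : ℤ) * (a x - a y) =
      ((mo t x y).ncard : ℤ) - (mo (L.bar t) y x).ncard := by
    intro t x y
    have h4 := hcount t x y
    have h5 := hcount (L.bar t) y x
    rw [M_bar, hmi] at h5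
    rw [mul_sub, h4, h5]
    ring
  have hmo1 : ∀ t x y, (mo t x y).ncard ≤ 1 := by
    intro t x y
    rw [Set.ncard_le_one (Set.toFinite _)]
    rintro δ ⟨b1, b2, -⟩ δ' ⟨b1', b2', -⟩
    rw [h3 δ b1 b2, h3 δ' b1' b2']
  have hmo2 : ∀ t x y, 0 < (mo t x y).ncard → N.ty δ₀ = t ∧ f (N.tl δ₀) = x ∧ e δ₀ = y := by
    intro t x y h4
    obtain ⟨δ, b1, b2, b3⟩ := (Set.ncard_pos (Set.toFinite _)).1 h4
    rw [h3 δ b1 b2] at b3
    exact b3
  set x₁ := f (N.tl δ₀) with hx₁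
  set y₁ := e δ₀ with hy₁
  set t₁ := N.ty δ₀ with ht₁
  have hM1 : 0 < L.M t₁ x₁ y₁ := by
    rw [hx₁, ← h.star (N.tl δ₀) t₁ y₁]
    rw [Set.ncard_pos (Set.toFinite _)]
    exact ⟨δ₀, rfl, rfl, rfl⟩
  have hne : x₁ ≠ y₁ := by
    obtain ⟨d, b1, -, b3⟩ := (Set.ncard_pos (Set.toFinite _)).1 hM1
    rw [← b1, ← b3]
    exact hl d
  have hmo3 : (mo t₁ x₁ y₁).ncard = 1 := by
    refine le_antisymm (hmo1 _ _ _) ?_
    have : 0 < (mo t₁ x₁ y₁).ncard := by
      rw [Set.ncard_pos (Set.toFinite _)]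
      exact ⟨δ₀, h1, h2, rfl, rfl, rfl⟩
    exact this
  have hmo4 : (mo (L.bar t₁) y₁ x₁).ncard = 0 := by
    by_contra h4
    have h5 := hmo2 _ _ _ (Nat.pos_of_ne_zero h4)
    exact hne h5.2.1
  have h5 : (L.M t₁ x₁ y₁ : ℤ) * (a x₁ - a y₁) = 1 := by
    rw [hflow, hmo3, hmo4]
    norm_num
  have hM1' : (L.M t₁ x₁ y₁ : ℤ) = 1 := by
    have h6 : (L.M t₁ x₁ y₁ : ℤ) ∣ 1 := ⟨_, h5.symm⟩
    exact Int.eq_one_of_dvd_one (by positivity) h6
  have ha : a x₁ = a y₁ + 1 := by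
    rw [hM1'] at h5
    linarith
  intro hcut
  have h6 := hcut {v | a x₁ ≤ a v} (le_refl (a x₁)) (by
    intro y hy hy'
    have hy1 : y = y₁ := hy
    rw [hy1] at hy'
    have hy2 : a x₁ ≤ a y₁ := hy'
    linarith)
  have h7 : bd L {v | a x₁ ≤ a v} ⊆ {d | L.tl d = x₁ ∧ L.ty d = t₁ ∧ L.hd d = y₁} := by
    rintro d ⟨b1, b2⟩
    have b1' : a x₁ ≤ a (L.tl d) := b1
    have b2' : a (L.hd d) < a x₁ := not_le.1 b2
    have b3 := hflow (L.ty d) (L.tl d) (L.hd d)
    have b4 : (0 : ℤ) < L.M (L.ty d) (L.tl d) (L.hd d) := by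
      have : 0 < L.M (L.ty d) (L.tl d) (L.hd d) := by
        unfold LS.M
        rw [Set.ncard_pos (Set.toFinite _)]
        exact ⟨d, rfl, rfl, rfl⟩
      exact_mod_cast this
    have b5 : (0 : ℤ) < (L.M (L.ty d) (L.tl d) (L.hd d) : ℤ) * (a (L.tl d) - a (L.hd d)) :=
      mul_pos b4 (by linarith)
    have b6 : 0 < (mo (L.ty d) (L.tl d) (L.hd d)).ncard := by
      by_contra h8
      have h9 : (mo (L.ty d) (L.tl d) (L.hd d)).ncard = 0 := by omega
      rw [h9] at b3
      have h10 : (0 : ℤ) ≤ ((mo (L.bar (L.ty d)) (L.hd d) (L.tl d)).ncard : ℤ) := by positivity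
      push_cast at b3
      linarith
    obtain ⟨c1, c2, c3⟩ := hmo2 _ _ _ b6
    exact ⟨c2.symm, c1.symm, c3.symm⟩
  have h8 : (bd L {v | a x₁ ≤ a v}).ncard ≤ L.M t₁ x₁ y₁ :=
    Set.ncard_le_ncard h7 (Set.toFinite _)
  have h9 : L.M t₁ x₁ y₁ = 1 := by exact_mod_cast hM1'
  omega

variable [Finite V] [Finite D] {d₀ : D} {Q : Type} [Finite Q] {s : Equiv.Perm Q}

theorem ring_bridge (hl : ∀ d, L.tl d ≠ L.hd d) (h2 : Cut L 2 (L.tl d₀) {L.hd d₀})
    {f : V × Q → V} {e : D × Q → V} (h : EL (permKt L d₀ s).net ∅ f e) {d : D}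
    (hd : ¬ Cut L 2 (L.tl d) {L.hd d}) (q : Q) :
    ¬ CutV L 2 (evt (permKt L d₀ s).net f e (d, q)) := by
  have h3 : d ≠ d₀ := by
    rintro rfl
    exact hd h2
  have h4 : d ≠ L.rv d₀ := by
    rintro rfl
    rw [hon_hd_rv] at hd
    exact hd (cut_symm h2)
  unfold Cut at hd
  push Not at hd
  obtain ⟨S, hS1, hS2, hS3⟩ := hd
  have hS2' : L.hd d ∉ S := hS2 _ rfl
  have hbd : ∀ d', L.tl d' ∈ S → L.hd d' ∉ S → d' = d := by
    intro d' b1 b2
    by_contra hne
    have h5 : ({d', d} : Set D) ⊆ bd L S := by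
      rintro z (rfl | rfl)
      · exact ⟨b1, b2⟩
      · exact ⟨hS1, hS2'⟩
    have h6 := Set.ncard_le_ncard h5 (Set.toFinite _)
    rw [Set.ncard_pair hne] at h6
    omega
  have hcr : L.tl d₀ ∈ S ↔ L.hd d₀ ∈ S := by
    constructor
    · intro b1
      by_contra b2
      exact h3 (hbd d₀ b1 b2).symm
    · intro b1
      by_contra b2
      have h5 : L.rv d₀ = d := hbd (L.rv d₀) b1 (by
        rw [hon_hd_rv]
        exact b2)
      exact h4 h5.symm
  by_cases hin : L.tl d₀ ∈ S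
  · have hin' := hcr.1 hin
    refine bridge_img hl h (A := {w | w.1 ∈ S ∨ w.2 ≠ q}) (Or.inl hS1) ?_ ?_
    · rintro (b1 | b1)
      · exact hS2' b1
      · apply b1
        change permR L d₀ s d q = q
        rw [ringk_other L s h3 h4]
        rfl
    · rintro ⟨d', q'⟩ b1 b2
      have b3 : L.hd d' ∉ S := fun h5 => b2 (Or.inl h5)
      have b4 : permR L d₀ s d' q' = q := by
        by_contra h5
        exact b2 (Or.inr h5)
      have b5 : d' ≠ d₀ := by
        rintro rfl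
        exact b3 hin'
      have b6 : d' ≠ L.rv d₀ := by
        rintro rfl
        rw [hon_hd_rv] at b3
        exact b3 hin
      rw [ringk_other L s b5 b6] at b4
      have b7 : q' = q := b4
      subst b7
      have b8 : L.tl d' ∈ S := by
        rcases b1 with b1 | b1
        · exact b1
        · exact absurd rfl b1
      rw [hbd d' b8 b3]
  · have hin' : L.hd d₀ ∉ S := fun h5 => hin (hcr.2 h5)
    refine bridge_img hl h (A := {w | w.1 ∈ S ∧ w.2 = q}) ⟨hS1, rfl⟩ ?_ ?_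
    · rintro ⟨b1, -⟩
      exact hS2' b1
    · rintro ⟨d', q'⟩ ⟨b1, b2⟩ b3
      have b1' : L.tl d' ∈ S := b1
      have b2' : q' = q := b2
      subst b2'
      have b5 : d' ≠ d₀ := by
        rintro rfl
        exact hin b1'
      have b6 : d' ≠ L.rv d₀ := by
        rintro rfl
        exact hin' b1'
      have b7 : L.hd d' ∉ S := by
        intro h5
        apply b3
        refine ⟨h5, ?_⟩
        change permR L d₀ s d' q' = q'
        rw [ringk_other L s b5 b6]
        rfl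
      rw [hbd d' b1' b7]

/-- counting the darts of a net by their values -/
theorem ringk_cnt (hc : LConn L) {W Δ : Type} [Finite W] [Finite Δ] {N : Net L W Δ} {f : W → V}
    {e : Δ → V} (h : EL N ∅ f e) (v₀ : V) {m : ℕ} (hm : Nat.card W = Nat.card V * m)
    (P : V × V → Prop) :
    {δ | P (evt N f e δ)}.ncard = {d | P (L.tl d, L.hd d)}.ncard * m := by
  classical
  have := Fintype.ofFinite V
  have := Fintype.ofFinite D
  have := Fintype.ofFinite W
  have := Fintype.ofFinite Δ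
  have hset : ∀ x, {w | f w = x}.ncard = (Finset.univ.filter fun w : W => f w = x).card := by
    intro x
    rw [← Set.ncard_coe_finset]
    congr 1
    ext w
    simp
  have hfib : ∀ x, (Finset.univ.filter fun w : W => f w = x).card = m := by
    intro x
    have h4 : ∀ y, (Finset.univ.filter fun w : W => f w = y).card =
        (Finset.univ.filter fun w : W => f w = x).card := by
      intro y
      rw [← hset, ← hset]
      exact el_const hc h y x
    have h6 := Finset.card_eq_sum_card_fiberwise (f := f) (s := (Finset.univ : Finset W))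
      (t := (Finset.univ : Finset V)) (fun w _ => Finset.mem_coe.2 (Finset.mem_univ _))
    rw [Finset.sum_congr rfl (fun y _ => h4 y), Finset.sum_const, smul_eq_mul, Finset.card_univ,
      Finset.card_univ, ← Nat.card_eq_fintype_card, ← Nat.card_eq_fintype_card, hm] at h6
    have h7 : 0 < Nat.card V := Nat.card_pos_iff.2 ⟨⟨v₀⟩, inferInstance⟩
    exact (Nat.eq_of_mul_eq_mul_left h7 h6).symm
  obtain ⟨Ψ, hΨ⟩ := hon_of_el h
  have hev : ∀ δ, evt N f e δ = (L.tl (Ψ δ), L.hd (Ψ δ)) := by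
    intro δ
    unfold evt
    rw [hΨ.tl, h.unc δ (Set.notMem_empty _) (Set.notMem_empty _)]
    unfold LS.hd
    rw [← hΨ.rv, hΨ.tl]
    rfl
  have hfd : ∀ d, (Finset.univ.filter fun δ : Δ => Ψ δ = d).card = m := by
    intro d
    rw [← hfib (L.tl d)]
    refine Finset.card_bij (fun δ _ => N.tl δ) ?_ ?_ ?_
    · intro δ hδ
      have h4 : Ψ δ = d := (Finset.mem_filter.1 hδ).2
      refine Finset.mem_filter.2 ⟨Finset.mem_univ _, ?_⟩
      rw [← hΨ.tl, h4]
    · intro δ hδ δ' hδ' h5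
      have h4 : Ψ δ = d := (Finset.mem_filter.1 hδ).2
      have h4' : Ψ δ' = d := (Finset.mem_filter.1 hδ').2
      exact (hΨ.bij _).injOn h5 rfl (h4.trans h4'.symm)
    · intro w hw
      have h4 : f w = L.tl d := (Finset.mem_filter.1 hw).2
      obtain ⟨δ, b1, b2⟩ := (hΨ.bij w).surjOn (show d ∈ {d | L.tl d = f w} from h4.symm)
      exact ⟨δ, Finset.mem_filter.2 ⟨Finset.mem_univ _, b2⟩, b1⟩
  let B : Finset D := Finset.univ.filter fun d => P (L.tl d, L.hd d)
  have h4 : (Finset.univ.filter fun δ : Δ => Ψ δ ∈ B).card = B.card * m := by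
    have h6 := Finset.card_eq_sum_card_fiberwise (f := Ψ)
      (s := Finset.univ.filter fun δ : Δ => Ψ δ ∈ B) (t := B) (by
        intro δ hδ
        exact Finset.mem_coe.2 (Finset.mem_filter.1 hδ).2)
    rw [h6, Finset.sum_congr rfl (g := fun _ => m), Finset.sum_const, smul_eq_mul]
    intro d hd
    rw [← hfd d, Finset.filter_filter]
    congr 1
    ext δ
    simp only [Finset.mem_filter, Finset.mem_univ, true_and]
    constructor
    · exact fun h7 => h7.2
    · intro h7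
      exact ⟨by rw [h7]; exact hd, h7⟩
  have h5 : {δ | P (evt N f e δ)} = ((Finset.univ.filter fun δ : Δ => Ψ δ ∈ B : Finset Δ) : Set Δ) := by
    ext δ
    simp only [Set.mem_ofPred_eq, Finset.coe_filter, Finset.mem_univ, true_and, B,
      Finset.mem_filter]
    rw [hev]
  have h6 : {d | P (L.tl d, L.hd d)} = (B : Set D) := by
    ext d
    simp [B]
  rw [h5, h6, Set.ncard_coe_finset, Set.ncard_coe_finset, h4]

theorem ring_nb (hc : LConn L) (hl : ∀ d, L.tl d ≠ L.hd d) (h2 : Cut L 2 (L.tl d₀) {L.hd d₀})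
    {f : V × Q → V} {e : D × Q → V} (h : EL (permKt L d₀ s).net ∅ f e) (q : Q) :
    CutV L 2 (evt (permKt L d₀ s).net f e (d₀, q)) := by
  have h3 := ringk_cnt (W := V × Q) (Δ := D × Q) hc h (L.tl d₀) (m := Nat.card Q)
    (Nat.card_prod V Q) (fun α => ¬ CutV L 2 α)
  have h5 : {d | ¬ CutV L 2 (L.tl d, L.hd d)} ×ˢ (Set.univ : Set Q) ⊆
      {δ : D × Q | ¬ CutV L 2 (evt (permKt L d₀ s).net f e δ)} := by
    rintro ⟨d, q'⟩ ⟨hd, -⟩
    exact ring_bridge hl h2 h hd q'
  have h6 : {d | ¬ CutV L 2 (L.tl d, L.hd d)} ×ˢ (Set.univ : Set Q) =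
      {δ : D × Q | ¬ CutV L 2 (evt (permKt L d₀ s).net f e δ)} := by
    refine Set.eq_of_subset_of_ncard_le h5 ?_ (Set.toFinite _)
    rw [Set.ncard_prod, Set.ncard_univ]
    exact h3.le
  by_contra h7
  have h8 : (d₀, q) ∈ {d | ¬ CutV L 2 (L.tl d, L.hd d)} ×ˢ (Set.univ : Set Q) := by
    rw [h6]
    exact h7
  exact h8.1 h2

end Pool.Agent.H24.GI
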