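import Pool.Agent.H24.GI.RingK

/-!
# JOB GI-5: the values of a cut ring

`exists_ring`: `k = permKt L d₀ s` with `Q = Fin (N + 1)`, `s = finRotate (N + 1)`, `Nat.card (V × V) < N`, `q = N` (`s N = 0`). Let
`f, e` be a labelling which is cut at `(d₀, N)`. For the copy `i` let `a i = evt (d₀, i) = (f (tl d₀, i), e (d₀, i))`,
`b i = (e (rv d₀, i), f (hd d₀, i))`; `b (s i) = evh (d₀, i)`. So `evt (d₀, N) = a N`, `evh (d₀, N) = b 0`, and `a i = b (i + 1)` for
`i < N` (not cut).
`ring_copy`: `fun w => f (w.1, i)`, `fun δ => e (δ.1, i)` is a labelling of the net of `unitKt L`, cut at `(d₀, ())`, with the values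
`evt = a i`, `evh = b i` (all other darts of the copy stay in the copy and are not cut). If `CutV 2` holds for one of them
then `a i = b i` (`one_exact`), the labelling is not cut (`one_el`), so `x ↦ f (x, i)` is an automorphism (`aut_of_el`), and
`a i = (f (tl d₀, i), f (hd d₀, i))`.
(1) Suppose `CutV 2 (a i)` or `CutV 2 (b i)` for some `i`. Then `a i = b i`, and `b (i + 1) = a i` (`i < N`), `a (i - 1) = b i` (`0 < i`)
satisfy `CutV 2` too; by induction in both directions `a j = b j = a i` for all `j`. So `evt (d₀, N) = a N = b 0 = evh (d₀, N)`,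
and it is the image of `(tl d₀, hd d₀)` under the automorphism `x ↦ f (x, N)`.
(2) Otherwise `¬ CutV 2 (a i)` for all `i ≤ N`. As `Nat.card (V × V) < N` there are `i < j < N` with `a i = a j`. Let
`Q' = Fin (j - i)` (write `j - i = l + 1`, `Q' = Fin (l + 1)`), `s' = finRotate (l + 1)`, `F (v, m) = f (v, i + 1 + m)`,
`E (d, m) = e (d, i + 1 + m)`. This is a labelling of `permKt L d₀ s'` without cuts: `unc` for `(d₀, m)`, `m < l`: the dart
`(d₀, i + 1 + m)` is not cut; for `m = l`: `E (d₀, l) = e (d₀, j)`, which is `(a j).2 = (a i).2 = (b (i + 1)).2 = f (hd d₀, i + 1) =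
F (hd d₀, 0)`; for `(rv d₀, 0)`: `e (rv d₀, i + 1) = (b (i + 1)).1 = (a i).1 = (a j).1 = f (tl d₀, j) = F (tl d₀, l)`. The value of
`(d₀, l)` is `a j`, contradiction to `ring_nb`.
-/

namespace Pool.Agent.H24.GI

open Pool.Agent.H24.GG Pool.Agent.H24.GH

variable {V D T K : Type} {L : LS V D T K} [Finite V] [Finite D] [Finite T]

omit [Finite V] [Finite D] [Finite T] in
private theorem ringv_star {k k' : Kt L} (φ : k'.Q → k.Q) (e : D × k.Q → V) (w : V × k'.Q)
    (t : T) (y : V) :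
    {δ : D × k'.Q | k'.net.tl δ = w ∧ k'.net.ty δ = t ∧ e (δ.1, φ δ.2) = y}.ncard =
      {δ | k.net.tl δ = (w.1, φ w.2) ∧ k.net.ty δ = t ∧ e δ = y}.ncard := by
  obtain ⟨x, m⟩ := w
  refine Set.ncard_congr (fun δ _ => ((δ.1, φ δ.2) : D × k.Q)) ?_ ?_ ?_
  · rintro ⟨d, m'⟩ ⟨h1, h2, h3⟩
    have h4 : (L.tl d, m') = (x, m) := h1
    have h5 : L.tl d = x := congrArg Prod.fst h4
    have h6 : m' = m := congrArg Prod.snd h4
    refine ⟨?_, h2, h3⟩
    change (L.tl d, φ m') = (x, φ m)
    rw [h5, h6]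
  · rintro ⟨d, m₁⟩ ⟨d', m₂⟩ ⟨h1, -⟩ ⟨h2, -⟩ h3
    have h4 : d = d' := congrArg Prod.fst h3
    have h5 : m₁ = m := congrArg Prod.snd h1
    have h6 : m₂ = m := congrArg Prod.snd h2
    rw [h4, h5, h6]
  · rintro ⟨d, q⟩ ⟨h1, h2, h3⟩
    have h4 : (L.tl d, q) = (x, φ m) := h1
    have h5 : L.tl d = x := congrArg Prod.fst h4
    have h6 : q = φ m := congrArg Prod.snd h4
    subst h6
    refine ⟨(d, m), ⟨?_, h2, h3⟩, rfl⟩
    change (L.tl d, m) = (x, m)
    rw [h5]

omit [Finite V] [Finite D] [Finite T] in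
private theorem ringv_R0 (d₀ : D) {Q : Type} (s : Equiv.Perm Q) : permR L d₀ s d₀ = s := by
  unfold permR
  rw [if_pos rfl]

omit [Finite V] [Finite D] [Finite T] in
private theorem ringv_R1 (d₀ : D) {Q : Type} (s : Equiv.Perm Q) :
    permR L d₀ s (L.rv d₀) = s.symm := by
  unfold permR
  rw [if_neg (L.rv_ne d₀), if_pos rfl]

omit [Finite V] [Finite D] [Finite T] in
private theorem ringv_R2 {d₀ : D} {Q : Type} (s : Equiv.Perm Q) {d : D} (h1 : d ≠ d₀)
    (h2 : d ≠ L.rv d₀) : permR L d₀ s d = Equiv.refl _ := by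
  unfold permR
  rw [if_neg h1, if_neg h2]

theorem ring_copy {d₀ : D} {Q : Type} [Finite Q] {s : Equiv.Perm Q} {C : Set (D × Q)}
    (hC : ∀ δ ∈ C, δ.1 = d₀) {f : V × Q → V} {e : D × Q → V}
    (h : EL (permKt L d₀ s).net C f e) (q : Q) :
    EL (unitKt L).net {(d₀, ())} (fun w => f (w.1, q)) (fun δ => e (δ.1, q)) := by
  refine ⟨fun w => h.cls (w.1, q), ?_, ?_⟩
  · intro w t y
    exact (ringv_star (k := permKt L d₀ s) (k' := unitKt L) (fun _ => q) e w t y).trans
      (h.star (w.1, q) t y)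
  · rintro ⟨d, u⟩ h1 h2
    have h3 : d ≠ d₀ := by
      rintro rfl
      exact h1 rfl
    have h4 : L.rv d ≠ d₀ := by
      intro h5
      apply h2
      change (L.rv d, ()) = (d₀, ())
      rw [h5]
    have h4' : d ≠ L.rv d₀ := by
      intro h5
      apply h4
      rw [h5, L.rv_rv]
    have h6 := h.unc (d, q) (fun hx => h3 (hC _ hx)) (fun hx => h4 (hC _ hx))
    have h7 : (permKt L d₀ s).net.hd (d, q) = (L.hd d, q) := by
      change (L.tl (L.rv d), permR L d₀ s d q) = (L.hd d, q)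
      rw [ringv_R2 s h3 h4']
      rfl
    rw [h7] at h6
    exact h6

omit [Finite V] [Finite D] [Finite T] in
private theorem ringv_link {d₀ : D} {Q : Type} [Finite Q] {s : Equiv.Perm Q} {q : Q}
    {f : V × Q → V} {e : D × Q → V} (h : EL (permKt L d₀ s).net {(d₀, q)} f e) {i : Q}
    (hi : i ≠ q) :
    e (d₀, i) = f (L.hd d₀, s i) ∧ e (L.rv d₀, s i) = f (L.tl d₀, i) := by
  have hr : (permKt L d₀ s).net.rv (d₀, i) = (L.rv d₀, s i) := by
    change (L.rv d₀, permR L d₀ s d₀ i) = (L.rv d₀, s i)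
    rw [ringv_R0]
  have hr' : (permKt L d₀ s).net.rv (L.rv d₀, s i) = (d₀, i) := by
    have h0 := (permKt L d₀ s).net.rv_rv (d₀, i)
    rw [hr] at h0
    exact h0
  have hn1 : ((d₀, i) : D × Q) ∉ ({(d₀, q)} : Set (D × Q)) :=
    fun hx => hi (congrArg Prod.snd hx)
  have hn2 : ((L.rv d₀, s i) : D × Q) ∉ ({(d₀, q)} : Set (D × Q)) :=
    fun hx => L.rv_ne d₀ (congrArg Prod.fst hx)
  constructor
  · have h1 := h.unc (d₀, i) hn1 (by rw [hr]; exact hn2)
    have h2 : (permKt L d₀ s).net.hd (d₀, i) = (L.hd d₀, s i) := by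
      unfold Net.hd
      rw [hr]
      rfl
    rw [h2] at h1
    exact h1
  · have h1 := h.unc (L.rv d₀, s i) hn2 (by rw [hr']; exact hn1)
    have h2 : (permKt L d₀ s).net.hd (L.rv d₀, s i) = (L.tl d₀, i) := by
      unfold Net.hd
      rw [hr']
      rfl
    rw [h2] at h1
    exact h1

private theorem ringv_good (hc : LConn L) (hl : ∀ d, L.tl d ≠ L.hd d) {d₀ : D} {Q : Type}
    [Finite Q] {s : Equiv.Perm Q} {q : Q} {f : V × Q → V} {e : D × Q → V}
    (h : EL (permKt L d₀ s).net {(d₀, q)} f e) (i : Q)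
    (hv : CutV L 2 (f (L.tl d₀, i), e (d₀, i)) ∨
      CutV L 2 (e (L.rv d₀, i), f (L.hd d₀, i))) :
    (f (L.tl d₀, i), e (d₀, i)) = (e (L.rv d₀, i), f (L.hd d₀, i)) ∧
      Aut L (fun x => f (x, i)) ∧ e (d₀, i) = f (L.hd d₀, i) := by
  have h1 := ring_copy (C := {(d₀, q)}) (fun δ hδ => congrArg Prod.fst hδ) h i
  have h2 := one_exact hc hl h1 hv
  have h3 := one_el hc hl h1 hv
  exact ⟨h2, aut_of_el hc h3, h3.unc (d₀, ()) (Set.notMem_empty _) (Set.notMem_empty _)⟩

omit [Finite T] in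
private theorem ringv_two (hc : LConn L) (hl : ∀ d, L.tl d ≠ L.hd d) {d₀ : D}
    (h2 : Cut L 2 (L.tl d₀) {L.hd d₀}) {N : ℕ} {f : V × Fin (N + 1) → V}
    {e : D × Fin (N + 1) → V}
    (h : EL (permKt L d₀ (finRotate (N + 1))).net {(d₀, Fin.last N)} f e) {i j : ℕ}
    (hij : i < j) (hj : j < N)
    (heq : (f (L.tl d₀, (⟨i, by omega⟩ : Fin (N + 1))), e (d₀, (⟨i, by omega⟩ : Fin (N + 1)))) =
      (f (L.tl d₀, (⟨j, by omega⟩ : Fin (N + 1))), e (d₀, (⟨j, by omega⟩ : Fin (N + 1))))) :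
    CutV L 2 (f (L.tl d₀, (⟨j, by omega⟩ : Fin (N + 1))),
      e (d₀, (⟨j, by omega⟩ : Fin (N + 1)))) := by
  obtain ⟨l, rfl⟩ : ∃ l, j = i + 1 + l := ⟨j - i - 1, by omega⟩
  have hb : ∀ m : Fin (l + 1), i + 1 + m.1 < N + 1 := fun m => by
    have := m.2
    omega
  obtain ⟨φ, hφ⟩ : ∃ φ : Fin (l + 1) → Fin (N + 1), ∀ m, φ m = ⟨i + 1 + m.1, hb m⟩ :=
    ⟨fun m => ⟨i + 1 + m.1, hb m⟩, fun _ => rfl⟩
  have hφl : φ (Fin.last l) = ⟨i + 1 + l, by omega⟩ := hφ _
  have key : ∀ m : Fin (l + 1), e (d₀, φ m) = f (L.hd d₀, φ (finRotate (l + 1) m)) ∧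
      e (L.rv d₀, φ (finRotate (l + 1) m)) = f (L.tl d₀, φ m) := by
    intro m
    by_cases hm : m = Fin.last l
    · subst hm
      rw [finRotate_last, hφl]
      have hne : (⟨i, by omega⟩ : Fin (N + 1)) ≠ Fin.last N := by
        intro hx
        have := congrArg Fin.val hx
        simp only [Fin.val_last] at this
        omega
      have hφ0 : finRotate (N + 1) ⟨i, by omega⟩ = φ 0 := by
        apply Fin.ext
        rw [coe_finRotate_of_ne_last hne, hφ]
        simp
      have hlk := ringv_link h hne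
      rw [hφ0] at hlk
      exact ⟨(congrArg Prod.snd heq).symm.trans hlk.1, hlk.2.trans (congrArg Prod.fst heq)⟩
    · have hne : φ m ≠ Fin.last N := by
        intro hx
        rw [hφ] at hx
        have := congrArg Fin.val hx
        simp only [Fin.val_last] at this
        have := m.2
        omega
      have hlk := ringv_link h hne
      have hφs : finRotate (N + 1) (φ m) = φ (finRotate (l + 1) m) := by
        apply Fin.ext
        rw [coe_finRotate_of_ne_last hne, hφ, hφ]
        change i + 1 + m.1 + 1 = i + 1 + (finRotate (l + 1) m).1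
        rw [coe_finRotate_of_ne_last hm]
        omega
      rw [hφs] at hlk
      exact hlk
  have hEL : EL (permKt L d₀ (finRotate (l + 1))).net ∅
      (fun w : V × Fin (l + 1) => f (w.1, φ w.2)) (fun δ : D × Fin (l + 1) => e (δ.1, φ δ.2)) := by
    refine ⟨fun w => h.cls (w.1, φ w.2), ?_, ?_⟩
    · intro w t y
      exact (ringv_star (k := permKt L d₀ (finRotate (N + 1)))
        (k' := permKt L d₀ (finRotate (l + 1))) φ e w t y).trans (h.star (w.1, φ w.2) t y)
    · rintro ⟨d, (m : Fin (l + 1))⟩ - -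
      by_cases hd : d = d₀
      · subst hd
        have h3 : (permKt L d (finRotate (l + 1))).net.hd (d, m) =
            (L.hd d, finRotate (l + 1) m) := by
          change (L.tl (L.rv d), permR L d (finRotate (l + 1)) d m) =
            (L.hd d, finRotate (l + 1) m)
          rw [ringv_R0]
          rfl
        rw [h3]
        exact (key m).1
      · by_cases hd' : d = L.rv d₀
        · subst hd'
          have h3 : (permKt L d₀ (finRotate (l + 1))).net.hd (L.rv d₀, m) =
              (L.tl d₀, (finRotate (l + 1)).symm m) := by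
            change (L.tl (L.rv (L.rv d₀)), permR L d₀ (finRotate (l + 1)) (L.rv d₀) m) =
              (L.tl d₀, (finRotate (l + 1)).symm m)
            rw [ringv_R1, L.rv_rv]
          rw [h3]
          have h4 := (key ((finRotate (l + 1)).symm m)).2
          rw [Equiv.apply_symm_apply] at h4
          exact h4
        · have h3 : (permKt L d₀ (finRotate (l + 1))).net.hd (d, m) = (L.hd d, m) := by
            change (L.tl (L.rv d), permR L d₀ (finRotate (l + 1)) d m) = (L.hd d, m)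
            rw [ringv_R2 _ hd hd']
            rfl
          rw [h3]
          have h5 : L.rv d ≠ d₀ := by
            intro hx
            apply hd'
            rw [← hx, L.rv_rv]
          have h4 := h.unc (d, φ m) (fun hx => hd (congrArg Prod.fst hx))
            (fun hx => h5 (congrArg Prod.fst hx))
          have h6 : (permKt L d₀ (finRotate (N + 1))).net.hd (d, φ m) = (L.hd d, φ m) := by
            change (L.tl (L.rv d), permR L d₀ (finRotate (N + 1)) d (φ m)) = (L.hd d, φ m)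
            rw [ringv_R2 _ hd hd']
            rfl
          rw [h6] at h4
          exact h4
  have hfin := ring_nb hc hl h2 hEL (Fin.last l)
  have hfin' : CutV L 2 (f (L.tl d₀, φ (Fin.last l)), e (d₀, φ (Fin.last l))) := hfin
  rw [hφl] at hfin'
  exact hfin'

omit [Finite V] [Finite D] [Finite T] in
private theorem ringv_step {d₀ : D} {N : ℕ} {f : V × Fin (N + 1) → V}
    {e : D × Fin (N + 1) → V}
    (h : EL (permKt L d₀ (finRotate (N + 1))).net {(d₀, Fin.last N)} f e) (i : Fin N) :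
    (f (L.tl d₀, i.castSucc), e (d₀, i.castSucc)) =
      (e (L.rv d₀, i.succ), f (L.hd d₀, i.succ)) := by
  have hne : i.castSucc ≠ Fin.last N := (Fin.castSucc_lt_last i).ne
  have hs : finRotate (N + 1) i.castSucc = i.succ := by
    apply Fin.ext
    rw [coe_finRotate_of_ne_last hne]
    simp
  have hlk := ringv_link h hne
  rw [hs] at hlk
  rw [hlk.1, hlk.2]

private theorem ringv_zero (hc : LConn L) (hl : ∀ d, L.tl d ≠ L.hd d) {d₀ : D}
    (h2 : Cut L 2 (L.tl d₀) {L.hd d₀}) {N : ℕ} (hN : Nat.card (V × V) < N)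
    {f : V × Fin (N + 1) → V} {e : D × Fin (N + 1) → V}
    (h : EL (permKt L d₀ (finRotate (N + 1))).net {(d₀, Fin.last N)} f e) :
    CutV L 2 (f (L.tl d₀, 0), e (d₀, 0)) := by
  by_contra h0
  have hall : ∀ i : Fin (N + 1), ¬ CutV L 2 (f (L.tl d₀, i), e (d₀, i)) := by
    intro i
    induction i using Fin.induction with
    | zero => exact h0
    | succ i ih =>
      intro hv
      apply ih
      rw [ringv_step h i, ← (ringv_good hc hl h i.succ (Or.inl hv)).1]
      exact hv
  have hex : ∃ i j : Fin N, i ≠ j ∧ (f (L.tl d₀, i.castSucc), e (d₀, i.castSucc)) =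
      (f (L.tl d₀, j.castSucc), e (d₀, j.castSucc)) := by
    by_contra hno
    have hinj : Function.Injective
        (fun i : Fin N => ((f (L.tl d₀, i.castSucc), e (d₀, i.castSucc)) : V × V)) := by
      intro i j hij
      by_contra hne
      exact hno ⟨i, j, hne, hij⟩
    have hle := Nat.card_le_card_of_injective _ hinj
    rw [Nat.card_fin] at hle
    omega
  obtain ⟨i, j, hne, hij⟩ := hex
  rcases lt_or_gt_of_ne hne with hlt | hlt
  · exact hall j.castSucc (ringv_two hc hl h2 h hlt j.2 hij)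
  · exact hall i.castSucc (ringv_two hc hl h2 h hlt i.2 hij.symm)

private theorem ringv_all (hc : LConn L) (hl : ∀ d, L.tl d ≠ L.hd d) {d₀ : D}
    {N : ℕ} {f : V × Fin (N + 1) → V} {e : D × Fin (N + 1) → V}
    (h : EL (permKt L d₀ (finRotate (N + 1))).net {(d₀, Fin.last N)} f e)
    (h0 : CutV L 2 (f (L.tl d₀, 0), e (d₀, 0))) (i : Fin (N + 1)) :
    (f (L.tl d₀, i), e (d₀, i)) = (f (L.tl d₀, 0), e (d₀, 0)) := by
  induction i using Fin.induction with
  | zero => rfl
  | succ i ih =>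
    have h1 := ringv_step h i
    have h2 : CutV L 2 (e (L.rv d₀, i.succ), f (L.hd d₀, i.succ)) := by
      rw [← h1, ih]
      exact h0
    rw [(ringv_good hc hl h i.succ (Or.inr h2)).1, ← h1, ih]

private theorem ringv_end (hc : LConn L) (hl : ∀ d, L.tl d ≠ L.hd d) {d₀ : D}
    (h2 : Cut L 2 (L.tl d₀) {L.hd d₀}) {N : ℕ} (hN : Nat.card (V × V) < N)
    {f : V × Fin (N + 1) → V} {e : D × Fin (N + 1) → V}
    (h : EL (permKt L d₀ (finRotate (N + 1))).net {(d₀, Fin.last N)} f e) :
    evt (permKt L d₀ (finRotate (N + 1))).net f e (d₀, Fin.last N) =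
      evh (permKt L d₀ (finRotate (N + 1))).net f e (d₀, Fin.last N) ∧
      ∃ g, Aut L g ∧ evt (permKt L d₀ (finRotate (N + 1))).net f e (d₀, Fin.last N) =
        (g (L.tl d₀), g (L.hd d₀)) := by
  have h0 := ringv_zero hc hl h2 hN h
  have hl' := ringv_all hc hl h h0 (Fin.last N)
  have hgl : CutV L 2 (f (L.tl d₀, Fin.last N), e (d₀, Fin.last N)) := by
    rw [hl']
    exact h0
  obtain ⟨-, haut, he⟩ := ringv_good hc hl h (Fin.last N) (Or.inl hgl)
  have hg0 := (ringv_good hc hl h 0 (Or.inl h0)).1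
  have hev : evh (permKt L d₀ (finRotate (N + 1))).net f e (d₀, Fin.last N) =
      (e (L.rv d₀, 0), f (L.hd d₀, 0)) := by
    have hr : (permKt L d₀ (finRotate (N + 1))).net.rv (d₀, Fin.last N) =
        (L.rv d₀, (0 : Fin (N + 1))) := by
      change (L.rv d₀, permR L d₀ (finRotate (N + 1)) d₀ (Fin.last N)) =
        (L.rv d₀, (0 : Fin (N + 1)))
      rw [ringv_R0, finRotate_last]
    unfold evh Net.hd
    rw [hr]
    rfl
  refine ⟨?_, fun x => f (x, Fin.last N), haut, ?_⟩
  · rw [hev, ← hg0]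
    exact hl'
  · change (f (L.tl d₀, Fin.last N), e (d₀, Fin.last N)) =
      (f (L.tl d₀, Fin.last N), f (L.hd d₀, Fin.last N))
    rw [he]

theorem exists_ring (hc : LConn L) (hl : ∀ d, L.tl d ≠ L.hd d) {d₀ : D}
    (h2 : Cut L 2 (L.tl d₀) {L.hd d₀}) :
    ∃ (k : Kt L) (q : k.Q), ∀ f e, EL k.net {(d₀, q)} f e →
      evt k.net f e (d₀, q) = evh k.net f e (d₀, q) ∧
      ∃ g, Aut L g ∧ evt k.net f e (d₀, q) = (g (L.tl d₀), g (L.hd d₀)) := by
  obtain ⟨N, hN⟩ : ∃ N : ℕ, Nat.card (V × V) < N := ⟨_, Nat.lt_succ_self _⟩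
  refine ⟨permKt L d₀ (finRotate (N + 1)), Fin.last N, ?_⟩
  intro f e h
  exact ringv_end hc hl h2 hN h

end Pool.Agent.H24.GI
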