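import Pool.Agent.H24.GH.OMul

/-!
# JOB GI-10: stars which observe only a property of the ends

`TiesS`: a kit with `m` darts `sd i` of type `τ`; `St` is a property of the values of type `τ`, `Sz` one of the values of type `ζ`. In
every labelling which is cut at all `sd i` exactly `r` of the values `evt` have the property (`s_cnt`). `b1, b2`: if the values are
good then the four properties agree. `rd y`: darts of type `ζ` whose values have the property. Completeness: stars of `x₀`
with the multiplicities `Nv`.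

`ofs_star`: hub variables `Fin m`. Pieces: the star, and for every `i` a piece with `b1, b2`. Slots: `sd i` and `b1` of the piece
`i` have the auxiliary variable `i` (type `τ`, spacer relation `(St α ↔ St β) ∧ Gt α ∧ Gt β`), `b2` of the piece `i` has the hub
variable `i`. See the proof of `of_R` (file `Pool.Agent.H24.GH.OTie`). `sound`: `σ` exchanges the two occurrences of the auxiliary
variable `i`; so `St (b (b1)) ↔ St (a (sd i))`, and the values of `b1` are good; those of `b2` are good by the hypothesis on the hub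
variables. `b_tie` gives that the properties of `a (b1)`, `b (b1)`, `a (b2)`, `b (b2)` agree, with that of `a (sd i)`. So
`ob (a (b2)) = ob (b (b2))`, and `c i = yT` iff `St (a (sd i))`; `s_cnt`. `comp`: the auxiliary variables have the values
`(x₀, c i)`; `s_cp`, `b_cp` (`0 < Nv (c i)`).
`ofs_ring`: one piece with one slot `rd y`, no auxiliary variables.
-/

namespace Pool.Agent.H24.GH

open Pool.Agent.H24.GG

variable {V D T K : Type} {L : LS V D T K}

/-- a kit with a star and ties for a property of the values -/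
structure TiesS (k : Kt L) (τ ζ : T) (m r : ℕ) (x₀ : V) (Nv : V → ℕ) (zt : V → V)
    (A : V → Prop) (St Sz Gt Gz : V × V → Prop) where
  sd : Fin m → D × k.Q
  s_inj : Function.Injective sd
  s_ty : ∀ i, L.ty (sd i).1 = τ
  s_nrev : ∀ i j, sd i ≠ k.net.rv (sd j)
  s_sp : ∀ i f e, EL k.net {sd i} f e →
    (St (evt k.net f e (sd i)) ↔ St (evh k.net f e (sd i))) ∧ Gt (evt k.net f e (sd i)) ∧
      Gt (evh k.net f e (sd i))
  s_cnt : ∀ f e, EL k.net (Set.range sd) f e → {i | St (evt k.net f e (sd i))}.ncard = r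
  s_cp : ∀ y : Fin m → V, (∀ z, {i | y i = z}.ncard = Nv z) → ∃ f e, EL k.net ∅ f e ∧
    ∀ i, evt k.net f e (sd i) = (x₀, y i)
  b1 : D × k.Q
  b2 : D × k.Q
  b_ty1 : L.ty b1.1 = τ
  b_ty2 : L.ty b2.1 = ζ
  b_ne : b1 ≠ b2
  b_nrev : b1 ≠ k.net.rv b2
  b_sp1 : ∀ f e, EL k.net {b1} f e → (St (evt k.net f e b1) ↔ St (evh k.net f e b1)) ∧
    Gt (evt k.net f e b1) ∧ Gt (evh k.net f e b1)
  b_sp2 : ∀ f e, EL k.net {b2} f e → (Sz (evt k.net f e b2) ↔ Sz (evh k.net f e b2)) ∧
    Gz (evt k.net f e b2) ∧ Gz (evh k.net f e b2)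
  b_tie : ∀ f e, EL k.net {b1, b2} f e → Gt (evt k.net f e b1) → Gt (evh k.net f e b1) →
    Gz (evt k.net f e b2) → Gz (evh k.net f e b2) →
    (St (evt k.net f e b1) ↔ St (evh k.net f e b1)) ∧
      (Sz (evt k.net f e b2) ↔ St (evt k.net f e b1)) ∧
      (Sz (evh k.net f e b2) ↔ St (evh k.net f e b1))
  b_cp : ∀ y, 0 < Nv y → ∃ f e, EL k.net ∅ f e ∧ evt k.net f e b1 = (x₀, y) ∧
    evt k.net f e b2 = (zt y, y)
  rd : V → D × k.Q
  r_ty : ∀ y, A y → 0 < Nv y → L.ty (rd y).1 = ζ
  r_sp : ∀ y, A y → 0 < Nv y → ∀ f e, EL k.net {rd y} f e →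
    (Sz (evt k.net f e (rd y)) ∧ Sz (evh k.net f e (rd y))) ∧ Gz (evt k.net f e (rd y)) ∧
      Gz (evh k.net f e (rd y))
  r_cp : ∀ y, A y → 0 < Nv y → ∃ f e, EL k.net ∅ f e ∧ evt k.net f e (rd y) = (zt y, y)

open Classical in
/-- the sort of the variables -/
noncomputable def zS (ζ : T) (zt : V → V) (Sz Gz : V × V → Prop) (yT yF : V) : Srt V T V where
  t := ζ
  sp α β := (Sz α ↔ Sz β) ∧ Gz α ∧ Gz β
  ob α := if Sz α then yT else yF
  fv y := (zt y, y)
  hob := by
    rintro α β ⟨h, -⟩
    simp only [h]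

variable {k : Kt L} {τ ζ : T} {m r : ℕ} {x₀ : V} {Nv : V → ℕ} {zt : V → V} {A : V → Prop}
  {St Sz Gt Gz : V × V → Prop}

/-- the system for `ofs_star` -/
def sstarR (t : TiesS k τ ζ m r x₀ Nv zt A St Sz Gt Gz) :
    OSys k (Fin m) (Fin m) (Fin m ⊕ Fin m ⊕ Fin m) (Option (Fin m)) where
  pc := Sum.elim (fun _ => none) (Sum.elim some some)
  dt := Sum.elim t.sd (Sum.elim (fun _ => t.b1) (fun _ => t.b2))
  sy := Sum.elim Sum.inr (Sum.elim Sum.inr Sum.inl)

theorem ofs_star (t : TiesS k τ ζ m r x₀ Nv zt A St Sz Gt Gz) {yT yF : V} (hTF : yT ≠ yF) :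
    OF k (fun _ : Fin m => zS ζ zt Sz Gz yT yF) (fun c => {i | c i = yT}.ncard = r)
      (fun c => ∀ z, {i | c i = z}.ncard = Nv z) := by
  classical
  refine ⟨Fin m, Option (Fin m), Fin m ⊕ Fin m ⊕ Fin m, inferInstance, inferInstance,
    inferInstance, fun _ => τ, fun _ α β => (St α ↔ St β) ∧ Gt α ∧ Gt β, sstarR t,
    ?_, ?_, ?_, ?_, ?_, ?_⟩
  · rintro (i | i | i) (j | j | j) h1 h2
    · exact congrArg Sum.inl (t.s_inj h2)
    · exact absurd h1 (by simp [sstarR])
    · exact absurd h1 (by simp [sstarR])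
    · exact absurd h1 (by simp [sstarR])
    · have h3 : i = j := Option.some.inj h1
      rw [h3]
    · exact absurd h2 t.b_ne
    · exact absurd h1 (by simp [sstarR])
    · exact absurd h2 t.b_ne.symm
    · have h3 : i = j := Option.some.inj h1
      rw [h3]
  · rintro (i | i | i) (j | j | j) h1
    · exact t.s_nrev i j
    · exact absurd h1 (by simp [sstarR])
    · exact absurd h1 (by simp [sstarR])
    · exact absurd h1 (by simp [sstarR])
    · exact (k.net.rv_ne t.b1).symm
    · exact t.b_nrev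
    · exact absurd h1 (by simp [sstarR])
    · exact otie_nrev t.b_nrev
    · exact (k.net.rv_ne t.b2).symm
  · rintro (i | i | i)
    · exact t.s_ty i
    · exact t.b_ty1
    · exact t.b_ty2
  · rintro (i | i | i) f e h
    · exact t.s_sp i f e h
    · exact t.b_sp1 f e h
    · exact t.b_sp2 f e h
  · intro a b hub hcyc hpc
    have hc : ∀ i : Fin m, ((St (b (Sum.inr (Sum.inl i))) ↔ St (a (Sum.inl i))) ∧
          Gt (b (Sum.inr (Sum.inl i))) ∧ Gt (a (Sum.inl i))) ∧
        ((St (b (Sum.inl i)) ↔ St (a (Sum.inr (Sum.inl i)))) ∧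
          Gt (b (Sum.inl i)) ∧ Gt (a (Sum.inr (Sum.inl i)))) := by
      intro i
      refine otie_cyc hcyc (y := i) (s₁ := Sum.inl i) (s₂ := Sum.inr (Sum.inl i)) (by simp) rfl rfl ?_
      rintro (j | j | j) hj
      · left
        exact congrArg Sum.inl (Sum.inr.inj hj)
      · right
        exact congrArg (fun z => Sum.inr (Sum.inl z)) (Sum.inr.inj hj)
      · exact absurd hj (by simp [sstarR])
    have hb : ∀ i : Fin m, (Sz (a (Sum.inr (Sum.inr i))) ↔ Sz (b (Sum.inr (Sum.inr i)))) ∧
        (Sz (a (Sum.inr (Sum.inr i))) ↔ St (a (Sum.inl i))) := by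
      intro i
      obtain ⟨f, e, he, hs⟩ := hpc (some i)
      have hset : {δ | ∃ s, (sstarR t).pc s = some i ∧ (sstarR t).dt s = δ} = {t.b1, t.b2} := by
        ext δ
        constructor
        · rintro ⟨(j | j | j), g1, rfl⟩
          · exact absurd g1 (by simp [sstarR])
          · left; rfl
          · right; rfl
        · rintro (rfl | rfl)
          · exact ⟨Sum.inr (Sum.inl i), rfl, rfl⟩
          · exact ⟨Sum.inr (Sum.inr i), rfl, rfl⟩
      rw [hset] at he
      obtain ⟨q1, q2⟩ := hs (Sum.inr (Sum.inl i)) rfl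
      obtain ⟨q3, q4⟩ := hs (Sum.inr (Sum.inr i)) rfl
      have q1' : evt k.net f e t.b1 = a (Sum.inr (Sum.inl i)) := q1
      have q2' : evh k.net f e t.b1 = b (Sum.inr (Sum.inl i)) := q2
      have q3' : evt k.net f e t.b2 = a (Sum.inr (Sum.inr i)) := q3
      have q4' : evh k.net f e t.b2 = b (Sum.inr (Sum.inr i)) := q4
      obtain ⟨⟨c1, c2, c3⟩, c4, c5, c6⟩ := hc i
      obtain ⟨⟨α, r1, r2, r3⟩, ⟨β, r4, r5, r6⟩⟩ := hub (Sum.inr (Sum.inr i)) i rfl
      have key := t.b_tie f e he
      rw [q1', q2', q3', q4'] at key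
      obtain ⟨p1, p2, p3⟩ := key c6 c2 r3 r5
      exact ⟨p2.trans (p1.trans p3.symm), p2.trans (p1.trans c1)⟩
    refine ⟨?_, ?_⟩
    · rintro (i | i | i) x hx
      · exact absurd hx (by simp [sstarR])
      · exact absurd hx (by simp [sstarR])
      · show (if Sz (a (Sum.inr (Sum.inr i))) then yT else yF) =
          if Sz (b (Sum.inr (Sum.inr i))) then yT else yF
        simp only [(hb i).1]
    · intro c hcc
      obtain ⟨f, e, he, hs⟩ := hpc none
      have hset : {δ | ∃ s, (sstarR t).pc s = none ∧ (sstarR t).dt s = δ} = Set.range t.sd := by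
        ext δ
        constructor
        · rintro ⟨(j | j | j), g1, rfl⟩
          · exact ⟨j, rfl⟩
          · exact absurd g1 (by simp [sstarR])
          · exact absurd g1 (by simp [sstarR])
        · rintro ⟨j, rfl⟩
          exact ⟨Sum.inl j, rfl, rfl⟩
      rw [hset] at he
      rw [← t.s_cnt f e he]
      refine congrArg Set.ncard ?_
      ext i
      have g1 : (if Sz (a (Sum.inr (Sum.inr i))) then yT else yF) = c i :=
        hcc (Sum.inr (Sum.inr i)) i rfl
      have g2 : evt k.net f e (t.sd i) = a (Sum.inl i) := (hs (Sum.inl i) rfl).1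
      show c i = yT ↔ St (evt k.net f e (t.sd i))
      rw [g2, ← (hb i).2, ← g1]
      by_cases hz : Sz (a (Sum.inr (Sum.inr i)))
      · simp [hz]
      · simp [hz, hTF.symm]
  · intro c hc
    refine ⟨fun i => (x₀, c i), ?_⟩
    rintro (_ | i)
    · obtain ⟨f, e, he, hs⟩ := t.s_cp c hc
      refine ⟨f, e, he, ?_⟩
      rintro (j | j | j) hj
      · exact hs j
      · exact absurd hj (by simp [sstarR])
      · exact absurd hj (by simp [sstarR])
    · have hpos : 0 < Nv (c i) := by
        rw [← hc (c i)]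
        exact (Set.ncard_pos (Set.toFinite _)).2 ⟨i, rfl⟩
      obtain ⟨f, e, he, h1, h2⟩ := t.b_cp (c i) hpos
      refine ⟨f, e, he, ?_⟩
      rintro (j | j | j) hj
      · exact absurd hj (by simp [sstarR])
      · have h3 : j = i := Option.some.inj hj
        rw [h3]
        exact h1
      · have h3 : j = i := Option.some.inj hj
        rw [h3]
        exact h2

theorem ofs_ring (t : TiesS k τ ζ m r x₀ Nv zt A St Sz Gt Gz) {yT yF : V} {y : V} (hy : A y)
    (hN : 0 < Nv y) : OF k (fun _ : Unit => zS ζ zt Sz Gz yT yF) (fun c => c () = yT)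
      (fun c => c () = y) := by
  classical
  refine ⟨Empty, Unit, Unit, inferInstance, inferInstance, inferInstance, fun z => z.elim,
    fun z => z.elim, ⟨fun _ => (), fun _ => t.rd y, fun _ => Sum.inl ()⟩, ?_, ?_, ?_, ?_, ?_, ?_⟩
  · intro s s' _ _
    rfl
  · intro s s' _
    exact (k.net.rv_ne (t.rd y)).symm
  · intro s
    exact t.r_ty y hy hN
  · intro s f e h
    obtain ⟨⟨h1, h2⟩, h3⟩ := t.r_sp y hy hN f e h
    exact ⟨⟨fun _ => h2, fun _ => h1⟩, h3⟩
  · intro a b hub hcyc hpc
    obtain ⟨f, e, he, hs⟩ := hpc ()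
    have hset : {δ | ∃ s : Unit, () = () ∧ t.rd y = δ} = {t.rd y} := by
      ext δ
      constructor
      · rintro ⟨-, -, h⟩
        exact h.symm
      · intro h
        exact ⟨(), rfl, h.symm⟩
    have he' : EL k.net {δ | ∃ s : Unit, () = () ∧ t.rd y = δ} f e := he
    rw [hset] at he'
    obtain ⟨⟨h1, h2⟩, -⟩ := t.r_sp y hy hN f e he'
    obtain ⟨q1, q2⟩ := hs () rfl
    have q1' : evt k.net f e (t.rd y) = a () := q1
    have q2' : evh k.net f e (t.rd y) = b () := q2
    rw [q1'] at h1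
    rw [q2'] at h2
    refine ⟨?_, ?_⟩
    · rintro ⟨⟩ ⟨⟩ -
      show (if Sz (a ()) then yT else yF) = if Sz (b ()) then yT else yF
      rw [if_pos h1, if_pos h2]
    · intro c hcc
      have g1 : (if Sz (a ()) then yT else yF) = c () := hcc () () rfl
      rw [if_pos h1] at g1
      exact g1.symm
  · intro c hc
    refine ⟨fun z => z.elim, fun p => ?_⟩
    obtain ⟨f, e, he, h1⟩ := t.r_cp y hy hN
    refine ⟨f, e, he, fun s _ => ?_⟩
    show evt k.net f e (t.rd y) = (zt (c ()), c ())
    have hc' : c () = y := hc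
    rw [hc']
    exact h1

end Pool.Agent.H24.GH
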