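import Pool.Agent.H24.GI.Choice

/-!
# JOB GI-23: label structures with sides

`SideF L s`: the darts whose type is its own reverse, and only these, change the side `s`. `sdLS`: the label structure with the
same vertices and darts, where the classes and types are refined by the side.

`sd_ex`: if `cl x = sc t`, `s x = b` let `d` be a dart of type `t` at `x`; take `hd d`. The fields of `sdLS`: `bar_bar`: `bar (bar t) = t`,
and `bar (bar t) = bar t` iff `bar t = t`. `num_eq`: at `x` with `s x = b` the darts of type `(t, b)` are those of type `t`.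
`sd_nopal`: if `bar t = t` the side changes. `sd_nolive`: an infinite walk `p i` of types of `sdLS` gives the walk `(p i).1.1`: if
`(p (i + 1)).1.1 = bar (p i).1.1` then, as the sources agree, the sides agree, so `p (i + 1) = bar (p i)`, contradiction.
`sd_mtd`: let `t` be not matched in `L`, so there are darts `d, d'` of type `t` (or `bar t`) with the same tail and different heads;
take the side of the tail.
`sd_loop`: `tl d = hd d` gives `s (tl d) = s (hd d)`, so `bar (ty d) ≠ ty d`, and `sc (ty d) = sc (bar (ty d))`: the walk `ty d, ty d, ...`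
shows that `ty d` is live.
`sd_back`. `Dt (sdLS) p x y` iff `Dt L p.1.1 x y` and `s x = p.1.2`; `M (sdLS) p x y = M L p.1.1 x y` if `s x = p.1.2`; `supp` the same;
`bd`, `Cut` are the same (the tails and heads are the same). Let `τ = (t, b)`, `ζ = (z, b')` be types of `sdLS` with
`sc (bar ζ) = sc (bar τ)`, so `b` changed by `t` is `b'` changed by `z`. If `x` is in the class of `τ`, `Dt L t x y`, `Dt L z w y` then the
side of `y` is `b` changed by `t`, so the side of `w` is `b'`: `Dt (sdLS) ζ w y`. So `GoodC`, `PStar` for `sdLS` give them for `L`. If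
`z = t` then `b = b'`, `ζ = τ`.
-/

namespace Pool.Agent.H24.GI

open Pool.Agent.H24.GG Pool.Agent.H24.GH

variable {V D T K : Type} {L : LS V D T K}

open Classical in
/-- the side of the head -/
noncomputable def fl (L : LS V D T K) (t : T) (b : Bool) : Bool := if L.bar t = t then !b else b

/-- the darts whose type is its own reverse change the side -/
def SideF (L : LS V D T K) (s : V → Bool) : Prop := ∀ d, s (L.hd d) = fl L (L.ty d) (s (L.tl d))

theorem fl_bar (L : LS V D T K) (t : T) (b : Bool) : fl L (L.bar t) b = fl L t b := by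
  unfold fl
  by_cases h : L.bar t = t
  · have h' : L.bar (L.bar t) = L.bar t := by rw [h]; exact h
    rw [if_pos h, if_pos h']
  · have h' : ¬ L.bar (L.bar t) = L.bar t := by
      rw [L.bar_bar]
      exact fun h'' => h h''.symm
    rw [if_neg h, if_neg h']

theorem fl_fl (L : LS V D T K) (t : T) (b : Bool) : fl L t (fl L t b) = b := by
  unfold fl
  by_cases h : L.bar t = t
  · rw [if_pos h, if_pos h, Bool.not_not]
  · rw [if_neg h, if_neg h]

private theorem side_fl_inj {L : LS V D T K} {t : T} {b b' : Bool} (h : fl L t b = fl L t b') :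
    b = b' := by
  rw [← fl_fl L t b, h, fl_fl]

private theorem side_dt {s : V → Bool} (hs : SideF L s) {t : T} {x y : V} (h : Dt L t x y) :
    s y = fl L t (s x) := by
  obtain ⟨d, h1, h2, h3⟩ := h
  rw [← h1, ← h2, ← h3]
  exact hs d

theorem sd_ex {s : V → Bool} (hs : SideF L s) {p : T × Bool}
    (h : ∃ x, L.cl x = L.sc p.1 ∧ s x = p.2) :
    ∃ x, L.cl x = L.sc (L.bar p.1) ∧ s x = fl L p.1 p.2 := by
  obtain ⟨x, h1, h2⟩ := h
  obtain ⟨y, hy⟩ := dt_exists h1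
  refine ⟨y, (dt_cl hy).2, ?_⟩
  rw [side_dt hs hy, h2]

/-- the label structure with sides -/
noncomputable def sdLS (L : LS V D T K) {s : V → Bool} (hs : SideF L s) :
    LS V D {p : T × Bool // ∃ x, L.cl x = L.sc p.1 ∧ s x = p.2} (K × Bool) where
  tl := L.tl
  rv := L.rv
  ty d := ⟨(L.ty d, s (L.tl d)), L.tl d, L.cl_tl d, rfl⟩
  bar p := ⟨(L.bar p.1.1, fl L p.1.1 p.1.2), sd_ex hs p.2⟩
  cl x := (L.cl x, s x)
  sc p := (L.sc p.1.1, p.1.2)
  num p := L.num p.1.1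
  rv_rv := L.rv_rv
  rv_ne := L.rv_ne
  ty_rv d := Subtype.ext (Prod.ext (L.ty_rv d) (hs d))
  bar_bar p := Subtype.ext (Prod.ext (L.bar_bar p.1.1) (by
    show fl L (L.bar p.1.1) (fl L p.1.1 p.1.2) = p.1.2
    rw [fl_bar, fl_fl]))
  cl_tl d := Prod.ext (L.cl_tl d) rfl
  num_eq := by
    rintro x ⟨⟨t, b⟩, hp⟩ h
    rw [Prod.mk.injEq] at h
    rw [← L.num_eq x t h.1]
    congr 1
    ext d
    constructor
    · rintro ⟨h1, h2⟩
      exact ⟨h1, congrArg (fun p => p.1.1) h2⟩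
    · rintro ⟨h1, h2⟩
      refine ⟨h1, Subtype.ext (Prod.ext h2 ?_)⟩
      show s (L.tl d) = b
      rw [h1]
      exact h.2
  num_pos p := L.num_pos p.1.1
  cls p := by
    obtain ⟨x, h1, h2⟩ := p.2
    exact ⟨x, Prod.ext h1 h2⟩

variable {s : V → Bool}

theorem sd_nopal (hs : SideF L s) : NoPal (sdLS L hs) := by
  rintro ⟨⟨t, b⟩, hp⟩ h
  have h1 : (L.bar t, fl L t b) = (t, b) := congrArg Subtype.val h
  rw [Prod.mk.injEq] at h1
  obtain ⟨h2, h3⟩ := h1
  unfold fl at h3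
  rw [if_pos h2] at h3
  cases b <;> simp at h3

theorem sd_nolive (hs : SideF L s) (hn : NoLive L) : NoLive (sdLS L hs) := by
  rintro p ⟨w, -, hw⟩
  refine hn (w 0).1.1 ⟨fun i => (w i).1.1, rfl, fun i => ?_⟩
  obtain ⟨h1, h2⟩ := hw i
  have h1' : (L.sc (w (i + 1)).1.1, (w (i + 1)).1.2) =
      (L.sc (L.bar (w i).1.1), fl L (w i).1.1 (w i).1.2) := h1
  rw [Prod.mk.injEq] at h1'
  refine ⟨h1'.1, fun h3 => h2 ?_⟩
  exact Subtype.ext (Prod.ext h3 h1'.2)

theorem sd_mtd (hs : SideF L s) (hr : ∀ t, Mtd L t → L.num t = 1)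
    (h : ∃ t, 3 ≤ (sdLS L hs).num t ∧ 3 ≤ (sdLS L hs).num ((sdLS L hs).bar t)) :
    ∃ t, 3 ≤ (sdLS L hs).num t ∧ 3 ≤ (sdLS L hs).num ((sdLS L hs).bar t) ∧
      ¬ Mtd (sdLS L hs) t := by
  obtain ⟨⟨⟨t, b⟩, hp⟩, h1, h2⟩ := h
  have h1' : 3 ≤ L.num t := h1
  have h2' : 3 ≤ L.num (L.bar t) := h2
  have hm : ¬ Mtd L t := by
    intro hm
    have := hr t hm
    omega
  have key : ∀ u, 3 ≤ L.num u → 3 ≤ L.num (L.bar u) →
      (∃ d d', L.ty d = u ∧ L.ty d' = u ∧ L.tl d = L.tl d' ∧ L.hd d ≠ L.hd d') →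
      ∃ t, 3 ≤ (sdLS L hs).num t ∧ 3 ≤ (sdLS L hs).num ((sdLS L hs).bar t) ∧
        ¬ Mtd (sdLS L hs) t := by
    rintro u hu1 hu2 ⟨d, d', hd, hd', htl, hhd⟩
    refine ⟨(sdLS L hs).ty d, ?_, ?_, ?_⟩
    · show 3 ≤ L.num (L.ty d)
      rw [hd]
      exact hu1
    · show 3 ≤ L.num (L.bar (L.ty d))
      rw [hd]
      exact hu2
    · intro hm'
      apply hhd
      refine hm'.1 d d' rfl (Subtype.ext (Prod.ext ?_ ?_)) htl
      · show L.ty d' = L.ty d
        rw [hd, hd']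
      · show s (L.tl d') = s (L.tl d)
        rw [htl]
  by_cases hc : ∃ d d', L.ty d = t ∧ L.ty d' = t ∧ L.tl d = L.tl d' ∧ L.hd d ≠ L.hd d'
  · exact key t h1' h2' hc
  · by_cases hc' : ∃ d d', L.ty d = L.bar t ∧ L.ty d' = L.bar t ∧ L.tl d = L.tl d' ∧
        L.hd d ≠ L.hd d'
    · exact key (L.bar t) h2' (by rw [L.bar_bar]; exact h1') hc'
    · exfalso
      apply hm
      refine ⟨fun d d' h3 h4 h5 => ?_, fun d d' h3 h4 h5 => ?_⟩
      · by_contra h6
        exact hc ⟨d, d', h3, h4, h5, h6⟩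
      · by_contra h6
        exact hc' ⟨d, d', h3, h4, h5, h6⟩

theorem sd_conn (hs : SideF L s) (hc : LConn L) : LConn (sdLS L hs) := hc

theorem sd_loop (hs : SideF L s) (hn : NoLive L) (d : D) : L.tl d ≠ L.hd d := by
  intro h
  have h1 : s (L.tl d) = fl L (L.ty d) (s (L.tl d)) := by
    have := hs d
    rwa [← h] at this
  have h2 : ¬ L.bar (L.ty d) = L.ty d := by
    intro h2
    unfold fl at h1
    rw [if_pos h2] at h1
    cases hb : s (L.tl d) <;> simp [hb] at h1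
  have hdt : Dt L (L.ty d) (L.tl d) (L.hd d) := ⟨d, rfl, rfl, rfl⟩
  have h3 := (dt_cl hdt).1
  have h4 := (dt_cl hdt).2
  rw [← h] at h4
  exact hn (L.ty d) ⟨fun _ => L.ty d, rfl, fun _ => ⟨h3.symm.trans h4, fun h5 => h2 h5.symm⟩⟩

private theorem side_dt_iff (hs : SideF L s)
    (p : {p : T × Bool // ∃ x, L.cl x = L.sc p.1 ∧ s x = p.2}) (x y : V) :
    Dt (sdLS L hs) p x y ↔ Dt L p.1.1 x y ∧ s x = p.1.2 := by
  constructor
  · rintro ⟨d, h1, h2, rfl⟩
    refine ⟨⟨d, h1, h2, rfl⟩, ?_⟩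
    rw [← h1]
    rfl
  · rintro ⟨⟨d, h1, h2, h3⟩, h4⟩
    refine ⟨d, h1, h2, Subtype.ext (Prod.ext h3 ?_)⟩
    show s (L.tl d) = p.1.2
    rw [h1, h4]

private theorem side_M (hs : SideF L s)
    (p : {p : T × Bool // ∃ x, L.cl x = L.sc p.1 ∧ s x = p.2}) {x : V} (hx : s x = p.1.2) (y : V) :
    (sdLS L hs).M p x y = L.M p.1.1 x y := by
  unfold LS.M
  congr 1
  ext d
  constructor
  · rintro ⟨h1, h2, h3⟩
    exact ⟨h1, congrArg (fun q => q.1.1) h2, h3⟩
  · rintro ⟨h1, h2, h3⟩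
    have h1' : L.tl d = x := h1
    refine ⟨h1, Subtype.ext (Prod.ext h2 ?_), h3⟩
    show s (L.tl d) = p.1.2
    rw [h1', hx]

private theorem side_supp (hs : SideF L s)
    (p : {p : T × Bool // ∃ x, L.cl x = L.sc p.1 ∧ s x = p.2}) {x : V} (hx : s x = p.1.2) :
    supp (sdLS L hs) p x = supp L p.1.1 x := by
  unfold supp
  congr 1
  ext y
  exact ⟨fun h => ((side_dt_iff hs p x y).1 h).1, fun h => (side_dt_iff hs p x y).2 ⟨h, hx⟩⟩

/-- the darts of the second type -/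
private theorem side_zeta (hs : SideF L s)
    {p q : {p : T × Bool // ∃ x, L.cl x = L.sc p.1 ∧ s x = p.2}}
    (hpq : (sdLS L hs).sc ((sdLS L hs).bar q) = (sdLS L hs).sc ((sdLS L hs).bar p)) {x y z : V}
    (hx : Dt (sdLS L hs) p x y) (hz : Dt L q.1.1 z y) : Dt (sdLS L hs) q z y := by
  rw [side_dt_iff] at hx ⊢
  refine ⟨hz, ?_⟩
  have h1 : (L.sc (L.bar q.1.1), fl L q.1.1 q.1.2) = (L.sc (L.bar p.1.1), fl L p.1.1 p.1.2) := hpq
  rw [Prod.mk.injEq] at h1
  have h2 := side_dt hs hx.1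
  have h3 := side_dt hs hz
  rw [hx.2, ← h1.2, h3] at h2
  exact side_fl_inj h2

private theorem side_eq (hs : SideF L s)
    {p q : {p : T × Bool // ∃ x, L.cl x = L.sc p.1 ∧ s x = p.2}}
    (hpq : (sdLS L hs).sc ((sdLS L hs).bar q) = (sdLS L hs).sc ((sdLS L hs).bar p))
    (h : q.1.1 = p.1.1) : q = p := by
  have h1 : (L.sc (L.bar q.1.1), fl L q.1.1 q.1.2) = (L.sc (L.bar p.1.1), fl L p.1.1 p.1.2) := hpq
  rw [Prod.mk.injEq] at h1
  have h2 := h1.2
  rw [h] at h2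
  exact Subtype.ext (Prod.ext h (side_fl_inj h2))

private theorem side_sc (hs : SideF L s)
    {p q : {p : T × Bool // ∃ x, L.cl x = L.sc p.1 ∧ s x = p.2}}
    (hpq : (sdLS L hs).sc ((sdLS L hs).bar q) = (sdLS L hs).sc ((sdLS L hs).bar p)) :
    L.sc (L.bar q.1.1) = L.sc (L.bar p.1.1) := by
  have h1 : (L.sc (L.bar q.1.1), fl L q.1.1 q.1.2) = (L.sc (L.bar p.1.1), fl L p.1.1 p.1.2) := hpq
  rw [Prod.mk.injEq] at h1
  exact h1.1

theorem sd_back [Finite V] [Finite D] (hs : SideF L s)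
    (h : FGood (sdLS L hs) ∨ FPen (sdLS L hs) ∨ FLens (sdLS L hs)) :
    FGood L ∨ FPen L ∨ FLens L := by
  rcases h with ⟨τ, ζ, x, hg, h1, h2, h3⟩ | ⟨τ, y₀, x₁, x₂, h1, h2, h3, h4, h5⟩ |
    ⟨τ, ζ, x₀, h1, h2, h3, h4, d₁, d₂, d₃, d₄, h5, h6, h7, h8, h9, h10, h11, h12, h13⟩
  · left
    have hcl : (L.cl x, s x) = (L.sc τ.1.1, τ.1.2) := hg.cl
    rw [Prod.mk.injEq] at hcl
    have hdt : ∀ {y}, Dt L τ.1.1 x y → Dt (sdLS L hs) τ x y := fun hy =>
      (side_dt_iff hs τ x _).2 ⟨hy, hcl.2⟩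
    refine ⟨τ.1.1, ζ.1.1, x, ⟨hcl.1, ?_, fun y hy => hg.nb y (hdt hy), ?_, ?_, ?_⟩, h1,
      side_sc hs h2, fun h => h3 (side_eq hs h2 h)⟩
    · rw [← side_supp hs τ hcl.2]
      exact hg.s2
    · intro y z hy hz
      exact hg.nz y z (hdt hy) (side_zeta hs h2 (hdt hy) hz)
    · intro y y' hy
      refine hg.t1 y y' ⟨hdt hy.1, hdt hy.2.1, fun h => ?_⟩
      rw [side_M hs τ hcl.2]
      exact hy.2.2 h
    · intro y z hy hz h
      refine hg.t2 y z (hdt hy) (side_zeta hs h2 (hdt hy) hz) fun h' h'' => ?_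
      rw [side_M hs τ hcl.2]
      exact h (by rw [h']) h''
  · right
    left
    obtain ⟨h2a, h2b⟩ := (side_dt_iff hs τ y₀ x₁).1 h2
    obtain ⟨h4a, h4b⟩ := (side_dt_iff hs τ y₀ x₂).1 h4
    have e1 : s x₁ = ((sdLS L hs).bar τ).1.2 := by
      rw [side_dt hs h2a, h2b]
      rfl
    have e2 : s x₂ = ((sdLS L hs).bar τ).1.2 := by
      rw [side_dt hs h4a, h4b]
      rfl
    rw [side_supp hs _ e1] at h3
    rw [side_supp hs _ e2] at h5
    exact ⟨τ.1.1, y₀, x₁, x₂, h1, h2a, h3, h4a, h5⟩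
  · right
    right
    have hcl : (L.cl x₀, s x₀) = (L.sc τ.1.1, τ.1.2) := h4.cl
    rw [Prod.mk.injEq] at hcl
    have hdt : ∀ {y}, Dt L τ.1.1 x₀ y → Dt (sdLS L hs) τ x₀ y := fun hy =>
      (side_dt_iff hs τ x₀ _).2 ⟨hy, hcl.2⟩
    refine ⟨τ.1.1, ζ.1.1, x₀, side_sc hs h1, fun h => h2 (side_eq hs h1 h.symm).symm, h3,
      ⟨hcl.1, fun y hy => h4.nb y (hdt hy), ?_, ?_⟩, d₁, d₂, d₃, d₄, h5, ?_, h7, h8, h9, h10,
      h11, h12, h13⟩
    · intro y z hy hz
      exact h4.nz y z (hdt hy) (side_zeta hs h1 (hdt hy) hz)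
    · intro y z hy hz
      exact h4.eq y z (hdt hy) (side_zeta hs h1 (hdt hy) hz)
    · exact ⟨congrArg (fun q => q.1.1) h6.1, congrArg (fun q => q.1.1) h6.2.1,
        congrArg (fun q => q.1.1) h6.2.2.1, congrArg (fun q => q.1.1) h6.2.2.2⟩

end Pool.Agent.H24.GI
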