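import Pool.Agent.H24.GI.RingV
import Pool.Agent.H24.GI.Sw
import Pool.Agent.H24.GH.NTie

/-!
# JOB GI-12: disjoint unions of kits; pinned stars

`sigKt k`: the disjoint union of a family of kits. `sig_res`: the restriction of a labelling to one part. `sig_glue`: labellings
of the parts give a labelling.
`exists_pin`: `exists_ring` for `d₁` gives `k', q'`; `k₀, κ` from `exists_ukit`, `x₀ = tl d₁`, `k = swKt k₀ k' d₁ (κ x₀) q'`,
`q = inl (κ x₀)`. `sw_guard` for the set of the `(d, q)`, `d ∈ C` (`(d, κ x₀) ≠ rv (d₁, κ x₀)`: the tails are over `x₀ ≠ hd d₁`) and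
`P α = ∃ g, Aut L g ∧ α = (g x₀, g (hd d₁))`. Completeness: `UStar` for `k₀`, the projection on `k'` (`proj_el`), `sw_cov`.
-/

namespace Pool.Agent.H24.GI

open Pool.Agent.H24.GG Pool.Agent.H24.GH

variable {V D T K : Type} {L : LS V D T K}

/-- the disjoint union of a family of kits -/
def sigKt {ι : Type} [Finite ι] (k : ι → Kt L) : Kt L where
  Q := Σ i, (k i).Q
  fin := inferInstance
  R d := Equiv.sigmaCongrRight (fun i => (k i).R d)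
  R_rv d := by
    have h : (fun i => (k i).R (L.rv d)) = fun i => ((k i).R d).symm :=
      funext fun i => (k i).R_rv d
    show Equiv.sigmaCongrRight (fun i => (k i).R (L.rv d)) = _
    rw [h]
    rfl

private theorem sigK_star {ι : Type} [Finite ι] {k : ι → Kt L} {i : ι}
    (e : D × (Σ i, (k i).Q) → V) (x : V) (κ : (k i).Q) (t : T) (y : V) :
    {δ | (sigKt k).net.tl δ = (x, ⟨i, κ⟩) ∧ (sigKt k).net.ty δ = t ∧ e δ = y}.ncard =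
      {δ | (k i).net.tl δ = (x, κ) ∧ (k i).net.ty δ = t ∧ e (δ.1, ⟨i, δ.2⟩) = y}.ncard := by
  symm
  refine Set.ncard_congr (fun δ _ => ((δ.1, ⟨i, δ.2⟩) : D × (Σ i, (k i).Q))) ?_ ?_ ?_
  · rintro ⟨d, κ'⟩ ⟨h1, h2, h3⟩
    have h4 : (L.tl d, κ') = (x, κ) := h1
    refine ⟨?_, h2, h3⟩
    have h5 : L.tl d = x := congrArg Prod.fst h4
    have h6 : κ' = κ := congrArg Prod.snd h4
    show (L.tl d, (⟨i, κ'⟩ : Σ i, (k i).Q)) = (x, ⟨i, κ⟩)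
    rw [h5, h6]
  · rintro ⟨d, κ₁⟩ ⟨d', κ₂⟩ ⟨h1, -⟩ ⟨h2, -⟩ h3
    have h4 : d = d' := congrArg Prod.fst h3
    have h5 : κ₁ = κ := congrArg Prod.snd h1
    have h6 : κ₂ = κ := congrArg Prod.snd h2
    rw [h4, h5, h6]
  · rintro ⟨d, q⟩ ⟨h1, h2, h3⟩
    have h4 : (L.tl d, q) = (x, (⟨i, κ⟩ : Σ i, (k i).Q)) := h1
    have h5 : L.tl d = x := congrArg Prod.fst h4
    have h6 : q = ⟨i, κ⟩ := congrArg Prod.snd h4
    subst h6
    refine ⟨(d, κ), ⟨?_, h2, h3⟩, rfl⟩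
    show (L.tl d, κ) = (x, κ)
    rw [h5]

theorem sig_res {ι : Type} [Finite ι] {k : ι → Kt L} {C : Set (D × (Σ i, (k i).Q))}
    {f : V × (Σ i, (k i).Q) → V} {e : D × (Σ i, (k i).Q) → V} (h : EL (sigKt k).net C f e)
    (i : ι) : EL (k i).net {δ | (δ.1, ⟨i, δ.2⟩) ∈ C} (fun w => f (w.1, ⟨i, w.2⟩))
      (fun δ => e (δ.1, ⟨i, δ.2⟩)) := by
  refine ⟨fun w => h.cls (w.1, ⟨i, w.2⟩), ?_, ?_⟩
  · rintro ⟨x, κ⟩ t y
    exact (sigK_star e x κ t y).symm.trans (h.star (x, ⟨i, κ⟩) t y)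
  · rintro ⟨d, κ⟩ h1 h2
    exact h.unc (d, ⟨i, κ⟩) h1 h2

theorem sig_glue {ι : Type} [Finite ι] {k : ι → Kt L} {f : ∀ i, V × (k i).Q → V}
    {e : ∀ i, D × (k i).Q → V} (h : ∀ i, EL (k i).net ∅ (f i) (e i)) :
    EL (sigKt k).net ∅ (fun w => f w.2.1 (w.1, w.2.2)) (fun δ => e δ.2.1 (δ.1, δ.2.2)) := by
  refine ⟨?_, ?_, ?_⟩
  · rintro ⟨x, i, κ⟩
    exact (h i).cls (x, κ)
  · rintro ⟨x, i, κ⟩ t y
    exact (sigK_star (fun δ => e δ.2.1 (δ.1, δ.2.2)) x κ t y).trans ((h i).star (x, κ) t y)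
  · rintro ⟨d, i, κ⟩ _ _
    exact (h i).unc (d, κ) (Set.notMem_empty _) (Set.notMem_empty _)

theorem exists_pin [Finite V] [Finite D] [Finite T] (hc : LConn L) (hl : ∀ d, L.tl d ≠ L.hd d)
    {d₁ : D} (h2 : Cut L 2 (L.tl d₁) {L.hd d₁}) :
    ∃ (k : Kt L) (q : k.Q), (∀ C : Set D, (∀ d ∈ C, L.tl d = L.tl d₁ ∧ d ≠ d₁) →
      ∀ f e, EL k.net {δ | δ.1 ∈ C ∧ δ.2 = q} f e →
        ∃ g, Aut L g ∧ f (L.tl d₁, q) = g (L.tl d₁) ∧ e (d₁, q) = g (L.hd d₁)) ∧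
      ∀ y : D → V, (∀ t z, {d | L.tl d = L.tl d₁ ∧ L.ty d = t ∧ y d = z}.ncard =
        L.M t (L.tl d₁) z) → y d₁ = L.hd d₁ →
        ∃ f e, EL k.net ∅ f e ∧ f (L.tl d₁, q) = L.tl d₁ ∧
          ∀ d, L.tl d = L.tl d₁ → e (d, q) = y d := by
  obtain ⟨k', q', hr⟩ := exists_ring hc hl h2
  obtain ⟨k₀, sd, κ, -, -, hu⟩ := exists_ukit L
  refine ⟨swKt k₀ k' d₁ (κ (L.tl d₁)) q', Sum.inl (κ (L.tl d₁)), ?_, ?_⟩
  · intro C hC f e h
    have h3 := sw_guard h ?_ (P := fun α => ∃ g, Aut L g ∧ α = (g (L.tl d₁), g (L.hd d₁))) hr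
    · obtain ⟨g, h4, h5⟩ := h3.2
      exact ⟨g, h4, congrArg Prod.fst h5, congrArg Prod.snd h5⟩
    · rintro ⟨d, q⟩ ⟨h4, h5⟩
      have h4' : d ∈ C := h4
      have h5' : q = Sum.inl (κ (L.tl d₁)) := h5
      subst h5'
      refine ⟨(d, κ (L.tl d₁)), rfl, ?_, ?_⟩
      · intro h6
        exact (hC d h4').2 (congrArg Prod.fst h6)
      · intro h6
        have h7 : d = L.rv d₁ := congrArg Prod.fst h6
        have h8 := (hC d h4').1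
        rw [h7] at h8
        exact hl d₁ h8.symm
  · intro y hy hy1
    obtain ⟨f₁, e₁, h3, h4, h5⟩ := ukit_star (hu (L.tl d₁)) (L.tl d₁) y rfl hy
    have h6 : evt k₀.net f₁ e₁ (d₁, κ (L.tl d₁)) =
        evt k'.net (fun w => w.1) (fun δ => L.hd δ.1) (d₁, q') := by
      show (f₁ (L.tl d₁, κ (L.tl d₁)), e₁ (d₁, κ (L.tl d₁))) = (L.tl d₁, L.hd d₁)
      rw [h4, h5 d₁ rfl, hy1]
    refine ⟨_, _, sw_cov h3 (proj_el k') h6, ?_, ?_⟩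
    · exact h4
    · intro d hd
      exact h5 d hd

end Pool.Agent.H24.GI
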